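import Pool.Agent.H11.SLP.Tors

/-!
General points of the curve `f = 0` avoid finitely many lines (helper48).
-/

set_option autoImplicit false

open MvPolynomial

namespace Pool.Agent.H11.SLP

open Pool.Agent.H4.Apolar

variable {K : Type*} [Field K]

lemma not_dvd_lin {f : MvPolynomial (Fin 3) K} {a : ℕ} (hf0 : f ≠ 0) (hfh : f.IsHomogeneous a)
    (ha : 2 ≤ a) {p : Fin 3 → K} (hp : p ≠ 0) : ¬ f ∣ lin p := by
  rintro ⟨q, hq⟩
  have hl := lin_ne_zero hp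
  have hq0 : q ≠ 0 := by
    rintro rfl
    exact hl (by rw [hq, mul_zero])
  have h1 := totalDegree_mul_of_isDomain hf0 hq0
  rw [← hq, (lin_isHomogeneous p).totalDegree hl, hfh.totalDegree hf0] at h1
  omega

/-- If `π` divides the linear forms `lin p` and `lin x`, every vector orthogonal to `p` is
orthogonal to `x`. -/
lemma orth_of_dvd {π : MvPolynomial (Fin 3) K} (hπ : Prime π) {p x a : Fin 3 → K} (hp : p ≠ 0)
    (hx : x ≠ 0) (h1 : π ∣ lin p) (h2 : π ∣ lin x) (ha : eval p (lin a) = 0) :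
    eval x (lin a) = 0 := by
  have e1 : Associated π (lin p) := (hπ.dvd_prime_iff_associated (prime_lin hp)).1 h1
  have e2 : Associated π (lin x) := (hπ.dvd_prime_iff_associated (prime_lin hx)).1 h2
  have e3 : lin p ∣ lin x := (e1.symm.trans e2).dvd
  obtain ⟨q, hq⟩ := e3
  rw [eval_lin_comm] at ha ⊢
  rw [hq, map_mul, ha, zero_mul]

lemma exists_orth (p : Fin 3 → K) : ∃ a : Fin 3 → K, a ≠ 0 ∧ eval p (lin a) = 0 := by
  by_cases h : p 0 = 0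
  · refine ⟨![1, 0, 0], ?_, ?_⟩
    · intro h0
      have := congrFun h0 0
      simp at this
    · rw [eval_lin, Fin.sum_univ_three]
      simp [h]
  · refine ⟨![p 1, -p 0, 0], ?_, ?_⟩
    · intro h0
      have := congrFun h0 1
      simp at this
      exact h this
    · rw [eval_lin, Fin.sum_univ_three]
      simp
      ring

theorem exists_avoid_one [IsAlgClosed K] {f κ π : MvPolynomial (Fin 3) K} (hf : Prime f)
    {a d : ℕ} (hfh : f.IsHomogeneous a) (ha : 2 ≤ a) (hκ : κ.IsHomogeneous d) (hκ0 : κ ≠ 0)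
    {ν : Fin 3 → MvPolynomial (Fin 3) K} {e : ℕ} (hν : ∀ k, (ν k).IsHomogeneous e) (hν0 : ν ≠ 0)
    (hπ : Prime π) (hπκ : π ∣ κ) :
    ∃ F : MvPolynomial (Fin 3) K, ¬ f ∣ F ∧ ∀ x : Fin 3 → K, x ≠ 0 → eval x F ≠ 0 →
      ¬ π ∣ lin x ∧
        ∃ (m r : ℕ) (κ₁ : MvPolynomial (Fin 3) K) (ν₁ : Fin 3 → MvPolynomial (Fin 3) K),
          1 ≤ m ∧ κ = π ^ m * κ₁ ∧ ¬ π ∣ κ₁ ∧ (∀ k, ν k = π ^ r * ν₁ k) ∧ (∃ k, ¬ π ∣ ν₁ k) ∧
          ∀ l : Fin 3 → K, l ≠ 0 → eval l (lin x) = 0 → eval l π = 0 →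
            (eval l κ₁ = 0 ∨ ∀ k, eval l (ν₁ k) = 0) → False := by
  classical
  obtain ⟨eπ, hπh⟩ := isHomogeneous_of_dvd hκ hκ0 hπκ
  obtain ⟨κ₁, hm, hκ₁⟩ :=
    (FiniteMultiplicity.of_prime_left hπ hκ0).exists_eq_pow_mul_and_not_dvd
  set m := multiplicity π κ with hm_def
  have hm1 : 1 ≤ m := by
    rcases Nat.eq_zero_or_pos m with h0 | h0
    · exfalso
      apply hκ₁
      rw [h0, pow_zero, one_mul] at hm
      rw [← hm]
      exact hπκ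
    · exact h0
  obtain ⟨r, ν₁, hν₁, k₀, hk₀⟩ := exists_vec_pow hπ hν0
  have hκ₁0 : κ₁ ≠ 0 := by
    rintro rfl
    exact hκ₁ (dvd_zero _)
  have hν₁0 : ν₁ k₀ ≠ 0 := by
    intro h
    exact hk₀ (by rw [h]; exact dvd_zero _)
  obtain ⟨d₁, hd₁⟩ := isHomogeneous_of_dvd hκ hκ0 (q := κ₁) ⟨π ^ m, by rw [hm]; ring⟩
  obtain ⟨e₁, he₁⟩ := isHomogeneous_of_dvd (hν k₀)
    (by rw [hν₁ k₀]; exact mul_ne_zero (pow_ne_zero _ hπ.ne_zero) hν₁0) (q := ν₁ k₀)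
    ⟨π ^ r, by rw [hν₁ k₀]; ring⟩
  obtain ⟨Z, hZ0, hZ⟩ := finite_common_zeros hπ hπh (hd₁.mul he₁)
    (fun h => (hπ.dvd_or_dvd h).elim hκ₁ hk₀)
  -- the extra factor
  obtain ⟨F', hF', hF'2⟩ : ∃ F' : MvPolynomial (Fin 3) K, ¬ f ∣ F' ∧ ∀ x : Fin 3 → K, x ≠ 0 →
      eval x F' ≠ 0 → ¬ π ∣ lin x := by
    by_cases hp : ∃ p : Fin 3 → K, p ≠ 0 ∧ π ∣ lin p
    · obtain ⟨p, hp0, hp⟩ := hp
      obtain ⟨a', ha', ha'p⟩ := exists_orth p
      refine ⟨lin a', not_dvd_lin hf.ne_zero hfh ha ha', ?_⟩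
      intro x hx hFx hπx
      exact hFx (orth_of_dvd hπ hp0 hx hp hπx ha'p)
    · refine ⟨1, fun h => hf.not_isUnit (isUnit_of_dvd_one h), ?_⟩
      intro x hx _ hπx
      exact hp ⟨x, hx, hπx⟩
  refine ⟨(∏ p ∈ Z, lin p) * F', ?_, ?_⟩
  · intro h
    rcases hf.dvd_or_dvd h with h | h
    · rw [hf.dvd_finsetProd_iff] at h
      obtain ⟨p, hpZ, hp⟩ := h
      exact not_dvd_lin hf.ne_zero hfh ha (hZ0 p hpZ) hp
    · exact hF' h
  · intro x hx hFx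
    rw [map_mul, map_prod, mul_ne_zero_iff, Finset.prod_ne_zero_iff] at hFx
    refine ⟨hF'2 x hx hFx.2, m, r, κ₁, ν₁, hm1, hm, hκ₁, hν₁, ⟨k₀, hk₀⟩, ?_⟩
    intro l hl hlx hlπ hor
    have hρ : eval l (κ₁ * ν₁ k₀) = 0 := by
      rw [map_mul]
      rcases hor with h | h
      · rw [h, zero_mul]
      · rw [h k₀, mul_zero]
    obtain ⟨p, hpZ, c, hc⟩ := hZ l hl hlπ hρ
    apply hFx.1 p hpZ
    have hc0 : c ≠ 0 := by
      rintro rfl
      exact hl (by rw [hc, zero_smul])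
    rw [eval_lin_comm, eval_lin]
    rw [eval_lin, hc] at hlx
    simp only [Pi.smul_apply, smul_eq_mul] at hlx
    have h2 : c * ∑ i, x i * p i = 0 := by
      rw [Finset.mul_sum, ← hlx]
      exact Finset.sum_congr rfl fun i _ => by ring
    exact (mul_eq_zero.1 h2).resolve_left hc0

theorem exists_avoid [CharZero K] [IsAlgClosed K] {f κ : MvPolynomial (Fin 3) K} (hf : Prime f)
    {a d : ℕ} (hfh : f.IsHomogeneous a) (ha : 2 ≤ a) (hκ : κ.IsHomogeneous d) (hκ0 : κ ≠ 0)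
    {ν : Fin 3 → MvPolynomial (Fin 3) K} {e : ℕ} (hν : ∀ k, (ν k).IsHomogeneous e) (hν0 : ν ≠ 0) :
    ∃ F : MvPolynomial (Fin 3) K, ¬ f ∣ F ∧ ∀ x : Fin 3 → K, x ≠ 0 → eval x F ≠ 0 →
      ¬ lin x ∣ κ ∧ ∀ π ∈ UniqueFactorizationMonoid.factors κ, ¬ π ∣ lin x ∧
        ∃ (m r : ℕ) (κ₁ : MvPolynomial (Fin 3) K) (ν₁ : Fin 3 → MvPolynomial (Fin 3) K),
          1 ≤ m ∧ κ = π ^ m * κ₁ ∧ ¬ π ∣ κ₁ ∧ (∀ k, ν k = π ^ r * ν₁ k) ∧ (∃ k, ¬ π ∣ ν₁ k) ∧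
          ∀ l : Fin 3 → K, l ≠ 0 → eval l (lin x) = 0 → eval l π = 0 →
            (eval l κ₁ = 0 ∨ ∀ k, eval l (ν₁ k) = 0) → False := by
  classical
  have hone : ∀ π : MvPolynomial (Fin 3) K, ∃ F : MvPolynomial (Fin 3) K,
      π ∈ UniqueFactorizationMonoid.factors κ → ¬ f ∣ F ∧ ∀ x : Fin 3 → K, x ≠ 0 → eval x F ≠ 0 →
      ¬ π ∣ lin x ∧
        ∃ (m r : ℕ) (κ₁ : MvPolynomial (Fin 3) K) (ν₁ : Fin 3 → MvPolynomial (Fin 3) K),
          1 ≤ m ∧ κ = π ^ m * κ₁ ∧ ¬ π ∣ κ₁ ∧ (∀ k, ν k = π ^ r * ν₁ k) ∧ (∃ k, ¬ π ∣ ν₁ k) ∧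
          ∀ l : Fin 3 → K, l ≠ 0 → eval l (lin x) = 0 → eval l π = 0 →
            (eval l κ₁ = 0 ∨ ∀ k, eval l (ν₁ k) = 0) → False := by
    intro π
    by_cases hπ : π ∈ UniqueFactorizationMonoid.factors κ
    · obtain ⟨F, hF⟩ := exists_avoid_one hf hfh ha hκ hκ0 hν hν0
        (UniqueFactorizationMonoid.prime_of_factor π hπ)
        (UniqueFactorizationMonoid.dvd_of_mem_factors hπ)
      exact ⟨F, fun _ => hF⟩
    · exact ⟨0, fun h => absurd h hπ⟩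
  choose F hF using hone
  refine ⟨((UniqueFactorizationMonoid.factors κ).map F).prod, ?_, ?_⟩
  · intro h
    obtain ⟨π, hπ, hfG⟩ := hf.exists_mem_multiset_map_dvd h
    exact (hF π hπ).1 hfG
  · intro x hx hFx
    have hall : ∀ π ∈ UniqueFactorizationMonoid.factors κ, eval x (F π) ≠ 0 := by
      intro π hπ h0
      apply hFx
      obtain ⟨G, hG⟩ := Multiset.dvd_prod (Multiset.mem_map_of_mem F hπ)
      rw [hG, map_mul, h0, zero_mul]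
    refine ⟨?_, fun π hπ => (hF π hπ).2 x hx (hall π hπ)⟩
    intro h
    obtain ⟨π, hπ, hass⟩ := UniqueFactorizationMonoid.exists_mem_factors_of_dvd hκ0
      (prime_lin hx).irreducible h
    exact ((hF π hπ).2 x hx (hall π hπ)).1 hass.symm.dvd

end Pool.Agent.H11.SLP
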