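import Pool.Agent.H11.SLP.Defs

/-!
Basic properties: components with respect to the two gradings, regularity of the generic
linear form.
-/

set_option autoImplicit false

open MvPolynomial

namespace Pool.Agent.H11.SLP

section general

variable {R : Type*} [CommRing R] {σ : Type*}

/-- Homogeneous components of a product with a homogeneous factor. -/
lemma homComp_mul {q : MvPolynomial σ R} {e : ℕ} (hq : q.IsHomogeneous e) (p : MvPolynomial σ R)
    (j : ℕ) : homogeneousComponent j (q * p) =
      if e ≤ j then q * homogeneousComponent (j - e) p else 0 := by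
  have h1 : ∀ m, homogeneousComponent j (q * homogeneousComponent m p) =
      if j = e + m then q * homogeneousComponent m p else 0 := by
    intro m
    apply homogeneousComponent_of_mem
    exact hq.mul (homogeneousComponent_isHomogeneous m p)
  conv_lhs => rw [← sum_homogeneousComponent p]
  rw [Finset.mul_sum, map_sum]
  simp_rw [h1]
  split_ifs with h
  · by_cases h2 : j - e ≤ p.totalDegree
    · rw [Finset.sum_eq_single (j - e)]
      · rw [if_pos (by omega)]
      · intro m _ hm
        rw [if_neg (by omega)]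
      · intro hm
        exact absurd (Finset.mem_range.2 (by omega)) hm
    · rw [homogeneousComponent_eq_zero _ _ (by omega), mul_zero]
      apply Finset.sum_eq_zero
      intro m hm
      rw [Finset.mem_range] at hm
      rw [if_neg (by omega)]
  · apply Finset.sum_eq_zero
    intro m _
    rw [if_neg (by omega)]

lemma homComp_mul_add {q : MvPolynomial σ R} {e : ℕ} (hq : q.IsHomogeneous e)
    (p : MvPolynomial σ R) (j : ℕ) :
    homogeneousComponent (e + j) (q * p) = q * homogeneousComponent j p := by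
  rw [homComp_mul hq, if_pos (by omega), Nat.add_sub_cancel_left]

end general

variable {K : Type*} [Field K]

lemma XH.add {i : ℕ} {u v : PP K} (hu : XH i u) (hv : XH i v) : XH i (u + v) := by
  intro n
  rw [coeff_add]
  exact (hu n).add (hv n)

lemma XH.sub {i : ℕ} {u v : PP K} (hu : XH i u) (hv : XH i v) : XH i (u - v) := by
  intro n
  rw [coeff_sub]
  exact (hu n).sub (hv n)

lemma XH.neg {i : ℕ} {u : PP K} (hu : XH i u) : XH i (-u) := by
  intro n
  rw [coeff_neg]
  exact (hu n).neg

lemma XH.zero (i : ℕ) : XH i (0 : PP K) := fun n => by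
  rw [coeff_zero]; exact isHomogeneous_zero _ _ _

lemma XH.sum {ι : Type*} {i : ℕ} (s : Finset ι) {u : ι → PP K} (hu : ∀ j ∈ s, XH i (u j)) :
    XH i (∑ j ∈ s, u j) := by
  intro n
  rw [coeff_sum]
  exact IsHomogeneous.sum _ _ _ fun j hj => hu j hj n

lemma XH.mul {i j : ℕ} {u v : PP K} (hu : XH i u) (hv : XH j v) : XH (i + j) (u * v) := by
  classical
  intro n
  rw [coeff_mul]
  exact IsHomogeneous.sum _ _ _ fun x _ => (hu _).mul (hv _)

lemma XH.pow {i : ℕ} {u : PP K} (hu : XH i u) (n : ℕ) : XH (i * n) (u ^ n) := by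
  induction n with
  | zero =>
    intro m
    classical
    rw [pow_zero, mul_zero, coeff_one]
    split_ifs
    · exact isHomogeneous_one _ _
    · exact isHomogeneous_zero _ _ _
  | succ n ih =>
    rw [pow_succ, mul_add, mul_one]
    exact ih.mul hu

lemma XH_C {i : ℕ} {r : MvPolynomial (Fin 3) K} (hr : r.IsHomogeneous i) : XH i (C r : PP K) := by
  classical
  intro n
  rw [coeff_C]
  split_ifs
  · exact hr
  · exact isHomogeneous_zero _ _ _

lemma XH_X (k : Fin 3) : XH 0 (X k : PP K) := by
  classical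
  intro n
  rw [coeff_X]
  split_ifs
  · exact isHomogeneous_one _ _
  · exact isHomogeneous_zero _ _ _

lemma XH_natCast (n : ℕ) : XH 0 (n : PP K) := by
  have : (n : PP K) = C (C (n : K)) := by simp
  rw [this]
  exact XH_C (isHomogeneous_C _ _)

lemma XH.pderiv {i : ℕ} {u : PP K} (hu : XH i u) (k : Fin 3) : XH i (pderiv k u) := by
  intro n
  rw [coeff_pderiv]
  have h : (n k + 1 : MvPolynomial (Fin 3) K) = C ((n k : K) + 1) := by simp
  rw [h]
  have := (hu (n + Finsupp.single k 1)).mul (isHomogeneous_C (Fin 3) ((n k : K) + 1))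
  rwa [add_zero] at this

lemma XH_Lam : XH 1 (Lam K) := by
  unfold Lam
  apply XH.sum
  intro k _
  have := (XH_C (K := K) (isHomogeneous_X K k)).mul (XH_X k)
  rwa [add_zero] at this

lemma Lam_isHomogeneous : (Lam K).IsHomogeneous 1 := by
  unfold Lam
  apply IsHomogeneous.sum
  intro k _
  have := (isHomogeneous_C (Fin 3) (X k : MvPolynomial (Fin 3) K)).mul
    (isHomogeneous_X (MvPolynomial (Fin 3) K) k)
  rwa [zero_add] at this

lemma XH_Lam_pow (n : ℕ) : XH n (Lam K ^ n) := by
  have := (XH_Lam (K := K)).pow n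
  rwa [one_mul] at this

lemma Lam_pow_isHomogeneous (n : ℕ) : (Lam K ^ n).IsHomogeneous n := by
  have := (Lam_isHomogeneous (K := K)).pow n
  rwa [one_mul] at this

lemma pderiv_Lam (k : Fin 3) : pderiv k (Lam K) = C (X k) := by
  unfold Lam
  rw [map_sum, Finset.sum_eq_single k]
  · rw [pderiv_C_mul, pderiv_X_self, mul_one]
  · intro b _ hb
    rw [pderiv_C_mul, pderiv_X_of_ne hb, mul_zero]
  · intro h; exact absurd (Finset.mem_univ k) h

lemma pderiv_Lam_pow (k : Fin 3) (n : ℕ) :
    pderiv k (Lam K ^ (n + 1)) = ((n : PP K) + 1) * Lam K ^ n * C (X k) := by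
  rw [Derivation.leibniz_pow, pderiv_Lam]
  simp only [smul_eq_mul, nsmul_eq_mul, Nat.add_sub_cancel]
  push_cast
  ring

/-- Component of degree `d` in the `x`. -/
noncomputable def hx (d : ℕ) (u : PP K) : PP K :=
  ∑ n ∈ u.support, monomial n (homogeneousComponent d (coeff n u))

lemma coeff_hx (d : ℕ) (u : PP K) (n : Fin 3 →₀ ℕ) :
    coeff n (hx d u) = homogeneousComponent d (coeff n u) := by
  classical
  unfold hx
  rw [coeff_sum]
  simp only [coeff_monomial]
  rw [Finset.sum_ite_eq']
  split_ifs with h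
  · rfl
  · rw [notMem_support_iff.1 h, map_zero]

lemma hx_add (d : ℕ) (u v : PP K) : hx d (u + v) = hx d u + hx d v := by
  ext1 n
  rw [coeff_add, coeff_hx, coeff_hx, coeff_hx, coeff_add, map_add]

lemma XH_hx (d : ℕ) (u : PP K) : XH d (hx d u) := by
  intro n
  rw [coeff_hx]
  exact homogeneousComponent_isHomogeneous _ _

lemma hx_of_XH {d : ℕ} {u : PP K} (hu : XH d u) : hx d u = u := by
  ext1 n
  rw [coeff_hx, homogeneousComponent_of_mem (hu n), if_pos rfl]

lemma hx_mul {e : ℕ} {q : PP K} (hq : XH e q) (u : PP K) (j : ℕ) :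
    hx j (q * u) = if e ≤ j then q * hx (j - e) u else 0 := by
  classical
  ext1 n
  rw [coeff_hx, coeff_mul, map_sum]
  have h1 : ∀ x ∈ Finset.HasAntidiagonal.antidiagonal n,
      homogeneousComponent j (coeff x.1 q * coeff x.2 u) =
      if e ≤ j then coeff x.1 q * homogeneousComponent (j - e) (coeff x.2 u) else 0 :=
    fun x _ => homComp_mul (hq _) _ _
  rw [Finset.sum_congr rfl h1]
  split_ifs with h
  · rw [coeff_mul]
    apply Finset.sum_congr rfl
    intro x _
    rw [coeff_hx]
  · rw [coeff_zero]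
    simp

lemma hx_isHomogeneous {d δ : ℕ} {u : PP K} (hu : u.IsHomogeneous δ) :
    (hx d u).IsHomogeneous δ := by
  intro n hn
  rw [coeff_hx] at hn
  apply hu
  intro h
  apply hn
  rw [h, map_zero]

lemma XH_homComp {d : ℕ} {u : PP K} (hu : XH d u) (δ : ℕ) : XH d (homogeneousComponent δ u) := by
  intro n
  rw [coeff_homogeneousComponent]
  split_ifs
  · exact hu n
  · exact isHomogeneous_zero _ _ _

/-- Bihomogeneous component. -/
noncomputable def cm (d δ : ℕ) (u : PP K) : PP K := homogeneousComponent δ (hx d u)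

lemma cm_add (d δ : ℕ) (u v : PP K) : cm d δ (u + v) = cm d δ u + cm d δ v := by
  unfold cm
  rw [hx_add, map_add]

lemma XH_cm (d δ : ℕ) (u : PP K) : XH d (cm d δ u) := XH_homComp (XH_hx _ _) _

lemma cm_isHomogeneous (d δ : ℕ) (u : PP K) : (cm d δ u).IsHomogeneous δ :=
  homogeneousComponent_isHomogeneous _ _

lemma cm_self {d δ : ℕ} {u : PP K} (h1 : XH d u) (h2 : u.IsHomogeneous δ) : cm d δ u = u := by
  unfold cm
  rw [hx_of_XH h1, homogeneousComponent_of_mem h2, if_pos rfl]

lemma cm_mul {e ε : ℕ} {q : PP K} (hq : XH e q) (hq' : q.IsHomogeneous ε) (u : PP K) (d δ : ℕ) :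
    cm (e + d) (ε + δ) (q * u) = q * cm d δ u := by
  unfold cm
  rw [hx_mul hq, if_pos (by omega), Nat.add_sub_cancel_left, homComp_mul_add hq']

lemma cm_mul_zero {e : ℕ} {q : PP K} (hq : XH e q) (u : PP K) {d : ℕ} (δ : ℕ) (h : d < e) :
    cm d δ (q * u) = 0 := by
  unfold cm
  rw [hx_mul hq, if_neg (by omega), map_zero]

lemma cm_C_mul {e : ℕ} {f : MvPolynomial (Fin 3) K} (hf : f.IsHomogeneous e) (u : PP K)
    (d δ : ℕ) : ∃ v, cm d δ (C f * u) = C f * v := by
  unfold cm
  rw [hx_mul (XH_C hf)]
  split_ifs with h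
  · refine ⟨homogeneousComponent δ (hx (d - e) u), ?_⟩
    have := homComp_mul_add (isHomogeneous_C (Fin 3) f) (hx (d - e) u) δ
    rwa [zero_add] at this
  · exact ⟨0, by rw [map_zero, mul_zero]⟩

lemma cm_Lam_mul (u : PP K) (d δ : ℕ) : ∃ v, cm d δ (Lam K * u) = Lam K * v ∧
    XH (d - 1) v ∧ v.IsHomogeneous (δ - 1) := by
  unfold cm
  rw [hx_mul XH_Lam]
  split_ifs with h
  · rw [homComp_mul Lam_isHomogeneous]
    split_ifs with h'
    · exact ⟨_, rfl, XH_homComp (XH_hx _ _) _, homogeneousComponent_isHomogeneous _ _⟩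
    · exact ⟨0, by rw [mul_zero], XH.zero _, isHomogeneous_zero _ _ _⟩
  · exact ⟨0, by rw [map_zero, mul_zero], XH.zero _, isHomogeneous_zero _ _ _⟩

/-! ### Membership -/

lemma inC_iff {J : Ideal (MvPolynomial (Fin 3) K)} {u : PP K} :
    InC J u ↔ u ∈ J.map (C : MvPolynomial (Fin 3) K →+* PP K) :=
  mem_map_C_iff.symm

lemma InC.add {J : Ideal (MvPolynomial (Fin 3) K)} {u v : PP K} (hu : InC J u) (hv : InC J v) :
    InC J (u + v) := inC_iff.2 (Ideal.add_mem _ (inC_iff.1 hu) (inC_iff.1 hv))

lemma InC.sub {J : Ideal (MvPolynomial (Fin 3) K)} {u v : PP K} (hu : InC J u) (hv : InC J v) :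
    InC J (u - v) := inC_iff.2 (Ideal.sub_mem _ (inC_iff.1 hu) (inC_iff.1 hv))

lemma InC.mul_left {J : Ideal (MvPolynomial (Fin 3) K)} {u : PP K} (hu : InC J u) (v : PP K) :
    InC J (v * u) := inC_iff.2 (Ideal.mul_mem_left _ _ (inC_iff.1 hu))

lemma InC.sum {J : Ideal (MvPolynomial (Fin 3) K)} {ι : Type*} (s : Finset ι) {u : ι → PP K}
    (hu : ∀ j ∈ s, InC J (u j)) : InC J (∑ j ∈ s, u j) :=
  inC_iff.2 (Ideal.sum_mem _ fun j hj => inC_iff.1 (hu j hj))

lemma InC.zero (J : Ideal (MvPolynomial (Fin 3) K)) : InC J (0 : PP K) := fun n => by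
  rw [coeff_zero]; exact Ideal.zero_mem _

lemma inC_C {J : Ideal (MvPolynomial (Fin 3) K)} {r : MvPolynomial (Fin 3) K} :
    InC J (C r : PP K) ↔ r ∈ J := by
  classical
  constructor
  · intro h
    have := h 0
    rwa [coeff_zero_C] at this
  · intro h
    exact inC_iff.2 (Ideal.mem_map_of_mem _ h)

lemma InC.pderiv {J : Ideal (MvPolynomial (Fin 3) K)} {u : PP K} (hu : InC J u) (k : Fin 3) :
    InC J (pderiv k u) := by
  intro n
  rw [coeff_pderiv]
  exact Ideal.mul_mem_right _ _ (hu _)

lemma InC.homComp {J : Ideal (MvPolynomial (Fin 3) K)} {u : PP K} (hu : InC J u) (δ : ℕ) :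
    InC J (homogeneousComponent δ u) := by
  intro n
  rw [coeff_homogeneousComponent]
  split_ifs
  · exact hu n
  · exact Ideal.zero_mem _

lemma InC.of_homComp {J : Ideal (MvPolynomial (Fin 3) K)} {u : PP K}
    (h : ∀ δ, InC J (homogeneousComponent δ u)) : InC J u := by
  intro n
  have := h n.degree n
  rwa [coeff_homogeneousComponent, if_pos rfl] at this

lemma InC.mono {I J : Ideal (MvPolynomial (Fin 3) K)} (h : I ≤ J) {u : PP K} (hu : InC I u) :
    InC J u := fun n => h (hu n)

lemma InC.smul_cancel {J : Ideal (MvPolynomial (Fin 3) K)} {u : PP K} {a : K} (ha : a ≠ 0)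
    (h : InC J (C (C a) * u)) : InC J u := by
  have := h.mul_left (C (C a⁻¹))
  rwa [← mul_assoc, ← C_mul, ← C_mul, inv_mul_cancel₀ ha, C_1, C_1, one_mul] at this

lemma inC_of_coeffMul {J : Ideal (MvPolynomial (Fin 3) K)}
    (hJ : ∀ e, (∀ k, X k * e ∈ J) → e ∈ J) {u : PP K} (h : ∀ k, InC J (C (X k) * u)) :
    InC J u := by
  intro n
  apply hJ
  intro k
  have := h k n
  rwa [coeff_C_mul] at this

/-- The generic linear form is a nonzerodivisor modulo an ideal of positive depth. -/
theorem lam_reg [CharZero K] {J : Ideal (MvPolynomial (Fin 3) K)}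
    (hJ : ∀ e, (∀ k, X k * e ∈ J) → e ∈ J) (s : ℕ) {a : PP K} (ha : InC J (Lam K ^ s * a)) :
    InC J a := by
  have key : ∀ δ s (a : PP K), a.IsHomogeneous δ → InC J (Lam K ^ s * a) → InC J a := by
    intro δ
    induction δ with
    | zero =>
      intro s
      induction s with
      | zero =>
        intro a _ h
        rwa [pow_zero, one_mul] at h
      | succ s ih =>
        intro a ha h
        apply inC_of_coeffMul hJ
        intro k
        apply ih
        · have := (isHomogeneous_C (Fin 3) (X k : MvPolynomial (Fin 3) K)).mul ha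
          rwa [zero_add] at this
        · have h1 := h.pderiv k
          have h2 : pderiv k a = 0 := by
            rw [totalDegree_eq_zero_iff_eq_C.1 (Nat.le_zero.1 ha.totalDegree_le), pderiv_C]
          rw [Derivation.leibniz, h2, pderiv_Lam_pow, smul_zero, zero_add, smul_eq_mul] at h1
          have h3 : ((s : K) + 1) ≠ 0 := by exact_mod_cast Nat.succ_ne_zero s
          apply InC.smul_cancel h3
          have h4 : C (C ((s : K) + 1)) * (Lam K ^ s * (C (X k) * a)) =
              a * (((s : PP K) + 1) * Lam K ^ s * C (X k)) := by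
            simp only [map_add, map_natCast, map_one]
            ring
          rwa [h4]
    | succ δ ih =>
      intro s a ha h
      rcases s with _ | s
      · rwa [pow_zero, one_mul] at h
      have h1 : ∀ k, InC J (pderiv k a) := by
        intro k
        apply ih (s + 2)
        · have := ha.pderiv (i := k)
          rwa [Nat.add_sub_cancel] at this
        · have h1 := h.pderiv k
          rw [Derivation.leibniz, pderiv_Lam_pow, smul_eq_mul, smul_eq_mul] at h1
          have h2 := (h1.mul_left (Lam K)).sub (h.mul_left (((s : PP K) + 1) * C (X k)))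
          have h3 : Lam K ^ (s + 2) * pderiv k a =
              Lam K * (Lam K ^ (s + 1) * pderiv k a + a * (((s : PP K) + 1) * Lam K ^ s * C (X k)))
              - ((s : PP K) + 1) * C (X k) * (Lam K ^ (s + 1) * a) := by ring
          rwa [h3]
      have h2 := ha.sum_X_mul_pderiv
      have h3 : InC J (((δ + 1 : ℕ) : PP K) * a) := by
        rw [← nsmul_eq_mul, ← h2]
        exact InC.sum _ fun k _ => (h1 k).mul_left _
      have h4 : ((δ + 1 : ℕ) : K) ≠ 0 := Nat.cast_ne_zero.2 (Nat.succ_ne_zero δ)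
      apply InC.smul_cancel h4
      rwa [map_natCast, map_natCast]
  apply InC.of_homComp
  intro δ
  apply key δ s _ (homogeneousComponent_isHomogeneous _ _)
  rw [← homComp_mul_add (Lam_pow_isHomogeneous s)]
  exact ha.homComp _

end Pool.Agent.H11.SLP
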