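import Mathlib

/-!
Constancy lemma: a rational function `β / α` on the integral surface `π = 0` all of whose
derivatives along the surface vanish is a constant.
-/

set_option autoImplicit false

open MvPolynomial

namespace Pool.Agent.H11.SLP

namespace Constancy

variable {K : Type*} [Field K] {σ : Type*}

theorem totalDegree_pderiv_le (i : σ) (p : MvPolynomial σ K) :
    (pderiv i p).totalDegree ≤ p.totalDegree - 1 := by
  classical
  refine Finset.sup_le fun s hs => ?_
  rw [mem_support_iff, coeff_pderiv] at hs
  have h1 : s + Finsupp.single i 1 ∈ p.support := by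
    rw [mem_support_iff]
    intro h
    exact hs (by rw [h, zero_mul])
  have h2 := le_totalDegree h1
  rw [Finsupp.sum_add_index' (fun _ => rfl) (fun _ _ _ => rfl),
    Finsupp.sum_single_index rfl] at h2
  omega

theorem eq_C_of_pderiv [CharZero K] {p : MvPolynomial σ K} (h : ∀ i, pderiv i p = 0) :
    p = C (p.coeff 0) := by
  classical
  ext m
  rw [coeff_C]
  split_ifs with hm
  · rw [hm]
  · obtain ⟨i, hi⟩ : ∃ i, m i ≠ 0 := by
      by_contra hcon
      push Not at hcon
      exact hm (by ext i; simp [hcon i])
    have h1 := congrArg (coeff (m - Finsupp.single i 1)) (h i)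
    rw [coeff_pderiv, coeff_zero] at h1
    have h2 : m - Finsupp.single i 1 + Finsupp.single i 1 = m := by
      ext j
      by_cases hj : j = i
      · subst hj
        simp
        omega
      · simp [Finsupp.single_eq_of_ne hj]
    rw [h2] at h1
    refine (mul_eq_zero.1 h1).resolve_right ?_
    exact Nat.cast_add_one_ne_zero _

theorem not_dvd_pderiv {π : MvPolynomial σ K} {i : σ} (h : pderiv i π ≠ 0) :
    ¬ π ∣ pderiv i π := by
  intro hd
  have h1 := totalDegree_le_of_dvd_of_isDomain hd h
  have h2 := totalDegree_pderiv_le i π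
  have h3 : π.totalDegree = 0 := by omega
  rw [totalDegree_eq_zero_iff_eq_C] at h3
  rw [h3] at h
  exact h (by simp)

theorem pderiv_comm (i j : σ) (p : MvPolynomial σ K) :
    pderiv i (pderiv j p) = pderiv j (pderiv i p) := by
  classical
  have h : ⁅(pderiv i : Derivation K (MvPolynomial σ K) (MvPolynomial σ K)),
      (pderiv j : Derivation K (MvPolynomial σ K) (MvPolynomial σ K))⁆ = 0 := by
    refine MvPolynomial.derivation_ext fun k => ?_
    rw [Derivation.commutator_apply, pderiv_X, pderiv_X]
    simp only [Pi.single_apply]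
    split_ifs <;> simp
  have h2 := Derivation.congr_fun h p
  rw [Derivation.commutator_apply, Derivation.zero_apply] at h2
  exact sub_eq_zero.1 h2

/-- The product rule for `β ^ j * α ^ m` modulo `π`. -/
theorem dvd_pow_mul_pow {R : Type*} [CommRing R] {M : Type*} [CommRing M] [Algebra R M]
    (D : Derivation R M M) {π α β : M}
    (h : π ∣ β * D α - α * D β) (j m : ℕ) :
    π ∣ α * D (β ^ j * α ^ m) - ((j + m : ℕ) : M) * (β ^ j * α ^ m) * D α := by
  have h1 : α * D (β ^ j * α ^ m) - ((j + m : ℕ) : M) * (β ^ j * α ^ m) * D α =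
      (β * D α - α * D β) * (- (j * β ^ (j - 1) * α ^ m)) := by
    rw [D.leibniz, D.leibniz_pow, D.leibniz_pow]
    rcases j with _ | j <;> rcases m with _ | m <;>
      simp [pow_succ, nsmul_eq_mul, smul_eq_mul] <;> ring
  rw [h1]
  exact Dvd.dvd.mul_right h _

/-- Descent of relations to constants. -/
theorem descent [CharZero K] {π α β : MvPolynomial σ K} (hπ : Prime π) (hα : ¬ π ∣ α) {k : σ}
    (hk : pderiv k π ≠ 0)
    (h : ∀ j, π ∣ (β * pderiv j α - α * pderiv j β) * pderiv k π -
      (β * pderiv k α - α * pderiv k β) * pderiv j π) (n : ℕ) :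
    ∀ (N : ℕ) (q : ℕ → MvPolynomial σ K), (∀ j, (q j).totalDegree ≤ N) →
      (∀ j, pderiv k (q j) = 0) → (∃ j ≤ n, q j ≠ 0) →
      π ∣ ∑ j ∈ Finset.range (n + 1), q j * (β ^ j * α ^ (n - j)) →
      ∃ c : ℕ → K, (∃ j ≤ n, c j ≠ 0) ∧
        π ∣ ∑ j ∈ Finset.range (n + 1), C (c j) * (β ^ j * α ^ (n - j)) := by
  intro N
  induction N with
  | zero =>
    rintro q hq - ⟨j, hj, hj'⟩ hd
    refine ⟨fun j => (q j).coeff 0, ⟨j, hj, fun h0 => hj' ?_⟩, ?_⟩
    · have := totalDegree_eq_zero_iff_eq_C.1 (Nat.le_zero.1 (hq j))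
      rw [this]
      simp only at h0
      rw [h0, C_0]
    · convert hd using 2 with j _
      have := totalDegree_eq_zero_iff_eq_C.1 (Nat.le_zero.1 (hq j))
      rw [← this]
  | succ N ih =>
    intro q hq hqk hne hd
    by_cases hcon : ∃ i, ∃ j ≤ n, pderiv i (q j) ≠ 0
    · obtain ⟨i, j, hj, hij⟩ := hcon
      refine ih (fun j => pderiv i (q j)) (fun j => ?_) (fun j => ?_) ⟨j, hj, hij⟩ ?_
      · have := totalDegree_pderiv_le i (q j)
        have := hq j
        omega
      · rw [pderiv_comm, hqk, map_zero]
      · -- the key computation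
        have hnk := not_dvd_pderiv hk
        let D : Derivation K (MvPolynomial σ K) (MvPolynomial σ K) :=
          pderiv k π • pderiv i - pderiv i π • pderiv k
        have hD : ∀ f, D f = pderiv k π * pderiv i f - pderiv i π * pderiv k f := fun f => by
          simp [D]
        have h1 : π ∣ β * D α - α * D β := by
          have := h i
          rw [hD, hD]
          convert this using 1
          ring
        have h2 : π ∣ D (∑ j ∈ Finset.range (n + 1), q j * (β ^ j * α ^ (n - j))) := by
          obtain ⟨w, hw⟩ := hd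
          rw [hw, D.leibniz, hD π]
          exact dvd_add (Dvd.intro _ rfl) ⟨0, by simp only [smul_eq_mul]; ring⟩
        have h3 : π ∣ α * D (∑ j ∈ Finset.range (n + 1), q j * (β ^ j * α ^ (n - j))) -
            (n : MvPolynomial σ K) * (∑ j ∈ Finset.range (n + 1), q j * (β ^ j * α ^ (n - j))) *
              D α - α * pderiv k π *
              (∑ j ∈ Finset.range (n + 1), pderiv i (q j) * (β ^ j * α ^ (n - j))) := by
          rw [map_sum, Finset.mul_sum, Finset.mul_sum, Finset.sum_mul, Finset.mul_sum,
            ← Finset.sum_sub_distrib, ← Finset.sum_sub_distrib]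
          refine Finset.dvd_sum fun j hj => ?_
          have hj' : j + (n - j) = n := by
            have := Finset.mem_range.1 hj
            omega
          have h4 := dvd_pow_mul_pow D h1 j (n - j)
          rw [hj'] at h4
          convert h4.mul_left (q j) using 1
          rw [D.leibniz, hD (q j), hqk]
          simp only [smul_eq_mul]
          ring
        have h4 : π ∣ α * pderiv k π *
            (∑ j ∈ Finset.range (n + 1), pderiv i (q j) * (β ^ j * α ^ (n - j))) := by
          have h5 : π ∣ α * D (∑ j ∈ Finset.range (n + 1), q j * (β ^ j * α ^ (n - j))) -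
            (n : MvPolynomial σ K) * (∑ j ∈ Finset.range (n + 1), q j * (β ^ j * α ^ (n - j))) *
              D α := dvd_sub (h2.mul_left _) ((hd.mul_left _).mul_right _)
          exact (dvd_sub_right h5).1 h3
        rcases hπ.dvd_or_dvd h4 with h5 | h5
        · rcases hπ.dvd_or_dvd h5 with h6 | h6
          · exact absurd h6 hα
          · exact absurd h6 hnk
        · exact h5
    · push Not at hcon
      obtain ⟨j, hj, hj'⟩ := hne
      refine ⟨fun j => (q j).coeff 0, ⟨j, hj, fun h0 => hj' ?_⟩, ?_⟩
      · have := eq_C_of_pderiv (fun i => hcon i j hj)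
        rw [this]
        simp only at h0
        rw [h0, C_0]
      · convert hd using 1
        refine Finset.sum_congr rfl fun j hj => ?_
        have := eq_C_of_pderiv (fun i => hcon i j (Nat.lt_succ_iff.1 (Finset.mem_range.1 hj)))
        rw [← this]

/-- Existence of a relation with coefficients not involving one of the variables. -/
theorem exists_relation {π α β : MvPolynomial σ K} (hπ : Prime π) (hα : ¬ π ∣ α) (k : σ) :
    ∃ (n : ℕ) (q : ℕ → MvPolynomial σ K), (∀ j, pderiv k (q j) = 0) ∧ (∃ j ≤ n, q j ≠ 0) ∧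
      π ∣ ∑ j ∈ Finset.range (n + 1), q j * (β ^ j * α ^ (n - j)) := by
  classical
  let B : Subalgebra K (MvPolynomial σ K) := supported K {i | i ≠ k}
  have hB : ∀ b ∈ B, pderiv k b = 0 := fun b hb => by
    refine pderiv_eq_zero_of_notMem_vars fun hmem => ?_
    exact (mem_supported.1 hb) hmem rfl
  have : (Ideal.span {π}).IsPrime := (Ideal.span_singleton_prime hπ.ne_zero).2 hπ
  let A := MvPolynomial σ K ⧸ Ideal.span {π}
  let mk : MvPolynomial σ K →+* A := Ideal.Quotient.mk (Ideal.span {π})
  have hmk : ∀ f, mk f = 0 ↔ π ∣ f := fun f => by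
    rw [Ideal.Quotient.eq_zero_iff_mem, Ideal.mem_span_singleton]
  have halg : ∀ b : B, algebraMap B A b = mk b := fun b => rfl
  -- everything is algebraic over `B`
  have hXk : IsAlgebraic B (mk (X k)) := by
    have h1 : π ∈ Algebra.adjoin B {(X k : MvPolynomial σ K)} := by
      have : ∀ f : MvPolynomial σ K, f ∈ Algebra.adjoin B {(X k : MvPolynomial σ K)} := by
        intro f
        induction f using MvPolynomial.induction_on with
        | C a => exact Subalgebra.algebraMap_mem _ (⟨C a, Subalgebra.algebraMap_mem _ _⟩ : B)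
        | add p q hp hq => exact Subalgebra.add_mem _ hp hq
        | mul_X p i hp =>
          refine Subalgebra.mul_mem _ hp ?_
          by_cases hi : i = k
          · rw [hi]
            exact Algebra.self_mem_adjoin_singleton _ _
          · exact Subalgebra.algebraMap_mem _
              (⟨X i, X_mem_supported.2 hi⟩ : B)
      exact this π
    rw [Algebra.adjoin_singleton_eq_range_aeval] at h1
    obtain ⟨P, hP⟩ := h1
    refine ⟨P, fun h0 => hπ.ne_zero ?_, ?_⟩
    · rw [← hP, h0]
      simp
    · have h2 : Polynomial.aeval (mk (X k)) P = mk (Polynomial.aeval (X k) P) := by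
        rw [Polynomial.aeval_def, Polynomial.aeval_def, Polynomial.hom_eval₂]
        rfl
      rw [h2]
      exact (hmk _).2 (by rw [← hP]; rfl)
  have hal : ∀ f : MvPolynomial σ K, IsAlgebraic B (mk f) := by
    intro f
    induction f using MvPolynomial.induction_on with
    | C a => exact isAlgebraic_algebraMap (⟨C a, Subalgebra.algebraMap_mem _ _⟩ : B)
    | add p q hp hq => rw [map_add]; exact hp.add hq
    | mul_X p i hp =>
      rw [map_mul]
      refine hp.mul ?_
      by_cases hi : i = k
      · rw [hi]
        exact hXk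
      · exact isAlgebraic_algebraMap (⟨X i, X_mem_supported.2 hi⟩ : B)
  have hα' : mk α ∈ nonZeroDivisors A := mem_nonZeroDivisors_of_ne_zero fun h => hα ((hmk _).1 h)
  obtain ⟨b, hb, u, hu⟩ := (hal α).exists_nonzero_dvd hα'
  obtain ⟨u, rfl⟩ := Ideal.Quotient.mk_surjective u
  obtain ⟨Q, hQ0, hQ⟩ := hal (β * u)
  refine ⟨Q.natDegree, fun j => (Q.coeff j : MvPolynomial σ K) * (b : MvPolynomial σ K) ^ j,
    fun j => ?_, ⟨Q.natDegree, le_rfl, ?_⟩, ?_⟩
  · exact hB _ (B.mul_mem (Q.coeff j).2 (B.pow_mem b.2 j))
  · refine mul_ne_zero ?_ (pow_ne_zero _ ?_)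
    · exact fun h => hQ0 (Polynomial.leadingCoeff_eq_zero.1 (Subtype.ext h))
    · exact fun h => hb (Subtype.ext h)
  · rw [← hmk]
    have h1 := congrArg (fun z => z * mk α ^ Q.natDegree) hQ
    simp only [zero_mul] at h1
    rw [Polynomial.aeval_eq_sum_range, Finset.sum_mul] at h1
    rw [map_sum, ← h1]
    refine Finset.sum_congr rfl fun j hj => ?_
    have hj' : Q.natDegree = j + (Q.natDegree - j) := by
      have := Finset.mem_range.1 hj
      omega
    rw [Algebra.smul_def, halg, map_mul, map_mul, map_mul, map_pow, map_pow, map_pow]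
    rw [halg] at hu
    rw [hu]
    conv_rhs => rw [hj', pow_add]
    rw [map_mul]
    have : (Ideal.Quotient.mk (Ideal.span {π})) u = mk u := rfl
    rw [this]
    ring

/-- A prime dividing a nonzero binary form in `β` and `α` divides `β - c α`. -/
theorem of_form [IsAlgClosed K] {π α β : MvPolynomial σ K} (hπ : Prime π) (hα : ¬ π ∣ α) :
    ∀ (n : ℕ) (P : Polynomial K), P ≠ 0 → P.natDegree ≤ n →
      π ∣ ∑ j ∈ Finset.range (n + 1), C (P.coeff j) * (β ^ j * α ^ (n - j)) →
      ∃ c : K, π ∣ β - C c * α := by
  intro n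
  induction n with
  | zero =>
    intro P hP hn hd
    exfalso
    rw [Polynomial.eq_C_of_natDegree_le_zero hn] at hP hd
    simp only [zero_add, Finset.range_one, Polynomial.coeff_C, Finset.sum_singleton, if_true,
      pow_zero, Nat.sub_self, mul_one] at hd
    have h0 : P.coeff 0 ≠ 0 := fun h0 => hP (by rw [h0, Polynomial.C_0])
    exact hπ.not_isUnit (isUnit_of_dvd_unit hd ((IsUnit.mk0 _ h0).map C))
  | succ n ih =>
    intro P hP hn hd
    by_cases hdeg : P.natDegree ≤ n
    · refine ih P hP hdeg ?_
      rw [Finset.sum_range_succ, Polynomial.coeff_eq_zero_of_natDegree_lt (n := n + 1) (by omega),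
        C_0, zero_mul, add_zero] at hd
      have h1 : ∑ j ∈ Finset.range (n + 1), C (P.coeff j) * (β ^ j * α ^ (n + 1 - j)) =
          α * ∑ j ∈ Finset.range (n + 1), C (P.coeff j) * (β ^ j * α ^ (n - j)) := by
        rw [Finset.mul_sum]
        refine Finset.sum_congr rfl fun j hj => ?_
        have hj' : n + 1 - j = (n - j) + 1 := by
          have := Finset.mem_range.1 hj
          omega
        rw [hj', pow_succ]
        ring
      rw [h1] at hd
      exact (hπ.dvd_or_dvd hd).resolve_left hα
    · have hdeg' : P.natDegree = n + 1 := by omega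
      obtain ⟨r, hr⟩ := IsAlgClosed.exists_root P (by
        intro h0
        rw [Polynomial.degree_eq_natDegree hP, hdeg'] at h0
        exact absurd h0 (by exact_mod_cast Nat.succ_ne_zero n))
      obtain ⟨P', rfl⟩ := Polynomial.dvd_iff_isRoot.2 hr
      have hP' : P' ≠ 0 := right_ne_zero_of_mul hP
      have hn' : P'.natDegree ≤ n := by
        rw [Polynomial.natDegree_mul (Polynomial.X_sub_C_ne_zero r) hP',
          Polynomial.natDegree_X_sub_C] at hn
        omega
      have h1 : ∑ j ∈ Finset.range (n + 1 + 1),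
          C (((Polynomial.X - Polynomial.C r) * P').coeff j) * (β ^ j * α ^ (n + 1 - j)) =
          (β - C r * α) * ∑ j ∈ Finset.range (n + 1), C (P'.coeff j) * (β ^ j * α ^ (n - j)) := by
        have h2 : ∑ j ∈ Finset.range (n + 1 + 1),
            C ((Polynomial.X * P').coeff j) * (β ^ j * α ^ (n + 1 - j)) =
            β * ∑ j ∈ Finset.range (n + 1), C (P'.coeff j) * (β ^ j * α ^ (n - j)) := by
          rw [Finset.sum_range_succ', Finset.mul_sum]
          simp only [Polynomial.coeff_X_mul, Polynomial.coeff_X_mul_zero, C_0, zero_mul,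
            add_zero, Nat.add_sub_add_right]
          refine Finset.sum_congr rfl fun j _ => ?_
          ring
        have h3 : ∑ j ∈ Finset.range (n + 1 + 1),
            C ((Polynomial.C r * P').coeff j) * (β ^ j * α ^ (n + 1 - j)) =
            C r * α * ∑ j ∈ Finset.range (n + 1), C (P'.coeff j) * (β ^ j * α ^ (n - j)) := by
          rw [Finset.sum_range_succ, Finset.mul_sum, Polynomial.coeff_C_mul,
            Polynomial.coeff_eq_zero_of_natDegree_lt (n := n + 1) (by omega), mul_zero, C_0,
            zero_mul, add_zero]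
          refine Finset.sum_congr rfl fun j hj => ?_
          have hj' : n + 1 - j = (n - j) + 1 := by
            have := Finset.mem_range.1 hj
            omega
          rw [hj', pow_succ, Polynomial.coeff_C_mul, C_mul]
          ring
        rw [sub_mul (β) (C r * α), ← h2, ← h3, ← Finset.sum_sub_distrib]
        refine Finset.sum_congr rfl fun j _ => ?_
        rw [sub_mul, Polynomial.coeff_sub, C_sub, sub_mul]
      rw [h1] at hd
      rcases hπ.dvd_or_dvd hd with h2 | h2
      · exact ⟨r, h2⟩
      · exact ih P' hP' hn' h2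

end Constancy

open Constancy in
/-- Constancy lemma. -/
theorem constancy' {K : Type*} [Field K] [CharZero K] [IsAlgClosed K] {σ : Type*}
    {π α β : MvPolynomial σ K} (hπ : Prime π) (hα : ¬ π ∣ α)
    (h : ∀ j k, π ∣ (β * pderiv j α - α * pderiv j β) * pderiv k π -
      (β * pderiv k α - α * pderiv k β) * pderiv j π) :
    ∃ c : K, π ∣ β - C c * α := by
  classical
  obtain ⟨k, hk⟩ : ∃ k, pderiv k π ≠ 0 := by
    by_contra hcon
    push Not at hcon
    have h1 := eq_C_of_pderiv hcon
    have h2 : π.coeff 0 ≠ 0 := fun h0 => hπ.ne_zero (by rw [h1, h0, C_0])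
    exact hπ.not_isUnit (by rw [h1]; exact (IsUnit.mk0 _ h2).map C)
  obtain ⟨n, q, hqk, hq0, hd⟩ := exists_relation (β := β) hπ hα k
  obtain ⟨c, hc, hd⟩ := descent hπ hα hk (fun j => h j k) n
    ((Finset.range (n + 1)).sup fun j => (q j).totalDegree)
    (fun j => if j ∈ Finset.range (n + 1) then q j else 0)
    (fun j => by
      split_ifs with hj
      · exact Finset.le_sup (f := fun j => (q j).totalDegree) hj
      · simp)
    (fun j => by split_ifs; exacts [hqk j, map_zero _])
    (by
      obtain ⟨j, hj, hj'⟩ := hq0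
      exact ⟨j, hj, by rw [if_pos (Finset.mem_range.2 (Nat.lt_succ_of_le hj))]; exact hj'⟩)
    (by
      convert hd using 1
      refine Finset.sum_congr rfl fun j hj => ?_
      rw [if_pos hj])
  obtain ⟨j, hj, hcj⟩ := hc
  have hco : ∀ i, (∑ j ∈ Finset.range (n + 1), Polynomial.monomial j (c j)).coeff i =
      if i ∈ Finset.range (n + 1) then c i else 0 := fun i => by
    rw [Polynomial.finsetSum_coeff]
    simp only [Polynomial.coeff_monomial]
    rw [Finset.sum_ite_eq']
  refine of_form (β := β) hπ hα n (∑ j ∈ Finset.range (n + 1), Polynomial.monomial j (c j))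
    (fun h0 => hcj ?_) ?_ ?_
  · have := hco j
    rw [h0, if_pos (Finset.mem_range.2 (Nat.lt_succ_of_le hj))] at this
    rw [← this]
    simp
  · rw [Polynomial.natDegree_le_iff_coeff_eq_zero]
    intro i hi
    rw [hco, if_neg (by rw [Finset.mem_range]; omega)]
  · convert hd using 1
    refine Finset.sum_congr rfl fun j hj => ?_
    rw [hco, if_pos hj]

/-- Constancy lemma. -/
theorem constancy {K : Type*} [Field K] [CharZero K] [IsAlgClosed K]
    {π α β : MvPolynomial (Fin 3) K} (hπ : Prime π) (hα : ¬ π ∣ α)
    (h : ∀ j k, π ∣ (β * pderiv j α - α * pderiv j β) * pderiv k π -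
      (β * pderiv k α - α * pderiv k β) * pderiv j π) :
    ∃ c : K, π ∣ β - C c * α :=
  constancy' hπ hα h

end Pool.Agent.H11.SLP
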