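import Pool.Agent.H11.SLP.Defs
import Pool.Agent.H11.SLP.Const
import Pool.Agent.H4.ConicMain

/-!
The local lemma at a point of the cubic (helper60).
-/

set_option autoImplicit false

open MvPolynomial

namespace Pool.Agent.H11.SLP

open Pool.Agent.H4.Apolar

variable {K : Type*} [Field K]

namespace LemF

lemma degreeOf_pderiv_lt {σ : Type*} {R : Type*} [CommSemiring R] {p : MvPolynomial σ R} {k : σ}
    (h : pderiv k p ≠ 0) : (pderiv k p).degreeOf k < p.degreeOf k := by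
  classical
  obtain ⟨m, hm⟩ := MvPolynomial.ne_zero_iff.1 h
  have hpos : 0 < p.degreeOf k := by
    rw [coeff_pderiv] at hm
    have h1 : m + Finsupp.single k 1 ∈ p.support := by
      rw [mem_support_iff]
      intro h0
      exact hm (by rw [h0]; simp)
    have h2 := monomial_le_degreeOf k h1
    simp at h2
    omega
  rw [degreeOf_lt_iff hpos]
  intro m' hm'
  rw [mem_support_iff, coeff_pderiv] at hm'
  have h1 : m' + Finsupp.single k 1 ∈ p.support := by
    rw [mem_support_iff]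
    intro h0
    exact hm' (by rw [h0]; simp)
  have h2 := monomial_le_degreeOf k h1
  simp at h2
  omega

lemma not_dvd_pderiv {σ : Type*} {R : Type*} [CommRing R] [IsDomain R] {p : MvPolynomial σ R}
    {k : σ} (h : pderiv k p ≠ 0) : ¬ p ∣ pderiv k p := by
  rintro ⟨q, hq⟩
  have hq0 : q ≠ 0 := by
    rintro rfl
    exact h (by rw [hq, mul_zero])
  have hp0 : p ≠ 0 := by
    rintro rfl
    exact h (by simp)
  have h1 : (pderiv k p).degreeOf k = p.degreeOf k + q.degreeOf k := by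
    rw [hq]
    exact degreeOf_mul_eq hp0 hq0
  have h2 := degreeOf_pderiv_lt h
  omega

lemma eq_C_of_pderiv_eq_zero {σ : Type*} [CharZero K] {p : MvPolynomial σ K}
    (h : ∀ k, pderiv k p = 0) : p = C (coeff 0 p) := by
  classical
  ext m
  rw [coeff_C]
  split_ifs with hm
  · rw [← hm]
  · have hm' : m ≠ 0 := fun h0 => hm h0.symm
    obtain ⟨k, hk⟩ : ∃ k, m k ≠ 0 := by
      by_contra hcon
      push Not at hcon
      exact hm' (Finsupp.ext hcon)
    have h1 := congrArg (coeff (m - Finsupp.single k 1)) (h k)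
    rw [coeff_pderiv, coeff_zero] at h1
    have h2 : m - Finsupp.single k 1 + Finsupp.single k 1 = m := by
      apply tsub_add_cancel_of_le
      rw [Finsupp.single_le_iff]
      omega
    rw [h2] at h1
    have h3 : (((m - (Finsupp.single k 1 : σ →₀ ℕ)) k : ℕ) : K) + 1 ≠ 0 := Nat.cast_add_one_ne_zero _
    rcases mul_eq_zero.1 h1 with h4 | h4
    · exact h4
    · exact absurd h4 h3

/-- In characteristic zero a prime polynomial does not divide all its partial derivatives. -/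
lemma exists_not_dvd_pderiv {σ : Type*} [CharZero K] {π : MvPolynomial σ K} (hπ : Prime π) :
    ∃ k, ¬ π ∣ pderiv k π := by
  by_contra hcon
  push Not at hcon
  have hz : ∀ k, pderiv k π = 0 := by
    intro k
    by_contra hk
    exact not_dvd_pderiv hk (hcon k)
  have h1 := eq_C_of_pderiv_eq_zero hz
  have h2 : coeff 0 π ≠ 0 := by
    intro h0
    rw [h0, C_0] at h1
    exact hπ.ne_zero h1
  apply hπ.not_isUnit
  rw [h1]
  exact (isUnit_iff_ne_zero.2 h2).map C

/-- The local lemma when `π` does not divide `α`, and `β` is congruent to a multiple of `α`. -/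
lemma lemF_aux [CharZero K] {x : Fin 3 → K} (hx : x ≠ 0) {n : ℕ} {g₀ h₀ : K}
    {w α β κ : MvPolynomial (Fin 3) K} {ν : Fin 3 → MvPolynomial (Fin 3) K}
    (h1 : lin x ^ (n + 1) * w = C g₀ * α + C h₀ * β)
    (h2 : ∀ k, β * pderiv k α - α * pderiv k β = lin x ^ n * (C (x k) * κ + ν k * lin x))
    (h3 : ∑ k, X k * ν k = -κ)
    {π : MvPolynomial (Fin 3) K} (hπ : Prime π) (hw : ¬ π ∣ w) (hl : ¬ π ∣ lin x)
    (hl' : ¬ lin x ∣ κ)
    {e r : ℕ} {κ₁ : MvPolynomial (Fin 3) K} (hκ : κ = π ^ e * κ₁) (hκ₁ : ¬ π ∣ κ₁)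
    {ν₁ : Fin 3 → MvPolynomial (Fin 3) K} (hν : ∀ k, ν k = π ^ r * ν₁ k) (hν₁ : ∃ k, ¬ π ∣ ν₁ k)
    {c : K} (hc : π ∣ β - C c * α)
    {l : Fin 3 → K} (hll : eval l (lin x) = 0) (hlw : eval l w = 0) (hlπ : eval l π = 0) :
    eval l κ₁ = 0 ∨ ∀ k, eval l (ν₁ k) = 0 := by
  obtain ⟨k₀, hk₀⟩ : ∃ k, x k ≠ 0 := by
    by_contra hcon
    push Not at hcon
    exact hx (funext hcon)
  have hlin0 : lin x ≠ 0 := by
    intro h
    exact hl (by rw [h]; exact dvd_zero _)
  set Λ := lin x with hΛ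
  -- `β ≠ c α`
  have hne : β - C c * α ≠ 0 := by
    intro h0
    have hβ : β = C c * α := by linear_combination h0
    have h4 := h2 k₀
    rw [hβ] at h4
    have h5 : Λ ^ n * (C (x k₀) * κ + ν k₀ * Λ) = 0 := by
      rw [← h4, pderiv_C_mul]
      ring
    have h6 : C (x k₀) * κ + ν k₀ * Λ = 0 := by
      rcases mul_eq_zero.1 h5 with h | h
      · exact absurd h (pow_ne_zero _ hlin0)
      · exact h
    apply hl'
    have h7 : κ = (C (x k₀)⁻¹ * (-ν k₀)) * Λ := by
      have h8 : (C (x k₀)⁻¹ : MvPolynomial (Fin 3) K) * C (x k₀) = 1 := by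
        rw [← C_mul, inv_mul_cancel₀ hk₀, C_1]
      linear_combination (-κ) * h8 + C (x k₀)⁻¹ * h6
    rw [h7]
    exact dvd_mul_left _ _
  -- extract the power of `π`
  obtain ⟨s, γ, hγ, hs⟩ : ∃ (s : ℕ) (γ : MvPolynomial (Fin 3) K), ¬ π ∣ γ ∧
      β - C c * α = π ^ s * γ := by
    have hfin := FiniteMultiplicity.of_prime_left hπ hne
    obtain ⟨γ, h4, h5⟩ := hfin.exists_eq_pow_mul_and_not_dvd
    exact ⟨_, γ, h5, h4⟩
  have hs1 : s ≠ 0 := by
    rintro rfl
    rw [pow_zero, one_mul] at hs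
    exact hγ (by rw [← hs]; exact hc)
  obtain ⟨s', rfl⟩ : ∃ s', s = s' + 1 := ⟨s - 1, by omega⟩
  have hβ : β = C c * α + π ^ (s' + 1) * γ := by linear_combination hs
  set G : K := g₀ + h₀ * c with hG
  have hGα : C G * α = Λ ^ (n + 1) * w - C h₀ * π ^ (s' + 1) * γ := by
    rw [h1, hβ, hG, C_add, C_mul]
    ring
  have hG0 : G ≠ 0 := by
    intro h0
    rw [h0, C_0, zero_mul] at hGα
    have h4 : π ∣ Λ ^ (n + 1) * w := by
      have : Λ ^ (n + 1) * w = π * (C h₀ * π ^ s' * γ) := by linear_combination -hGα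
      rw [this]
      exact dvd_mul_right _ _
    rcases hπ.dvd_or_dvd h4 with h | h
    · exact hl (hπ.dvd_of_dvd_pow h)
    · exact hw h
  -- the key identity
  set V : Fin 3 → MvPolynomial (Fin 3) K := fun k => C (x k) * κ + ν k * Λ with hV
  set S : MvPolynomial (Fin 3) K := C ((s' + 1 : ℕ) : K) with hS
  have hE1 : ∀ k, Λ ^ n * V k = π ^ s' * (π * (γ * pderiv k α - α * pderiv k γ) -
      S * α * γ * pderiv k π) := by
    intro k
    rw [hV]
    simp only
    rw [← h2 k, hβ]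
    have h5 : pderiv k (C c * α + π ^ (s' + 1) * γ) = C c * pderiv k α +
        (S * π ^ s' * pderiv k π * γ + π ^ (s' + 1) * pderiv k γ) := by
      rw [map_add, pderiv_C_mul, pderiv_mul, pderiv_pow, hS]
      simp only [Nat.cast_add, Nat.cast_one, Nat.add_sub_cancel, map_add, map_natCast, map_one]
    rw [h5]
    ring
  have hE2 : ∀ k, Λ ^ n * (C G * V k + S * π ^ s' * Λ * w * γ * pderiv k π) =
      π ^ (s' + 1) * (C G * (γ * pderiv k α - α * pderiv k γ) +
        S * C h₀ * π ^ s' * γ ^ 2 * pderiv k π) := by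
    intro k
    linear_combination C G * hE1 k - π ^ s' * S * γ * pderiv k π * hGα
  have hE3 : ∀ k, π ^ (s' + 1) ∣ C G * V k + S * π ^ s' * Λ * w * γ * pderiv k π := by
    intro k
    apply hπ.pow_dvd_of_dvd_mul_left (s' + 1) (fun h => hl (hπ.dvd_of_dvd_pow h))
    rw [hE2 k]
    exact dvd_mul_right _ _
  -- `r ≤ e`
  have hre : r ≤ e := by
    by_contra hcon
    push Not at hcon
    have h4 : κ = π ^ r * (-(∑ k, X k * ν₁ k)) := by
      have : ∑ k, X k * ν k = π ^ r * ∑ k, X k * ν₁ k := by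
        rw [Finset.mul_sum]
        exact Finset.sum_congr rfl fun k _ => by rw [hν k]; ring
      rw [this] at h3
      linear_combination h3
    obtain ⟨t, rfl⟩ : ∃ t, r = e + 1 + t := ⟨r - e - 1, by omega⟩
    rw [hκ] at h4
    have h5 : π ^ e * κ₁ = π ^ e * (π * (π ^ t * (-(∑ k, X k * ν₁ k)))) := by
      rw [h4]
      ring
    have h6 := mul_left_cancel₀ (pow_ne_zero _ hπ.ne_zero) h5
    exact hκ₁ (by rw [h6]; exact dvd_mul_right _ _)
  obtain ⟨t, rfl⟩ : ∃ t, e = r + t := ⟨e - r, by omega⟩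
  have hV' : ∀ k, V k = π ^ r * (π ^ t * κ₁ * C (x k) + ν₁ k * Λ) := by
    intro k
    rw [hV]
    simp only
    rw [hν k, hκ]
    ring
  have hS0 : ((s' + 1 : ℕ) : K) ≠ 0 := by exact_mod_cast Nat.succ_ne_zero s'
  have hunitS : ∀ p : MvPolynomial (Fin 3) K, π ∣ S * p → π ∣ p := by
    intro p hp
    have h8 : (C (((s' + 1 : ℕ) : K))⁻¹ : MvPolynomial (Fin 3) K) * S = 1 := by
      rw [hS, ← C_mul, inv_mul_cancel₀ hS0, C_1]
    have : p = C (((s' + 1 : ℕ) : K))⁻¹ * (S * p) := by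
      rw [← mul_assoc, h8, one_mul]
    rw [this]
    exact dvd_mul_of_dvd_right hp _
  have hunitG : ∀ p : MvPolynomial (Fin 3) K, π ∣ C G * p → π ∣ p := by
    intro p hp
    have h8 : (C G⁻¹ : MvPolynomial (Fin 3) K) * C G = 1 := by
      rw [← C_mul, inv_mul_cancel₀ hG0, C_1]
    have : p = C G⁻¹ * (C G * p) := by
      rw [← mul_assoc, h8, one_mul]
    rw [this]
    exact dvd_mul_of_dvd_right hp _
  have hpow : ∀ m : ℕ, (π ^ m : MvPolynomial (Fin 3) K) ≠ 0 := fun m => pow_ne_zero _ hπ.ne_zero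
  rcases lt_trichotomy s' r with hlt | heq | hgt
  · -- case `s - 1 < r`
    exfalso
    obtain ⟨k, hk⟩ := exists_not_dvd_pderiv hπ
    apply hk
    obtain ⟨u, rfl⟩ : ∃ u, r = s' + 1 + u := ⟨r - s' - 1, by omega⟩
    obtain ⟨U, hU⟩ := hE3 k
    rw [hV' k] at hU
    have h4 : π ^ s' * (S * (Λ * (w * (γ * pderiv k π)))) =
        π ^ s' * (π * (U - C G * (π ^ u * (π ^ t * κ₁ * C (x k) + ν₁ k * Λ)))) := by
      linear_combination hU
    have h5 := mul_left_cancel₀ (hpow s') h4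
    have h6 : π ∣ S * (Λ * (w * (γ * pderiv k π))) := by
      rw [h5]
      exact dvd_mul_right _ _
    have h7 := hunitS _ h6
    rcases hπ.dvd_or_dvd h7 with h | h
    · exact absurd h hl
    rcases hπ.dvd_or_dvd h with h | h
    · exact absurd h hw
    rcases hπ.dvd_or_dvd h with h | h
    · exact absurd h hγ
    · exact h
  · -- case `s - 1 = r`
    subst heq
    rcases Nat.eq_zero_or_pos t with ht | ht
    · subst ht
      left
      obtain ⟨U, hU⟩ := hE3 k₀
      rw [hV' k₀] at hU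
      have h4 : π ^ s' * (C G * (κ₁ * C (x k₀) + ν₁ k₀ * Λ) + S * Λ * w * γ * pderiv k₀ π) =
          π ^ s' * (π * U) := by
        linear_combination hU
      have h5 := congrArg (eval l) (mul_left_cancel₀ (hpow s') h4)
      simp only [map_add, map_mul, hll, hlw, hlπ, eval_C] at h5
      have h6 : G * (eval l κ₁ * x k₀) = 0 := by linear_combination h5
      rcases mul_eq_zero.1 h6 with h | h
      · exact absurd h hG0
      rcases mul_eq_zero.1 h with h | h
      · exact h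
      · exact absurd h hk₀
    · obtain ⟨t', rfl⟩ : ∃ t', t = t' + 1 := ⟨t - 1, by omega⟩
      right
      intro k
      obtain ⟨U, hU⟩ := hE3 k
      rw [hV' k] at hU
      have h4 : π ^ s' * (Λ * (C G * ν₁ k + S * w * γ * pderiv k π)) =
          π ^ s' * (π * (U - C G * (π ^ t' * κ₁ * C (x k)))) := by
        linear_combination hU
      have h5 := mul_left_cancel₀ (hpow s') h4
      have h6 : π ∣ Λ * (C G * ν₁ k + S * w * γ * pderiv k π) := by
        rw [h5]
        exact dvd_mul_right _ _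
      rcases hπ.dvd_or_dvd h6 with h | h
      · exact absurd h hl
      obtain ⟨W, hW⟩ := h
      have h7 := congrArg (eval l) hW
      simp only [map_add, map_mul, hlw, hlπ, eval_C] at h7
      have h8 : G * eval l (ν₁ k) = 0 := by linear_combination h7
      rcases mul_eq_zero.1 h8 with h | h
      · exact absurd h hG0
      · exact h
  · -- case `s - 1 > r`
    obtain ⟨u, rfl⟩ : ∃ u, s' = r + 1 + u := ⟨s' - r - 1, by omega⟩
    have hdiv : ∀ k, π ∣ π ^ t * κ₁ * C (x k) + ν₁ k * Λ := by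
      intro k
      apply hunitG
      obtain ⟨U, hU⟩ := hE3 k
      rw [hV' k] at hU
      have h4 : π ^ r * (C G * (π ^ t * κ₁ * C (x k) + ν₁ k * Λ)) =
          π ^ r * (π * (π ^ (u + 1) * U - S * π ^ u * Λ * w * γ * pderiv k π)) := by
        linear_combination hU
      have h5 := mul_left_cancel₀ (hpow r) h4
      rw [h5]
      exact dvd_mul_right _ _
    rcases Nat.eq_zero_or_pos t with ht | ht
    · subst ht
      left
      obtain ⟨W, hW⟩ := hdiv k₀
      have h5 := congrArg (eval l) hW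
      simp only [map_add, map_mul, hll, hlπ, eval_C, pow_zero, map_one] at h5
      have h6 : eval l κ₁ * x k₀ = 0 := by linear_combination h5
      rcases mul_eq_zero.1 h6 with h | h
      · exact h
      · exact absurd h hk₀
    · exfalso
      obtain ⟨t', rfl⟩ : ∃ t', t = t' + 1 := ⟨t - 1, by omega⟩
      obtain ⟨k, hk⟩ := hν₁
      apply hk
      obtain ⟨W, hW⟩ := hdiv k
      have h6 : π ∣ ν₁ k * Λ := by
        refine ⟨W - π ^ t' * κ₁ * C (x k), ?_⟩
        linear_combination hW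
      rcases hπ.dvd_or_dvd h6 with h | h
      · exact h
      · exact absurd h hl

theorem lemF_of_constancy [CharZero K] {x : Fin 3 → K} (hx : x ≠ 0) {n : ℕ} {g₀ h₀ : K}
    {w α β κ : MvPolynomial (Fin 3) K} {ν : Fin 3 → MvPolynomial (Fin 3) K}
    (h1 : lin x ^ (n + 1) * w = C g₀ * α + C h₀ * β)
    (h2 : ∀ k, β * pderiv k α - α * pderiv k β = lin x ^ n * (C (x k) * κ + ν k * lin x))
    (h3 : ∑ k, X k * ν k = -κ)
    {π : MvPolynomial (Fin 3) K} (hπ : Prime π) (hw : ¬ π ∣ w) (hl : ¬ π ∣ lin x)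
    (hl' : ¬ lin x ∣ κ)
    (hconst : ∀ {α β : MvPolynomial (Fin 3) K}, ¬ π ∣ α →
      (∀ j k, π ∣ (β * pderiv j α - α * pderiv j β) * pderiv k π -
        (β * pderiv k α - α * pderiv k β) * pderiv j π) → ∃ c : K, π ∣ β - C c * α)
    {e r : ℕ} (he : 1 ≤ e) {κ₁ : MvPolynomial (Fin 3) K} (hκ : κ = π ^ e * κ₁) (hκ₁ : ¬ π ∣ κ₁)
    {ν₁ : Fin 3 → MvPolynomial (Fin 3) K} (hν : ∀ k, ν k = π ^ r * ν₁ k) (hν₁ : ∃ k, ¬ π ∣ ν₁ k)
    (h4 : ∀ j k, π ∣ ν j * pderiv k π - ν k * pderiv j π)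
    {l : Fin 3 → K} (hll : eval l (lin x) = 0) (hlw : eval l w = 0) (hlπ : eval l π = 0) :
    eval l κ₁ = 0 ∨ ∀ k, eval l (ν₁ k) = 0 := by
  have hπκ : π ∣ κ := by
    obtain ⟨e', rfl⟩ : ∃ e', e = e' + 1 := ⟨e - 1, by omega⟩
    rw [hκ, pow_succ, mul_assoc, mul_left_comm]
    exact dvd_mul_right _ _
  have key : ∀ j k, π ∣ (β * pderiv j α - α * pderiv j β) * pderiv k π -
      (β * pderiv k α - α * pderiv k β) * pderiv j π := by
    intro j k
    rw [h2 j, h2 k]
    obtain ⟨a, ha⟩ := hπκ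
    obtain ⟨b, hb⟩ := h4 j k
    refine ⟨lin x ^ n * (a * (C (x j) * pderiv k π - C (x k) * pderiv j π) + b * lin x), ?_⟩
    linear_combination (lin x ^ n * (C (x j) * pderiv k π - C (x k) * pderiv j π)) * ha +
      lin x ^ (n + 1) * hb
  by_cases hα : π ∣ α
  · have hβ : ¬ π ∣ β := by
      intro hβ
      have h5 : π ∣ lin x ^ (n + 1) * w := by
        rw [h1]
        exact dvd_add (dvd_mul_of_dvd_right hα _) (dvd_mul_of_dvd_right hβ _)
      rcases hπ.dvd_or_dvd h5 with h | h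
      · exact hl (hπ.dvd_of_dvd_pow h)
      · exact hw h
    obtain ⟨c, hc⟩ := hconst (α := β) (β := α) hβ (fun j k => by
      have h5 := key j k
      rw [← dvd_neg] at h5
      convert h5 using 1
      ring)
    have h6 := lemF_aux hx (g₀ := h₀) (h₀ := g₀) (w := w) (α := β) (β := α) (κ := -κ)
      (ν := fun k => -ν k) (by rw [h1]; ring) (fun k => by linear_combination -(h2 k))
      (by simp only [mul_neg, Finset.sum_neg_distrib, h3]) hπ hw hl
      (by rwa [dvd_neg]) (e := e) (r := r) (κ₁ := -κ₁) (by rw [hκ]; ring) (by rwa [dvd_neg])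
      (ν₁ := fun k => -ν₁ k) (fun k => by rw [hν k]; ring)
      (by obtain ⟨k, hk⟩ := hν₁; exact ⟨k, by rwa [dvd_neg]⟩) hc hll hlw hlπ
    rcases h6 with h | h
    · left
      simpa using h
    · right
      intro k
      simpa using h k
  · obtain ⟨c, hc⟩ := hconst hα key
    exact lemF_aux hx h1 h2 h3 hπ hw hl hl' hκ hκ₁ hν hν₁ hc hll hlw hlπ

end LemF

theorem lemF [CharZero K] [IsAlgClosed K] {x : Fin 3 → K} (hx : x ≠ 0) {n : ℕ} {g₀ h₀ : K}
    {w α β κ : MvPolynomial (Fin 3) K} {ν : Fin 3 → MvPolynomial (Fin 3) K}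
    (h1 : lin x ^ (n + 1) * w = C g₀ * α + C h₀ * β)
    (h2 : ∀ k, β * pderiv k α - α * pderiv k β = lin x ^ n * (C (x k) * κ + ν k * lin x))
    (h3 : ∑ k, X k * ν k = -κ)
    {π : MvPolynomial (Fin 3) K} (hπ : Prime π) (hw : ¬ π ∣ w) (hl : ¬ π ∣ lin x)
    (hl' : ¬ lin x ∣ κ)
    {e r : ℕ} (he : 1 ≤ e) {κ₁ : MvPolynomial (Fin 3) K} (hκ : κ = π ^ e * κ₁) (hκ₁ : ¬ π ∣ κ₁)
    {ν₁ : Fin 3 → MvPolynomial (Fin 3) K} (hν : ∀ k, ν k = π ^ r * ν₁ k) (hν₁ : ∃ k, ¬ π ∣ ν₁ k)
    (h4 : ∀ j k, π ∣ ν j * pderiv k π - ν k * pderiv j π)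
    {l : Fin 3 → K} (hll : eval l (lin x) = 0) (hlw : eval l w = 0) (hlπ : eval l π = 0) :
    eval l κ₁ = 0 ∨ ∀ k, eval l (ν₁ k) = 0 :=
  LemF.lemF_of_constancy hx h1 h2 h3 hπ hw hl hl' (fun hα h => constancy hπ hα h) he hκ hκ₁ hν hν₁
    h4 hll hlw hlπ

end Pool.Agent.H11.SLP
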