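import Pool.Agent.H11.SLP.Second

/-!
Closed points of the curve `κ = 0`.
-/

set_option autoImplicit false

open MvPolynomial

namespace Pool.Agent.H11.SLP

open Pool.Agent.H4.Apolar Pool.Agent.H4.Descent Pool.Agent.H4.Ternary

variable {K : Type*} [Field K]
variable {f g h : MvPolynomial (Fin 3) K} {n : ℕ} {w α β : PP K}

/-- Evaluation at a linear form. -/
noncomputable def evl (l : Fin 3 → K) : PP K →+* MvPolynomial (Fin 3) K :=
  eval fun k => C (l k)

lemma evl_C (l : Fin 3 → K) (r : MvPolynomial (Fin 3) K) : evl l (C r) = r := by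
  unfold evl
  rw [eval_C]

lemma evl_X (l : Fin 3 → K) (k : Fin 3) : evl l (X k) = C (l k) := by
  unfold evl
  rw [eval_X]

lemma evl_Lam (l : Fin 3 → K) : evl l (Lam K) = lin l := by
  unfold Lam lin
  rw [map_sum]
  apply Finset.sum_congr rfl
  intro k _
  rw [map_mul, evl_C, evl_X, mul_comm]

lemma evl_io (l : Fin 3 → K) (u : MvPolynomial (Fin 3) K) : evl l (io u) = C (eval l u) := by
  have : (evl l).comp io = (C : K →+* MvPolynomial (Fin 3) K).comp (eval l) := by
    apply MvPolynomial.ringHom_ext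
    · intro a
      simp only [RingHom.comp_apply, io_C, evl_C, eval_C]
    · intro k
      simp only [RingHom.comp_apply, io_X, evl_X, eval_X]
  exact RingHom.congr_fun this u

lemma coeff_lin (l : Fin 3 → K) (k : Fin 3) : coeff (Finsupp.single k 1) (lin l) = l k := by
  classical
  unfold lin
  rw [coeff_sum, Finset.sum_eq_single k]
  · rw [coeff_C_mul, coeff_X, if_pos rfl, mul_one]
  · intro j _ hj
    rw [coeff_C_mul, coeff_X, if_neg, mul_zero]
    intro h
    exact hj (Finsupp.single_left_injective one_ne_zero h)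
  · intro h; exact absurd (Finset.mem_univ k) h

lemma lin_ne_zero {l : Fin 3 → K} (hl : l ≠ 0) : lin l ≠ 0 := by
  obtain ⟨k, hk⟩ := Function.ne_iff.1 hl
  intro h
  apply hk
  rw [Pi.zero_apply, ← coeff_lin l k, h, coeff_zero]

lemma prime_lin {l : Fin 3 → K} (hl : l ≠ 0) : Prime (lin l) := by
  rw [← irreducible_iff_prime]
  apply irreducible_of_totalDegree_eq_one
  · exact (lin_isHomogeneous l).totalDegree (lin_ne_zero hl)
  · intro x hx
    obtain ⟨k, hk⟩ := Function.ne_iff.1 hl
    rw [Pi.zero_apply] at hk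
    have h1 := hx (Finsupp.single k 1)
    rw [coeff_lin] at h1
    exact isUnit_iff_ne_zero.2 fun h0 => hk (by rw [h0] at h1; exact zero_dvd_iff.1 h1)

lemma cross_zero [CharZero K] {l N : Fin 3 → K} (hl : l ≠ 0)
    (h : ∀ j k, lin l ∣ X j * C (N k) - X k * C (N j)) : N = 0 := by
  have hy : ∀ y : Fin 3 → K, l 0 * y 0 + l 1 * y 1 + l 2 * y 2 = 0 → ∀ j k,
      y j * N k = y k * N j := by
    intro y hy j k
    obtain ⟨q, hq⟩ := h j k
    have h1 := congrArg (eval y) hq
    rw [map_mul, eval_lin, Fin.sum_univ_three, hy, zero_mul, map_sub, map_mul, map_mul, eval_X,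
      eval_X, eval_C, eval_C] at h1
    linear_combination h1
  have h1 := hy ![0, l 2, -l 1] (by simp; ring)
  have h2 := hy ![-l 2, 0, l 0] (by simp; ring)
  have h3 := hy ![l 1, -l 0, 0] (by simp; ring)
  have a1 := h1 0 1
  have a2 := h1 0 2
  have a3 := h1 1 2
  have b1 := h2 0 1
  have b2 := h2 0 2
  have b3 := h2 1 2
  have c1 := h3 0 1
  have c2 := h3 0 2
  have c3 := h3 1 2
  simp only [Matrix.cons_val_zero, Matrix.cons_val_one, Matrix.cons_val,
    zero_mul] at a1 a2 a3 b1 b2 b3 c1 c2 c3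
  have two : (2 : K) ≠ 0 := two_ne_zero
  have d2 : l 2 * N 2 = 0 := by
    apply mul_left_cancel₀ two
    linear_combination a3 - c1 - b2
  have d1 : l 1 * N 1 = 0 := by linear_combination a3 - d2
  have d0 : l 0 * N 0 = 0 := by linear_combination -b2 - d2
  have key : ∀ i j, l i * N j = 0 := by
    intro i j
    fin_cases i <;> fin_cases j <;> simp only [Fin.zero_eta, Fin.mk_one, Fin.reduceFinMk,
      Fin.isValue]
    · exact d0
    · linear_combination -b3
    · linear_combination -c3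
    · linear_combination a2
    · exact d1
    · linear_combination c2
    · linear_combination -a1
    · linear_combination -b1
    · exact d2
  obtain ⟨i, hi⟩ := Function.ne_iff.1 hl
  ext j
  exact (mul_eq_zero.1 (key i j)).resolve_left hi

/-- A conic through the points of a line on a cubic contains the line. -/
lemma dvd_of_line (hf : f.IsHomogeneous 3) (hf0 : f ≠ 0)
    (hJ : ∃ J, ∀ p ∈ RT 3 K (J + 1), p ∈ Ideal.span (Set.range ![f, g, h]))
    {l : Fin 3 → K} (hl : l ≠ 0) {Y : MvPolynomial (Fin 3) K} (hY : Y.IsHomogeneous 2)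
    (h1 : ∃ a b, g * Y = lin l * a + f * b) (h2 : ∃ a b, h * Y = lin l * a + f * b) :
    lin l ∣ Y := by
  obtain ⟨J, hJ⟩ := hJ
  have hmx : ∀ cs : List (Fin 3), cs.length = J → ∃ c : Fin 3 → MvPolynomial (Fin 3) K,
      Pool.Agent.H22.SLP.mx K cs = c 0 * f + c 1 * g + c 2 * h := by
    intro cs hcs
    have h3 := hJ (Pool.Agent.H22.SLP.mx K cs) (mem_RT_succ.2 (by
      rw [← hcs]; exact Pool.Agent.H22.SLP.mx_isHomogeneous cs))
    rw [Ideal.span, Submodule.mem_span_range_iff_exists_fun] at h3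
    obtain ⟨c, hc⟩ := h3
    refine ⟨c, ?_⟩
    rw [← hc, Fin.sum_univ_three]
    rfl
  obtain ⟨a, b, h1⟩ := h1
  obtain ⟨a', b', h2⟩ := h2
  have hp := prime_lin hl
  by_cases hd : lin l ∣ f
  · by_contra hY'
    have hg : lin l ∣ g := by
      refine (hp.dvd_or_dvd (a := g) (b := Y) ?_).resolve_right hY'
      rw [h1]
      exact dvd_add (dvd_mul_right _ _) (hd.mul_right _)
    have hh : lin l ∣ h := by
      refine (hp.dvd_or_dvd (a := h) (b := Y) ?_).resolve_right hY'
      rw [h2]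
      exact dvd_add (dvd_mul_right _ _) (hd.mul_right _)
    have hX : ∀ k : Fin 3, lin l ∣ X k := by
      intro k
      obtain ⟨c, hc⟩ := hmx (List.replicate J k) (List.length_replicate)
      have h3 : lin l ∣ Pool.Agent.H22.SLP.mx K (List.replicate J k) := by
        rw [hc]
        exact dvd_add (dvd_add (hd.mul_left _) (hg.mul_left _)) (hh.mul_left _)
      unfold Pool.Agent.H22.SLP.mx at h3
      rw [List.map_replicate, List.prod_replicate] at h3
      exact hp.dvd_of_dvd_pow h3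
    exact hp.not_isUnit (Pool.Agent.H22.SLP.prime_X_ne (i := 0) (j := 1) (by decide) (hX 0) (hX 1))
  · have hrel : IsRelPrime (lin l) f := hp.irreducible.isRelPrime_iff_not_dvd.2 hd
    have hYI : Y ∈ Ideal.span (Set.range ![lin l, f]) := by
      apply Pool.Agent.H22.SLP.depth_pow
        (fun e he => Pool.Agent.H22.SLP.depth hrel hf0 he) J Y
      intro cs hcs
      obtain ⟨c, hc⟩ := hmx cs hcs
      rw [Pool.Agent.H22.SLP.mem_pair]
      refine ⟨c 1 * a + c 2 * a', c 0 * Y + c 1 * b + c 2 * b', ?_⟩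
      rw [hc]
      linear_combination c 1 * h1 + c 2 * h2
    obtain ⟨u, v, huv⟩ := Pool.Agent.H22.SLP.mem_pair.1 hYI
    refine ⟨homogeneousComponent 1 u, ?_⟩
    have h3 := congrArg (homogeneousComponent 2) huv
    rw [homogeneousComponent_of_mem hY, if_pos rfl, map_add, mul_comm u, mul_comm v,
      homComp_mul (lin_isHomogeneous l), homComp_mul hf, if_pos (by norm_num),
      if_neg (by norm_num), add_zero] at h3
    exact h3

lemma evl_xc (l : Fin 3 → K) (N : Fin 3 → MvPolynomial (Fin 3) K) (j k : Fin 3) :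
    evl l (xc N j k) = X j * C (eval l (N k)) - X k * C (eval l (N j)) := by
  unfold xc
  rw [map_sub, map_mul, map_mul, evl_C, evl_C, evl_io, evl_io]

lemma xc_neg (N : Fin 3 → MvPolynomial (Fin 3) K) (j k : Fin 3) :
    xc (fun i => -N i) j k = - xc N j k := by
  unfold xc
  rw [map_neg, map_neg]
  ring

lemma N1_neg (κ : MvPolynomial (Fin 3) K) (ν : Fin 3 → MvPolynomial (Fin 3) K) :
    N1 n (-κ) (fun k => -ν k) = fun i => -N1 n κ ν i := by
  ext1 i
  unfold N1
  rw [map_neg]
  ring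

lemma N2_neg (κ : MvPolynomial (Fin 3) K) (ν : Fin 3 → MvPolynomial (Fin 3) K) :
    N2 n (-κ) (fun k => -ν k) = fun i => -N2 n κ ν i := by
  ext1 i
  unfold N2
  rw [map_neg]
  ring

/-- At a zero of `κ` one of the two vectors vanishes. -/
theorem point_alt [CharZero K] (hf : f.IsHomogeneous 3) (hf0 : f ≠ 0) (hfg : IsRelPrime f g)
    (hg : g ≠ 0) (hfh : IsRelPrime f h) (hh : h ≠ 0)
    (hJ : ∃ J, ∀ p ∈ RT 3 K (J + 1), p ∈ Ideal.span (Set.range ![f, g, h]))
    {κ : MvPolynomial (Fin 3) K} {ν : Fin 3 → MvPolynomial (Fin 3) K} {v v' : PP K}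
    (H : Rel f g n w β κ ν v) (H' : Rel f h n w α (-κ) (fun k => -ν k) v')
    {l : Fin 3 → K} (hl : l ≠ 0) (hκ : eval l κ = 0) :
    (∀ j, eval l (N1 n κ ν j) = 0) ∨ (∀ j, eval l (N2 n κ ν j) = 0) := by
  have key : ∀ j k j' k', lin l ∣ evl l (xc (N1 n κ ν) j k) * evl l (xc (N2 n κ ν) j' k') := by
    intro j k j' k'
    obtain ⟨a, b, h1⟩ := ZZ_cancel hfg hg (H.second j k j' k')
    obtain ⟨a', b', h2⟩ := ZZ_cancel hfh hh (H'.second j k j' k')
    rw [N1_neg, N2_neg, xc_neg, xc_neg] at h2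
    have h3 := congrArg (evl l) h1
    have h4 := congrArg (evl l) h2
    simp only [map_add, map_mul, map_neg, evl_io, evl_C, evl_Lam, hκ, C_0, mul_zero, zero_mul,
      zero_add, neg_zero] at h3 h4
    apply dvd_of_line hf hf0 hJ hl
    · rw [evl_xc, evl_xc]
      have e : ∀ (N : Fin 3 → MvPolynomial (Fin 3) K) (j k : Fin 3),
          (X j * C (eval l (N k)) - X k * C (eval l (N j)) :
            MvPolynomial (Fin 3) K).IsHomogeneous 1 := by
        intro N j k
        exact ((isHomogeneous_X K j).mul (isHomogeneous_C _ _)).sub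
          ((isHomogeneous_X K k).mul (isHomogeneous_C _ _))
      exact (e _ j k).mul (e _ j' k')
    · exact ⟨evl l a, evl l b, by linear_combination h3⟩
    · exact ⟨evl l a', evl l b', by linear_combination h4⟩
  by_cases hA : ∀ j k, lin l ∣ evl l (xc (N1 n κ ν) j k)
  · left
    have h1 := cross_zero (N := fun j => eval l (N1 n κ ν j)) hl (by
      intro j k
      rw [← evl_xc]
      exact hA j k)
    intro j
    exact congrFun h1 j
  · right
    push Not at hA
    obtain ⟨j, k, hjk⟩ := hA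
    have h1 := cross_zero (N := fun j => eval l (N2 n κ ν j)) hl (by
      intro j' k'
      rw [← evl_xc]
      exact ((prime_lin hl).dvd_or_dvd (key j k j' k')).resolve_left hjk)
    intro j
    exact congrFun h1 j

/-- Nullstellensatz for a prime element. -/
lemma dvd_of_vanish [IsAlgClosed K] {π p : MvPolynomial (Fin 3) K} (hπ : Prime π)
    (h : ∀ l : Fin 3 → K, eval l π = 0 → eval l p = 0) : π ∣ p := by
  have h1 : p ∈ vanishingIdeal K (zeroLocus K (Ideal.span {π})) := by
    rw [mem_vanishingIdeal_iff]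
    intro x hx
    rw [mem_zeroLocus_iff] at hx
    exact h x (hx π (Ideal.subset_span rfl))
  rw [vanishingIdeal_zeroLocus_eq_radical] at h1
  obtain ⟨m, hm⟩ := h1
  rw [Ideal.mem_span_singleton] at hm
  exact hπ.dvd_of_dvd_pow hm

lemma prime_not_dvd_X {π p : MvPolynomial (Fin 3) K} (hπ : Prime π)
    (h : ∀ i : Fin 3, π ∣ X i * p) : π ∣ p := by
  by_contra hp
  have h0 := (hπ.dvd_or_dvd (h 0)).resolve_right hp
  have h1 := (hπ.dvd_or_dvd (h 1)).resolve_right hp
  exact hπ.not_isUnit (Pool.Agent.H22.SLP.prime_X_ne (i := 0) (j := 1) (by decide) h0 h1)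

theorem parallel [CharZero K] [IsAlgClosed K] {κ π : MvPolynomial (Fin 3) K}
    {ν : Fin 3 → MvPolynomial (Fin 3) K} (hπ : Prime π) (hπκ : π ∣ κ)
    (h : ∀ l : Fin 3 → K, l ≠ 0 → eval l κ = 0 →
      (∀ j, eval l (N1 n κ ν j) = 0) ∨ (∀ j, eval l (N2 n κ ν j) = 0)) (j k : Fin 3) :
    π ∣ ν j * pderiv k π - ν k * pderiv j π := by
  have h1 : ∀ j k, π ∣ N1 n κ ν j * N2 n κ ν k := by
    intro j k
    apply prime_not_dvd_X hπ
    intro i
    apply dvd_of_vanish hπ
    intro l hl
    by_cases hl0 : l = 0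
    · rw [hl0, map_mul, eval_X, Pi.zero_apply, zero_mul]
    · have h2 : eval l κ = 0 := by
        obtain ⟨q, rfl⟩ := hπκ
        rw [map_mul, hl, zero_mul]
      rcases h l hl0 h2 with h3 | h3
      · rw [map_mul, map_mul, h3 j, zero_mul, mul_zero]
      · rw [map_mul, map_mul, h3 k, mul_zero, mul_zero]
  have h2 : (∀ j, π ∣ N1 n κ ν j) ∨ (∀ j, π ∣ N2 n κ ν j) := by
    by_cases hA : ∀ j, π ∣ N1 n κ ν j
    · exact Or.inl hA
    · push Not at hA
      obtain ⟨j, hj⟩ := hA
      exact Or.inr fun k => (hπ.dvd_or_dvd (h1 j k)).resolve_left hj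
  obtain ⟨κ₂, rfl⟩ := hπκ
  have hm : ((n : K) + 1) ≠ 0 := by exact_mod_cast Nat.succ_ne_zero n
  have key : π ∣ C ((n : K) + 1) * (ν j * pderiv k π - ν k * pderiv j π) := by
    have e1 : ∀ i, pderiv i (π * κ₂) = π * pderiv i κ₂ + κ₂ * pderiv i π := by
      intro i
      rw [Derivation.leibniz, smul_eq_mul, smul_eq_mul]
    have e2 : (C ((n : K) + 1) : MvPolynomial (Fin 3) K) = (n : MvPolynomial (Fin 3) K) + 1 := by
      simp
    rw [e2]
    rcases h2 with h2 | h2
    · obtain ⟨a, ha⟩ := h2 j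
      obtain ⟨b, hb⟩ := h2 k
      unfold N1 at ha hb
      rw [e1] at ha hb
      refine ⟨(a - pderiv j κ₂) * pderiv k π - (b - pderiv k κ₂) * pderiv j π, ?_⟩
      linear_combination pderiv k π * ha - pderiv j π * hb
    · obtain ⟨a, ha⟩ := h2 j
      obtain ⟨b, hb⟩ := h2 k
      unfold N2 at ha hb
      rw [e1] at ha hb
      refine ⟨(a + pderiv j κ₂) * pderiv k π - (b + pderiv k κ₂) * pderiv j π, ?_⟩
      linear_combination pderiv k π * ha - pderiv j π * hb
  have h3 : IsUnit (C ((n : K) + 1) : MvPolynomial (Fin 3) K) :=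
    (isUnit_iff_ne_zero.2 hm).map C
  exact (h3.dvd_mul_left).1 key

end Pool.Agent.H11.SLP
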