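import Mathlib

/-!
Factors of homogeneous polynomials are homogeneous; two coprime ternary forms, the first of which
is prime, have finitely many common zeros up to proportionality.
-/

set_option autoImplicit false

open MvPolynomial

namespace Pool.Agent.H11.SLP

variable {K : Type*} [Field K]

/-- the substitution `X_i ↦ X_i T` -/
noncomputable def sclT : MvPolynomial (Fin 3) K →ₐ[K] Polynomial (MvPolynomial (Fin 3) K) :=
  aeval (fun i => Polynomial.C (X i) * Polynomial.X)

lemma sclT_of_isHomogeneous {p : MvPolynomial (Fin 3) K} {d : ℕ} (hp : p.IsHomogeneous d) :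
    sclT p = Polynomial.C p * Polynomial.X ^ d := by
  have h1 : ∀ α ∈ p.support, sclT (monomial α (coeff α p)) =
      Polynomial.C (monomial α (coeff α p)) * Polynomial.X ^ d := by
    intro α hα
    have hd : α.degree = d := by
      by_contra h0
      exact (mem_support_iff.1 hα) (hp.coeff_eq_zero h0)
    unfold sclT
    rw [aeval_monomial, Finsupp.prod_fintype _ _ (fun i => pow_zero _)]
    simp only [mul_pow]
    rw [Finset.prod_mul_distrib, Finset.prod_pow_eq_pow_sum, ← Finsupp.degree_eq_sum, hd,
      ← mul_assoc]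
    congr 1
    rw [monomial_eq, Finsupp.prod_fintype _ _ (fun i => pow_zero _), map_mul, map_prod]
    simp only [map_pow]
    rfl
  conv_lhs => rw [p.as_sum]
  rw [map_sum, Finset.sum_congr rfl h1, ← Finset.sum_mul, ← map_sum, ← p.as_sum]

lemma coeff_sclT (p : MvPolynomial (Fin 3) K) (j : ℕ) :
    (sclT p).coeff j = homogeneousComponent j p := by
  conv_lhs => rw [← sum_homogeneousComponent p]
  rw [map_sum, Polynomial.finsetSum_coeff]
  simp only [sclT_of_isHomogeneous (homogeneousComponent_isHomogeneous _ p),
    Polynomial.coeff_C_mul_X_pow]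
  rw [Finset.sum_ite_eq]
  split_ifs with h
  · rfl
  · rw [homogeneousComponent_eq_zero]
    simpa using h

theorem isHomogeneous_of_dvd {p q : MvPolynomial (Fin 3) K} {d : ℕ} (hp : p.IsHomogeneous d)
    (hp0 : p ≠ 0) (h : q ∣ p) : ∃ e, q.IsHomogeneous e := by
  obtain ⟨r, hr⟩ := h
  have hq0 : q ≠ 0 := by rintro rfl; exact hp0 (by rw [hr, zero_mul])
  have hr0 : r ≠ 0 := by rintro rfl; exact hp0 (by rw [hr, mul_zero])
  have hinj : ∀ s : MvPolynomial (Fin 3) K, sclT s = 0 → s = 0 := by
    intro s hs
    rw [← sum_homogeneousComponent s]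
    refine Finset.sum_eq_zero fun j _ => ?_
    rw [← coeff_sclT, hs, Polynomial.coeff_zero]
  have hsq : sclT q ≠ 0 := fun h => hq0 (hinj _ h)
  have hsr : sclT r ≠ 0 := fun h => hr0 (hinj _ h)
  have h1 : sclT q * sclT r = Polynomial.C p * Polynomial.X ^ d := by
    rw [← map_mul, ← hr, sclT_of_isHomogeneous hp]
  have h2 := congrArg Polynomial.natDegree h1
  have h3 := congrArg Polynomial.natTrailingDegree h1
  rw [Polynomial.natDegree_mul hsq hsr, Polynomial.natDegree_C_mul_X_pow _ _ hp0] at h2
  rw [Polynomial.natTrailingDegree_mul hsq hsr, Polynomial.natTrailingDegree_mul_X_pow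
    (by rwa [Ne, Polynomial.C_eq_zero]), Polynomial.natTrailingDegree_C, zero_add] at h3
  have h4 := Polynomial.natTrailingDegree_le_natDegree (sclT q)
  have h5 := Polynomial.natTrailingDegree_le_natDegree (sclT r)
  have h6 : (sclT q).natTrailingDegree = (sclT q).natDegree := by omega
  refine ⟨(sclT q).natDegree, ?_⟩
  have h7 : q = homogeneousComponent (sclT q).natDegree q := by
    conv_lhs => rw [← sum_homogeneousComponent q]
    rw [Finset.sum_eq_single (sclT q).natDegree]
    · intro j _ hj
      rw [← coeff_sclT]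
      rcases lt_or_gt_of_ne hj with h | h
      · exact Polynomial.coeff_eq_zero_of_lt_natTrailingDegree (by omega)
      · exact Polynomial.coeff_eq_zero_of_natDegree_lt h
    · intro hj
      refine homogeneousComponent_eq_zero _ _ ?_
      simpa using hj
  have h8 := homogeneousComponent_isHomogeneous (sclT q).natDegree q
  rwa [← h7] at h8

/-- restriction to the line through `l` -/
noncomputable def lineHom (l : Fin 3 → K) : MvPolynomial (Fin 3) K →ₐ[K] Polynomial K :=
  aeval (fun i => Polynomial.C (l i) * Polynomial.X)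

lemma lineHom_of_isHomogeneous (l : Fin 3 → K) {p : MvPolynomial (Fin 3) K} {d : ℕ}
    (hp : p.IsHomogeneous d) : lineHom l p = Polynomial.C (eval l p) * Polynomial.X ^ d := by
  have h : (lineHom l).toRingHom = (Polynomial.mapRingHom (eval l)).comp
      (sclT : MvPolynomial (Fin 3) K →ₐ[K] _).toRingHom := by
    apply MvPolynomial.ringHom_ext
    · intro a
      simp only [sclT, lineHom, AlgHom.toRingHom_eq_coe, RingHom.coe_comp, RingHom.coe_coe,
        Function.comp_apply]
      rw [← algebraMap_eq, AlgHom.commutes, AlgHom.commutes]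
      rw [IsScalarTower.algebraMap_apply K (MvPolynomial (Fin 3) K)
        (Polynomial (MvPolynomial (Fin 3) K))]
      simp [algebraMap_eq]
    · intro i
      simp [sclT, lineHom]
  have h2 := RingHom.congr_fun h p
  simp only [AlgHom.toRingHom_eq_coe, RingHom.coe_comp, RingHom.coe_coe,
        Function.comp_apply] at h2
  rw [h2, sclT_of_isHomogeneous hp]
  simp

lemma lineHom_X (l : Fin 3 → K) (i : Fin 3) :
    lineHom l (X i) = Polynomial.C (l i) * Polynomial.X := by
  simp [lineHom]

theorem finite_common_zeros' {π ρ : MvPolynomial (Fin 3) K} {d e : ℕ}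
    (hπ : Prime π) (hπh : π.IsHomogeneous d) (hρh : ρ.IsHomogeneous e) (h : ¬ π ∣ ρ) :
    ∃ Z : Finset (Fin 3 → K), (∀ a ∈ Z, a ≠ 0) ∧
      ∀ l : Fin 3 → K, l ≠ 0 → eval l π = 0 → eval l ρ = 0 → ∃ a ∈ Z, ∃ c : K, l = c • a := by
  classical
  set I : Ideal (MvPolynomial (Fin 3) K) := Ideal.span {π, ρ} with hI
  have hfin := Ideal.finite_minimalPrimes_of_isNoetherianRing _ I
  -- the key statement
  have key : ∀ l : Fin 3 → K, l ≠ 0 → eval l π = 0 → eval l ρ = 0 →
      RingHom.ker (lineHom l) ∈ I.minimalPrimes := by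
    intro l hl h1 h2
    have hp : (RingHom.ker (lineHom l)).IsPrime := RingHom.ker_isPrime _
    have hle : I ≤ RingHom.ker (lineHom l) := by
      rw [hI, Ideal.span_le]
      intro x hx
      rcases hx with rfl | hx
      · rw [SetLike.mem_coe, RingHom.mem_ker, lineHom_of_isHomogeneous l hπh, h1]
        simp
      · rw [Set.mem_singleton_iff] at hx
        subst hx
        rw [SetLike.mem_coe, RingHom.mem_ker, lineHom_of_isHomogeneous l hρh, h2]
        simp
    obtain ⟨P, hP, hPle⟩ := Ideal.exists_minimalPrimes_le hle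
    by_cases hPe : P = RingHom.ker (lineHom l)
    · rw [← hPe]; exact hP
    · exfalso
      have : P.IsPrime := hP.1.1
      have hIP : I ≤ P := hP.1.2
      have hlt3 : P < RingHom.ker (lineHom l) := lt_of_le_of_ne hPle hPe
      have hlt2 : Ideal.span {π} < P := by
        refine lt_of_le_of_ne ?_ ?_
        · rw [Ideal.span_singleton_le_iff_mem]
          exact hIP (Ideal.subset_span (by simp))
        · intro hc
          apply h
          rw [← Ideal.mem_span_singleton, hc]
          exact hIP (Ideal.subset_span (by simp))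
      have hlt1 : (⊥ : Ideal (MvPolynomial (Fin 3) K)) < Ideal.span {π} := by
        rw [bot_lt_iff_ne_bot, Ne, Ideal.span_singleton_eq_bot]
        exact hπ.ne_zero
      have hp1 : (Ideal.span {π}).IsPrime := (Ideal.span_singleton_prime hπ.ne_zero).2 hπ
      have hp0 : (⊥ : Ideal (MvPolynomial (Fin 3) K)).IsPrime := Ideal.isPrime_bot
      have hp4 : (RingHom.ker (eval (0 : Fin 3 → K))).IsPrime := RingHom.ker_isPrime _
      have hlt4 : RingHom.ker (lineHom l) < RingHom.ker (eval (0 : Fin 3 → K)) := by
        rw [lt_iff_le_not_ge]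
        constructor
        · intro x hx
          rw [RingHom.mem_ker] at hx ⊢
          have h5 : eval (0 : Fin 3 → K) x = (lineHom l x).eval 0 := by
            have h6 : eval (0 : Fin 3 → K) =
                (Polynomial.evalRingHom 0).comp (lineHom l).toRingHom := by
              apply MvPolynomial.ringHom_ext
              · intro a
                simp [lineHom]
              · intro i
                simp [lineHom]
            exact RingHom.congr_fun h6 x
          rw [h5, hx]
          simp
        · intro hc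
          obtain ⟨i, hi⟩ := Function.ne_iff.1 hl
          have h5 : X i ∈ RingHom.ker (eval (0 : Fin 3 → K)) := by
            rw [RingHom.mem_ker]; simp
          have h6 := hc h5
          rw [RingHom.mem_ker, lineHom_X] at h6
          simp only [mul_eq_zero, Polynomial.C_eq_zero, Polynomial.X_ne_zero, or_false] at h6
          exact hi h6
      have hdim : ringKrullDim (MvPolynomial (Fin 3) K) = 3 := by
        rw [MvPolynomial.ringKrullDim_of_isNoetherianRing]
        simp
      let q0 : PrimeSpectrum (MvPolynomial (Fin 3) K) := ⟨⊥, hp0⟩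
      let q1 : PrimeSpectrum (MvPolynomial (Fin 3) K) := ⟨Ideal.span {π}, hp1⟩
      let q2 : PrimeSpectrum (MvPolynomial (Fin 3) K) := ⟨P, ‹_›⟩
      let q3 : PrimeSpectrum (MvPolynomial (Fin 3) K) := ⟨RingHom.ker (lineHom l), hp⟩
      let q4 : PrimeSpectrum (MvPolynomial (Fin 3) K) := ⟨RingHom.ker (eval (0 : Fin 3 → K)), hp4⟩
      have hser : ∃ s : LTSeries (PrimeSpectrum (MvPolynomial (Fin 3) K)), s.length = 4 :=
        ⟨{ length := 4
           toFun := ![q0, q1, q2, q3, q4]
           step := by
            intro i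
            fin_cases i
            · exact hlt1
            · exact hlt2
            · exact hlt3
            · exact hlt4 }, rfl⟩
      obtain ⟨s, hs⟩ := hser
      have h7 := Order.LTSeries.length_le_krullDim s
      rw [hs] at h7
      change ((4 : ℕ) : WithBot ℕ∞) ≤ ringKrullDim (MvPolynomial (Fin 3) K) at h7
      rw [hdim] at h7
      have h8 : ((4 : ℕ) : WithBot ℕ∞) ≤ ((3 : ℕ) : WithBot ℕ∞) := h7
      have h9 : (4 : ℕ) ≤ 3 := by exact_mod_cast h8
      omega
  let g : Ideal (MvPolynomial (Fin 3) K) → (Fin 3 → K) := fun P =>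
    if h : ∃ a : Fin 3 → K, a ≠ 0 ∧ RingHom.ker (lineHom a) = P then h.choose else fun _ => 1
  refine ⟨hfin.toFinset.image g, ?_, ?_⟩
  · intro a ha
    rw [Finset.mem_image] at ha
    obtain ⟨P, _, rfl⟩ := ha
    by_cases h : ∃ a : Fin 3 → K, a ≠ 0 ∧ RingHom.ker (lineHom a) = P
    · simp only [g, dif_pos h]
      exact h.choose_spec.1
    · simp only [g, dif_neg h]
      intro h0
      exact one_ne_zero (congrFun h0 0)
  · intro l hl h1 h2
    have h3 := key l hl h1 h2
    have h4 : ∃ a : Fin 3 → K, a ≠ 0 ∧ RingHom.ker (lineHom a) = RingHom.ker (lineHom l) :=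
      ⟨l, hl, rfl⟩
    refine ⟨g (RingHom.ker (lineHom l)), Finset.mem_image_of_mem g (by simpa using h3), ?_⟩
    simp only [g, dif_pos h4]
    obtain ⟨ha, hker⟩ := h4.choose_spec
    set a := h4.choose
    obtain ⟨i, hi⟩ := Function.ne_iff.1 ha
    refine ⟨l i / a i, ?_⟩
    funext j
    have h5 : C (a i) * X j - C (a j) * X i ∈ RingHom.ker (lineHom a) := by
      rw [RingHom.mem_ker, map_sub, map_mul, map_mul, lineHom_X, lineHom_X]
      simp only [lineHom, algHom_C, Polynomial.algebraMap_eq]
      ring
    rw [hker, RingHom.mem_ker, map_sub, map_mul, map_mul, lineHom_X, lineHom_X] at h5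
    simp only [lineHom, algHom_C, Polynomial.algebraMap_eq] at h5
    have h6 := congrArg (fun p : Polynomial K => p.eval 1) h5
    simp only [Polynomial.eval_sub, Polynomial.eval_mul, Polynomial.eval_C, Polynomial.eval_X,
      Polynomial.eval_zero, mul_one] at h6
    simp only [Pi.smul_apply, smul_eq_mul]
    have hi' : a i ≠ 0 := hi
    field_simp
    linear_combination h6

theorem finite_common_zeros [IsAlgClosed K] {π ρ : MvPolynomial (Fin 3) K} {d e : ℕ}
    (hπ : Prime π) (hπh : π.IsHomogeneous d) (hρh : ρ.IsHomogeneous e) (h : ¬ π ∣ ρ) :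
    ∃ Z : Finset (Fin 3 → K), (∀ a ∈ Z, a ≠ 0) ∧
      ∀ l : Fin 3 → K, l ≠ 0 → eval l π = 0 → eval l ρ = 0 → ∃ a ∈ Z, ∃ c : K, l = c • a :=
  finite_common_zeros' hπ hπh hρh h

end Pool.Agent.H11.SLP
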