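import Pool.Agent.H11.SLP.Point
import Pool.Agent.H11.SLP.Elim

/-!
Torsion freeness and specialization (job CUBIC-TORS).
-/

set_option autoImplicit false

open MvPolynomial

namespace Pool.Agent.H11.SLP

open Pool.Agent.H4.Apolar

variable {K : Type*} [Field K]

/-- a linear functional applied to the coefficients -/
noncomputable def tf (θ : MvPolynomial (Fin 3) K →ₗ[K] K) (u : PP K) : MvPolynomial (Fin 3) K :=
  ∑ n ∈ u.support, monomial n (θ (coeff n u))

lemma coeff_tf (θ : MvPolynomial (Fin 3) K →ₗ[K] K) (u : PP K) (m : Fin 3 →₀ ℕ) :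
    coeff m (tf θ u) = θ (coeff m u) := by
  classical
  unfold tf
  rw [coeff_sum]
  simp only [coeff_monomial]
  rw [Finset.sum_ite_eq' u.support m]
  split_ifs with h
  · rfl
  · rw [notMem_support_iff.1 h, map_zero]

lemma tf_io_mul (θ : MvPolynomial (Fin 3) K →ₗ[K] K) (d : MvPolynomial (Fin 3) K) (u : PP K) :
    tf θ (io d * u) = d * tf θ u := by
  classical
  ext m
  rw [coeff_tf, coeff_mul, coeff_mul, map_sum]
  apply Finset.sum_congr rfl
  intro p _
  rw [coeff_io, coeff_tf, ← smul_eq_C_mul, map_smul, smul_eq_mul]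

theorem inC_of_io_mul {J : Ideal (MvPolynomial (Fin 3) K)} {d : MvPolynomial (Fin 3) K}
    (hd : d ≠ 0) {u : PP K} (h : InC J (io d * u)) : InC J u := by
  intro n
  by_contra hn
  have h1 : (Ideal.Quotient.mk J (coeff n u)) ≠ 0 := by
    intro h0
    exact hn (Ideal.Quotient.eq_zero_iff_mem.1 h0)
  have h2 : ∃ φ : Module.Dual K (MvPolynomial (Fin 3) K ⧸ J),
      φ (Ideal.Quotient.mk J (coeff n u)) ≠ 0 := by
    by_contra hall
    push Not at hall
    exact h1 ((Module.forall_dual_apply_eq_zero_iff K _).1 hall)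
  obtain ⟨φ, hφ⟩ := h2
  let θ : MvPolynomial (Fin 3) K →ₗ[K] K := φ ∘ₗ (Ideal.Quotient.mkₐ K J).toLinearMap
  have h3 : tf θ (io d * u) = 0 := by
    ext m
    rw [coeff_tf, coeff_zero]
    change φ (Ideal.Quotient.mk J (coeff m (io d * u))) = 0
    rw [Ideal.Quotient.eq_zero_iff_mem.2 (h m), map_zero]
  rw [tf_io_mul] at h3
  have h4 := (mul_eq_zero.1 h3).resolve_left hd
  apply hφ
  have h5 := coeff_tf θ u n
  rw [h4, coeff_zero] at h5
  exact h5.symm

lemma eval_evx (x l : Fin 3 → K) (w : PP K) : eval l (evx x w) = eval x (evl l w) := by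
  have : (eval l).comp (evx x) = (eval x).comp (evl l) := by
    apply MvPolynomial.ringHom_ext
    · intro a
      simp only [RingHom.comp_apply, evx_C, eval_C, evl_C]
    · intro k
      simp only [RingHom.comp_apply, evx_X, eval_X, evl_X, eval_C]
  exact RingHom.congr_fun this w

lemma eval_tf (θ : MvPolynomial (Fin 3) K →ₗ[K] K) (l : Fin 3 → K) (w : PP K) :
    eval l (tf θ w) = θ (evl l w) := by
  unfold tf evl
  rw [map_sum, eval_eq, map_sum]
  apply Finset.sum_congr rfl
  intro n _
  have h1 : (∏ i ∈ n.support, (fun k => (C (l k) : MvPolynomial (Fin 3) K)) i ^ n i)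
      = C (∏ i ∈ n.support, l i ^ n i) := by
    rw [map_prod]
    apply Finset.prod_congr rfl
    intro i _
    rw [C_pow]
  rw [h1, mul_comm, ← smul_eq_C_mul, map_smul, smul_eq_mul, eval_monomial, mul_comm]
  rfl

theorem exists_specialize [IsAlgClosed K] {f π : MvPolynomial (Fin 3) K} (hπ : Prime π)
    {w : PP K} (hw : ¬ ∃ a b, w = io π * a + C f * b) :
    ∃ F : MvPolynomial (Fin 3) K, ¬ f ∣ F ∧ ∀ x, eval x F ≠ 0 → ¬ π ∣ evx x w := by
  classical
  have h1 : ∃ l : Fin 3 → K, eval l π = 0 ∧ ¬ f ∣ evl l w := by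
    by_contra hall
    push Not at hall
    apply hw
    let J : Ideal (MvPolynomial (Fin 3) K) := Ideal.span {f}
    let B := Module.Basis.ofVectorSpace K (MvPolynomial (Fin 3) K ⧸ J)
    let mk : MvPolynomial (Fin 3) K →ₗ[K] (MvPolynomial (Fin 3) K ⧸ J) :=
      (Ideal.Quotient.mkₐ K J).toLinearMap
    have hmk : ∀ r, mk r = 0 ↔ r ∈ J := fun r => Ideal.Quotient.eq_zero_iff_mem
    have hsurj : Function.Surjective mk := Ideal.Quotient.mk_surjective
    choose b hb using fun j => hsurj (B j)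
    let θ := fun j => (B.coord j) ∘ₗ mk
    have hq : ∀ j, ∃ q, tf (θ j) w = π * q := by
      intro j
      apply dvd_of_vanish hπ
      intro l hl
      rw [eval_tf]
      change B.coord j (mk (evl l w)) = 0
      rw [(hmk _).2 (Ideal.mem_span_singleton.2 (hall l hl)), map_zero]
    choose q hq using hq
    let J0 : Finset _ := w.support.biUnion fun n => (B.repr (mk (coeff n w))).support
    have hC : C f ∣ w - io π * ∑ j ∈ J0, C (b j) * io (q j) := by
      rw [C_dvd_iff_dvd_coeff]
      intro n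
      have e1 : io π * ∑ j ∈ J0, C (b j) * io (q j) = ∑ j ∈ J0, C (b j) * io (tf (θ j) w) := by
        rw [Finset.mul_sum]
        apply Finset.sum_congr rfl
        intro j _
        rw [hq j, map_mul]
        ring
      rw [e1, coeff_sub, coeff_sum]
      simp only [coeff_C_mul, coeff_io, coeff_tf]
      rw [← Ideal.mem_span_singleton]
      change _ ∈ J
      rw [← hmk, map_sub, map_sum]
      have e2 : ∀ j, mk (b j * C (θ j (coeff n w))) = (B.repr (mk (coeff n w)) j) • B j := by
        intro j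
        rw [mul_comm, ← smul_eq_C_mul, map_smul, hb]
        rfl
      simp only [e2]
      rw [sub_eq_zero]
      conv_lhs => rw [← B.linearCombination_repr (mk (coeff n w)), Finsupp.linearCombination_apply,
        Finsupp.sum]
      by_cases hn : n ∈ w.support
      · apply Finset.sum_subset
        · exact Finset.subset_biUnion_of_mem (fun n => (B.repr (mk (coeff n w))).support) hn
        · intro j _ hj
          rw [Finsupp.notMem_support_iff.1 hj, zero_smul]
      · rw [notMem_support_iff.1 hn]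
        simp
    obtain ⟨c, hc⟩ := hC
    exact ⟨∑ j ∈ J0, C (b j) * io (q j), c, by rw [← hc]; ring⟩
  obtain ⟨l, hl, hF⟩ := h1
  refine ⟨evl l w, hF, fun x hx hd => hx ?_⟩
  rw [← eval_evx]
  obtain ⟨c, hc⟩ := hd
  rw [hc, map_mul, hl, zero_mul]

theorem exists_vec_pow {π : MvPolynomial (Fin 3) K} (hπ : Prime π)
    {ν : Fin 3 → MvPolynomial (Fin 3) K} (hν : ν ≠ 0) :
    ∃ (r : ℕ) (ν₁ : Fin 3 → MvPolynomial (Fin 3) K), (∀ k, ν k = π ^ r * ν₁ k) ∧
      ∃ k, ¬ π ∣ ν₁ k := by
  classical
  obtain ⟨k0, hk0⟩ := Function.ne_iff.1 hν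
  have hfin : FiniteMultiplicity π (ν k0) := FiniteMultiplicity.of_prime_left hπ hk0
  have hex : ∃ r : ℕ, ¬ ∀ k, π ^ (r + 1) ∣ ν k := by
    obtain ⟨n, hn⟩ := hfin
    exact ⟨n, fun h => hn (h k0)⟩
  let r := Nat.find hex
  have hr : ¬ ∀ k, π ^ (r + 1) ∣ ν k := Nat.find_spec hex
  have hr' : ∀ k, π ^ r ∣ ν k := by
    rcases Nat.eq_zero_or_pos r with h0 | h0
    · intro k
      rw [h0, pow_zero]
      exact one_dvd _
    · have := Nat.find_min hex (m := r - 1) (by omega)
      rw [not_not, Nat.sub_add_cancel h0] at this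
      exact this
  choose ν₁ hν₁ using hr'
  refine ⟨r, ν₁, hν₁, ?_⟩
  by_contra hall
  push Not at hall
  apply hr
  intro k
  rw [hν₁ k, pow_succ]
  exact mul_dvd_mul_left _ (hall k)

end Pool.Agent.H11.SLP
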