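import Pool.Agent.H11.SLP.Kap
import Pool.Agent.H11.SLP.Point
import Pool.Agent.H11.SLP.LemF
import Pool.Agent.H11.SLP.Tors
import Pool.Agent.H11.SLP.Avoid

/-!
The induction step for an irreducible cubic.
-/

set_option autoImplicit false

open MvPolynomial

namespace Pool.Agent.H11.SLP

open Pool.Agent.H4.Apolar Pool.Agent.H4.Descent Pool.Agent.H4.Ternary

variable {K : Type*} [Field K]

/-- A prime form of degree at least two does not divide a product of forms which it does not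
divide. -/
lemma not_dvd_multiset {f : MvPolynomial (Fin 3) K} (hf : Prime f)
    (F : MvPolynomial (Fin 3) K → MvPolynomial (Fin 3) K)
    (S : Multiset (MvPolynomial (Fin 3) K)) (hF : ∀ π ∈ S, ¬ f ∣ F π) :
    ¬ f ∣ (S.map F).prod := by
  intro h
  obtain ⟨a, ha, hfa⟩ := hf.exists_mem_multiset_map_dvd h
  exact hF a ha hfa

lemma eval_prod_ne {x : Fin 3 → K} (F : MvPolynomial (Fin 3) K → MvPolynomial (Fin 3) K)
    {S : Multiset (MvPolynomial (Fin 3) K)} (h : eval x (S.map F).prod ≠ 0) :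
    ∀ π ∈ S, eval x (F π) ≠ 0 := by
  intro π hπ h0
  apply h
  obtain ⟨q, hq⟩ := Multiset.dvd_prod (Multiset.mem_map_of_mem F hπ)
  rw [hq, map_mul, h0, zero_mul]

lemma lam_pow_C {J : Ideal (MvPolynomial (Fin 3) K)} [CharZero K] (s : ℕ) :
    ∀ {u : MvPolynomial (Fin 3) K}, InC J (Lam K ^ s * C u) →
    ∀ cs : List (Fin 3), cs.length = s → Pool.Agent.H22.SLP.mx K cs * u ∈ J := by
  induction s with
  | zero =>
    intro u h cs hcs
    rw [List.length_eq_zero_iff.1 hcs, Pool.Agent.H22.SLP.mx_nil, one_mul]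
    rw [pow_zero, one_mul, inC_C] at h
    exact h
  | succ s ih =>
    intro u h cs hcs
    obtain ⟨k, cs, rfl⟩ := List.exists_cons_of_length_eq_add_one hcs
    rw [Pool.Agent.H22.SLP.mx_cons, mul_comm (X k), mul_assoc]
    apply ih _ cs (by simpa using hcs)
    have h1 := h.pderiv k
    rw [Derivation.leibniz, pderiv_C, smul_zero, zero_add, pderiv_Lam_pow, smul_eq_mul] at h1
    have h3 : ((s : K) + 1) ≠ 0 := by exact_mod_cast Nat.succ_ne_zero s
    apply InC.smul_cancel h3
    have h4 : C (C ((s : K) + 1)) * (Lam K ^ s * C (X k * u)) =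
        C u * (((s : PP K) + 1) * Lam K ^ s * C (X k)) := by
      simp only [map_add, map_natCast, map_one, map_mul]
      ring
    rwa [h4]

theorem core [CharZero K] [IsAlgClosed K] {f g h : MvPolynomial (Fin 3) K} {b c i : ℕ}
    (hf : Prime f) (hfh : f.IsHomogeneous 3) (hg : g.IsHomogeneous b) (hh : h.IsHomogeneous c)
    (hfg : IsRelPrime f g) (hfh' : IsRelPrime f h) (hg0 : g ≠ 0) (hh0 : h ≠ 0)
    (hJ : ∃ J, ∀ p ∈ RT 3 K (J + 1), p ∈ Ideal.span (Set.range ![f, g, h]))
    (hi : 2 ≤ i) (hib : i + 2 ≤ b) (hbc : b ≤ c)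
    (hsoc : ∀ w₀ : MvPolynomial (Fin 3) K, w₀.IsHomogeneous i →
      (∀ cs : List (Fin 3), cs.length = b + c - 2 * i →
        Pool.Agent.H22.SLP.mx K cs * w₀ ∈ Ideal.span (Set.range ![f, g, h])) →
      w₀ ∈ Ideal.span (Set.range ![f, g, h]))
    (hprev : GI (Ideal.span (Set.range ![f, g, h])) (i - 1) (b + c - 2 * (i - 1))) :
    GI (Ideal.span (Set.range ![f, g, h])) i (b + c - 2 * i) := by
  set J := Ideal.span (Set.range ![f, g, h]) with hJd
  obtain ⟨n, hn⟩ : ∃ n, b + c - 2 * i = n + 1 := ⟨b + c - 2 * i - 1, by omega⟩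
  rw [hn] at hsoc ⊢
  have hf3 : IsRelPrime f (X 0) := by
    rw [hf.irreducible.isRelPrime_iff_not_dvd]
    intro hd
    have h1 := totalDegree_le_of_dvd_of_isDomain hd (X_ne_zero 0)
    rw [hfh.totalDegree hf.ne_zero, totalDegree_X] at h1
    omega
  have hmem : f ∈ J := Ideal.subset_span ⟨0, rfl⟩
  suffices key : ∀ ω, ∀ w : PP K, XH i w → w.IsHomogeneous ω → InC J (Lam K ^ (n + 1) * w) →
      ∃ v, w = C f * v by
    intro w hw H
    apply InC.of_homComp
    intro δ
    obtain ⟨v, hv⟩ := key δ (homogeneousComponent δ w) (XH_homComp hw δ)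
      (homogeneousComponent_isHomogeneous _ _) (by
        rw [← homComp_mul_add (Lam_pow_isHomogeneous (n + 1))]
        exact H.homComp _)
    rw [hv, mul_comm]
    exact (inC_C.2 hmem).mul_left _
  intro ω
  induction ω using Nat.strong_induction_on with
  | _ ω ih =>
  intro w hw hw' HI
  by_contra hwf
  push Not at hwf
  obtain ⟨α, β, H⟩ := exists_dat (b' := b - i) (c' := c - i) hfh
    (by rwa [show b - i + i = b by omega]) (by rwa [show c - i + i = c by omega]) (by omega)
    hw hw' HI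
  obtain ⟨κ, ν, hkn, hκh, hνh⟩ := H.exists_KN hfg hg0
  have hwZ : ¬ ZZ f w := by
    intro hz
    obtain ⟨a, a', hab, ha1, ha2⟩ := ZZ_bihom hfh hw hw' hz
    have h1 : InC J (Lam K ^ (b + c - 2 * (i - 1)) * a) := by
      have h2 : Lam K ^ (b + c - 2 * (i - 1)) * a =
          Lam K * (Lam K ^ (n + 1) * w) - (Lam K ^ (n + 2) * a') * C f := by
        rw [show b + c - 2 * (i - 1) = n + 3 by omega, hab]
        ring
      rw [h2]
      exact (HI.mul_left _).sub ((inC_C.2 hmem).mul_left _)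
    have h3 := hprev a ha1 h1
    have h4 : InC J w := by
      rw [hab]
      exact (h3.mul_left _).add (by rw [mul_comm]; exact (inC_C.2 hmem).mul_left _)
    obtain ⟨v, hv⟩ := dvd_of_inC hfh hg hh (by omega) (by omega) hw h4
    exact hwf v hv
  have hκ0 : κ ≠ 0 := H.kap_ne hf hf3 hfg hg0 (by omega) (by omega) (by omega) hwf hwZ hkn hνh
  rcases Nat.eq_zero_or_pos ω with hω | hω
  · -- the constant case
    subst hω
    have h1 : w = C (coeff 0 w) := by
      rw [← totalDegree_eq_zero_iff_eq_C]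
      exact Nat.le_zero.1 hw'.totalDegree_le
    rw [h1] at HI
    have h2 := hsoc (coeff 0 w) (hw 0) (fun cs hcs => lam_pow_C (n + 1) HI cs hcs)
    have h3 : InC J w := by rw [h1]; exact inC_C.2 h2
    obtain ⟨v, hv⟩ := dvd_of_inC hfh hg hh (by omega) (by omega) hw h3
    exact hwf v hv
  have hEu := H.euler hkn
  have hν0 : ν ≠ 0 := by
    rintro rfl
    apply hκ0
    have : κ = -∑ k : Fin 3, X k * (0 : Fin 3 → MvPolynomial (Fin 3) K) k := by rw [hEu, neg_neg]
    rw [this]
    simp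
  obtain ⟨v, hrel⟩ := H.exists_rel hfg hg0 (by omega) hkn
  obtain ⟨v', hrel'⟩ := H.swap.exists_rel hfh' hh0 (by omega) hkn.swap
  have hpt : ∀ l : Fin 3 → K, l ≠ 0 → eval l κ = 0 →
      (∀ j, eval l (N1 n κ ν j) = 0) ∨ (∀ j, eval l (N2 n κ ν j) = 0) :=
    fun l hl hκ => point_alt hfh hf.ne_zero hfg hg0 hfh' hh0 hJ hrel hrel' hl hκ
  -- the primes dividing `κ`
  have hprime : ∀ π ∈ UniqueFactorizationMonoid.factors κ, Prime π :=
    fun π hπ => UniqueFactorizationMonoid.prime_of_factor π hπ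
  have hdvd : ∀ π ∈ UniqueFactorizationMonoid.factors κ, π ∣ κ :=
    fun π hπ => UniqueFactorizationMonoid.dvd_of_mem_factors hπ
  have hspec : ∀ π ∈ UniqueFactorizationMonoid.factors κ,
      ∃ F : MvPolynomial (Fin 3) K, ¬ f ∣ F ∧ ∀ x, eval x F ≠ 0 → ¬ π ∣ evx x w := by
    intro π hπ
    apply exists_specialize (hprime π hπ)
    rintro ⟨a, a', hab⟩
    obtain ⟨d, hd⟩ := isHomogeneous_of_dvd hκh hκ0 (hdvd π hπ)
    have hd1 : 1 ≤ d := by
      by_contra hd0
      have hd0 : d = 0 := by omega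
      subst hd0
      have h1 : π = C (coeff 0 π) := by
        rw [← totalDegree_eq_zero_iff_eq_C]
        exact Nat.le_zero.1 hd.totalDegree_le
      apply (hprime π hπ).not_isUnit
      rw [h1]
      apply IsUnit.map
      rw [isUnit_iff_ne_zero]
      intro h0
      apply (hprime π hπ).ne_zero
      rw [h1, h0, C_0]
    have h2 := congrArg (cm i ω) hab
    rw [cm_self hw hw', cm_add] at h2
    obtain ⟨q, hq⟩ := cm_C_mul hfh a' i ω
    have h3 : ∃ w', cm i ω (io π * a) = io π * w' ∧ XH i w' ∧ w'.IsHomogeneous (ω - d) := by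
      by_cases hdω : d ≤ ω
      · have h4 := cm_mul (XH_io π) (io_isHomogeneous hd) a i (ω - d)
        rw [zero_add, show d + (ω - d) = ω by omega] at h4
        exact ⟨_, h4, XH_cm _ _ _, cm_isHomogeneous _ _ _⟩
      · refine ⟨0, ?_, XH.zero _, isHomogeneous_zero _ _ _⟩
        unfold cm
        rw [hx_mul (XH_io π), if_pos (Nat.zero_le _), homComp_mul (io_isHomogeneous hd),
          if_neg hdω, mul_zero]
    obtain ⟨w', hw1, hw2, hw3⟩ := h3
    rw [hw1, hq] at h2
    have h5 : InC J (Lam K ^ (n + 1) * w') := by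
      apply inC_of_io_mul (hprime π hπ).ne_zero
      have h6 : io π * (Lam K ^ (n + 1) * w') = Lam K ^ (n + 1) * w -
          (Lam K ^ (n + 1) * q) * C f := by
        rw [h2]; ring
      rw [h6]
      exact HI.sub ((inC_C.2 hmem).mul_left _)
    obtain ⟨v'', hv''⟩ := ih (ω - d) (by omega) w' hw2 hw3 h5
    exact hwf (io π * v'' + q) (by rw [h2, hv'']; ring)
  choose! F hF1 hF2 using hspec
  obtain ⟨F₀, hF₀, hav⟩ := exists_avoid hf hfh (by norm_num) hκh hκ0 hνh hν0
  -- a general point of the cubic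
  obtain ⟨x, hxf, hx⟩ : ∃ x : Fin 3 → K, eval x f = 0 ∧
      eval x (g * (F₀ * ((UniqueFactorizationMonoid.factors κ).map F).prod)) ≠ 0 := by
    by_contra hcon
    push Not at hcon
    have h1 := dvd_of_vanish hf hcon
    rcases hf.dvd_or_dvd h1 with h2 | h2
    · exact hf.not_isUnit (hfg dvd_rfl h2)
    rcases hf.dvd_or_dvd h2 with h3 | h3
    · exact hF₀ h3
    · exact not_dvd_multiset hf F _ hF1 h3
  rw [map_mul, map_mul, mul_ne_zero_iff, mul_ne_zero_iff] at hx
  obtain ⟨hgx, hF₀x, hFx⟩ := hx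
  have hx0 : x ≠ 0 := by
    rintro rfl
    exact hgx (Pool.Agent.H22.SLP.eval_zero_of_isHomogeneous hg (by omega))
  obtain ⟨hlκ, hav⟩ := hav x hx0 hF₀x
  have hwx := fun π hπ => hF2 π hπ x (eval_prod_ne F hFx π hπ)
  -- a zero of `w_x` on the line of `x`
  obtain ⟨l, hl0, hl⟩ := Pool.Agent.H6.exists_ne_zero_common_zero
    (H := ![lin x, evx x w]) (by
      intro j
      fin_cases j
      · exact Pool.Agent.H22.SLP.eval_zero_of_isHomogeneous (lin_isHomogeneous x) le_rfl
      · exact Pool.Agent.H22.SLP.eval_zero_of_isHomogeneous (evx_isHomogeneous x hw') hω)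
    (by simp)
  have hl1 : eval l (lin x) = 0 := hl 0
  have hl2 : eval l (evx x w) = 0 := hl 1
  have hκl : eval l κ = 0 := by
    obtain ⟨r, hr⟩ := hrel.r1
    have h1 := congrArg (fun u => eval l (evx x u)) hr
    simp only [map_add, map_mul, evx_C, evx_io, evx_Lam, hxf, hl1, hl2, eval_C] at h1
    have h2 : eval x g * eval l κ = 0 := by linear_combination -h1
    exact (mul_eq_zero.1 h2).resolve_left hgx
  obtain ⟨π, hπ, hπl⟩ : ∃ π ∈ UniqueFactorizationMonoid.factors κ, eval l π = 0 := by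
    obtain ⟨u, hu⟩ := UniqueFactorizationMonoid.factors_prod hκ0
    rw [← hu, map_mul] at hκl
    rcases mul_eq_zero.1 hκl with h1 | h1
    · by_contra hcon
      push Not at hcon
      rw [map_multiset_prod, Multiset.prod_eq_zero_iff, Multiset.mem_map] at h1
      obtain ⟨π, hπ, h2⟩ := h1
      exact hcon π hπ h2
    · exact absurd h1 ((u.isUnit.map (eval l)).ne_zero)
  obtain ⟨hπx, m, r, κ₁, ν₁, hm, hκm, hκ₁, hνr, hν₁, hfin⟩ := hav π hπ
  apply hfin l hl0 hl1 hπl
  obtain ⟨γ, hγ⟩ := H.eq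
  refine lemF (α := evx x α) (β := evx x β) (w := evx x w) (g₀ := eval x g) (h₀ := eval x h)
    (n := n) hx0 ?_ ?_ hEu (hprime π hπ) (hwx π hπ) hπx hlκ hm hκm hκ₁ hνr hν₁
    (parallel (hprime π hπ) (hdvd π hπ) hpt) hl1 hl2 hπl
  · have h1 := congrArg (evx x) hγ
    simp only [map_add, map_mul, map_pow, evx_C, evx_Lam, hxf, C_0, zero_mul, add_zero] at h1
    exact h1
  · intro k
    obtain ⟨r, hr⟩ := hkn k
    have h1 := congrArg (evx x) hr
    unfold cr at h1
    simp only [map_add, map_sub, map_mul, map_pow, evx_C, evx_io, evx_Lam, evx_pderiv, hxf, C_0,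
      zero_mul, add_zero, eval_X] at h1
    exact h1

end Pool.Agent.H11.SLP
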