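import Pool.Agent.H11.SLP.Reg

/-!
The cross product of the coefficients with their derivatives.
-/

set_option autoImplicit false

open MvPolynomial

namespace Pool.Agent.H11.SLP

open Pool.Agent.H4.Apolar Pool.Agent.H4.Descent

variable {K : Type*} [Field K]

/-- Evaluation at a point of the plane. -/
noncomputable def evx (x : Fin 3 → K) : PP K →+* MvPolynomial (Fin 3) K :=
  MvPolynomial.map (eval x)

/-- The polynomials in `ℓ` with constant coefficients. -/
noncomputable def io : MvPolynomial (Fin 3) K →+* PP K := MvPolynomial.map C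

lemma evx_C (x : Fin 3 → K) (r : MvPolynomial (Fin 3) K) : evx x (C r) = C (eval x r) := by
  unfold evx
  rw [map_C]

lemma evx_X (x : Fin 3 → K) (k : Fin 3) : evx x (X k) = X k := by
  unfold evx
  rw [map_X]

lemma evx_io (x : Fin 3 → K) (u : MvPolynomial (Fin 3) K) : evx x (io u) = u := by
  unfold evx io
  rw [map_map]
  have : (eval x).comp (C : K →+* MvPolynomial (Fin 3) K) = RingHom.id K := by
    ext a
    simp
  rw [this, map_id]

lemma evx_Lam (x : Fin 3 → K) : evx x (Lam K) = lin x := by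
  unfold Lam lin
  rw [map_sum]
  apply Finset.sum_congr rfl
  intro k _
  rw [map_mul, evx_C, evx_X, eval_X]

lemma evx_pderiv (x : Fin 3 → K) (k : Fin 3) (u : PP K) :
    evx x (pderiv k u) = pderiv k (evx x u) := by
  unfold evx
  rw [pderiv_map]

lemma io_pderiv (k : Fin 3) (u : MvPolynomial (Fin 3) K) :
    pderiv k (io u) = io (pderiv k u) := by
  unfold io
  rw [pderiv_map]

lemma coeff_evx (x : Fin 3 → K) (u : PP K) (n : Fin 3 →₀ ℕ) :
    coeff n (evx x u) = eval x (coeff n u) := by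
  unfold evx
  rw [coeff_map]

lemma coeff_io (u : MvPolynomial (Fin 3) K) (n : Fin 3 →₀ ℕ) :
    coeff n (io u) = C (coeff n u) := by
  unfold io
  rw [coeff_map]

lemma io_injective : Function.Injective (io : MvPolynomial (Fin 3) K →+* PP K) := by
  intro u v h
  rw [← evx_io 0 u, h, evx_io]

lemma XH_io (u : MvPolynomial (Fin 3) K) : XH 0 (io u) := by
  intro n
  rw [coeff_io]
  exact isHomogeneous_C _ _

lemma io_isHomogeneous {u : MvPolynomial (Fin 3) K} {d : ℕ} (hu : u.IsHomogeneous d) :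
    (io u).IsHomogeneous d := hu.map _

lemma evx_isHomogeneous {u : PP K} {d : ℕ} (x : Fin 3 → K) (hu : u.IsHomogeneous d) :
    (evx x u).IsHomogeneous d := hu.map _

lemma XH1_eq {u : PP K} (hu : XH 1 u) :
    u = C (X 0) * io (evx (Pi.single 0 1) u) + C (X 1) * io (evx (Pi.single 1 1) u) +
      C (X 2) * io (evx (Pi.single 2 1) u) := by
  ext1 n
  rw [coeff_add, coeff_add, coeff_C_mul, coeff_C_mul, coeff_C_mul, coeff_io, coeff_io, coeff_io,
    coeff_evx, coeff_evx, coeff_evx]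
  obtain ⟨t, ht⟩ := eq_lin (hu n)
  have h1 : ∀ k : Fin 3, eval (Pi.single k 1) (lin t) = t k := by
    intro k
    rw [eval_lin]
    simp [Pi.single_apply]
  rw [ht, h1, h1, h1]
  unfold lin
  rw [Fin.sum_univ_three]
  ring

lemma hom_mul_pderiv {u v : PP K} {a b : ℕ} (hu : u.IsHomogeneous a) (hv : v.IsHomogeneous b)
    (k : Fin 3) (h : 1 ≤ b + a) : (v * pderiv k u).IsHomogeneous (b + a - 1) := by
  rcases a with _ | a
  · have : pderiv k u = 0 := by
      rw [totalDegree_eq_zero_iff_eq_C.1 (Nat.le_zero.1 hu.totalDegree_le), pderiv_C]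
    rw [this, mul_zero]
    exact isHomogeneous_zero _ _ _
  · have := hv.mul (hu.pderiv (i := k))
    rwa [Nat.add_sub_cancel] at this

lemma cross_pow [CharZero K] {f g : MvPolynomial (Fin 3) K} (hfg : IsRelPrime f g) (hg : g ≠ 0)
    (n : ℕ) : ∀ {Δ Y r : PP K}, C g * Δ = Lam K ^ n * Y + C f * r →
    ∃ κ r' r'', Δ = Lam K ^ n * κ + C f * r' ∧ C g * κ = Y + C f * r'' := by
  induction n with
  | zero =>
    intro Δ Y r h
    exact ⟨Δ, 0, r, by ring, by rw [h]; ring⟩
  | succ n ih =>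
    intro Δ Y r h
    obtain ⟨a, b, hab⟩ := ZZ_cancel hfg hg (u := Δ) ⟨Lam K ^ n * Y, r, by rw [h]; ring⟩
    obtain ⟨v', hv'⟩ := Lam_cancel (f := f) (u := C g * a - Lam K ^ n * Y) (v := r - C g * b) 1 (by
      rw [hab] at h
      linear_combination h)
    obtain ⟨κ, r', r'', h1, h2⟩ := ih (Δ := a) (Y := Y) (r := v') (by
      linear_combination hv')
    exact ⟨κ, Lam K * r' + b, r'', by rw [hab, h1]; ring, h2⟩

/-- The data attached to an element of the kernel. -/
structure Dat (f g h : MvPolynomial (Fin 3) K) (b' c' i n ω : ℕ) (w α β : PP K) : Prop where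
  hf : f.IsHomogeneous 3
  hg : g.IsHomogeneous (b' + i)
  hh : h.IsHomogeneous (c' + i)
  hbc : b' + c' = n + 1
  hw : XH i w
  hw' : w.IsHomogeneous ω
  hα : XH c' α
  hα' : α.IsHomogeneous (ω + n + 1)
  hβ : XH b' β
  hβ' : β.IsHomogeneous (ω + n + 1)
  eq : ∃ γ, Lam K ^ (n + 1) * w = C g * α + C h * β + C f * γ

variable {f g h : MvPolynomial (Fin 3) K} {b' c' i n ω : ℕ} {w α β : PP K}

lemma Dat.swap (H : Dat f g h b' c' i n ω w α β) : Dat f h g c' b' i n ω w β α where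
  hf := H.hf
  hg := H.hh
  hh := H.hg
  hbc := by rw [add_comm]; exact H.hbc
  hw := H.hw
  hw' := H.hw'
  hα := H.hβ
  hα' := H.hβ'
  hβ := H.hα
  hβ' := H.hα'
  eq := by
    obtain ⟨γ, h⟩ := H.eq
    exact ⟨γ, by rw [h]; ring⟩

/-- The cross product. -/
noncomputable def cr (α β : PP K) (k : Fin 3) : PP K := β * pderiv k α - α * pderiv k β

lemma Dat.cross (H : Dat f g h b' c' i n ω w α β) (k : Fin 3) :
    ∃ r, C g * cr α β k = Lam K ^ n * (((n : PP K) + 1) * C (X k) * w * β +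
      Lam K * (β * pderiv k w - w * pderiv k β)) + C f * r := by
  obtain ⟨γ, hγ⟩ := H.eq
  have h1 := congrArg (pderiv k) hγ
  rw [Derivation.leibniz, pderiv_Lam_pow, map_add, map_add, pderiv_C_mul, pderiv_C_mul,
    pderiv_C_mul] at h1
  simp only [smul_eq_mul] at h1
  refine ⟨γ * pderiv k β - β * pderiv k γ, ?_⟩
  unfold cr
  linear_combination (-β) * h1 + pderiv k β * hγ

lemma Dat.Y_XH (H : Dat f g h b' c' i n ω w α β) (k : Fin 3) :
    XH (b' + i + 1) (((n : PP K) + 1) * C (X k) * w * β +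
      Lam K * (β * pderiv k w - w * pderiv k β)) := by
  apply XH.add
  · have h1 : XH 0 ((n : PP K) + 1) := by
      have := XH_natCast (K := K) (n + 1)
      rwa [Nat.cast_add, Nat.cast_one] at this
    have := ((h1.mul (XH_C (isHomogeneous_X K k))).mul H.hw).mul H.hβ
    rwa [show 0 + 1 + i + b' = b' + i + 1 by omega] at this
  · have h1 := H.hβ.mul (H.hw.pderiv k)
    have h2 := H.hw.mul (H.hβ.pderiv k)
    rw [add_comm] at h2
    have := XH_Lam.mul (h1.sub h2)
    rwa [show 1 + (b' + i) = b' + i + 1 by omega] at this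

lemma Dat.Y_hom (H : Dat f g h b' c' i n ω w α β) (k : Fin 3) :
    (((n : PP K) + 1) * C (X k) * w * β +
      Lam K * (β * pderiv k w - w * pderiv k β)).IsHomogeneous (2 * ω + n + 1) := by
  apply IsHomogeneous.add
  · have h1 : ((n : PP K) + 1).IsHomogeneous 0 := by
      have h2 : (n : PP K) + 1 = C ((n : MvPolynomial (Fin 3) K) + 1) := by simp
      rw [h2]
      exact isHomogeneous_C _ _
    have := ((h1.mul (isHomogeneous_C (Fin 3) (X k : MvPolynomial (Fin 3) K))).mul H.hw').mul H.hβ'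
    rwa [show 0 + 0 + ω + (ω + n + 1) = 2 * ω + n + 1 by omega] at this
  · have h1 := hom_mul_pderiv H.hw' H.hβ' k (by omega)
    have h2 := hom_mul_pderiv H.hβ' H.hw' k (by omega)
    rw [show ω + (ω + n + 1) - 1 = 2 * ω + n by omega] at h2
    rw [show ω + n + 1 + ω - 1 = 2 * ω + n by omega] at h1
    have := Lam_isHomogeneous.mul (h1.sub h2)
    rwa [show 1 + (2 * ω + n) = 2 * ω + n + 1 by omega] at this

lemma Dat.cr_XH (H : Dat f g h b' c' i n ω w α β) (k : Fin 3) : XH (n + 1) (cr α β k) := by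
  rw [← H.hbc]
  unfold cr
  have h2 := H.hα.mul (H.hβ.pderiv k)
  rw [add_comm] at h2
  exact (H.hβ.mul (H.hα.pderiv k)).sub h2

lemma Dat.cr_hom (H : Dat f g h b' c' i n ω w α β) (k : Fin 3) :
    (cr α β k).IsHomogeneous (n + (2 * ω + n + 1)) := by
  unfold cr
  have h1 := hom_mul_pderiv H.hα' H.hβ' k (by omega)
  have h2 := hom_mul_pderiv H.hβ' H.hα' k (by omega)
  rw [show ω + n + 1 + (ω + n + 1) - 1 = n + (2 * ω + n + 1) by omega] at h1 h2
  exact h1.sub h2

/-- First form of the cross product relation. -/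
lemma Dat.exists_kap [CharZero K] (H : Dat f g h b' c' i n ω w α β) (hfg : IsRelPrime f g)
    (hg : g ≠ 0) (k : Fin 3) : ∃ κ : PP K, XH 1 κ ∧ κ.IsHomogeneous (2 * ω + n + 1) ∧
      (∃ r, cr α β k = Lam K ^ n * κ + C f * r) ∧
      (∃ r, C g * κ = (((n : PP K) + 1) * C (X k) * w * β +
        Lam K * (β * pderiv k w - w * pderiv k β)) + C f * r) := by
  obtain ⟨r, hr⟩ := H.cross k
  obtain ⟨κ, r', r'', h1, h2⟩ := cross_pow hfg hg n hr
  refine ⟨cm 1 (2 * ω + n + 1) κ, XH_cm _ _ _, cm_isHomogeneous _ _ _, ?_, ?_⟩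
  · have h3 := congrArg (cm (n + 1) (n + (2 * ω + n + 1))) h1
    rw [cm_add, cm_self (H.cr_XH k) (H.cr_hom k),
      cm_mul (XH_Lam_pow n) (Lam_pow_isHomogeneous n)] at h3
    obtain ⟨v, hv⟩ := cm_C_mul H.hf r' (n + 1) (n + (2 * ω + n + 1))
    exact ⟨v, by rw [h3, hv]⟩
  · have h3 := congrArg (cm (b' + i + 1) (0 + (2 * ω + n + 1))) h2
    rw [cm_add, cm_mul (XH_C H.hg) (isHomogeneous_C _ _), cm_self (H.Y_XH k) (by
      rw [zero_add]; exact H.Y_hom k)] at h3
    obtain ⟨v, hv⟩ := cm_C_mul H.hf r'' (b' + i + 1) (0 + (2 * ω + n + 1))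
    exact ⟨v, by rw [h3, hv]⟩

/-- Linear forms with parallel cross differences. -/
lemma exists_kn {κ : Fin 3 → PP K} (hκ : ∀ k, XH 1 (κ k))
    (h : ∀ j k, ∃ μ, XH 1 μ ∧ C (X j) * κ k - C (X k) * κ j = Lam K * μ) :
    ∃ (κ₀ : MvPolynomial (Fin 3) K) (ν : Fin 3 → MvPolynomial (Fin 3) K),
      ∀ k, κ k = C (X k) * io κ₀ + io (ν k) * Lam K := by
  have hev : ∀ (u : PP K), XH 1 u → ∀ x : Fin 3 → K, evx x u =
      C (x 0) * evx (Pi.single 0 1) u + C (x 1) * evx (Pi.single 1 1) u +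
        C (x 2) * evx (Pi.single 2 1) u := by
    intro u hu x
    conv_lhs => rw [XH1_eq hu]
    simp only [map_add, map_mul, evx_C, evx_io, eval_X]
  obtain ⟨μ, hμ, h01⟩ := h 0 1
  obtain ⟨μ', hμ', h02⟩ := h 0 2
  set c : Fin 3 → Fin 3 → MvPolynomial (Fin 3) K := fun k l => evx (Pi.single l 1) (κ k) with hc
  set m : Fin 3 → MvPolynomial (Fin 3) K := fun l => evx (Pi.single l 1) μ with hm
  set m' : Fin 3 → MvPolynomial (Fin 3) K := fun l => evx (Pi.single l 1) μ' with hm'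
  have e01 : ∀ x : Fin 3 → K, C (x 0) * (C (x 0) * c 1 0 + C (x 1) * c 1 1 + C (x 2) * c 1 2) -
      C (x 1) * (C (x 0) * c 0 0 + C (x 1) * c 0 1 + C (x 2) * c 0 2) =
      (C (x 0) * X 0 + C (x 1) * X 1 + C (x 2) * X 2) *
        (C (x 0) * m 0 + C (x 1) * m 1 + C (x 2) * m 2) := by
    intro x
    have h1 := congrArg (evx x) h01
    rw [map_sub, map_mul, map_mul, map_mul, evx_C, evx_C, eval_X, eval_X, evx_Lam,
      hev _ (hκ 1), hev _ (hκ 0), hev _ hμ] at h1
    rw [Pool.Agent.H22.SLP.lin_eq] at h1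
    exact h1
  have e02 : ∀ x : Fin 3 → K, C (x 0) * (C (x 0) * c 2 0 + C (x 1) * c 2 1 + C (x 2) * c 2 2) -
      C (x 2) * (C (x 0) * c 0 0 + C (x 1) * c 0 1 + C (x 2) * c 0 2) =
      (C (x 0) * X 0 + C (x 1) * X 1 + C (x 2) * X 2) *
        (C (x 0) * m' 0 + C (x 1) * m' 1 + C (x 2) * m' 2) := by
    intro x
    have h1 := congrArg (evx x) h02
    rw [map_sub, map_mul, map_mul, map_mul, evx_C, evx_C, eval_X, eval_X, evx_Lam,
      hev _ (hκ 2), hev _ (hκ 0), hev _ hμ'] at h1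
    rw [Pool.Agent.H22.SLP.lin_eq] at h1
    exact h1
  have a1 := e01 ![1, 0, 0]
  have a2 := e01 ![0, 1, 0]
  have a3 := e01 ![0, 0, 1]
  have a4 := e01 ![1, 0, 1]
  have a5 := e01 ![0, 1, 1]
  have a6 := e01 ![1, 1, 0]
  have b1 := e02 ![1, 0, 0]
  have b2 := e02 ![0, 0, 1]
  have b3 := e02 ![0, 1, 0]
  have b4 := e02 ![1, 1, 0]
  have b6 := e02 ![1, 0, 1]
  simp only [Matrix.cons_val_zero, Matrix.cons_val_one, Matrix.cons_val, C_0, C_1, zero_mul,
    one_mul, add_zero, zero_add, sub_zero, zero_sub] at a1 a2 a3 a4 a5 a6 b1 b2 b3 b4 b6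
  have hX : ∀ k : Fin 3, (X k : MvPolynomial (Fin 3) K) ≠ 0 := fun k => X_ne_zero k
  have hm2 : m 2 = 0 := (mul_eq_zero.1 a3.symm).resolve_left (hX 2)
  have hm1' : m' 1 = 0 := (mul_eq_zero.1 b3.symm).resolve_left (hX 1)
  rw [hm2] at a4 a5
  rw [hm1'] at b4
  have hm2' : m' 2 = m 1 := by
    apply mul_left_cancel₀ (hX 2)
    linear_combination -b2 + a5 - a2
  refine ⟨c 0 0 + X 0 * m 1, ![-m 1, m 0, m' 0], ?_⟩
  have k0 : κ 0 = C (X 0) * io (c 0 0) + C (X 1) * io (c 0 1) + C (X 2) * io (c 0 2) :=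
    XH1_eq (hκ 0)
  have k1 : κ 1 = C (X 0) * io (c 1 0) + C (X 1) * io (c 1 1) + C (X 2) * io (c 1 2) :=
    XH1_eq (hκ 1)
  have k2 : κ 2 = C (X 0) * io (c 2 0) + C (X 1) * io (c 2 1) + C (X 2) * io (c 2 2) :=
    XH1_eq (hκ 2)
  have hioX : ∀ k : Fin 3, io (X k : MvPolynomial (Fin 3) K) = X k := by
    intro k
    unfold io
    rw [map_X]
  have c01 : c 0 1 = -(X 1 * m 1) := by linear_combination -a2
  have c02 : c 0 2 = -(X 2 * m 1) := by linear_combination -a5 + a2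
  have c10 : c 1 0 = X 0 * m 0 := by linear_combination a1
  have c12 : c 1 2 = X 2 * m 0 := by linear_combination a4 - a1
  have c11 : c 1 1 = c 0 0 + X 1 * m 0 + X 0 * m 1 := by
    linear_combination a6 - a1 - a2
  have c20 : c 2 0 = X 0 * m' 0 := by linear_combination b1
  have c21 : c 2 1 = X 1 * m' 0 := by linear_combination b4 - b1
  have c22 : c 2 2 = c 0 0 + X 2 * m' 0 + X 0 * m 1 := by
    rw [← hm2']
    linear_combination b6 - b1 - b2
  intro k
  fin_cases k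
  · change κ 0 = C (X 0) * io (c 0 0 + X 0 * m 1) + io (-m 1) * Lam K
    rw [k0, c01, c02, Lam_eq]
    simp only [map_add, map_neg, map_mul, hioX]
    ring
  · change κ 1 = C (X 1) * io (c 0 0 + X 0 * m 1) + io (m 0) * Lam K
    rw [k1, c10, c11, c12, Lam_eq]
    simp only [map_add, map_mul, hioX]
    ring
  · change κ 2 = C (X 2) * io (c 0 0 + X 0 * m 1) + io (m' 0) * Lam K
    rw [k2, c20, c21, c22, Lam_eq]
    simp only [map_add, map_mul, hioX]
    ring

end Pool.Agent.H11.SLP
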