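import Pool.Agent.H11.SLP.Kap

/-!
Injectivity for the ideal generated by the cube of a linear form and two further forms
(`cube_aux_of`, with the statement of `gi_line` as a hypothesis).
-/

set_option autoImplicit false

open MvPolynomial

namespace Pool.Agent.H11.SLP

variable {K : Type*} [Field K]

namespace CubeA

/-- the part of `u` of degree `j` in the outer variable `X 0` -/
noncomputable def co (j : ℕ) (u : PP K) : PP K :=
  weightedHomogeneousComponent (![1, 0, 0] : Fin 3 → ℕ) j u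

lemma coeff_co (j : ℕ) (u : PP K) (n : Fin 3 →₀ ℕ) :
    coeff n (co j u) = if n 0 = j then coeff n u else 0 := by
  classical
  unfold co
  rw [coeff_weightedHomogeneousComponent]
  have h : Finsupp.weight (![1, 0, 0] : Fin 3 → ℕ) n = n 0 := by
    rw [Finsupp.weight_apply, Finsupp.sum_fintype _ _ (by intro i; simp), Fin.sum_univ_three]
    simp
  rw [h]

lemma co_add (j : ℕ) (u v : PP K) : co j (u + v) = co j u + co j v := map_add _ _ _

lemma co_C_mul (j : ℕ) (r : MvPolynomial (Fin 3) K) (u : PP K) :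
    co j (C r * u) = C r * co j u := weightedHomogeneousComponent_C_mul _ _ _

lemma co_X0_mul (j : ℕ) (u : PP K) : co (j + 1) (X 0 * u) = X 0 * co j u := by
  classical
  ext1 n
  rw [coeff_co, coeff_X_mul', coeff_X_mul', coeff_co]
  by_cases h : (0 : Fin 3) ∈ n.support
  · have h0 : n 0 ≠ 0 := Finsupp.mem_support_iff.1 h
    rw [if_pos h, if_pos h]
    have e : (n - Finsupp.single 0 1 : Fin 3 →₀ ℕ) 0 = n 0 - 1 := by
      rw [Finsupp.coe_tsub, Pi.sub_apply, Finsupp.single_eq_same]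
    rw [e]
    by_cases h1 : n 0 = j + 1
    · rw [if_pos h1, if_pos (by omega)]
    · rw [if_neg h1, if_neg (by omega)]
  · rw [if_neg h, if_neg h, ite_self]

lemma co_X_mul {k : Fin 3} (hk : k ≠ 0) (j : ℕ) (u : PP K) : co j (X k * u) = X k * co j u := by
  classical
  ext1 n
  rw [coeff_co, coeff_X_mul', coeff_X_mul', coeff_co]
  by_cases h : k ∈ n.support
  · rw [if_pos h, if_pos h]
    have e : (n - Finsupp.single k 1 : Fin 3 →₀ ℕ) 0 = n 0 := by
      rw [Finsupp.coe_tsub, Pi.sub_apply, Finsupp.single_eq_of_ne hk.symm]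
      omega
    rw [e]
  · rw [if_neg h, if_neg h, ite_self]

/-- the part of the generic form without `X 0` -/
noncomputable def Lb (K : Type*) [Field K] : PP K := C (X 1) * X 1 + C (X 2) * X 2

lemma Lam_eq' : Lam K = C (X 0) * X 0 + Lb K := by
  rw [Lam_eq, Lb]; ring

lemma co_Lb_mul (j : ℕ) (u : PP K) : co j (Lb K * u) = Lb K * co j u := by
  have e : ∀ v : PP K, Lb K * v = C (X 1) * (X 1 * v) + C (X 2) * (X 2 * v) := by
    intro v; unfold Lb; ring
  rw [e, e, co_add, co_C_mul, co_C_mul, co_X_mul (by decide), co_X_mul (by decide)]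

lemma co_Lb_pow_mul (j k : ℕ) (u : PP K) : co j (Lb K ^ k * u) = Lb K ^ k * co j u := by
  induction k with
  | zero => simp
  | succ k ih => rw [pow_succ', mul_assoc, mul_assoc, co_Lb_mul, ih]

lemma InC_co {J : Ideal (R3 K)} {u : PP K} (h : InC J u) (j : ℕ) : InC J (co j u) := by
  intro n
  rw [coeff_co]
  split_ifs
  · exact h n
  · exact Ideal.zero_mem _

lemma XH_co {i : ℕ} {u : PP K} (h : XH i u) (j : ℕ) : XH i (co j u) := by
  intro n
  rw [coeff_co]
  split_ifs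
  · exact h n
  · exact isHomogeneous_zero _ _ _

lemma InC_cancel_X {J : Ideal (R3 K)} {u : PP K} {k : Fin 3} (h : InC J (X k * u)) : InC J u := by
  intro n
  have := h (Finsupp.single k 1 + n)
  rwa [coeff_X_mul] at this

lemma dvd_cancel_X {r : R3 K} {u : PP K} {k : Fin 3} (h : (C r : PP K) ∣ X k * u) :
    (C r : PP K) ∣ u := by
  rw [C_dvd_iff_dvd_coeff] at h ⊢
  intro n
  have := h (Finsupp.single k 1 + n)
  rwa [coeff_X_mul] at this

lemma InC_colon {I J : Ideal (R3 K)} {r : R3 K} (hcol : ∀ p, r * p ∈ I → p ∈ J) {u : PP K}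
    (h : InC I (C r * u)) : InC J u := by
  intro n
  have := h n
  rw [coeff_C_mul] at this
  exact hcol _ this

lemma InC_of_dvd {J : Ideal (R3 K)} {r : R3 K} (hr : r ∈ J) {u : PP K}
    (h : (C r : PP K) ∣ u) : InC J u := by
  intro n
  rw [C_dvd_iff_dvd_coeff] at h
  exact Ideal.mem_of_dvd J (h n) hr

lemma XH_cancel {r : R3 K} {e i : ℕ} (hr : r.IsHomogeneous e) (hr0 : r ≠ 0) {u : PP K}
    (h : XH (e + i) (C r * u)) : XH i u := by
  have h1 := hx_of_XH h
  rw [hx_mul (XH_C hr), if_pos (by omega), Nat.add_sub_cancel_left] at h1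
  have h2 : (C r : PP K) ≠ 0 := by
    rw [Ne, C_eq_zero]; exact hr0
  rw [← mul_left_cancel₀ h2 h1]
  exact XH_hx _ _

lemma X0_hom : (X 0 : R3 K).IsHomogeneous 1 := isHomogeneous_X _ _

lemma X0_ne : (X 0 : R3 K) ≠ 0 := X_ne_zero _

/-- expansion of a power of a sum up to the third power -/
lemma pow_expand {A : Type*} [CommRing A] (x y : A) (n : ℕ) : ∃ r : A,
    (x + y) ^ (n + 2) = y ^ (n + 2) + ((n : A) + 2) * (x * y ^ (n + 1))
      + (((n + 2).choose 2 : ℕ) : A) * (x ^ 2 * y ^ n) + x ^ 3 * r := by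
  induction n with
  | zero => exact ⟨0, by norm_num; ring⟩
  | succ n ih =>
    obtain ⟨r, hr⟩ := ih
    refine ⟨(x + y) * r + (((n + 2).choose 2 : ℕ) : A) * y ^ n, ?_⟩
    have hc : (((n + 1 + 2).choose 2 : ℕ) : A) = ((n : A) + 2) + (((n + 2).choose 2 : ℕ) : A) := by
      have : (n + 1 + 2).choose 2 = (n + 2) + (n + 2).choose 2 := by
        rw [show n + 1 + 2 = (n + 2) + 1 by ring, Nat.choose_succ_succ' (n + 2) 1,
          Nat.choose_one_right]
      rw [this]; push_cast; ring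
    rw [show n + 1 + 2 = (n + 2) + 1 by ring] at hc ⊢
    rw [pow_succ, hr, hc]
    push_cast
    ring

section main

variable {J1 J2 J3 : Ideal (R3 K)}

/-- the relation between three consecutive parts -/
lemma rel (h3 : (X 0 : R3 K) ^ 3 ∈ J3) {n : ℕ} {w : PP K} (H : InC J3 (Lam K ^ (n + 2) * w))
    (m : ℕ) : InC J3 (Lb K ^ (n + 2) * co (m + 2) w
      + C (X 0) * ((((n : PP K) + 2) * (X 0 * (Lb K ^ (n + 1) * co (m + 1) w)))
        + C (X 0) * ((((n + 2).choose 2 : ℕ) : PP K) * (X 0 ^ 2 * (Lb K ^ n * co m w))))) := by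
  obtain ⟨r, hr⟩ := pow_expand (C (X 0) * X 0) (Lb K) n
  rw [← Lam_eq'] at hr
  have h1 : InC J3 (Lb K ^ (n + 2) * w
      + C (X 0) * ((((n : PP K) + 2) * (X 0 * (Lb K ^ (n + 1) * w)))
        + C (X 0) * ((((n + 2).choose 2 : ℕ) : PP K) * (X 0 * (X 0 * (Lb K ^ n * w)))))) := by
    have e : Lb K ^ (n + 2) * w
      + C (X 0) * ((((n : PP K) + 2) * (X 0 * (Lb K ^ (n + 1) * w)))
        + C (X 0) * ((((n + 2).choose 2 : ℕ) : PP K) * (X 0 * (X 0 * (Lb K ^ n * w)))))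
        = Lam K ^ (n + 2) * w - C (X 0 ^ 3) * (X 0 ^ 3 * r * w) := by
      rw [hr, C_pow]; ring
    rw [e]
    exact H.sub (InC_of_dvd h3 (dvd_mul_right _ _))
  have h2 := InC_co h1 (m + 2)
  have ec : ∀ (c : ℕ) (j : ℕ) (v : PP K), co j ((c : PP K) * v) = (c : PP K) * co j v := by
    intro c j v
    have : (c : PP K) = C ((c : R3 K)) := by simp
    rw [this, co_C_mul]
  have ec2 : ∀ (j : ℕ) (v : PP K), co j (((n : PP K) + 2) * v) = ((n : PP K) + 2) * co j v := by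
    intro j v
    have := ec (n + 2) j v
    push_cast at this
    exact this
  rw [co_add, co_C_mul, co_add, co_C_mul, ec, ec2, co_Lb_pow_mul, co_X0_mul, co_X0_mul,
    co_X0_mul, co_Lb_pow_mul, co_Lb_pow_mul] at h2
  have e2 : (X 0 : PP K) * (X 0 * (Lb K ^ n * co m w)) = X 0 ^ 2 * (Lb K ^ n * co m w) := by ring
  rw [e2] at h2
  exact h2

/-- replacing the generic form by its part without `X 0` -/
lemma InC_Lb (h1 : (X 0 : R3 K) ∈ J1) {k : ℕ} {v : PP K} (H : InC J1 (Lb K ^ k * v)) :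
    InC J1 (Lam K ^ k * v) := by
  obtain ⟨r, hr⟩ := sub_dvd_pow_sub_pow (Lam K) (Lb K) k
  have e : Lam K ^ k * v = Lb K ^ k * v + C (X 0) * (X 0 * r * v) := by
    have : Lam K - Lb K = C (X 0) * X 0 := by rw [Lam_eq']; ring
    rw [this] at hr
    linear_combination v * hr
  rw [e]
  exact H.add (InC_of_dvd h1 (dvd_mul_right _ _))

end main

lemma co_zero_X0 (u : PP K) : co 0 (X 0 * u) = 0 := by
  classical
  ext1 n
  rw [coeff_co, coeff_X_mul', coeff_zero]
  by_cases h : (0 : Fin 3) ∈ n.support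
  · rw [if_neg (Finsupp.mem_support_iff.1 h)]
  · rw [if_neg h, ite_self]

lemma co_pow_zero (u : PP K) (k : ℕ) : ∀ j, j < k → co j (X 0 ^ k * u) = 0 := by
  induction k with
  | zero => intro j hj; omega
  | succ k ih =>
    intro j hj
    rw [pow_succ', mul_assoc]
    cases j with
    | zero => exact co_zero_X0 _
    | succ j => rw [co_X0_mul, ih j (by omega), mul_zero]

lemma co_eq_zero {j : ℕ} {u : PP K} (h : u.totalDegree < j) : co j u = 0 := by
  ext1 n
  rw [coeff_co, coeff_zero]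
  split_ifs with h1
  · apply coeff_eq_zero_of_totalDegree_lt
    refine lt_of_lt_of_le h ?_
    rw [← h1]
    by_cases h0 : n 0 = 0
    · rw [h0]; exact Nat.zero_le _
    · exact Finset.single_le_sum (f := fun i => n i) (fun _ _ => Nat.zero_le _)
        (Finsupp.mem_support_iff.2 h0)
  · rfl

lemma nat_cancel' [CharZero K] {J : Ideal (R3 K)} {c : ℕ} (hc : c ≠ 0) {u : PP K}
    (h : InC J ((c : PP K) * u)) : InC J u := by
  have e : (c : PP K) = C (C (c : K)) := by simp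
  rw [e] at h
  exact h.smul_cancel (Nat.cast_ne_zero.2 hc)

lemma dvd_nat_cancel [CharZero K] {r : R3 K} {c : ℕ} (hc : c ≠ 0) {u : PP K}
    (h : (C r : PP K) ∣ (c : PP K) * u) : (C r : PP K) ∣ u := by
  have e : u = C (C ((c : K)⁻¹)) * ((c : PP K) * u) := by
    have e1 : (c : PP K) = C (C (c : K)) := by simp
    rw [e1, ← mul_assoc, ← C_mul, ← C_mul, inv_mul_cancel₀ (Nat.cast_ne_zero.2 hc), C_1, C_1,
      one_mul]
  rw [e]
  exact h.mul_left _

lemma XH_Lb : XH 1 (Lb K) := by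
  unfold Lb
  exact ((XH_C (isHomogeneous_X _ 1)).mul (XH_X 1)).add ((XH_C (isHomogeneous_X _ 2)).mul (XH_X 2))

theorem cube_core [CharZero K] {J1 J2 J3 : Ideal (R3 K)} (h1 : (X 0 : R3 K) ∈ J1)
    (h21 : J2 ≤ J1) (h31 : J3 ≤ J1) (h3 : (X 0 : R3 K) ^ 3 ∈ J3)
    (hcol2 : ∀ p, X 0 ^ 2 * p ∈ J3 → p ∈ J1) (hcol1 : ∀ p, X 0 * p ∈ J3 → p ∈ J2) {n e : ℕ}
    (G0 : ∀ v : PP K, XH (e + 2) v → InC J1 (Lam K ^ n * v) → (C (X 0) : PP K) ∣ v)
    (G1 : ∀ v : PP K, XH (e + 1) v → InC J1 (Lam K ^ (n + 2) * v) → (C (X 0) : PP K) ∣ v)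
    (G2 : ∀ v : PP K, XH e v → InC J1 (Lam K ^ (n + 4) * v) → (C (X 0) : PP K) ∣ v)
    {w : PP K} (hw : XH (e + 2) w) (HI : InC J3 (Lam K ^ (n + 2) * w)) :
    (C (X 0 ^ 3) : PP K) ∣ w := by
  classical
  by_contra hne
  obtain ⟨w', hw'⟩ : ∃ w', w' = X 0 * (X 0 * (X 0 * (X 0 * w))) := ⟨_, rfl⟩
  have hw'H : XH (e + 2) w' := by
    rw [hw']
    have := (XH_X (K := K) 0).mul ((XH_X 0).mul ((XH_X 0).mul ((XH_X 0).mul hw)))
    simpa using this
  have HI' : InC J3 (Lam K ^ (n + 2) * w') := by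
    have : Lam K ^ (n + 2) * w' = X 0 ^ 4 * (Lam K ^ (n + 2) * w) := by rw [hw']; ring
    rw [this]; exact HI.mul_left _
  have hne' : ¬ (C (X 0 ^ 3) : PP K) ∣ w' := by
    intro h
    rw [hw'] at h
    exact hne (dvd_cancel_X (dvd_cancel_X (dvd_cancel_X (dvd_cancel_X h))))
  obtain ⟨U, hU⟩ : ∃ U : ℕ → PP K, ∀ j, U j = co j w' := ⟨fun j => co j w', fun _ => rfl⟩
  have hUH : ∀ j, XH (e + 2) (U j) := fun j => by rw [hU]; exact XH_co hw'H j
  have hex : ∃ j, ¬ (C (X 0 ^ 3) : PP K) ∣ U j := by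
    by_contra hcon
    push Not at hcon
    apply hne'
    rw [C_dvd_iff_dvd_coeff]
    intro m
    have h2 := hcon (m 0)
    rw [C_dvd_iff_dvd_coeff] at h2
    have h3 := h2 m
    rwa [hU, coeff_co, if_pos rfl] at h3
  obtain ⟨D, hD, hbig⟩ : ∃ D, ¬ (C (X 0 ^ 3) : PP K) ∣ U D ∧
      ∀ j, D < j → (C (X 0 ^ 3) : PP K) ∣ U j := by
    obtain ⟨j0, hj0⟩ := hex
    have hb : ∀ j, w'.totalDegree < j → (C (X 0 ^ 3) : PP K) ∣ U j := fun j hj => by
      rw [hU, co_eq_zero hj]; exact dvd_zero _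
    have hj0' : j0 ≤ w'.totalDegree := by
      by_contra hcon
      exact hj0 (hb j0 (by omega))
    refine ⟨Nat.findGreatest (fun j => ¬ (C (X 0 ^ 3) : PP K) ∣ U j) w'.totalDegree,
      Nat.findGreatest_spec (P := fun j => ¬ (C (X 0 ^ 3) : PP K) ∣ U j) hj0' hj0, ?_⟩
    intro j hj
    by_cases hjt : j ≤ w'.totalDegree
    · have := Nat.findGreatest_is_greatest hj hjt
      exact not_not.1 this
    · exact hb j (by omega)
  have hD4 : 4 ≤ D := by
    by_contra hcon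
    apply hD
    have : U D = 0 := by
      have e4 : w' = X 0 ^ 4 * w := by rw [hw']; ring
      rw [hU, e4]
      exact co_pow_zero w 4 D (by omega)
    rw [this]; exact dvd_zero _
  obtain ⟨d, rfl⟩ : ∃ d, D = d + 4 := ⟨D - 4, by omega⟩
  -- relations
  have E : ∀ m, InC J3 (Lb K ^ (n + 2) * U (m + 2)
      + C (X 0) * ((((n : PP K) + 2) * (X 0 * (Lb K ^ (n + 1) * U (m + 1))))
        + C (X 0) * ((((n + 2).choose 2 : ℕ) : PP K) * (X 0 ^ 2 * (Lb K ^ n * U m))))) := by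
    intro m
    have := rel h3 HI' m
    rwa [← hU, ← hU, ← hU] at this
  obtain ⟨q, hqdef⟩ : ∃ q : ℕ, q = (n + 2).choose 2 := ⟨_, rfl⟩
  have hqn : 2 * q = (n + 2) * (n + 1) := by
    rw [hqdef, Nat.choose_two_right, Nat.mul_div_cancel']
    · rfl
    · exact (Nat.even_mul_pred_self (n + 2)).two_dvd
  have hq0 : q ≠ 0 := by
    intro h0
    rw [h0] at hqn
    simp at hqn
  have hq : (2 : PP K) * (q : PP K) = ((n : PP K) + 2) * ((n : PP K) + 1) := by
    exact_mod_cast congrArg (Nat.cast (R := PP K)) hqn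
  rw [← hqdef] at E
  obtain ⟨x, hx⟩ : ∃ x : PP K, x = C (X 0) := ⟨_, rfl⟩
  have hx3 : (C (X 0 ^ 3) : PP K) = x ^ 3 := by rw [hx, C_pow]
  have hxne : x ≠ 0 := by rw [hx, Ne, C_eq_zero]; exact X0_ne
  rw [← hx] at E
  rw [← hx] at G0 G1 G2
  rw [hx3] at hD hbig
  have I1 : ∀ v : PP K, InC J1 (x * v) := fun v => by
    rw [hx]; exact InC_of_dvd h1 (dvd_mul_right _ _)
  have I1' : ∀ v : PP K, x ∣ v → InC J1 v := fun v hv => by
    obtain ⟨y, rfl⟩ := hv; exact I1 y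
  have I3 : ∀ v : PP K, InC J3 (x ^ 3 * v) := fun v => by
    rw [← hx3]; exact InC_of_dvd h3 (dvd_mul_right _ _)
  have col2 : ∀ v : PP K, InC J3 (x ^ 2 * v) → InC J1 v := fun v hv => by
    rw [hx, ← C_pow] at hv; exact InC_colon hcol2 hv
  have col1 : ∀ v : PP K, InC J3 (x * v) → InC J1 v := fun v hv => by
    rw [hx] at hv; exact (InC_colon hcol1 hv).mono h21
  have hXx : XH 1 x := by rw [hx]; exact XH_C (isHomogeneous_X _ _)
  have canc : ∀ (i : ℕ) (v : PP K), XH (i + 1) (x * v) → XH i v := fun i v hv => by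
    rw [hx, add_comm] at hv; exact XH_cancel X0_hom X0_ne hv
  -- step A
  obtain ⟨u1, hu1⟩ : x ∣ U (d + 4) := by
    apply G0 _ (hUH _)
    apply InC_Lb h1
    have hA := E (d + 4)
    obtain ⟨r1, hr1⟩ := hbig (d + 4 + 2) (by omega)
    obtain ⟨r2, hr2⟩ := hbig (d + 4 + 1) (by omega)
    rw [hr1, hr2] at hA
    have e1 : x ^ 2 * ((q : PP K) * (X 0 * (X 0 * (Lb K ^ n * U (d + 4)))))
        = (Lb K ^ (n + 2) * (x ^ 3 * r1) + x * ((n + 2 : PP K) * (X 0 * (Lb K ^ (n + 1) * (x ^ 3 * r2)))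
          + x * ((q : PP K) * (X 0 ^ 2 * (Lb K ^ n * U (d + 4))))))
          - x ^ 3 * (Lb K ^ (n + 2) * r1 + x * ((n + 2 : PP K) * (X 0 * (Lb K ^ (n + 1) * r2)))) := by
      ring
    have hA2 : InC J3 (x ^ 2 * ((q : PP K) * (X 0 * (X 0 * (Lb K ^ n * U (d + 4)))))) := by
      rw [e1]; exact hA.sub (I3 _)
    exact InC_cancel_X (InC_cancel_X (nat_cancel' hq0 (col2 _ hA2)))
  have hu1H : XH (e + 1) u1 := canc _ _ (by rw [← hu1]; exact hUH _)
  -- step B
  obtain ⟨V, hV⟩ : ∃ V : PP K, V = ((n : PP K) + 2) * (Lb K * u1)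
      + (q : PP K) * (X 0 * U (d + 3)) := ⟨_, rfl⟩
  have hnH : XH 0 ((n : PP K) + 2) := by
    have := XH_natCast (K := K) (n + 2)
    push_cast at this
    exact this
  have hVH : XH (e + 2) V := by
    rw [hV]
    apply XH.add
    · have := hnH.mul (XH_Lb.mul hu1H)
      rwa [show 0 + (1 + (e + 1)) = e + 2 by ring] at this
    · have := (XH_natCast (K := K) q).mul ((XH_X (K := K) 0).mul (hUH (d + 3)))
      rwa [show 0 + (0 + (e + 2)) = e + 2 by ring] at this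
  have hVx : x ∣ V := by
    apply G0 _ hVH
    apply InC_Lb h1
    have hB := E (d + 3)
    obtain ⟨r1, hr1⟩ := hbig (d + 3 + 2) (by omega)
    rw [hr1, show d + 3 + 1 = d + 4 by ring, hu1] at hB
    have e1 : x ^ 2 * (X 0 * (Lb K ^ n * V))
        = (Lb K ^ (n + 2) * (x ^ 3 * r1) + x * (((n : PP K) + 2) * (X 0 * (Lb K ^ (n + 1) * (x * u1)))
          + x * ((q : PP K) * (X 0 ^ 2 * (Lb K ^ n * U (d + 3))))))
          - x ^ 3 * (Lb K ^ (n + 2) * r1) := by
      rw [hV]; ring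
    have hB2 : InC J3 (x ^ 2 * (X 0 * (Lb K ^ n * V))) := by
      rw [e1]; exact hB.sub (I3 _)
    exact InC_cancel_X (col2 _ hB2)
  -- step C
  obtain ⟨u2, hu2⟩ : x ∣ u1 := by
    apply G1 _ hu1H
    apply InC_Lb h1
    have hC := E (d + 2)
    rw [show d + 2 + 2 = d + 4 by ring, show d + 2 + 1 = d + 3 by ring, hu1] at hC
    have e1 : Lb K ^ (n + 2) * (x * u1) + x * (((n : PP K) + 2) * (X 0 * (Lb K ^ (n + 1) * U (d + 3)))
          + x * ((q : PP K) * (X 0 ^ 2 * (Lb K ^ n * U (d + 2)))))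
        = x * (Lb K ^ (n + 1) * (Lb K * u1 + ((n : PP K) + 2) * (X 0 * U (d + 3)))
          + x * ((q : PP K) * (X 0 ^ 2 * (Lb K ^ n * U (d + 2))))) := by ring
    rw [e1] at hC
    have hC2 := (col1 _ hC).sub (I1 ((q : PP K) * (X 0 ^ 2 * (Lb K ^ n * U (d + 2)))))
    rw [add_sub_cancel_right] at hC2
    have hC3 := ((I1' V hVx).mul_left (2 * ((n : PP K) + 2) * Lb K ^ (n + 1))).sub
      (hC2.mul_left (2 * (q : PP K)))
    have e2 : 2 * ((n : PP K) + 2) * Lb K ^ (n + 1) * V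
        - 2 * (q : PP K) * (Lb K ^ (n + 1) * (Lb K * u1 + ((n : PP K) + 2) * (X 0 * U (d + 3))))
        = ((((n + 2) * (n + 3) : ℕ)) : PP K) * (Lb K ^ (n + 2) * u1) := by
      rw [hV]
      push_cast
      linear_combination (-(Lb K ^ (n + 2) * u1)) * hq
    rw [e2] at hC3
    exact nat_cancel' (by positivity) hC3
  have hu2H : XH e u2 := canc _ _ (by rw [← hu2]; exact hu1H)
  obtain ⟨v1, hv1⟩ : x ∣ U (d + 3) := by
    have h4 : x ∣ (q : PP K) * (X 0 * U (d + 3)) := by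
      have h5 : x ∣ V - ((n : PP K) + 2) * (Lb K * u1) := by
        apply dvd_sub hVx
        rw [hu2]
        exact ⟨((n : PP K) + 2) * (Lb K * u2), by ring⟩
      rwa [hV, add_sub_cancel_left] at h5
    rw [hx] at h4 ⊢
    exact dvd_cancel_X (dvd_nat_cancel hq0 h4)
  have hv1H : XH (e + 1) v1 := canc _ _ (by rw [← hv1]; exact hUH _)
  -- step D
  obtain ⟨F, hF⟩ : ∃ F : PP K, F = Lb K ^ 2 * u2 + ((n : PP K) + 2) * (Lb K * (X 0 * v1))
      + (q : PP K) * (X 0 * (X 0 * U (d + 2))) := ⟨_, rfl⟩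
  have hFH : XH (e + 2) F := by
    rw [hF]
    apply XH.add
    · apply XH.add
      · have := (XH_Lb (K := K).pow 2).mul hu2H
        rwa [show 1 * 2 + e = e + 2 by ring] at this
      · have := hnH.mul (XH_Lb.mul ((XH_X (K := K) 0).mul hv1H))
        rwa [show 0 + (1 + (0 + (e + 1))) = e + 2 by ring] at this
    · have := (XH_natCast (K := K) q).mul ((XH_X (K := K) 0).mul ((XH_X (K := K) 0).mul
        (hUH (d + 2))))
      rwa [show 0 + (0 + (0 + (e + 2))) = e + 2 by ring] at this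
  have hFx : x ∣ F := by
    apply G0 _ hFH
    apply InC_Lb h1
    have hC := E (d + 2)
    rw [show d + 2 + 2 = d + 4 by ring, show d + 2 + 1 = d + 3 by ring, hu1, hu2, hv1] at hC
    have e1 : Lb K ^ (n + 2) * (x * (x * u2)) + x * (((n : PP K) + 2) *
          (X 0 * (Lb K ^ (n + 1) * (x * v1)))
          + x * ((q : PP K) * (X 0 ^ 2 * (Lb K ^ n * U (d + 2)))))
        = x ^ 2 * (Lb K ^ n * F) := by rw [hF]; ring
    rw [e1] at hC
    exact col2 _ hC
  -- step E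
  obtain ⟨G, hG⟩ : ∃ G : PP K, G = ((n : PP K) + 3) * (X 0 * v1) + 2 * (Lb K * u2) := ⟨_, rfl⟩
  have hGH : XH (e + 1) G := by
    rw [hG]
    apply XH.add
    · have h5 := XH_natCast (K := K) (n + 3)
      push_cast at h5
      have := h5.mul ((XH_X (K := K) 0).mul hv1H)
      rwa [show 0 + (0 + (e + 1)) = e + 1 by ring] at this
    · have h5 := XH_natCast (K := K) 2
      push_cast at h5
      have := h5.mul (XH_Lb.mul hu2H)
      rwa [show 0 + (1 + e) = e + 1 by ring] at this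
  have hGx : x ∣ G := by
    apply G1 _ hGH
    apply InC_Lb h1
    have hC := E (d + 1)
    rw [show d + 1 + 2 = d + 3 by ring, show d + 1 + 1 = d + 2 by ring, hv1] at hC
    have e1 : Lb K ^ (n + 2) * (x * v1) + x * (((n : PP K) + 2) * (X 0 * (Lb K ^ (n + 1) * U (d + 2)))
          + x * ((q : PP K) * (X 0 ^ 2 * (Lb K ^ n * U (d + 1)))))
        = x * (Lb K ^ (n + 1) * (Lb K * v1 + ((n : PP K) + 2) * (X 0 * U (d + 2)))
          + x * ((q : PP K) * (X 0 ^ 2 * (Lb K ^ n * U (d + 1))))) := by ring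
    rw [e1] at hC
    have hC2 := (col1 _ hC).sub (I1 ((q : PP K) * (X 0 ^ 2 * (Lb K ^ n * U (d + 1)))))
    rw [add_sub_cancel_right] at hC2
    have hC3 := ((I1' F hFx).mul_left (2 * ((n : PP K) + 2) * Lb K ^ (n + 1))).sub
      (hC2.mul_left (2 * (q : PP K) * X 0))
    have e2 : 2 * ((n : PP K) + 2) * Lb K ^ (n + 1) * F
        - 2 * (q : PP K) * X 0 * (Lb K ^ (n + 1) * (Lb K * v1 + ((n : PP K) + 2) * (X 0 * U (d + 2))))
        = ((n + 2 : ℕ) : PP K) * (Lb K ^ (n + 2) * G) := by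
      rw [hF, hG]
      push_cast
      linear_combination (-(Lb K ^ (n + 2) * X 0 * v1)) * hq
    rw [e2] at hC3
    exact nat_cancel' (by positivity) hC3
  -- step F
  have hfin : x ∣ u2 := by
    apply G2 _ hu2H
    apply InC_Lb h1
    have hC := (E d).mono h31
    have hC1 := hC.sub (I1 ((((n : PP K) + 2) * (X 0 * (Lb K ^ (n + 1) * U (d + 1))))
        + x * ((q : PP K) * (X 0 ^ 2 * (Lb K ^ n * U d)))))
    rw [add_sub_cancel_right] at hC1
    have hC2 := ((hC1.mul_left (((n : PP K) + 3) * (q : PP K) * X 0 ^ 2)).sub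
      ((I1' F hFx).mul_left (((n : PP K) + 3) * Lb K ^ (n + 2)))).add
      ((I1' G hGx).mul_left (((n : PP K) + 2) * Lb K ^ (n + 3)))
    have e2 : ((n : PP K) + 3) * (q : PP K) * X 0 ^ 2 * (Lb K ^ (n + 2) * U (d + 2))
        - ((n : PP K) + 3) * Lb K ^ (n + 2) * F + ((n : PP K) + 2) * Lb K ^ (n + 3) * G
        = ((n + 1 : ℕ) : PP K) * (Lb K ^ (n + 4) * u2) := by
      rw [hF, hG]
      push_cast
      ring
    rw [e2] at hC2
    exact nat_cancel' (by positivity) hC2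
  obtain ⟨u3, hu3⟩ := hfin
  apply hD
  rw [hu1, hu2, hu3]
  exact ⟨u3, by ring⟩

end CubeA

open CubeA in
/-- J14 with the statement of `gi_line` as a hypothesis -/
theorem cube_aux_of [CharZero K] {g h : MvPolynomial (Fin 3) K} {b c i : ℕ}
    (hGL : ∀ (j k : ℕ), j < b → j < c → 2 * j + k + 2 ≤ b + c → ∀ w : PP K, XH j w →
      InC (Ideal.span (Set.range ![X 0, g, h])) (Lam K ^ k * w) → ∃ v, w = C (X 0) * v)
    (hi : 2 ≤ i) (hib : i + 2 ≤ b) (hic : i + 2 ≤ c)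
    (hcol2 : ∀ p, X 0 ^ 2 * p ∈ Ideal.span (Set.range ![X 0 ^ 3, g, h]) →
      p ∈ Ideal.span (Set.range ![X 0, g, h]))
    (hcol1 : ∀ p, X 0 * p ∈ Ideal.span (Set.range ![X 0 ^ 3, g, h]) →
      p ∈ Ideal.span (Set.range ![X 0 ^ 2, g, h]))
    {w : PP K} (hw : XH i w)
    (HI : InC (Ideal.span (Set.range ![X 0 ^ 3, g, h])) (Lam K ^ (b + c - 2 * i) * w)) :
    ∃ v, w = C (X 0 ^ 3) * v := by
  obtain ⟨e, rfl⟩ : ∃ e, i = e + 2 := ⟨i - 2, by omega⟩
  obtain ⟨n, hn⟩ : ∃ n, b + c - 2 * (e + 2) = n + 2 := ⟨b + c - 2 * (e + 2) - 2, by omega⟩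
  rw [hn] at HI
  have hle : ∀ r s : R3 K, s ∣ r → Ideal.span (Set.range ![r, g, h])
      ≤ Ideal.span (Set.range ![s, g, h]) := by
    intro r s hrs
    rw [Ideal.span_le]
    rintro y ⟨k, rfl⟩
    fin_cases k
    · obtain ⟨t, ht⟩ := hrs
      show r ∈ _
      rw [ht]
      exact Ideal.mul_mem_right _ _ (Ideal.subset_span ⟨0, rfl⟩)
    · exact Ideal.subset_span ⟨1, rfl⟩
    · exact Ideal.subset_span ⟨2, rfl⟩
  have toD : ∀ v : PP K, (∃ y, v = C (X 0) * y) → (C (X 0) : PP K) ∣ v := fun v h => h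
  obtain ⟨v, hv⟩ := cube_core (J1 := Ideal.span (Set.range ![X 0, g, h]))
    (J2 := Ideal.span (Set.range ![X 0 ^ 2, g, h])) (J3 := Ideal.span (Set.range ![X 0 ^ 3, g, h]))
    (Ideal.subset_span ⟨0, rfl⟩) (hle _ _ (Dvd.intro_left (X 0) (by ring)))
    (hle _ _ (Dvd.intro_left (X 0 ^ 2) (by ring))) (Ideal.subset_span ⟨0, rfl⟩) hcol2 hcol1
    (n := n) (e := e)
    (fun v hv H => toD v (hGL (e + 2) n (by omega) (by omega) (by omega) v hv H))
    (fun v hv H => toD v (hGL (e + 1) (n + 2) (by omega) (by omega) (by omega) v hv H))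
    (fun v hv H => toD v (hGL e (n + 4) (by omega) (by omega) (by omega) v hv H)) hw HI
  exact ⟨v, hv⟩

end Pool.Agent.H11.SLP
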