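import Pool.Agent.H11.SLP.Defs
import Pool.Agent.H4.ConicMain

/-!
The interface between polynomials in the coordinates of the linear form and the generic field,
and the assembly of the strong Lefschetz property from the injectivity statements.
-/

set_option autoImplicit false

open MvPolynomial

namespace Pool.Agent.H11.SLP

open Pool.Agent.H4.Apolar

section generic

open Pool.Agent.H22.SLP Pool.Agent.H4.Descent Pool.Agent.H4.Ternary Pool.Agent.H4.Conic

variable {K : Type*} [Field K]

/-- Specialisation of the outer variables to the generic coordinates. -/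
noncomputable def toL (K : Type*) [Field K] : PP K →+* MvPolynomial (Fin 3) (FL K) :=
  eval₂Hom (map (algebraMap K (FL K))) (fun k => C (tl k))

lemma toL_C (g : MvPolynomial (Fin 3) K) : toL K (C g) = map (algebraMap K (FL K)) g := by
  unfold toL
  rw [coe_eval₂Hom, eval₂_C]

lemma toL_X (k : Fin 3) : toL K (X k) = C (tl k) := by
  unfold toL
  rw [coe_eval₂Hom, eval₂_X]

lemma toL_Lam : toL K (Lam K) = lin tl := by
  unfold Lam lin
  rw [map_sum]
  apply Finset.sum_congr rfl
  intro k _
  rw [map_mul, toL_C, toL_X, map_X, mul_comm]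

/-- Polynomials in the outer variables with constant coefficients. -/
lemma toL_map_C (a : MvPolynomial (Fin 3) K) :
    toL K (map C a) = C (algebraMap (MvPolynomial (Fin 3) K) (FL K) a) := by
  have h : (toL K).comp (map (C : K →+* MvPolynomial (Fin 3) K)) =
      (C : FL K →+* MvPolynomial (Fin 3) (FL K)).comp
        (algebraMap (MvPolynomial (Fin 3) K) (FL K)) := by
    apply MvPolynomial.ringHom_ext
    · intro c
      rw [RingHom.comp_apply, RingHom.comp_apply, map_C, toL_C, map_C,
        IsScalarTower.algebraMap_apply K (MvPolynomial (Fin 3) K) (FL K)]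
      rfl
    · intro k
      rw [RingHom.comp_apply, RingHom.comp_apply, map_X, toL_X]
      rfl
  exact RingHom.congr_fun h a

/-- The coordinates of `toL` with respect to monomials in the generic coordinates. -/
lemma toL_eq_sum (w : PP K) : toL K w = ∑ n ∈ w.support,
    map (algebraMap K (FL K)) (coeff n w) *
      C (algebraMap (MvPolynomial (Fin 3) K) (FL K) (monomial n 1)) := by
  conv_lhs => rw [w.as_sum]
  rw [map_sum]
  apply Finset.sum_congr rfl
  intro n _
  have h1 : (monomial n (coeff n w) : PP K) = C (coeff n w) * map C (monomial n (1 : K)) := by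
    rw [map_monomial, map_one, C_mul_monomial, mul_one]
  rw [h1, map_mul, toL_C, toL_map_C]

lemma exists_theta_monomial (m : Fin 3 →₀ ℕ) : ∃ θ : FL K →ₗ[K] K, ∀ n : Fin 3 →₀ ℕ,
    θ (algebraMap (MvPolynomial (Fin 3) K) (FL K) (monomial n 1)) = if n = m then 1 else 0 := by
  classical
  have hinj : Function.Injective
      (IsScalarTower.toAlgHom K (MvPolynomial (Fin 3) K) (FL K)).toLinearMap :=
    IsFractionRing.injective (MvPolynomial (Fin 3) K) (FL K)
  obtain ⟨g, hg⟩ := LinearMap.exists_leftInverse_of_injective _ (LinearMap.ker_eq_bot.2 hinj)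
  refine ⟨(lcoeff K m).comp g, fun n => ?_⟩
  have h1 := LinearMap.congr_fun hg (monomial n (1 : K))
  rw [LinearMap.comp_apply, LinearMap.id_apply] at h1
  rw [LinearMap.comp_apply]
  have h2 : g (algebraMap (MvPolynomial (Fin 3) K) (FL K) (monomial n 1)) = monomial n 1 := h1
  rw [h2, lcoeff_apply, coeff_monomial]

lemma th_C (θ : FL K →ₗ[K] K) (x : FL K) :
    th θ (C x : MvPolynomial (Fin 3) (FL K)) = C (θ x) := by
  classical
  ext α
  rw [coeff_th, coeff_C, coeff_C]
  split_ifs
  · rfl
  · rw [map_zero]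

variable {r : ℕ} (F : Fin r → MvPolynomial (Fin 3) K)

/-- Membership in the extended ideal is a coefficientwise condition. -/
lemma toL_mem_iff (w : PP K) :
    toL K w ∈ Ideal.span (Set.range fun j => map (algebraMap K (FL K)) (F j)) ↔
      InC (Ideal.span (Set.range F)) w := by
  constructor
  · intro h m
    obtain ⟨θ, hθ⟩ := exists_theta_monomial (K := K) m
    have h1 := th_mem θ h
    rw [toL_eq_sum, th_sum] at h1
    have h2 : ∀ (g : MvPolynomial (Fin 3) K) (x : FL K),
        th θ (map (algebraMap K (FL K)) g * C x) = g * C (θ x) := by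
      intro g x
      rw [th_map_mul, th_C]
    simp only [h2, hθ] at h1
    classical
    by_cases hm : m ∈ w.support
    · rw [Finset.sum_eq_single m] at h1
      · rwa [if_pos rfl, C_1, mul_one] at h1
      · intro n _ hn
        rw [if_neg hn, C_0, mul_zero]
      · intro hn
        exact absurd hm hn
    · rw [notMem_support_iff.1 hm]
      exact Submodule.zero_mem _
  · intro h
    rw [toL_eq_sum]
    apply Ideal.sum_mem
    intro n _
    exact Ideal.mul_mem_right _ _ (mem_map_span (h n))

lemma toL_isHomogeneous {w : PP K} {i : ℕ} (hw : XH i w) : (toL K w).IsHomogeneous i := by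
  rw [toL_eq_sum]
  apply IsHomogeneous.sum
  intro n _
  have h1 := ((hw n).map (algebraMap K (FL K))).mul (isHomogeneous_C (Fin 3)
    (algebraMap (MvPolynomial (Fin 3) K) (FL K) (monomial n 1)))
  rwa [add_zero] at h1

/-- Denominators can be cleared. -/
lemma exists_clear {p : MvPolynomial (Fin 3) (FL K)} {i : ℕ} (hp : p.IsHomogeneous i) :
    ∃ (d : FL K) (w : PP K), d ≠ 0 ∧ XH i w ∧ toL K w = C d * p := by
  classical
  obtain ⟨d, hd⟩ := IsLocalization.exist_integer_multiples
    (nonZeroDivisors (MvPolynomial (Fin 3) K)) p.support (fun α => coeff α p)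
  have h : ∀ α ∈ p.support, ∃ a : MvPolynomial (Fin 3) K, algebraMap _ (FL K) a =
      algebraMap _ (FL K) (d : MvPolynomial (Fin 3) K) * coeff α p := by
    intro α hα
    obtain ⟨a, ha⟩ := hd α hα
    refine ⟨a, ?_⟩
    rw [ha]
    exact Algebra.smul_def _ _
  choose! a ha using h
  refine ⟨algebraMap _ (FL K) (d : MvPolynomial (Fin 3) K),
    ∑ α ∈ p.support, map C (a α) * C (monomial α 1),
    IsFractionRing.to_map_ne_zero_of_mem_nonZeroDivisors d.2, ?_, ?_⟩
  · intro n
    rw [coeff_sum]
    apply IsHomogeneous.sum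
    intro α hα
    rw [mul_comm, coeff_C_mul, coeff_map, mul_comm]
    have h1 : α.degree = i := by
      by_contra h0
      exact (mem_support_iff.1 hα) (hp.coeff_eq_zero h0)
    have h2 := (isHomogeneous_C (Fin 3) (coeff n (a α))).mul
      (isHomogeneous_monomial (σ := Fin 3) (1 : K) h1)
    rwa [zero_add] at h2
  · rw [map_sum]
    conv_rhs => rw [p.as_sum, Finset.mul_sum]
    apply Finset.sum_congr rfl
    intro α hα
    rw [map_mul, toL_map_C, toL_C, map_monomial, map_one, ha α hα, C_mul, mul_assoc,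
      C_mul_monomial, mul_one]

end generic

variable {K : Type*} [Field K]

open Pool.Agent.H22.SLP in
theorem gi_iff {r : ℕ} (F : Fin r → MvPolynomial (Fin 3) K) (i k : ℕ) :
    GI (Ideal.span (Set.range F)) i k ↔
    ∀ p : MvPolynomial (Fin 3) (FL K), p.IsHomogeneous i →
      lin tl ^ k * p ∈ Ideal.span (Set.range fun j => map (algebraMap K (FL K)) (F j)) →
      p ∈ Ideal.span (Set.range fun j => map (algebraMap K (FL K)) (F j)) := by
  constructor
  · intro h p hp hpI
    obtain ⟨d, w, hd, hw, hwp⟩ := exists_clear hp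
    have h1 : InC (Ideal.span (Set.range F)) (Lam K ^ k * w) := by
      rw [← toL_mem_iff, map_mul, map_pow, toL_Lam, hwp]
      have h2 : lin tl ^ k * (C d * p) = C d * (lin tl ^ k * p) := by ring
      rw [h2]
      exact Ideal.mul_mem_left _ _ hpI
    have h3 := (toL_mem_iff F w).2 (h w hw h1)
    rw [hwp] at h3
    have h4 : p = C d⁻¹ * (C d * p) := by
      rw [← mul_assoc, ← C_mul, inv_mul_cancel₀ hd, C_1, one_mul]
    rw [h4]
    exact Ideal.mul_mem_left _ _ h3
  · intro h w hw hwI
    rw [← toL_mem_iff] at hwI ⊢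
    rw [map_mul, map_pow, toL_Lam] at hwI
    exact h _ (toL_isHomogeneous hw) hwI

section shift

/-- The substitution `X_k ↦ X_k + c_k` in the outer variables. -/
noncomputable def shiftBy (c : Fin 3 → K) : PP K →+* PP K :=
  eval₂Hom C (fun k => X k + C (C (c k)))

lemma shiftBy_C (c : Fin 3 → K) (g : MvPolynomial (Fin 3) K) : shiftBy c (C g) = C g := by
  unfold shiftBy
  rw [coe_eval₂Hom, eval₂_C]

lemma shiftBy_X (c : Fin 3 → K) (k : Fin 3) : shiftBy c (X k) = X k + C (C (c k)) := by
  unfold shiftBy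
  rw [coe_eval₂Hom, eval₂_X]

lemma shiftBy_neg (c : Fin 3 → K) (w : PP K) : shiftBy (-c) (shiftBy c w) = w := by
  have h : (shiftBy (-c)).comp (shiftBy c) = RingHom.id (PP K) := by
    apply MvPolynomial.ringHom_ext
    · intro g
      rw [RingHom.comp_apply, shiftBy_C, shiftBy_C]
      rfl
    · intro k
      rw [RingHom.comp_apply, shiftBy_X, map_add, shiftBy_X, shiftBy_C, Pi.neg_apply]
      simp only [C_neg, RingHom.id_apply]
      ring
  exact RingHom.congr_fun h w

lemma shiftBy_Lam (c : Fin 3 → K) : shiftBy c (Lam K) = Lam K + C (lin c) := by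
  unfold Lam lin
  rw [map_sum, map_sum, ← Finset.sum_add_distrib]
  apply Finset.sum_congr rfl
  intro k _
  rw [map_mul, shiftBy_C, shiftBy_X, C_mul]
  ring

lemma inC_iff_map {J : Ideal (MvPolynomial (Fin 3) K)} {w : PP K} :
    InC J w ↔ w ∈ J.map (C : MvPolynomial (Fin 3) K →+* PP K) := by
  rw [MvPolynomial.mem_map_C_iff]
  rfl

lemma inC_shiftBy {J : Ideal (MvPolynomial (Fin 3) K)} (c : Fin 3 → K) {w : PP K}
    (hw : InC J w) : InC J (shiftBy c w) := by
  rw [inC_iff_map] at hw ⊢
  have h1 := Ideal.mem_map_of_mem (shiftBy c) hw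
  rw [Ideal.map_map] at h1
  have h2 : (shiftBy c).comp (C : MvPolynomial (Fin 3) K →+* PP K) = C :=
    RingHom.ext fun g => shiftBy_C c g
  rwa [h2] at h1

lemma XH.mul_map_C {i : ℕ} {w : PP K} (hw : XH i w) (a : MvPolynomial (Fin 3) K) :
    XH i (w * map C a) := by
  classical
  intro n
  rw [coeff_mul]
  apply IsHomogeneous.sum
  intro x _
  rw [coeff_map]
  have h1 := (hw x.1).mul (isHomogeneous_C (Fin 3) (coeff x.2 a))
  rwa [add_zero] at h1

lemma XH_C_iface {i : ℕ} {g : MvPolynomial (Fin 3) K} (hg : g.IsHomogeneous i) : XH i (C g : PP K) := by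
  classical
  intro n
  rw [coeff_C]
  split_ifs
  · exact hg
  · exact isHomogeneous_zero _ _ _

lemma XH_shiftBy {i : ℕ} (c : Fin 3 → K) {w : PP K} (hw : XH i w) : XH i (shiftBy c w) := by
  rw [w.as_sum, map_sum]
  intro n
  rw [coeff_sum]
  apply IsHomogeneous.sum
  intro m _
  revert n
  have h1 : shiftBy c (monomial m (coeff m w)) = C (coeff m w) *
      map C (∏ k, (X k + C (c k)) ^ m k) := by
    have h2 : (monomial m (coeff m w) : PP K) = C (coeff m w) * ∏ k, X k ^ m k := by
      rw [MvPolynomial.monomial_eq, Finsupp.prod_fintype]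
      intro k
      rw [pow_zero]
    rw [h2, map_mul, shiftBy_C, map_prod, map_prod]
    refine congrArg (fun y => C (coeff m w) * y) ?_
    apply Finset.prod_congr rfl
    intro k _
    rw [map_pow, map_pow, shiftBy_X, map_add, map_X, map_C]
  rw [h1]
  exact (XH_C_iface (hw m)).mul_map_C _

end shift

theorem gi_of_inj {J : Ideal (MvPolynomial (Fin 3) K)} {ℓ : MvPolynomial (Fin 3) K}
    (hℓ : ℓ.IsHomogeneous 1) {i k : ℕ}
    (h : ∀ g ∈ homogeneousSubmodule (Fin 3) K i, ℓ ^ k * g ∈ J → g ∈ J) : GI J i k := by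
  obtain ⟨c, rfl⟩ := Pool.Agent.H4.Descent.eq_lin hℓ
  intro w hw hwI
  have hw' := XH_shiftBy c hw
  have hwI' := inC_shiftBy c hwI
  rw [map_mul, map_pow, shiftBy_Lam] at hwI'
  set v := shiftBy c w with hv
  suffices hmain : InC J v by
    have h1 := inC_shiftBy (-c) hmain
    rwa [hv, shiftBy_neg] at h1
  have hind : ∀ N, ∀ n : Fin 3 →₀ ℕ, n.degree = N → coeff n v ∈ J := by
    intro N
    induction N using Nat.strong_induction_on with
    | _ N ih =>
      intro n hn
      apply h _ ((mem_homogeneousSubmodule _ _).2 (hw' n))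
      have h1 := hwI' n
      classical
      rw [coeff_mul, ← Finset.add_sum_erase _ _
        (show ((0 : Fin 3 →₀ ℕ), n) ∈ Finset.HasAntidiagonal.antidiagonal n by simp)] at h1
      have h2 : coeff 0 ((Lam K + C (lin c)) ^ k) = lin c ^ k := by
        have h3 : ∀ q : PP K, coeff 0 q = constantCoeff q := fun q => rfl
        rw [h3, map_pow, map_add, constantCoeff_C]
        unfold Lam
        rw [map_sum]
        simp
      rw [h2] at h1
      have h3 : ∑ x ∈ (Finset.HasAntidiagonal.antidiagonal n).erase (0, n),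
          coeff x.1 ((Lam K + C (lin c)) ^ k) * coeff x.2 v ∈ J := by
        apply Ideal.sum_mem
        intro x hx
        rw [Finset.mem_erase, Finset.HasAntidiagonal.mem_antidiagonal] at hx
        apply Ideal.mul_mem_left
        apply ih x.2.degree _ x.2 rfl
        rw [← hn, ← hx.2, map_add]
        have h4 : x.1 ≠ 0 := by
          intro h0
          apply hx.1
          rw [h0, zero_add] at hx
          ext1
          · exact h0
          · exact hx.2
        have h5 : 0 < x.1.degree := by
          rw [Nat.pos_iff_ne_zero]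
          intro h0
          exact h4 ((Finsupp.degree_eq_zero_iff _).1 h0)
        omega
      exact (Ideal.add_mem_iff_left _ h3).1 h1
  exact fun n => hind _ n rfl

open Pool.Agent.H22.SLP Pool.Agent.H4.Descent Pool.Agent.H4.Ternary Pool.Agent.H4.Conic in
theorem slp_of_gi {K : Type*} [Field K] [CharZero K] {f : Fin 3 → MvPolynomial (Fin 3) K}
    {b c : ℕ} (hb : 3 ≤ b) (hbc : b ≤ c)
    (h0 : (f 0).IsHomogeneous 3) (h1 : (f 1).IsHomogeneous b) (h2 : (f 2).IsHomogeneous c)
    (hfin : FiniteDimensional K (MvPolynomial (Fin 3) K ⧸ Ideal.span (Set.range f)))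
    (hgi : ∀ i, 2 ≤ i → i + 2 ≤ b →
      GI (Ideal.span (Set.range fun j => map (algebraMap K (AlgebraicClosure K)) (f j))) i
        (b + c - 2 * i)) :
    ∃ ℓ : MvPolynomial (Fin 3) K, ℓ.IsHomogeneous 1 ∧ ∀ i k : ℕ,
      (∀ g ∈ homogeneousSubmodule (Fin 3) K i,
        ℓ ^ k * g ∈ Ideal.span (Set.range f) → g ∈ Ideal.span (Set.range f)) ∨
      (∀ h ∈ homogeneousSubmodule (Fin 3) K (i + k),
        ∃ g ∈ homogeneousSubmodule (Fin 3) K i, h - ℓ ^ k * g ∈ Ideal.span (Set.range f)) := by
  obtain ⟨J, hJ⟩ := exists_J (f := f) (d := ![3, b, c]) (by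
    intro i
    fin_cases i
    · exact h0
    · exact h1
    · exact h2) hfin
  suffices hmain : ∃ ℓ : MvPolynomial (Fin 3) (AlgebraicClosure K), ℓ.IsHomogeneous 1 ∧
      ∀ i k : ℕ, True →
      (∀ g ∈ homogeneousSubmodule (Fin 3) (AlgebraicClosure K) i,
        ℓ ^ k * g ∈ Ideal.span (Set.range fun j => map (algebraMap K (AlgebraicClosure K)) (f j)) →
        g ∈ Ideal.span (Set.range fun j => map (algebraMap K (AlgebraicClosure K)) (f j))) ∨
      (∀ h ∈ homogeneousSubmodule (Fin 3) (AlgebraicClosure K) (i + k),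
        ∃ g ∈ homogeneousSubmodule (Fin 3) (AlgebraicClosure K) i,
          h - ℓ ^ k * g ∈
            Ideal.span (Set.range fun j => map (algebraMap K (AlgebraicClosure K)) (f j))) by
    obtain ⟨ℓ, hℓ, hP⟩ := descentP (L := AlgebraicClosure K) hJ (fun _ _ => True) hmain
    exact ⟨ℓ, hℓ, fun i k => hP i k trivial⟩
  have hJ' := RT_map (L := AlgebraicClosure K) hJ
  have h0' := h0.map (algebraMap K (AlgebraicClosure K))
  have h1' := h1.map (algebraMap K (AlgebraicClosure K))
  have h2' := h2.map (algebraMap K (AlgebraicClosure K))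
  generalize hF : (fun j => map (algebraMap K (AlgebraicClosure K)) (f j)) = F at hJ' hgi ⊢
  have e0 : map (algebraMap K (AlgebraicClosure K)) (f 0) = F 0 := congrFun hF 0
  have e1 : map (algebraMap K (AlgebraicClosure K)) (f 1) = F 1 := congrFun hF 1
  have e2 : map (algebraMap K (AlgebraicClosure K)) (f 2) = F 2 := congrFun hF 2
  rw [e0] at h0'
  rw [e1] at h1'
  rw [e2] at h2'
  have hfF : F = ![F 0, F 1, F 2] := by
    ext1 i
    fin_cases i <;> rfl
  have H : CI (F 0) (F 1) (F 2) 3 b c :=
    ⟨h0', h1', h2', by omega, by omega, by omega, J, by rwa [← hfF]⟩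
  apply descentP (L := FL (AlgebraicClosure K)) hJ' (fun _ _ => True)
  have hI : Ideal.span (Set.range fun i =>
      map (algebraMap (AlgebraicClosure K) (FL (AlgebraicClosure K))) (F i)) =
      I3 (F 0) (F 1) (F 2) := by
    rw [I3, ← range_mp, ← hfF]
  have hL : Lef (I3 (F 0) (F 1) (F 2)) (3 + b + c - 3) :=
    ⟨fun m hm p hp hX => H.soc hm hp hX, H.dim_one, fun m hm p hp => H.vanish hm hp⟩
  rw [show 3 + b + c - 3 = b + c by omega] at hL
  have hinj : ∀ i, 2 * i ≤ b + c → Inj (I3 (F 0) (F 1) (F 2)) (lin tl) i (b + c - 2 * i) := by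
    intro i hi
    by_cases hi' : i ≤ 1 ∨ 3 + b ≤ i + 4
    · intro p hp hpI
      apply H.inj (by omega) (by omega) hi' hp
      rw [show 3 + b + c - 3 - 2 * i = b + c - 2 * i by omega]
      exact hpI
    · have h3 := (gi_iff F i (b + c - 2 * i)).1 (hgi i (by omega) (by omega))
      rw [hI] at h3
      exact h3
  have hℓ : (lin tl : MvPolynomial (Fin 3) (FL (AlgebraicClosure K))).IsHomogeneous 1 :=
    lin_isHomogeneous _
  rw [hI]
  refine ⟨lin tl, hℓ, fun i k _ => ?_⟩
  change Inj (I3 (F 0) (F 1) (F 2)) (lin tl) i k ∨ Sur (I3 (F 0) (F 1) (F 2)) (lin tl) i k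
  by_cases hbig : b + c < i + k
  · right
    intro z hz
    refine ⟨0, Submodule.zero_mem _, ?_⟩
    rw [mul_zero, sub_zero]
    exact hL.vanish _ hbig z hz
  by_cases h3 : 2 * i + k ≤ b + c
  · left
    exact (hinj i (by omega)).mono (by omega)
  · right
    exact sur_of_sym hℓ (hL.sur_of_inj hℓ (by omega) (hinj (b + c - (i + k)) (by omega)))
      (by omega) (by omega) (by omega)

end Pool.Agent.H11.SLP
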