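import Pool.Agent.H11.SLP.Core
import Pool.Agent.H11.SLP.Iface

/-!
The strong Lefschetz property for complete intersections with an irreducible cubic generator.
-/

set_option autoImplicit false

open MvPolynomial

namespace Pool.Agent.H11.SLP

open Pool.Agent.H4.Apolar Pool.Agent.H4.Descent Pool.Agent.H4.Ternary Pool.Agent.H4.Conic Pool.Agent.H22.SLP

/-- Generic injectivity in all degrees `1 ≤ i ≤ b - 2` for an irreducible cubic. -/
theorem gi_cubic {K : Type*} [Field K] [CharZero K] [IsAlgClosed K]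
    {f g h : MvPolynomial (Fin 3) K} {b c : ℕ} (hf : Prime f) (H : CI f g h 3 b c) (hbc : b ≤ c) :
    ∀ i, 1 ≤ i → i + 2 ≤ b → GI (Ideal.span (Set.range ![f, g, h])) i (b + c - 2 * i) := by
  have hrange : (fun j => map (algebraMap K (FL K)) (![f, g, h] j)) = ![mp f, mp g, mp h] :=
    range_mp
  have hL : Lef (I3 f g h) (3 + b + c - 3) :=
    ⟨fun m hm p hp hX => H.soc hm hp hX, H.dim_one, fun m hm p hp => H.vanish hm hp⟩
  rw [show 3 + b + c - 3 = b + c by omega] at hL
  obtain ⟨J, hJ⟩ := H.hJ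
  have hJ' : ∀ p ∈ RT 3 K (J + 1), p ∈ Ideal.span (Set.range ![f, h, g]) := by
    intro p hp
    have h1 := hJ p hp
    have h2 : Set.range ![f, g, h] = Set.range ![f, h, g] := by
      ext q
      simp only [Set.mem_range]
      constructor
      · rintro ⟨j, rfl⟩
        fin_cases j
        · exact ⟨0, rfl⟩
        · exact ⟨2, rfl⟩
        · exact ⟨1, rfl⟩
      · rintro ⟨j, rfl⟩
        fin_cases j
        · exact ⟨0, rfl⟩
        · exact ⟨2, rfl⟩
        · exact ⟨1, rfl⟩
    rwa [h2] at h1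
  have hb := H.hb
  have hc := H.hc
  have hfg : IsRelPrime f g := relPrime_of_cofinite H.hf H.hg H.hh (by omega) (by omega) hJ
  have hfh : IsRelPrime f h := relPrime_of_cofinite H.hf H.hh H.hg (by omega) (by omega) hJ'
  have hg0 := ne_zero_of_relPrime H.hf (by norm_num) hfg
  have hh0 := ne_zero_of_relPrime H.hf (by norm_num) hfh
  have hsoc : ∀ i, ∀ w₀ : MvPolynomial (Fin 3) K, w₀.IsHomogeneous i →
      (∀ cs : List (Fin 3), cs.length = b + c - 2 * i →
        mx K cs * w₀ ∈ Ideal.span (Set.range ![f, g, h])) → 2 * i ≤ b + c →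
      w₀ ∈ Ideal.span (Set.range ![f, g, h]) := by
    intro i w₀ hw₀ hcs hib
    have h1 : mp w₀ ∈ I3 f g h := by
      apply hL.descend (hw₀.map _) (b + c - 2 * i) (by omega)
      intro q hq
      apply forms_mem (n := b + c - 2 * i) _ hq
      intro cs hcs'
      have h2 := hcs cs hcs'
      have h3 := mem_map_span (L := FL K) h2
      rw [hrange, map_mul] at h3
      have h4 : map (algebraMap K (FL K)) (mx K cs) = mx (FL K) cs := by
        unfold mx
        rw [map_list_prod, List.map_map]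
        congr 1
        apply List.map_congr_left
        intro k _
        simp
      rw [h4] at h3
      exact h3
    obtain ⟨θ, hθ⟩ := exists_theta (K := K) (L := FL K)
    have h5 := th_mem (f := ![f, g, h]) (p := mp w₀) θ (by rw [hrange]; exact h1)
    unfold mp at h5
    rwa [th_map hθ] at h5
  intro i hi
  induction i, hi using Nat.le_induction with
  | base =>
    intro _
    rw [gi_iff, hrange]
    intro p hp hpI
    apply H.inj (by omega) (by omega) (Or.inl le_rfl) hp
    rw [show 3 + b + c - 3 - 2 * 1 = b + c - 2 * 1 by omega]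
    exact hpI
  | succ i hi ih =>
    intro hib
    exact core hf H.hf H.hg H.hh hfg hfh hg0 hh0 ⟨J, hJ⟩ (by omega) hib hbc
      (fun w₀ hw₀ hcs => hsoc (i + 1) w₀ hw₀ hcs (by omega)) (ih (by omega))

theorem slp_cubic_aux {K : Type*} [Field K] [CharZero K] {f : Fin 3 → MvPolynomial (Fin 3) K}
    {b c : ℕ} (hb : 3 ≤ b) (hbc : b ≤ c)
    (h0 : (f 0).IsHomogeneous 3) (h1 : (f 1).IsHomogeneous b) (h2 : (f 2).IsHomogeneous c)
    (hirr : Irreducible (map (algebraMap K (AlgebraicClosure K)) (f 0)))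
    (hfin : FiniteDimensional K (MvPolynomial (Fin 3) K ⧸ Ideal.span (Set.range f))) :
    ∃ ℓ : MvPolynomial (Fin 3) K, ℓ.IsHomogeneous 1 ∧ ∀ i k : ℕ,
      (∀ g ∈ homogeneousSubmodule (Fin 3) K i,
        ℓ ^ k * g ∈ Ideal.span (Set.range f) → g ∈ Ideal.span (Set.range f)) ∨
      (∀ h ∈ homogeneousSubmodule (Fin 3) K (i + k),
        ∃ g ∈ homogeneousSubmodule (Fin 3) K i, h - ℓ ^ k * g ∈ Ideal.span (Set.range f)) := by
  apply slp_of_gi hb hbc h0 h1 h2 hfin
  obtain ⟨J, hJ⟩ := exists_J (f := f) (d := ![3, b, c]) (by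
    intro i
    fin_cases i
    · exact h0
    · exact h1
    · exact h2) hfin
  have hJ' := RT_map (L := AlgebraicClosure K) hJ
  set F := (fun j => map (algebraMap K (AlgebraicClosure K)) (f j)) with hF
  have hfF : F = ![F 0, F 1, F 2] := by
    ext1 i
    fin_cases i <;> rfl
  have H : CI (F 0) (F 1) (F 2) 3 b c :=
    ⟨h0.map _, h1.map _, h2.map _, by omega, by omega, by omega, J, by rwa [← hfF]⟩
  intro i hi hib
  rw [hfF]
  exact gi_cubic hirr.prime H hbc i (by omega) hib

end Pool.Agent.H11.SLP
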