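import Pool.Agent.H11.SLP.CubicI

/-!
The strong Lefschetz property for complete intersections with a geometrically irreducible cubic
generator: arrangement of the generators.
-/

set_option autoImplicit false

open MvPolynomial

namespace Pool.Agent.H11.SLP

variable {K : Type*} [Field K]

/-- The strong Lefschetz property of the quotient by `J`, with representatives. -/
def SLPof (J : Ideal (MvPolynomial (Fin 3) K)) : Prop :=
  ∃ ℓ : MvPolynomial (Fin 3) K, ℓ.IsHomogeneous 1 ∧ ∀ i k : ℕ,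
      (∀ g ∈ homogeneousSubmodule (Fin 3) K i, ℓ ^ k * g ∈ J → g ∈ J) ∨
      (∀ h ∈ homogeneousSubmodule (Fin 3) K (i + k),
        ∃ g ∈ homogeneousSubmodule (Fin 3) K i, h - ℓ ^ k * g ∈ J)

lemma others (j : Fin 3) : ∃ p q : Fin 3, ∀ i, i = j ∨ i = p ∨ i = q := by
  revert j
  decide

lemma range_others {f : Fin 3 → MvPolynomial (Fin 3) K} {j p q : Fin 3}
    (h : ∀ i, i = j ∨ i = p ∨ i = q) : Set.range ![f j, f p, f q] = Set.range f := by
  ext x
  simp only [Set.mem_range]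
  constructor
  · rintro ⟨i, rfl⟩
    fin_cases i
    · exact ⟨j, rfl⟩
    · exact ⟨p, rfl⟩
    · exact ⟨q, rfl⟩
  · rintro ⟨i, rfl⟩
    rcases h i with rfl | rfl | rfl
    · exact ⟨0, rfl⟩
    · exact ⟨1, rfl⟩
    · exact ⟨2, rfl⟩

theorem irr_main [CharZero K] {f : Fin 3 → MvPolynomial (Fin 3) K}
    (hf : ∀ j, ∃ d : ℕ, 2 ≤ d ∧ (f j).IsHomogeneous d)
    (hq : ∃ j, (f j).IsHomogeneous 3 ∧
      Irreducible (map (algebraMap K (AlgebraicClosure K)) (f j)))
    (hfin : FiniteDimensional K (MvPolynomial (Fin 3) K ⧸ Ideal.span (Set.range f))) :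
    SLPof (Ideal.span (Set.range f)) := by
  by_cases h2 : ∃ j, f j ≠ 0 ∧ (f j).IsHomogeneous 2
  · exact Pool.Agent.H4.Conic.main (fun j => by
      obtain ⟨d, hd, hd'⟩ := hf j
      exact ⟨d, by omega, hd'⟩) h2 hfin
  have hf3 : ∀ j, ∃ d : ℕ, 3 ≤ d ∧ (f j).IsHomogeneous d := by
    intro j
    by_cases h0 : f j = 0
    · exact ⟨3, le_rfl, by rw [h0]; exact isHomogeneous_zero _ _ _⟩
    · obtain ⟨d, hd, hd'⟩ := hf j
      refine ⟨d, ?_, hd'⟩
      rcases Nat.lt_or_ge 2 d with h | h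
      · exact h
      · exact absurd ⟨j, h0, by rwa [show d = 2 by omega] at hd'⟩ h2
  obtain ⟨j, hj, hirr⟩ := hq
  obtain ⟨p, q, hpq⟩ := others j
  obtain ⟨b, hb, hb'⟩ := hf3 p
  obtain ⟨c, hc, hc'⟩ := hf3 q
  rcases le_total b c with hbc | hbc
  · rw [← range_others hpq] at hfin ⊢
    exact slp_cubic_aux (f := ![f j, f p, f q]) hb hbc hj hb' hc' hirr hfin
  · have hqp : ∀ i, i = j ∨ i = q ∨ i = p := fun i => by
      rcases hpq i with h | h | h
      · exact Or.inl h
      · exact Or.inr (Or.inr h)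
      · exact Or.inr (Or.inl h)
    rw [← range_others hqp] at hfin ⊢
    exact slp_cubic_aux (f := ![f j, f q, f p]) hc hbc hj hc' hb' hirr hfin

end Pool.Agent.H11.SLP
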