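import Pool.Agent.H11.SLP.SbX0

/-!
Ideals containing a nonzero linear form in three variables: the strong Lefschetz property.
-/

open MvPolynomial

namespace Pool.Agent.H11.SLP

open Pool.Agent.H4.Apolar Pool.Agent.H4.Linear Pool.Agent.H4.Descent Pool.Agent.H4.Conic
  Pool.Agent.H4.Ternary

section wronskian

variable {K : Type*} [Field K] [CharZero K]

/-- the Wronskian with a fixed polynomial as a linear map -/
noncomputable def wr (v : Polynomial K) : Polynomial K →ₗ[K] Polynomial K :=
  (LinearMap.mulRight K v).comp Polynomial.derivative -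
    LinearMap.mulRight K (Polynomial.derivative v)

omit [CharZero K] in
lemma wr_apply (v p : Polynomial K) :
    wr v p = Polynomial.derivative p * v - p * Polynomial.derivative v := by
  unfold wr
  simp

lemma wr_eq_zero {v p : Polynomial K} (h : wr v p = 0) {a : K} (hv : v.eval a ≠ 0)
    (hp : p.eval a = 0) : p = 0 := by
  by_contra hp0
  rw [wr_apply, sub_eq_zero] at h
  have hv0 : v ≠ 0 := by
    rintro rfl
    exact hv (by simp)
  have hroot : p.IsRoot a := hp
  have hm : 0 < p.rootMultiplicity a := (Polynomial.rootMultiplicity_pos hp0).2 hroot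
  have hvm : v.rootMultiplicity a = 0 := Polynomial.rootMultiplicity_eq_zero hv
  have hd := Polynomial.derivative_rootMultiplicity_of_root hroot
  have hdp : Polynomial.derivative p ≠ 0 := by
    intro h0
    have h1 := Polynomial.derivative_eq_zero.1 h0
    rw [Polynomial.eq_C_of_natDegree_eq_zero h1] at hp0 hp
    rw [Polynomial.eval_C] at hp
    exact hp0 (by rw [hp, Polynomial.C_0])
  have h1 : (Polynomial.derivative p * v).rootMultiplicity a = p.rootMultiplicity a - 1 := by
    rw [Polynomial.rootMultiplicity_mul (mul_ne_zero hdp hv0), hvm, hd, add_zero]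
  have hne : p * Polynomial.derivative v ≠ 0 := by
    rw [← h]
    exact mul_ne_zero hdp hv0
  have h2 : p.rootMultiplicity a ≤ (p * Polynomial.derivative v).rootMultiplicity a := by
    rw [Polynomial.rootMultiplicity_mul hne]
    exact Nat.le_add_right _ _
  rw [h] at h1
  omega

/-- A general point is not a high order zero of an element of a given subspace. -/
lemma exists_wronskian (m : ℕ) : ∀ V : Submodule K (Polynomial K), FiniteDimensional K V →
    Module.finrank K V ≤ m → ∃ w : Polynomial K, w ≠ 0 ∧ ∀ a, w.eval a ≠ 0 → ∀ p ∈ V,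
      (Polynomial.X - Polynomial.C a) ^ m ∣ p → p = 0 := by
  induction m with
  | zero =>
    intro V hV hm
    refine ⟨1, one_ne_zero, ?_⟩
    intro a _ p hp _
    have h1 : V = ⊥ := by
      apply Submodule.finrank_eq_zero.1
      omega
    rw [h1] at hp
    exact hp
  | succ m ih =>
    intro V hV hm
    by_cases hbot : V = ⊥
    · refine ⟨1, one_ne_zero, ?_⟩
      intro a _ p hp _
      rw [hbot] at hp
      exact hp
    obtain ⟨v, hvV, hv0⟩ := (Submodule.ne_bot_iff V).1 hbot
    have hfr : Module.finrank K (V.map (wr v)) ≤ m := by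
      have h1 := LinearMap.finrank_range_add_finrank_ker ((wr v).domRestrict V)
      have h2 : LinearMap.range ((wr v).domRestrict V) = V.map (wr v) := by
        rw [LinearMap.range_domRestrict]
      rw [h2] at h1
      have h3 : 0 < Module.finrank K (LinearMap.ker ((wr v).domRestrict V)) := by
        apply Nat.pos_of_ne_zero
        intro h0
        have h4 := Submodule.finrank_eq_zero.1 h0
        have h5 : (⟨v, hvV⟩ : V) ∈ LinearMap.ker ((wr v).domRestrict V) := by
          rw [LinearMap.mem_ker, LinearMap.domRestrict_apply, wr_apply]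
          ring
        rw [h4, Submodule.mem_bot] at h5
        exact hv0 (congrArg Subtype.val h5)
      omega
    obtain ⟨w, hw0, hw⟩ := ih (V.map (wr v)) inferInstance hfr
    refine ⟨w * v, mul_ne_zero hw0 hv0, ?_⟩
    intro a ha p hp hdvd
    rw [Polynomial.eval_mul] at ha
    have hva : v.eval a ≠ 0 := right_ne_zero_of_mul ha
    have hpa : p.eval a = 0 := by
      obtain ⟨q, hq⟩ := hdvd
      rw [hq, Polynomial.eval_mul, Polynomial.eval_pow]
      simp
    apply wr_eq_zero _ hva hpa
    apply hw a (left_ne_zero_of_mul ha) _ (Submodule.mem_map_of_mem hp)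
    rw [wr_apply]
    obtain ⟨q, hq⟩ := hdvd
    have hd : Polynomial.derivative p = (Polynomial.X - Polynomial.C a) ^ m *
        (Polynomial.C ((m : K) + 1) * q + (Polynomial.X - Polynomial.C a) *
          Polynomial.derivative q) := by
      rw [hq, Polynomial.derivative_mul, Polynomial.derivative_X_sub_C_pow]
      push_cast
      simp only [Polynomial.C_add, Polynomial.C_1]
      rw [Polynomial.C_eq_natCast]
      ring
    refine ⟨(Polynomial.C ((m : K) + 1) * q + (Polynomial.X - Polynomial.C a) *
          Polynomial.derivative q) * v - (Polynomial.X - Polynomial.C a) * q *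
          Polynomial.derivative v, ?_⟩
    rw [hd]
    conv_lhs => rw [hq]
    ring

end wronskian

section binary

variable {K : Type*} [Field K]

/-- the dehomogenisation `X_0 ↦ 0`, `X_1 ↦ 1`, `X_2 ↦ t` -/
noncomputable def dh (K : Type*) [Field K] : MvPolynomial (Fin 3) K →ₐ[K] Polynomial K :=
  aeval ![0, 1, Polynomial.X]

lemma dh_X0 : dh K (X 0) = 0 := by
  unfold dh; rw [aeval_X]; rfl

lemma dh_X1 : dh K (X 1) = 1 := by
  unfold dh; rw [aeval_X]; rfl

lemma dh_X2 : dh K (X 2) = Polynomial.X := by
  unfold dh; rw [aeval_X]; rfl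

lemma dh_C (c : K) : dh K (C c) = Polynomial.C c := by
  unfold dh; rw [aeval_C]; rfl

lemma dh_monomial (α : Fin 3 →₀ ℕ) (c : K) :
    dh K (monomial α c) = if α 0 = 0 then Polynomial.C c * Polynomial.X ^ α 2 else 0 := by
  unfold dh
  rw [aeval_monomial, Finsupp.prod_fintype _ _ (fun i => pow_zero _), Fin.prod_univ_three]
  have h : algebraMap K (Polynomial K) c = Polynomial.C c := rfl
  rw [h]
  split_ifs with h0
  · simp [h0]
  · simp [h0]

lemma coeff_dh {p : MvPolynomial (Fin 3) K} {d : ℕ} (hp : p.IsHomogeneous d)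
    {α : Fin 3 →₀ ℕ} (h0 : α 0 = 0) (hd : α.degree = d) :
    (dh K p).coeff (α 2) = coeff α p := by
  classical
  conv_lhs => rw [p.as_sum]
  rw [map_sum, Polynomial.finsetSum_coeff]
  simp_rw [dh_monomial]
  by_cases hα : α ∈ p.support
  · rw [Finset.sum_eq_single α]
    · rw [if_pos h0, Polynomial.coeff_C_mul, Polynomial.coeff_X_pow, if_pos rfl, mul_one]
    · intro β hβ hne
      split_ifs with h1
      · rw [Polynomial.coeff_C_mul, Polynomial.coeff_X_pow, if_neg, mul_zero]
        intro h2
        apply hne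
        have h3 : β.degree = d := by
          by_contra h4
          exact (mem_support_iff.1 hβ) (hp.coeff_eq_zero h4)
        rw [Finsupp.degree_eq_sum, Fin.sum_univ_three] at h3 hd
        ext i
        fin_cases i
        · exact h1.trans h0.symm
        · change β 1 = α 1
          omega
        · exact h2.symm
      · rw [Polynomial.coeff_zero]
    · intro h; exact absurd hα h
  · rw [notMem_support_iff.1 hα]
    apply Finset.sum_eq_zero
    intro β hβ
    split_ifs with h1
    · rw [Polynomial.coeff_C_mul, Polynomial.coeff_X_pow, if_neg, mul_zero]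
      intro h2
      apply hα
      have h3 : β.degree = d := by
        by_contra h4
        exact (mem_support_iff.1 hβ) (hp.coeff_eq_zero h4)
      rw [Finsupp.degree_eq_sum, Fin.sum_univ_three] at h3 hd
      have h5 : β = α := by
        ext i
        fin_cases i
        · exact h1.trans h0.symm
        · change β 1 = α 1
          omega
        · exact h2.symm
      rwa [← h5]
    · rw [Polynomial.coeff_zero]

lemma X0_dvd {p : MvPolynomial (Fin 3) K} {d : ℕ} (hp : p.IsHomogeneous d)
    (h : dh K p = 0) : X 0 ∣ p := by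
  rw [p.as_sum]
  apply Finset.dvd_sum
  intro α hα
  rw [X_dvd_monomial]
  right
  intro h0
  apply mem_support_iff.1 hα
  have h3 : α.degree = d := by
    by_contra h4
    exact (mem_support_iff.1 hα) (hp.coeff_eq_zero h4)
  rw [← coeff_dh hp h0 h3, h, Polynomial.coeff_zero]

lemma dh_mem {p : MvPolynomial (Fin 3) K} {d : ℕ} (hp : p.IsHomogeneous d) :
    dh K p ∈ Polynomial.degreeLT K (d + 1) := by
  rw [p.as_sum, map_sum]
  apply Submodule.sum_mem
  intro α hα
  rw [dh_monomial]
  split_ifs
  · have h3 : α.degree = d := by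
      by_contra h4
      exact (mem_support_iff.1 hα) (hp.coeff_eq_zero h4)
    rw [Finsupp.degree_eq_sum, Fin.sum_univ_three] at h3
    rw [Polynomial.mem_degreeLT]
    refine lt_of_le_of_lt (Polynomial.degree_C_mul_X_pow_le _ _) ?_
    exact_mod_cast Nat.lt_succ_of_le (by omega)
  · exact Submodule.zero_mem _

lemma exists_dh {q : Polynomial K} {d : ℕ} (hq : q ∈ Polynomial.degreeLT K (d + 1)) :
    ∃ g : MvPolynomial (Fin 3) K, g.IsHomogeneous d ∧ dh K g = q := by
  refine ⟨∑ j ∈ Finset.range (d + 1), C (q.coeff j) * (X 1 ^ (d - j) * X 2 ^ j), ?_, ?_⟩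
  · apply IsHomogeneous.sum
    intro j hj
    rw [Finset.mem_range] at hj
    have h := (isHomogeneous_C (Fin 3) (q.coeff j)).mul
      ((isHomogeneous_X_pow (R := K) (1 : Fin 3) (d - j)).mul
        (isHomogeneous_X_pow (R := K) (2 : Fin 3) j))
    rwa [show 0 + (d - j + j) = d by omega] at h
  · rw [map_sum]
    simp_rw [map_mul, map_pow, dh_C, dh_X1, dh_X2, one_pow, one_mul]
    symm
    apply Polynomial.as_sum_range_C_mul_X_pow'
    by_cases h0 : q = 0
    · rw [h0, Polynomial.natDegree_zero]
      exact Nat.succ_pos _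
    · rw [Polynomial.mem_degreeLT] at hq
      exact (Polynomial.natDegree_lt_iff_degree_lt h0).2 hq

/-- the degree `d` part of the ideal after dehomogenisation -/
noncomputable def VI (I : Ideal (MvPolynomial (Fin 3) K)) (d : ℕ) : Submodule K (Polynomial K) :=
  (Submodule.restrictScalars K I ⊓ homogeneousSubmodule (Fin 3) K d).map (dh K).toLinearMap

lemma mem_VI {I : Ideal (MvPolynomial (Fin 3) K)} {d : ℕ} {q : Polynomial K} :
    q ∈ VI I d ↔ ∃ p ∈ I, p.IsHomogeneous d ∧ dh K p = q := by
  unfold VI
  rw [Submodule.mem_map]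
  constructor
  · rintro ⟨p, hp, rfl⟩
    exact ⟨p, hp.1, hp.2, rfl⟩
  · rintro ⟨p, hp, hpd, rfl⟩
    exact ⟨p, ⟨hp, hpd⟩, rfl⟩

lemma VI_le (I : Ideal (MvPolynomial (Fin 3) K)) (d : ℕ) :
    VI I d ≤ Polynomial.degreeLT K (d + 1) := by
  intro q hq
  obtain ⟨p, _, hp, rfl⟩ := mem_VI.1 hq
  exact dh_mem hp

lemma mem_of_VI {I : Ideal (MvPolynomial (Fin 3) K)} (hX : X 0 ∈ I) {d : ℕ}
    {p : MvPolynomial (Fin 3) K} (hp : p.IsHomogeneous d) (h : dh K p ∈ VI I d) : p ∈ I := by
  obtain ⟨p', hp'I, hp', he⟩ := mem_VI.1 h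
  have h1 : X 0 ∣ p - p' := by
    apply X0_dvd (hp.sub hp')
    rw [map_sub, he, sub_self]
  have h2 : p - p' ∈ I := I.mem_of_dvd h1 hX
  have h3 := I.add_mem h2 hp'I
  rwa [sub_add_cancel] at h3

/-- a subspace of prescribed dimension -/
lemma exists_sub {V : Submodule K (Polynomial K)} {k : ℕ} (hk : k ≤ Module.finrank K V) :
    ∃ V' : Submodule K (Polynomial K), V' ≤ V ∧ FiniteDimensional K V' ∧
      Module.finrank K V' = k := by
  obtain ⟨f, hf⟩ := exists_linearIndependent_of_le_finrank hk
  have hf' : LinearIndependent K (fun i => (f i : Polynomial K)) :=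
    hf.map' V.subtype (Submodule.ker_subtype V)
  refine ⟨Submodule.span K (Set.range fun i => (f i : Polynomial K)), ?_, ?_, ?_⟩
  · rw [Submodule.span_le]
    rintro _ ⟨i, rfl⟩
    exact (f i).2
  · exact FiniteDimensional.span_of_finite K (Set.finite_range _)
  · rw [finrank_span_eq_card hf', Fintype.card_fin]

lemma finrank_dlt (n : ℕ) : Module.finrank K (Polynomial.degreeLT K n) = n := by
  rw [Module.finrank_eq_card_basis (Polynomial.degreeLT.basis K n), Fintype.card_fin]

/-- Both cases of the maximal rank property for one pair of degrees. -/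
lemma exists_w [CharZero K] {I : Ideal (MvPolynomial (Fin 3) K)} (hX : X 0 ∈ I) (i k : ℕ) :
    ∃ w : Polynomial K, w ≠ 0 ∧ ∀ a, w.eval a ≠ 0 →
      (∀ g ∈ homogeneousSubmodule (Fin 3) K i, (X 2 - C a * X 1) ^ k * g ∈ I → g ∈ I) ∨
      (∀ h ∈ homogeneousSubmodule (Fin 3) K (i + k),
        ∃ g ∈ homogeneousSubmodule (Fin 3) K i, h - (X 2 - C a * X 1) ^ k * g ∈ I) := by
  have hfd : FiniteDimensional K (VI I (i + k)) :=
    Submodule.finiteDimensional_of_le (VI_le I (i + k))
  have hdh : ∀ a : K, dh K (X 2 - C a * X 1) = Polynomial.X - Polynomial.C a := by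
    intro a
    rw [map_sub, map_mul, dh_X2, dh_X1, dh_C, mul_one]
  have hl1 : ∀ a : K, (X 2 - C a * X 1 : MvPolynomial (Fin 3) K).IsHomogeneous 1 := by
    intro a
    apply (isHomogeneous_X K 2).sub
    have := (isHomogeneous_C (Fin 3) a).mul (isHomogeneous_X K (1 : Fin 3))
    rwa [zero_add] at this
  have hlk : ∀ (a : K) {g : MvPolynomial (Fin 3) K}, g.IsHomogeneous i →
      ((X 2 - C a * X 1) ^ k * g).IsHomogeneous (i + k) := by
    intro a g hg
    have := ((hl1 a).pow k).mul hg
    rwa [one_mul, add_comm k i] at this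
  rcases le_or_gt (Module.finrank K (VI I (i + k))) k with hle | hgt
  · obtain ⟨w, hw0, hw⟩ := exists_wronskian k _ hfd hle
    refine ⟨w, hw0, fun a ha => Or.inl ?_⟩
    intro g hg hgI
    have hg' : g.IsHomogeneous i := hg
    have h1 : (Polynomial.X - Polynomial.C a) ^ k * dh K g ∈ VI I (i + k) := by
      rw [mem_VI]
      exact ⟨_, hgI, hlk a hg', by rw [map_mul, map_pow, hdh]⟩
    have h2 := hw a ha _ h1 (Dvd.intro _ rfl)
    have h3 : dh K g = 0 := by
      rcases mul_eq_zero.1 h2 with h | h
      · exact absurd h (pow_ne_zero _ (Polynomial.X_sub_C_ne_zero a))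
      · exact h
    exact I.mem_of_dvd (X0_dvd hg' h3) hX
  · obtain ⟨V', hV', hfd', hfr⟩ := exists_sub hgt.le
    obtain ⟨w, hw0, hw⟩ := exists_wronskian k V' hfd' hfr.le
    refine ⟨w, hw0, fun a ha => Or.inr ?_⟩
    set W := (Polynomial.degreeLT K (i + 1)).map
      (LinearMap.mulLeft K ((Polynomial.X - Polynomial.C a) ^ k)) with hW
    have hWfd : FiniteDimensional K W := inferInstance
    have hinj : Function.Injective
        (LinearMap.mulLeft K ((Polynomial.X - Polynomial.C a) ^ k)) := by
      intro x y hxy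
      simp only [LinearMap.mulLeft_apply] at hxy
      exact mul_left_cancel₀ (pow_ne_zero _ (Polynomial.X_sub_C_ne_zero a)) hxy
    have hWfr : Module.finrank K W = i + 1 := by
      rw [hW, ← LinearEquiv.finrank_eq (Submodule.equivMapOfInjective _ hinj
        (Polynomial.degreeLT K (i + 1))), finrank_dlt]
    have hinf : V' ⊓ W = ⊥ := by
      rw [Submodule.eq_bot_iff]
      rintro x ⟨hx1, hx2⟩
      obtain ⟨q, _, rfl⟩ := hx2
      exact hw a ha _ hx1 (Dvd.intro _ rfl)
    have hWle : W ≤ Polynomial.degreeLT K (i + k + 1) := by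
      rintro x ⟨q, hq, rfl⟩
      have hq' : q ∈ Polynomial.degreeLT K (i + 1) := hq
      rw [Polynomial.mem_degreeLT] at hq' ⊢
      rw [LinearMap.mulLeft_apply]
      by_cases h0 : q = 0
      · rw [h0, mul_zero, Polynomial.degree_zero]
        exact WithBot.bot_lt_coe _
      · have h1 := (Polynomial.natDegree_lt_iff_degree_lt h0).2 hq'
        rw [← Polynomial.natDegree_lt_iff_degree_lt
          (mul_ne_zero (pow_ne_zero _ (Polynomial.X_sub_C_ne_zero a)) h0),
          Polynomial.natDegree_mul (pow_ne_zero _ (Polynomial.X_sub_C_ne_zero a)) h0,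
          Polynomial.natDegree_pow, Polynomial.natDegree_X_sub_C]
        omega
    have hsup : V' ⊔ W = Polynomial.degreeLT K (i + k + 1) := by
      apply Submodule.eq_of_le_of_finrank_eq
      · exact sup_le (hV'.trans (VI_le I (i + k))) hWle
      · have h1 := Submodule.finrank_sup_add_finrank_inf_eq V' W
        rw [hinf, finrank_bot, hWfr, hfr] at h1
        rw [finrank_dlt]
        omega
    intro h hh
    have hh' : h.IsHomogeneous (i + k) := hh
    have h1 : dh K h ∈ V' ⊔ W := by
      rw [hsup]
      exact dh_mem hh'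
    obtain ⟨v, hv, y, ⟨q, hq, rfl⟩, hvy⟩ := Submodule.mem_sup.1 h1
    obtain ⟨g, hg, hgq⟩ := exists_dh (d := i) hq
    refine ⟨g, hg, ?_⟩
    apply mem_of_VI hX (hh'.sub (hlk a hg))
    rw [map_sub, map_mul, map_pow, hdh, hgq, ← hvy, LinearMap.mulLeft_apply, add_sub_cancel_right]
    exact hV' hv

end binary

lemma RT_large {K : Type*} [Field K] {I : Ideal (MvPolynomial (Fin 3) K)} {J : ℕ}
    (hJ : ∀ g ∈ RT 3 K (J + 1), g ∈ I) : ∀ N, J ≤ N → ∀ g ∈ RT 3 K (N + 1), g ∈ I := by
  intro N hN
  induction N, hN using Nat.le_induction with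
  | base => exact hJ
  | succ N _ ih =>
    intro g hg
    rw [mem_RT_succ] at hg
    rw [g.as_sum]
    apply Ideal.sum_mem
    intro α hα
    have hdeg : α.degree = N + 1 := by
      by_contra h0
      exact (mem_support_iff.1 hα) (hg.coeff_eq_zero h0)
    obtain ⟨i, hi⟩ : ∃ i, α i ≠ 0 := by
      by_contra hcon
      push Not at hcon
      have h0 : α = 0 := Finsupp.ext hcon
      rw [h0] at hdeg
      simp at hdeg
    have hle : Finsupp.single i 1 ≤ α := by
      rw [Finsupp.single_le_iff]
      exact Nat.one_le_iff_ne_zero.2 hi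
    have h1 : α = Finsupp.single i 1 + (α - Finsupp.single i 1) := (add_tsub_cancel_of_le hle).symm
    have h2 : (α - Finsupp.single i 1).degree = N := by
      have h3 := congrArg Finsupp.degree h1
      rw [map_add, hdeg, Finsupp.degree_single] at h3
      omega
    have h4 : monomial α (coeff α g) = X i * monomial (α - Finsupp.single i 1) (coeff α g) := by
      conv_lhs => rw [h1]
      unfold X
      rw [monomial_mul, one_mul]
      rw [← h1]
    rw [h4]
    exact Ideal.mul_mem_left _ _ (ih _ (mem_RT_succ.2 (isHomogeneous_monomial _ h2)))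

/-- An ideal containing a variable and all forms of large degree has the strong Lefschetz
property. -/
theorem slp_X0 {K : Type*} [Field K] [CharZero K] {I : Ideal (MvPolynomial (Fin 3) K)}
    (hX : X 0 ∈ I) {J : ℕ} (hJ : ∀ g ∈ RT 3 K (J + 1), g ∈ I) : HasSLP I := by
  have hJ' := RT_large hJ
  choose w hw0 hw using exists_w hX
  set W : Polynomial K := ∏ i ∈ Finset.range (J + 1), ∏ k ∈ Finset.range (J + 1), w i k with hW
  have hWne : W ≠ 0 := by
    rw [hW, Finset.prod_ne_zero_iff]
    intro i _
    rw [Finset.prod_ne_zero_iff]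
    intro k _
    exact hw0 i k
  obtain ⟨a, ha⟩ : ∃ a, W.eval a ≠ 0 := by
    by_contra hcon
    push Not at hcon
    apply hWne
    apply Polynomial.funext
    intro r
    rw [hcon r, Polynomial.eval_zero]
  refine ⟨X 2 - C a * X 1, ?_, ?_⟩
  · apply (isHomogeneous_X K 2).sub
    have := (isHomogeneous_C (Fin 3) a).mul (isHomogeneous_X K (1 : Fin 3))
    rwa [zero_add] at this
  · intro i k
    rcases le_or_gt J (i + k) with hbig | hsmall
    · right
      intro h hh
      refine ⟨0, Submodule.zero_mem _, ?_⟩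
      rw [mul_zero, sub_zero]
      exact hJ' _ hbig h (mem_RT_succ.2 hh)
    · apply hw i k a
      intro h0
      apply ha
      rw [hW, Polynomial.eval_prod]
      apply Finset.prod_eq_zero (i := i) (Finset.mem_range.2 (by omega))
      rw [Polynomial.eval_prod]
      exact Finset.prod_eq_zero (i := k) (Finset.mem_range.2 (by omega)) h0

/-- Over a field of characteristic zero, a complete intersection in three variables one of whose
generators is a nonzero linear form has the strong Lefschetz property. -/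
theorem slp_linear {K : Type*} [Field K] [CharZero K] {f : Fin 3 → MvPolynomial (Fin 3) K}
    (hf : ∀ j, ∃ d : ℕ, 1 ≤ d ∧ (f j).IsHomogeneous d)
    (hq : ∃ j, f j ≠ 0 ∧ (f j).IsHomogeneous 1)
    (hfin : FiniteDimensional K (MvPolynomial (Fin 3) K ⧸ Ideal.span (Set.range f))) :
    Pool.Agent.H4.Apolar.HasSLP (Ideal.span (Set.range f)) := by
  choose d hd hfd using hf
  obtain ⟨J, hJ⟩ := exists_J hfd hfin
  obtain ⟨j, hj0, hj⟩ := hq
  obtain ⟨A, B, hAB, hBA, h⟩ := exists_sb_X0 hj hj0
  apply HasSLP_of_sb hAB hBA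
  have hJ' := RT_sb hBA hJ
  refine slp_X0 ?_ hJ'
  rw [← h]
  exact Ideal.subset_span ⟨j, rfl⟩

end Pool.Agent.H11.SLP
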