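import Pool.Agent.H11.SLP.RedMain
import Pool.Agent.H11.SLP.CubicI
import Pool.Agent.H11.SLP.IrrMain
import Pool.Agent.H11.SLP.Linear1

/-!
The strong Lefschetz property for all complete intersections in three variables with a cubic
generator.
-/

set_option autoImplicit false

open MvPolynomial

namespace Pool.Agent.H11.SLP

open Pool.Agent.H4.Apolar Pool.Agent.H4.Descent Pool.Agent.H4.Ternary Pool.Agent.H4.Conic
  Pool.Agent.H22.SLP Pool.Agent.H4.Linear

section

variable {K : Type*} [Field K] [CharZero K]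

/-- Assembly over the base field. -/
theorem slp_closed {f g h : MvPolynomial (Fin 3) K} {b c : ℕ} (H : CI f g h 3 b c) (hbc : b ≤ c)
    (hb3 : 3 ≤ b)
    (hgi : ∀ i, 2 ≤ i → i + 2 ≤ b → GI (Ideal.span (Set.range ![f, g, h])) i (b + c - 2 * i)) :
    HasSLP (Ideal.span (Set.range ![f, g, h])) := by
  obtain ⟨J, hJ⟩ := H.hJ
  suffices hmain : ∃ ℓ : MvPolynomial (Fin 3) K, ℓ.IsHomogeneous 1 ∧ ∀ i k : ℕ, True →
      (∀ g' ∈ homogeneousSubmodule (Fin 3) K i,
        ℓ ^ k * g' ∈ Ideal.span (Set.range ![f, g, h]) →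
        g' ∈ Ideal.span (Set.range ![f, g, h])) ∨
      (∀ h' ∈ homogeneousSubmodule (Fin 3) K (i + k),
        ∃ g' ∈ homogeneousSubmodule (Fin 3) K i,
          h' - ℓ ^ k * g' ∈ Ideal.span (Set.range ![f, g, h])) by
    obtain ⟨ℓ, hℓ, hP⟩ := hmain
    exact ⟨ℓ, hℓ, fun i k => hP i k trivial⟩
  apply descentP (L := FL K) hJ (fun _ _ => True)
  have hI : Ideal.span (Set.range fun i => map (algebraMap K (FL K)) (![f, g, h] i)) =
      I3 f g h := by
    rw [I3, ← range_mp]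
  have hL : Lef (I3 f g h) (3 + b + c - 3) :=
    ⟨fun m hm p hp hX => H.soc hm hp hX, H.dim_one, fun m hm p hp => H.vanish hm hp⟩
  rw [show 3 + b + c - 3 = b + c by omega] at hL
  have hinj : ∀ i, 2 * i ≤ b + c → Inj (I3 f g h) (lin tl) i (b + c - 2 * i) := by
    intro i hi
    by_cases hi' : i ≤ 1 ∨ 3 + b ≤ i + 4
    · intro p hp hpI
      apply H.inj (by omega) (by omega) hi' hp
      rw [show 3 + b + c - 3 - 2 * i = b + c - 2 * i by omega]
      exact hpI
    · have h3 := (gi_iff ![f, g, h] i (b + c - 2 * i)).1 (hgi i (by omega) (by omega))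
      rw [hI] at h3
      exact h3
  have hℓ : (lin tl : MvPolynomial (Fin 3) (FL K)).IsHomogeneous 1 :=
    lin_isHomogeneous _
  rw [hI]
  refine ⟨lin tl, hℓ, fun i k _ => ?_⟩
  change Inj (I3 f g h) (lin tl) i k ∨ Sur (I3 f g h) (lin tl) i k
  by_cases hbig : b + c < i + k
  · right
    intro z hz
    refine ⟨0, Submodule.zero_mem _, ?_⟩
    rw [mul_zero, sub_zero]
    exact hL.vanish _ hbig z hz
  by_cases h3 : 2 * i + k ≤ b + c
  · left
    exact (hinj i (by omega)).mono (by omega)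
  · right
    exact sur_of_sym hℓ (hL.sur_of_inj hℓ (by omega) (hinj (b + c - (i + k)) (by omega)))
      (by omega) (by omega) (by omega)

variable [IsAlgClosed K]

/-- The factors of a cubic form: prime, or with a simple linear factor, or a cube. -/
lemma split_cubic {f : MvPolynomial (Fin 3) K} (hf : f.IsHomogeneous 3) (hf0 : f ≠ 0) :
    Prime f ∨ (∃ L q : MvPolynomial (Fin 3) K, L.IsHomogeneous 1 ∧ L ≠ 0 ∧ q.IsHomogeneous 2 ∧
      ¬ L ∣ q ∧ f = L * q) ∨ (∃ L u : MvPolynomial (Fin 3) K, L.IsHomogeneous 1 ∧ L ≠ 0 ∧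
        IsUnit u ∧ f = u * L ^ 3) := by
  by_cases hirr : Irreducible f
  · exact Or.inl hirr.prime
  right
  have hu : ¬ IsUnit f := by
    intro h
    obtain ⟨r, -, hr⟩ := MvPolynomial.isUnit_iff_eq_C_of_isReduced.1 h
    have h1 := hf.totalDegree hf0
    rw [hr, totalDegree_C] at h1
    omega
  -- a linear factor
  obtain ⟨L, q, hL, hL0, hq, hLq⟩ : ∃ L q : MvPolynomial (Fin 3) K, L.IsHomogeneous 1 ∧ L ≠ 0 ∧
      q.IsHomogeneous 2 ∧ f = L * q := by
    rw [irreducible_iff, not_and] at hirr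
    have h1 := hirr hu
    push Not at h1
    obtain ⟨a, b, hab, ha, hb⟩ := h1
    have ha0 : a ≠ 0 := by rintro rfl; exact hf0 (by rw [hab, zero_mul])
    have hb0 : b ≠ 0 := by rintro rfl; exact hf0 (by rw [hab, mul_zero])
    obtain ⟨d, hd⟩ := isHomogeneous_of_dvd hf hf0 (q := a) ⟨b, hab⟩
    obtain ⟨e, he⟩ := isHomogeneous_of_dvd hf hf0 (q := b) ⟨a, by rw [hab, mul_comm]⟩
    have h2 := degree_pos hd ha0 ha
    have h3 := degree_pos he hb0 hb
    have h4 : d + e = 3 := by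
      have h5 := hd.mul he
      rw [← hab] at h5
      exact h5.inj_right hf hf0
    rcases (show (d = 1 ∧ e = 2) ∨ (d = 2 ∧ e = 1) by omega) with ⟨rfl, rfl⟩ | ⟨rfl, rfl⟩
    · exact ⟨a, b, hd, ha0, he, hab⟩
    · exact ⟨b, a, he, hb0, hd, by rw [hab, mul_comm]⟩
  have hq0 : q ≠ 0 := by rintro rfl; exact hf0 (by rw [hLq, mul_zero])
  by_cases h1 : L ∣ q
  swap
  · exact Or.inl ⟨L, q, hL, hL0, hq, h1, hLq⟩
  obtain ⟨M, hM⟩ := h1
  have hM0 : M ≠ 0 := by rintro rfl; exact hq0 (by rw [hM, mul_zero])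
  have hMh : M.IsHomogeneous 1 := by
    obtain ⟨e, he⟩ := isHomogeneous_of_dvd hq hq0 (q := M) ⟨L, by rw [hM, mul_comm]⟩
    have h2 := hL.mul he
    rw [← hM] at h2
    have h3 := h2.inj_right hq hq0
    have h4 : e = 1 := by omega
    rwa [h4] at he
  have hMp := prime_of_degree_one hMh hM0
  have hLp := prime_of_degree_one hL hL0
  by_cases h2 : M ∣ L
  · right
    obtain ⟨u, hu'⟩ := h2
    have hul : IsUnit u := by
      rcases hLp.irreducible.isUnit_or_isUnit hu' with h5 | h5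
      · exact absurd h5 hMp.not_isUnit
      · exact h5
    obtain ⟨u, rfl⟩ := hul
    refine ⟨L, ((u⁻¹ : (MvPolynomial (Fin 3) K)ˣ) : MvPolynomial (Fin 3) K), hL, hL0,
      Units.isUnit _, ?_⟩
    have h3 : M = L * ((u⁻¹ : (MvPolynomial (Fin 3) K)ˣ) : MvPolynomial (Fin 3) K) := by
      rw [hu', mul_assoc, ← Units.val_mul, mul_inv_cancel, Units.val_one, mul_one]
    rw [hLq, hM]
    conv_lhs => rw [h3]
    ring
  · left
    refine ⟨M, L * L, hMh, hM0, hL.mul hL, ?_, by rw [hLq, hM]; ring⟩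
    intro h3
    rcases hMp.dvd_or_dvd h3 with h4 | h4 <;> exact h2 h4

/-- Generic injectivity for the cube of `X 0`. -/
theorem core_cube {g h : MvPolynomial (Fin 3) K} {b c i : ℕ}
    (hg : g.IsHomogeneous b) (hh : h.IsHomogeneous c)
    (hJ : ∃ J, ∀ p ∈ RT 3 K (J + 1), p ∈ Ideal.span (Set.range ![X 0 ^ 3, g, h]))
    (hi : 2 ≤ i) (hib : i + 2 ≤ b) (hic : i + 2 ≤ c) :
    GI (Ideal.span (Set.range ![X 0 ^ 3, g, h])) i (b + c - 2 * i) := by
  intro w hw HI
  have hX0 : Prime (X 0 : MvPolynomial (Fin 3) K) := prime_of_degree_one (isHomogeneous_X K 0)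
    (X_ne_zero 0)
  obtain ⟨J₀, hJ₀⟩ := hJ
  have hfh : (X 0 ^ 3 : MvPolynomial (Fin 3) K).IsHomogeneous 3 := by
    have := (isHomogeneous_X K (0 : Fin 3)).pow 3
    rwa [one_mul] at this
  have hJ₀' : ∀ p ∈ RT 3 K (J₀ + 1), p ∈ Ideal.span (Set.range ![X 0 ^ 3, h, g]) := by
    intro p hp
    rw [← range_swap]
    exact hJ₀ p hp
  have hgr : IsRelPrime (X 0 ^ 3) g :=
    relPrime_of_cofinite hfh hg hh (by omega) (by omega) hJ₀
  have hhr : IsRelPrime (X 0 ^ 3) h :=
    relPrime_of_cofinite hfh hh hg (by omega) (by omega) hJ₀'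
  have hXg : ¬ X 0 ∣ g := fun h => hX0.not_isUnit (hgr (dvd_pow_self _ (by norm_num)) h)
  have hXh : ¬ X 0 ∣ h := fun h => hX0.not_isUnit (hhr (dvd_pow_self _ (by norm_num)) h)
  have hJ2 : ∀ p ∈ RT 3 K (J₀ + 1), p ∈ Ideal.span (Set.range ![X 0 ^ 2, g, h]) :=
    fun p hp => span_le_of_dvd (pow_dvd_pow _ (by norm_num)) (hJ₀ p hp)
  have e3 : (X 0 ^ 3 : MvPolynomial (Fin 3) K) = X 0 * X 0 ^ 2 := by ring
  have e2 : (X 0 ^ 2 : MvPolynomial (Fin 3) K) = X 0 * X 0 := by ring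
  have e3' : (X 0 ^ 3 : MvPolynomial (Fin 3) K) = X 0 ^ 2 * X 0 := by ring
  have h2h : (X 0 ^ 2 : MvPolynomial (Fin 3) K).IsHomogeneous 2 := by
    have := (isHomogeneous_X K (0 : Fin 3)).pow 2
    rwa [one_mul] at this
  obtain ⟨v, hv⟩ := cube_aux hg hh hXg hXh hi hib hic
    (fun p hp => colon_mem (L := X 0 ^ 2) (q := X 0) (d := 0) h2h (by norm_num)
      (pow_ne_zero _ hX0.ne_zero) hg hh (by omega) (by omega) ⟨J₀, by rwa [← e3']⟩
      (by rwa [← e3']))
    (fun p hp => colon_mem (L := X 0) (q := X 0 ^ 2) (d := 0) (isHomogeneous_X K 0) le_rfl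
      hX0.ne_zero hg hh (by omega) (by omega) ⟨J₀, by rwa [← e3]⟩ (by rwa [← e3]))
    (fun p hp => colon_mem (L := X 0) (q := X 0) (d := 0) (isHomogeneous_X K 0) le_rfl
      hX0.ne_zero hg hh (by omega) (by omega) ⟨J₀, by rwa [← e2]⟩ (by rwa [← e2]))
    hw HI
  have hmem : (X 0 ^ 3 : MvPolynomial (Fin 3) K) ∈ Ideal.span (Set.range ![X 0 ^ 3, g, h]) :=
    Ideal.subset_span ⟨0, rfl⟩
  rw [hv, mul_comm]
  exact (inC_C.2 hmem).mul_left _

/-- Complete intersections of type `(3, b, c)` over an algebraically closed field. -/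
theorem cubic_closed {f g h : MvPolynomial (Fin 3) K} {b c : ℕ} (hf : f.IsHomogeneous 3)
    (hf0 : f ≠ 0) (hg : g.IsHomogeneous b) (hh : h.IsHomogeneous c) (hb : 3 ≤ b) (hbc : b ≤ c)
    {J : ℕ} (hJ : ∀ p ∈ RT 3 K (J + 1), p ∈ Ideal.span (Set.range ![f, g, h])) :
    HasSLP (Ideal.span (Set.range ![f, g, h])) := by
  have H : CI f g h 3 b c := ⟨hf, hg, hh, by omega, by omega, by omega, J, hJ⟩
  have hsb : ∀ A : Matrix (Fin 3) (Fin 3) K, (fun i => sb A (![f, g, h] i)) =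
      ![sb A f, sb A g, sb A h] := by
    intro A
    ext i : 1
    fin_cases i <;> rfl
  rcases split_cubic hf hf0 with hp | ⟨L, q, hL, hL0, hq, hLq, hfq⟩ | ⟨L, u, hL, hL0, hu, hfu⟩
  · exact slp_closed H hbc hb (fun i hi hib => gi_cubic hp H hbc i (by omega) hib)
  · obtain ⟨A, B, hAB, hBA, hA⟩ := exists_sb_X0 hL hL0
    apply HasSLP_of_sb hAB hBA
    have hJ' := RT_sb hBA hJ
    have hfA : sb A f = X 0 * sb A q := by rw [hfq, map_mul, hA]
    rw [hsb, hfA] at hJ' ⊢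
    have hq0 : ¬ X 0 ∣ sb A q := by
      rintro ⟨m, hm⟩
      apply hLq
      have h1 := congrArg (sb B) hm
      rw [map_mul, ← hA] at h1
      have e1 : ∀ p, sb B (sb A p) = p := by
        intro p; rw [sb_sb, hAB, sb_one]; rfl
      rw [e1, e1] at h1
      exact ⟨_, h1⟩
    have hqh := sb_isHomogeneous A hq
    have H' : CI (X 0 * sb A q) (sb A g) (sb A h) 3 b c :=
      ⟨by
        have := (isHomogeneous_X K (0 : Fin 3)).mul hqh
        rwa [show 1 + 2 = 3 by norm_num] at this, sb_isHomogeneous A hg, sb_isHomogeneous A hh,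
        by omega, by omega, by omega, J, hJ'⟩
    exact slp_closed H' hbc hb (fun i hi hib => core_red hqh hq0 H'.hg H'.hh ⟨J, hJ'⟩ hi hib
      (by omega))
  · obtain ⟨A, B, hAB, hBA, hA⟩ := exists_sb_X0 hL hL0
    apply HasSLP_of_sb hAB hBA
    have hJ' := RT_sb hBA hJ
    have hfA : sb A f = sb A u * X 0 ^ 3 := by rw [hfu, map_mul, map_pow, hA]
    have huA : IsUnit (sb A u) := hu.map (sb A)
    have hspan : Ideal.span (Set.range ![sb A u * X 0 ^ 3, sb A g, sb A h]) =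
        Ideal.span (Set.range ![X 0 ^ 3, sb A g, sb A h]) := by
      apply le_antisymm
      · exact span_le_of_dvd (dvd_mul_left _ _)
      · apply span_le_of_dvd
        obtain ⟨v, hv⟩ := huA
        refine ⟨((v⁻¹ : (MvPolynomial (Fin 3) K)ˣ) : MvPolynomial (Fin 3) K), ?_⟩
        rw [← hv, mul_comm ((v : (MvPolynomial (Fin 3) K)ˣ) : MvPolynomial (Fin 3) K), mul_assoc,
          ← Units.val_mul, mul_inv_cancel, Units.val_one, mul_one]
    rw [hsb, hfA] at hJ' ⊢
    rw [hspan] at hJ' ⊢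
    have H' : CI (X 0 ^ 3) (sb A g) (sb A h) 3 b c :=
      ⟨by
        have := (isHomogeneous_X K (0 : Fin 3)).pow 3
        rwa [one_mul] at this, sb_isHomogeneous A hg, sb_isHomogeneous A hh,
        by omega, by omega, by omega, J, hJ'⟩
    exact slp_closed H' hbc hb (fun i hi hib => core_cube H'.hg H'.hh ⟨J, hJ'⟩ hi hib (by omega))

end

/-- Over a field of characteristic zero, a complete intersection in three variables one of whose
generators is a nonzero form of degree at most three has the strong Lefschetz property. -/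
theorem main_le_three {K : Type*} [Field K] [CharZero K] {f : Fin 3 → MvPolynomial (Fin 3) K}
    (hf : ∀ j, ∃ d : ℕ, 1 ≤ d ∧ (f j).IsHomogeneous d)
    (hq : ∃ j, f j ≠ 0 ∧ ∃ d, 1 ≤ d ∧ d ≤ 3 ∧ (f j).IsHomogeneous d)
    (hfin : FiniteDimensional K (MvPolynomial (Fin 3) K ⧸ Ideal.span (Set.range f))) :
    HasSLP (Ideal.span (Set.range f)) := by
  by_cases h1 : ∃ j, f j ≠ 0 ∧ (f j).IsHomogeneous 1
  · exact slp_linear hf h1 hfin
  by_cases h2 : ∃ j, f j ≠ 0 ∧ (f j).IsHomogeneous 2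
  · exact Pool.Agent.H4.Conic.main hf h2 hfin
  have hf3 : ∀ j, ∃ d : ℕ, 3 ≤ d ∧ (f j).IsHomogeneous d := by
    intro j
    by_cases h0 : f j = 0
    · exact ⟨3, le_rfl, by rw [h0]; exact isHomogeneous_zero _ _ _⟩
    · obtain ⟨d, hd, hd'⟩ := hf j
      refine ⟨d, ?_, hd'⟩
      by_contra hd3
      rcases (show d = 1 ∨ d = 2 by omega) with rfl | rfl
      · exact h1 ⟨j, h0, hd'⟩
      · exact h2 ⟨j, h0, hd'⟩
  obtain ⟨j, hj0, d, hd1, hd3, hj⟩ := hq
  have hd : d = 3 := by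
    by_contra hne
    rcases (show d = 1 ∨ d = 2 by omega) with rfl | rfl
    · exact h1 ⟨j, hj0, hj⟩
    · exact h2 ⟨j, hj0, hj⟩
  subst hd
  obtain ⟨p, q, hpq⟩ := others j
  obtain ⟨b, hb, hb'⟩ := hf3 p
  obtain ⟨c, hc, hc'⟩ := hf3 q
  choose dd hdd hfd using hf
  obtain ⟨J, hJ⟩ := exists_J hfd hfin
  apply descent (L := AlgebraicClosure K) hJ
  have hJ' := RT_map (L := AlgebraicClosure K) hJ
  set φ := (map (algebraMap K (AlgebraicClosure K)) :
    MvPolynomial (Fin 3) K →+* MvPolynomial (Fin 3) (AlgebraicClosure K)) with hφ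
  have hφj : φ (f j) ≠ 0 := by
    intro h0
    apply hj0
    exact map_injective _ (algebraMap K (AlgebraicClosure K)).injective (by rw [h0, map_zero])
  rcases le_total b c with hbc | hbc
  · have hr := range_others (f := fun i => φ (f i)) hpq
    rw [← hr] at hJ' ⊢
    exact cubic_closed (hj.map _) hφj (hb'.map _) (hc'.map _) hb hbc hJ'
  · have hqp : ∀ i, i = j ∨ i = q ∨ i = p := fun i => by
      rcases hpq i with h | h | h
      · exact Or.inl h
      · exact Or.inr (Or.inr h)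
      · exact Or.inr (Or.inl h)
    have hr := range_others (f := fun i => φ (f i)) hqp
    rw [← hr] at hJ' ⊢
    exact cubic_closed (hj.map _) hφj (hc'.map _) (hb'.map _) hc hbc hJ'

end Pool.Agent.H11.SLP
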