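import Pool.Agent.H22.SLP.Main

/-!
Polynomials in the coordinates `ℓ₀, ℓ₁, ℓ₂` of a linear form with coefficients in the polynomial
ring of the plane.
-/

set_option autoImplicit false

open MvPolynomial

namespace Pool.Agent.H11.SLP

variable {K : Type*} [Field K]

/-- The polynomial ring `K[x₀, x₁, x₂]`. -/
abbrev R3 (K : Type*) [Field K] : Type _ := MvPolynomial (Fin 3) K

/-- The ring `K[x₀, x₁, x₂][ℓ₀, ℓ₁, ℓ₂]`. -/
abbrev PP (K : Type*) [Field K] : Type _ := MvPolynomial (Fin 3) (MvPolynomial (Fin 3) K)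

/-- The generic linear form `x₀ ℓ₀ + x₁ ℓ₁ + x₂ ℓ₂`. -/
noncomputable def Lam (K : Type*) [Field K] : PP K := ∑ k, C (X k) * X k

/-- All coefficients are forms of degree `i` in the `x`. -/
def XH (i : ℕ) (w : PP K) : Prop := ∀ n, (coeff n w).IsHomogeneous i

/-- All coefficients lie in `J`. -/
def InC (J : Ideal (R3 K)) (w : PP K) : Prop := ∀ n, coeff n w ∈ J

/-- Injectivity of the `k`-th power of the generic linear form in degree `i`, in terms of
polynomials in the coordinates of the linear form. -/
def GI (J : Ideal (R3 K)) (i k : ℕ) : Prop :=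
  ∀ w : PP K, XH i w → InC J (Lam K ^ k * w) → InC J w

end Pool.Agent.H11.SLP
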