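import Pool.Agent.H11.SLP.Kap
import Pool.Agent.H11.SLP.Tors

/-!
Divisibility by a polynomial in the coordinates of the linear form modulo a form of the plane.
-/

set_option autoImplicit false

open MvPolynomial

namespace Pool.Agent.H11.SLP

open Pool.Agent.H4.Apolar Pool.Agent.H4.Descent Pool.Agent.H4.Ternary

variable {K : Type*} [Field K]

/-- `u` is divisible by `P` modulo `φ`. -/
def Dv (φ P : MvPolynomial (Fin 3) K) (u : PP K) : Prop := ∃ a r, u = io P * a + C φ * r

/-- Divisibility by a prime can be tested at its points. -/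
lemma dv_of_points [IsAlgClosed K] {f π : MvPolynomial (Fin 3) K} (hπ : Prime π) {w : PP K}
    (h : ∀ l : Fin 3 → K, eval l π = 0 → f ∣ evl l w) : Dv f π w := by
  by_contra hw
  classical

  apply hw
  let J : Ideal (MvPolynomial (Fin 3) K) := Ideal.span {f}
  let B := Module.Basis.ofVectorSpace K (MvPolynomial (Fin 3) K ⧸ J)
  let mk : MvPolynomial (Fin 3) K →ₗ[K] (MvPolynomial (Fin 3) K ⧸ J) :=
    (Ideal.Quotient.mkₐ K J).toLinearMap
  have hmk : ∀ r, mk r = 0 ↔ r ∈ J := fun r => Ideal.Quotient.eq_zero_iff_mem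
  have hsurj : Function.Surjective mk := Ideal.Quotient.mk_surjective
  choose b hb using fun j => hsurj (B j)
  let θ := fun j => (B.coord j) ∘ₗ mk
  have hq : ∀ j, ∃ q, tf (θ j) w = π * q := by
    intro j
    apply dvd_of_vanish hπ
    intro l hl
    rw [eval_tf]
    change B.coord j (mk (evl l w)) = 0
    rw [(hmk _).2 (Ideal.mem_span_singleton.2 (h l hl)), map_zero]
  choose q hq using hq
  let J0 : Finset _ := w.support.biUnion fun n => (B.repr (mk (coeff n w))).support
  have hC : C f ∣ w - io π * ∑ j ∈ J0, C (b j) * io (q j) := by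
    rw [C_dvd_iff_dvd_coeff]
    intro n
    have e1 : io π * ∑ j ∈ J0, C (b j) * io (q j) = ∑ j ∈ J0, C (b j) * io (tf (θ j) w) := by
      rw [Finset.mul_sum]
      apply Finset.sum_congr rfl
      intro j _
      rw [hq j, map_mul]
      ring
    rw [e1, coeff_sub, coeff_sum]
    simp only [coeff_C_mul, coeff_io, coeff_tf]
    rw [← Ideal.mem_span_singleton]
    change _ ∈ J
    rw [← hmk, map_sub, map_sum]
    have e2 : ∀ j, mk (b j * C (θ j (coeff n w))) = (B.repr (mk (coeff n w)) j) • B j := by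
      intro j
      rw [mul_comm, ← smul_eq_C_mul, map_smul, hb]
      rfl
    simp only [e2]
    rw [sub_eq_zero]
    conv_lhs => rw [← B.linearCombination_repr (mk (coeff n w)), Finsupp.linearCombination_apply,
      Finsupp.sum]
    by_cases hn : n ∈ w.support
    · apply Finset.sum_subset
      · exact Finset.subset_biUnion_of_mem (fun n => (B.repr (mk (coeff n w))).support) hn
      · intro j _ hj
        rw [Finsupp.notMem_support_iff.1 hj, zero_smul]
    · rw [notMem_support_iff.1 hn]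
      simp
  obtain ⟨c, hc⟩ := hC
  exact ⟨∑ j ∈ J0, C (b j) * io (q j), c, by rw [← hc]; ring⟩

lemma Dv.evl {φ π : MvPolynomial (Fin 3) K} {w : PP K} (h : Dv φ π w) {l : Fin 3 → K}
    (hl : eval l π = 0) : φ ∣ evl l w := by
  obtain ⟨a, r, rfl⟩ := h
  rw [map_add, map_mul, map_mul, evl_io, hl, C_0, zero_mul, zero_add, evl_C]
  exact dvd_mul_right _ _

lemma Dv.evx {φ π : MvPolynomial (Fin 3) K} {w : PP K} (h : Dv φ π w) {x : Fin 3 → K}
    (hx : eval x φ = 0) : π ∣ evx x w := by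
  obtain ⟨a, r, rfl⟩ := h
  rw [map_add, map_mul, map_mul, evx_C, hx, C_0, zero_mul, add_zero, evx_io]
  exact dvd_mul_right _ _

/-- Choice of a homogeneous quotient. -/
lemma exists_XH_quot {φ P : MvPolynomial (Fin 3) K} {d e : ℕ} (hφ : φ.IsHomogeneous e) {w : PP K}
    (hw : XH d w) (h : Dv φ P w) : ∃ a r, XH d a ∧ w = io P * a + C φ * r := by
  obtain ⟨a, r, h⟩ := h
  have h1 := congrArg (hx d) h
  rw [hx_add, hx_of_XH hw, hx_mul (XH_io P), if_pos (Nat.zero_le _), Nat.sub_zero,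
    hx_mul (XH_C hφ)] at h1
  split_ifs at h1
  · exact ⟨_, _, XH_hx _ _, h1⟩
  · exact ⟨_, 0, XH_hx _ _, by rw [h1]; ring⟩

lemma C_dvd_iff {φ : MvPolynomial (Fin 3) K} {u : PP K} :
    InC (Ideal.span {φ}) u ↔ ∃ v, u = C φ * v := by
  change _ ↔ C φ ∣ u
  rw [C_dvd_iff_dvd_coeff]
  exact forall_congr' fun n => Ideal.mem_span_singleton

lemma io_cancel {φ P : MvPolynomial (Fin 3) K} (hP : P ≠ 0) {u : PP K}
    (h : ∃ v, io P * u = C φ * v) : ∃ v, u = C φ * v := by
  rw [← C_dvd_iff] at h ⊢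
  exact inC_of_io_mul hP h

/-- An element which is not divisible by `φ` has a nonzero value at some point of `φ = 0`. -/
lemma exists_evx_ne [IsAlgClosed K] {φ : MvPolynomial (Fin 3) K} (hφ : Prime φ) {w : PP K}
    (hw : ¬ ∃ v, w = C φ * v) : ∃ x, eval x φ = 0 ∧ evx x w ≠ 0 := by
  by_contra hcon
  push Not at hcon
  apply hw
  rw [← C_dvd_iff]
  intro n
  rw [Ideal.mem_span_singleton]
  apply dvd_of_vanish hφ
  intro x hx
  rw [← coeff_evx, hcon x hx, coeff_zero]

/-- The exact order of `w` modulo `φ` along `π`. -/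
lemma exists_order [IsAlgClosed K] {φ π : MvPolynomial (Fin 3) K} (hφ : Prime φ) (hπ : Prime π)
    {e d : ℕ} (hφh : φ.IsHomogeneous e) {w : PP K} (hwd : XH d w) (hw : ¬ ∃ v, w = C φ * v) :
    ∃ (s : ℕ) (w' r : PP K), XH d w' ∧ w = io (π ^ s) * w' + C φ * r ∧ ¬ Dv φ π w' := by
  classical
  obtain ⟨x, hx, hxw⟩ := exists_evx_ne hφ hw
  have hfin : FiniteMultiplicity π (evx x w) := FiniteMultiplicity.of_prime_left hπ hxw
  have hex : ∃ s : ℕ, ¬ Dv φ (π ^ (s + 1)) w := by
    obtain ⟨n, hn⟩ := hfin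
    exact ⟨n, fun h => hn (h.evx hx)⟩
  have hr : ¬ Dv φ (π ^ (Nat.find hex + 1)) w := Nat.find_spec hex
  have hr' : Dv φ (π ^ Nat.find hex) w := by
    rcases Nat.eq_zero_or_pos (Nat.find hex) with h0 | h0
    · rw [h0]
      exact ⟨w, 0, by simp⟩
    · have h1 := Nat.find_min hex (m := Nat.find hex - 1) (by omega)
      rw [not_not, Nat.sub_add_cancel h0] at h1
      exact h1
  obtain ⟨w', r, hw', h⟩ := exists_XH_quot hφh hwd hr'
  refine ⟨Nat.find hex, w', r, hw', h, ?_⟩
  rintro ⟨a, r', ha⟩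
  apply hr
  refine ⟨a, io (π ^ Nat.find hex) * r' + r, ?_⟩
  conv_lhs => rw [h, ha]
  rw [pow_succ, map_mul]
  ring

/-- Regularity of `g, h` modulo a prime factor of the first generator, in small degrees. -/
lemma dvd_pair [IsAlgClosed K] {f g h φ : MvPolynomial (Fin 3) K} {b c c' b' e : ℕ}
    (hφ : Prime φ) (hφh : φ.IsHomogeneous e) (hφf : φ ∣ f) (hg : g.IsHomogeneous b)
    (hh : h.IsHomogeneous c) (hgr : IsRelPrime f g) (hhr : IsRelPrime f h) (hg0 : g ≠ 0)
    (hh0 : h ≠ 0)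
    (hJ : ∃ J, ∀ p ∈ RT 3 K (J + 1), p ∈ Ideal.span (Set.range ![f, g, h]))
    (hcc : c' < c) (hbb : b' < b) {a a' : MvPolynomial (Fin 3) K} (ha : a.IsHomogeneous c')
    (ha' : a'.IsHomogeneous b') (H : φ ∣ g * a + h * a') : φ ∣ a ∧ φ ∣ a' := by
  obtain ⟨J, hJ⟩ := hJ
  have key : ∀ {g h : MvPolynomial (Fin 3) K} {c c' : ℕ}, h.IsHomogeneous c → IsRelPrime f h →
      h ≠ 0 → (∀ p ∈ RT 3 K (J + 1), p ∈ Ideal.span (Set.range ![f, g, h])) → c' < c →
      ∀ {a a' : MvPolynomial (Fin 3) K}, a.IsHomogeneous c' → φ ∣ g * a + h * a' → φ ∣ a := by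
    intro g h c c' hh hhr hh0 hJ hcc a a' ha H
    have hrel : IsRelPrime φ h := fun d h1 h2 => hhr (h1.trans hφf) h2
    have haI : a ∈ Ideal.span (Set.range ![φ, h]) := by
      apply Pool.Agent.H22.SLP.depth_pow
        (fun e he => Pool.Agent.H22.SLP.depth hrel hh0 he) J a
      intro cs hcs
      have h3 := hJ (Pool.Agent.H22.SLP.mx K cs) (mem_RT_succ.2 (by
        rw [← hcs]; exact Pool.Agent.H22.SLP.mx_isHomogeneous cs))
      rw [Ideal.span, Submodule.mem_span_range_iff_exists_fun] at h3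
      obtain ⟨u, hu⟩ := h3
      rw [Fin.sum_univ_three] at hu
      simp only [smul_eq_mul, Matrix.cons_val_zero, Matrix.cons_val_one, Matrix.cons_val] at hu
      obtain ⟨f', rfl⟩ := hφf
      obtain ⟨m, hm⟩ := H
      rw [Pool.Agent.H22.SLP.mem_pair]
      refine ⟨u 0 * f' * a + u 1 * m, u 2 * a - u 1 * a', ?_⟩
      rw [← hu]
      linear_combination u 1 * hm
    obtain ⟨u, v, huv⟩ := Pool.Agent.H22.SLP.mem_pair.1 haI
    have h3 := congrArg (homogeneousComponent c') huv
    rw [homogeneousComponent_of_mem ha, if_pos rfl, map_add, mul_comm u, mul_comm v,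
      homComp_mul hφh, homComp_mul hh, if_neg (by omega : ¬ c ≤ c'), add_zero] at h3
    split_ifs at h3
    · exact ⟨_, h3⟩
    · rw [h3]; exact dvd_zero _
  constructor
  · exact key hh hhr hh0 hJ hcc ha H
  · have hJ' : ∀ p ∈ RT 3 K (J + 1), p ∈ Ideal.span (Set.range ![f, h, g]) := by
      intro p hp
      have h1 := hJ p hp
      have h2 : Set.range ![f, g, h] = Set.range ![f, h, g] := by
        ext q
        simp only [Set.mem_range]
        constructor
        · rintro ⟨j, rfl⟩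
          fin_cases j
          · exact ⟨0, rfl⟩
          · exact ⟨2, rfl⟩
          · exact ⟨1, rfl⟩
        · rintro ⟨j, rfl⟩
          fin_cases j
          · exact ⟨0, rfl⟩
          · exact ⟨2, rfl⟩
          · exact ⟨1, rfl⟩
      rwa [h2] at h1
    exact key hg hgr hg0 hJ' hbb ha' (by rw [add_comm]; exact H)

/-- Division of the data by a power of a prime modulo a factor of `f`. -/
lemma dv_data [IsAlgClosed K] {f g h φ π : MvPolynomial (Fin 3) K} {b c c' b' e N : ℕ}
    (hφ : Prime φ) (hφh : φ.IsHomogeneous e) (hφf : φ ∣ f) (hg : g.IsHomogeneous b)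
    (hh : h.IsHomogeneous c) (hgr : IsRelPrime f g) (hhr : IsRelPrime f h) (hg0 : g ≠ 0)
    (hh0 : h ≠ 0)
    (hJ : ∃ J, ∀ p ∈ RT 3 K (J + 1), p ∈ Ideal.span (Set.range ![f, g, h]))
    (hcc : c' < c) (hbb : b' < b) (hπ : Prime π) {α β : PP K} (hα : XH c' α) (hβ : XH b' β)
    (s : ℕ) : ∀ {w w' r r' : PP K}, w = io (π ^ s) * w' + C φ * r' →
    Lam K ^ N * w = C g * α + C h * β + C φ * r →
    ∃ α' β' r1 r2 r3, XH c' α' ∧ XH b' β' ∧ α = io (π ^ s) * α' + C φ * r1 ∧
      β = io (π ^ s) * β' + C φ * r2 ∧ Lam K ^ N * w' = C g * α' + C h * β' + C φ * r3 := by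
  induction s with
  | zero =>
    intro w w' r r' h1 h2
    refine ⟨α, β, 0, 0, r - Lam K ^ N * r', hα, hβ, by simp, by simp, ?_⟩
    rw [pow_zero, map_one, one_mul] at h1
    rw [h1] at h2
    linear_combination h2
  | succ s ih =>
    intro w w' r r' h1 h2
    obtain ⟨α1, β1, r1, r2, r3, hα1, hβ1, e1, e2, e3⟩ := ih (w := w) (w' := io π * w') (r := r)
      (r' := r') (by rw [h1, pow_succ, map_mul]; ring) h2
    have h3 : ∀ l : Fin 3 → K, eval l π = 0 → φ ∣ evl l α1 ∧ φ ∣ evl l β1 := by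
      intro l hl
      apply dvd_pair hφ hφh hφf hg hh hgr hhr hg0 hh0 hJ hcc hbb (a := evl l α1) (a' := evl l β1)
      · unfold evl
        rw [eval_eq]
        apply IsHomogeneous.sum
        intro n _
        have h4 := (hα1 n).mul (isHomogeneous_C (Fin 3) (∏ i ∈ n.support, l i ^ n i))
        rw [add_zero, map_prod] at h4
        convert h4 using 3
        rw [map_pow]
      · unfold evl
        rw [eval_eq]
        apply IsHomogeneous.sum
        intro n _
        have h4 := (hβ1 n).mul (isHomogeneous_C (Fin 3) (∏ i ∈ n.support, l i ^ n i))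
        rw [add_zero, map_prod] at h4
        convert h4 using 3
        rw [map_pow]
      · have h4 := congrArg (evl l) e3
        simp only [map_add, map_mul, evl_C, evl_io, hl, C_0, zero_mul, mul_zero] at h4
        exact ⟨-evl l r3, by linear_combination -h4⟩
    obtain ⟨α2, r4, hα2, e4⟩ := exists_XH_quot hφh hα1 (dv_of_points hπ fun l hl => (h3 l hl).1)
    obtain ⟨β2, r5, hβ2, e5⟩ := exists_XH_quot hφh hβ1 (dv_of_points hπ fun l hl => (h3 l hl).2)
    obtain ⟨v, hv⟩ := io_cancel (φ := φ) hπ.ne_zero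
      (u := Lam K ^ N * w' - C g * α2 - C h * β2)
      ⟨C g * r4 + C h * r5 + r3, by rw [e4, e5] at e3; linear_combination e3⟩
    refine ⟨α2, β2, io (π ^ s) * r4 + r1, io (π ^ s) * r5 + r2, v, hα2, hβ2, ?_, ?_, ?_⟩
    · conv_lhs => rw [e1, e4]
      rw [pow_succ, map_mul]
      ring
    · conv_lhs => rw [e2, e5]
      rw [pow_succ, map_mul]
      ring
    · linear_combination hv

end Pool.Agent.H11.SLP
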