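import Pool.Agent.H11.SLP.Second

/-!
The polynomial `κ` does not vanish (irreducible cubic).
-/

set_option autoImplicit false

open MvPolynomial

namespace Pool.Agent.H11.SLP

open Pool.Agent.H4.Apolar Pool.Agent.H4.Descent

variable {K : Type*} [Field K]
variable {f g h : MvPolynomial (Fin 3) K} {b' c' i n ω : ℕ} {w α β : PP K}

lemma inC_triple {a : PP K} (H : InC (Ideal.span (Set.range ![f, g, h])) a) :
    ∃ a0 a1 a2, a = C f * a0 + C g * a1 + C h * a2 := by
  rw [inC_iff, Ideal.map_span, ← Set.range_comp] at H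
  have h1 : (C : MvPolynomial (Fin 3) K →+* PP K) ∘ ![f, g, h] = ![C f, C g, C h] := by
    ext1 i
    fin_cases i <;> rfl
  rw [h1, Ideal.span, Submodule.mem_span_range_iff_exists_fun] at H
  obtain ⟨c, hc⟩ := H
  refine ⟨c 0, c 1, c 2, ?_⟩
  rw [← hc, Fin.sum_univ_three]
  simp only [smul_eq_mul, Matrix.cons_val_zero, Matrix.cons_val_one, Matrix.cons_val]
  ring

lemma inC_of_triple {a a0 a1 a2 : PP K} (H : a = C f * a0 + C g * a1 + C h * a2) :
    InC (Ideal.span (Set.range ![f, g, h])) a := by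
  have m0 : f ∈ Ideal.span (Set.range ![f, g, h]) := Ideal.subset_span ⟨0, rfl⟩
  have m1 : g ∈ Ideal.span (Set.range ![f, g, h]) := Ideal.subset_span ⟨1, rfl⟩
  have m2 : h ∈ Ideal.span (Set.range ![f, g, h]) := Ideal.subset_span ⟨2, rfl⟩
  have H' : a = a0 * C f + a1 * C g + a2 * C h := by rw [H]; ring
  rw [H']
  exact (((inC_C.2 m0).mul_left _).add ((inC_C.2 m1).mul_left _)).add ((inC_C.2 m2).mul_left _)

theorem exists_dat (hf : f.IsHomogeneous 3) (hg : g.IsHomogeneous (b' + i))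
    (hh : h.IsHomogeneous (c' + i)) (hbc : b' + c' = n + 1) (hw : XH i w)
    (hw' : w.IsHomogeneous ω)
    (H : InC (Ideal.span (Set.range ![f, g, h])) (Lam K ^ (n + 1) * w)) :
    ∃ α β, Dat f g h b' c' i n ω w α β := by
  obtain ⟨a0, a1, a2, ha⟩ := inC_triple H
  refine ⟨cm c' (ω + n + 1) a1, cm b' (ω + n + 1) a2, ?_⟩
  have h1 := congrArg (cm (n + 1 + i) (ω + n + 1)) ha
  have e1 : cm (n + 1 + i) (ω + n + 1) (C g * a1) = C g * cm c' (ω + n + 1) a1 := by
    have := cm_mul (XH_C hg) (isHomogeneous_C _ _) a1 c' (ω + n + 1)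
    rwa [zero_add, show b' + i + c' = n + 1 + i by omega] at this
  have e2 : cm (n + 1 + i) (ω + n + 1) (C h * a2) = C h * cm b' (ω + n + 1) a2 := by
    have := cm_mul (XH_C hh) (isHomogeneous_C _ _) a2 b' (ω + n + 1)
    rwa [zero_add, show c' + i + b' = n + 1 + i by omega] at this
  obtain ⟨v, hv⟩ := cm_C_mul hf a0 (n + 1 + i) (ω + n + 1)
  rw [cm_add, cm_add, e1, e2, hv, cm_self] at h1
  · exact ⟨hf, hg, hh, hbc, hw, hw', XH_cm _ _ _, cm_isHomogeneous _ _ _, XH_cm _ _ _,
      cm_isHomogeneous _ _ _, v, by rw [h1]; ring⟩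
  · exact (XH_Lam_pow (n + 1)).mul hw
  · have := (Lam_pow_isHomogeneous (K := K) (n + 1)).mul hw'
    rwa [show n + 1 + ω = ω + n + 1 by omega] at this

/-- In degrees below the degrees of `g` and `h` the ideal is generated by `f`. -/
lemma dvd_of_inC (hf : f.IsHomogeneous 3) {b c : ℕ} (hg : g.IsHomogeneous b)
    (hh : h.IsHomogeneous c) (hb : i < b) (hc : i < c) (hw : XH i w)
    (H : InC (Ideal.span (Set.range ![f, g, h])) w) : ∃ v, w = C f * v := by
  obtain ⟨a0, a1, a2, ha⟩ := inC_triple H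
  have h1 := congrArg (hx i) ha
  rw [hx_add, hx_add, hx_of_XH hw, hx_mul (XH_C hg), hx_mul (XH_C hh), if_neg (by omega),
    if_neg (by omega), add_zero, add_zero, hx_mul (XH_C hf)] at h1
  split_ifs at h1
  · exact ⟨_, h1⟩
  · exact ⟨0, by rw [h1, mul_zero]⟩

lemma ZZ_bihom (hf : f.IsHomogeneous 3) {d δ : ℕ} {u : PP K} (hu : XH d u)
    (hu' : u.IsHomogeneous δ) (H : ZZ f u) :
    ∃ a b, u = Lam K * a + C f * b ∧ XH (d - 1) a ∧ a.IsHomogeneous (δ - 1) := by
  obtain ⟨a, b, hab⟩ := H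
  have h1 := congrArg (cm d δ) hab
  obtain ⟨v, hv, hv1, hv2⟩ := cm_Lam_mul a d δ
  obtain ⟨v', hv'⟩ := cm_C_mul hf b d δ
  rw [cm_self hu hu', cm_add, hv, hv'] at h1
  exact ⟨v, v', h1, hv1, hv2⟩

lemma ZZ_hom {δ : ℕ} {u : PP K} (hu' : u.IsHomogeneous δ) (H : ZZ f u) :
    ∃ a b, u = Lam K * a + C f * b ∧ a.IsHomogeneous (δ - 1) := by
  obtain ⟨a, b, hab⟩ := H
  have h1 := congrArg (homogeneousComponent δ) hab
  rw [homogeneousComponent_of_mem hu', if_pos rfl, map_add, homComp_mul Lam_isHomogeneous] at h1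
  have h2 : homogeneousComponent δ (C f * b) = C f * homogeneousComponent δ b := by
    have := homComp_mul_add (isHomogeneous_C (Fin 3) f) b δ
    rwa [zero_add] at this
  rw [h2] at h1
  split_ifs at h1
  · exact ⟨_, _, h1, homogeneousComponent_isHomogeneous _ _⟩
  · exact ⟨0, _, by rw [mul_zero]; exact h1, isHomogeneous_zero _ _ _⟩

lemma cross_general {s : ℕ} {γ : PP K}
    (H : Lam K ^ (s + 1) * w = C g * α + C h * β + C f * γ) (k : Fin 3) :
    C g * cr α β k = Lam K ^ s * (((s : PP K) + 1) * C (X k) * w * β +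
      Lam K * (β * pderiv k w - w * pderiv k β)) + C f * (γ * pderiv k β - β * pderiv k γ) := by
  have h1 := congrArg (pderiv k) H
  rw [Derivation.leibniz, pderiv_Lam_pow, map_add, map_add, pderiv_C_mul, pderiv_C_mul,
    pderiv_C_mul] at h1
  simp only [smul_eq_mul] at h1
  unfold cr
  linear_combination (-β) * h1 + pderiv k β * H

lemma nat_cancel [CharZero K] (s : ℕ) {u : PP K} (H : ZZ f (((s : PP K) + 1) * u)) : ZZ f u := by
  have h1 : ((s : K) + 1) ≠ 0 := by exact_mod_cast Nat.succ_ne_zero s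
  have h2 : u = C (C ((s : K) + 1)⁻¹) * (((s : PP K) + 1) * u) := by
    have h3 : ((s : PP K) + 1) = C (C ((s : K) + 1)) := by simp
    rw [h3, ← mul_assoc, ← C_mul, ← C_mul, inv_mul_cancel₀ h1, C_1, C_1, one_mul]
  rw [h2]
  exact H.mul _

/-- The case of a vanishing cross product. -/
lemma zero_cross [CharZero K] (hf : Prime f) (hf0 : IsRelPrime f (X 0)) (hfg : IsRelPrime f g)
    (hg : g ≠ 0) {ω : ℕ} (hw : w.IsHomogeneous ω) (s : ℕ) :
    ∀ {α β γ : PP K} {d : ℕ}, β.IsHomogeneous d →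
      Lam K ^ s * w = C g * α + C h * β + C f * γ → (∀ k, ∃ r, cr α β k = C f * r) →
      ZZ f w ∨ ∃ a0 a1 a2, w = C f * a0 + C g * a1 + C h * a2 := by
  induction s with
  | zero =>
    intro α β γ d _ H _
    right
    refine ⟨γ, α, β, ?_⟩
    rw [pow_zero, one_mul] at H
    rw [H]; ring
  | succ s ih =>
    intro α β γ d hβ H hcr
    have h1 := cross_general H 0
    obtain ⟨r, hr⟩ := hcr 0
    obtain ⟨v', hv'⟩ := Lam_cancel (f := f) (u := ((s : PP K) + 1) * C (X 0) * w * β +
      Lam K * (β * pderiv 0 w - w * pderiv 0 β))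
      (v := C g * r - (γ * pderiv 0 β - β * pderiv 0 γ)) s (by
        rw [hr] at h1
        linear_combination -h1)
    have h2 : ZZ f (w * β) := by
      apply ZZ_cancel hf0 (X_ne_zero 0)
      apply nat_cancel s
      exact ⟨-(β * pderiv 0 w - w * pderiv 0 β), v', by linear_combination hv'⟩
    rcases ZZ_prime hf hf0 hw hβ h2 with h3 | h3
    · exact Or.inl h3
    · obtain ⟨β1, b, hβ1, hβ1'⟩ := ZZ_hom hβ h3
      have h4 : ZZ f (C g * α) := ⟨Lam K ^ s * w - C h * β1, -(C h * b) - γ, by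
        rw [hβ1] at H
        linear_combination -H⟩
      obtain ⟨α1, a, hα1⟩ := ZZ_cancel hfg hg h4
      obtain ⟨γ1, hγ1⟩ := Lam_cancel (f := f) (u := Lam K ^ s * w - C g * α1 - C h * β1)
        (v := C g * a + C h * b + γ) 1 (by
          rw [hα1, hβ1] at H
          linear_combination H)
      apply ih hβ1' (γ := γ1) (α := α1) (by linear_combination hγ1)
      intro k
      obtain ⟨r, hr⟩ := hcr k
      have h5 : Lam K ^ 2 * cr α1 β1 k = C f * (r -
          (Lam K * β1 * pderiv k a - (Lam K * α1) * pderiv k b + b * pderiv k (Lam K * α1) -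
            a * pderiv k (Lam K * β1)) - C f * (b * pderiv k a - a * pderiv k b)) := by
        rw [hα1, hβ1] at hr
        unfold cr at hr ⊢
        simp only [map_add, Derivation.leibniz, smul_eq_mul, pderiv_C, mul_zero,
          pderiv_Lam, add_zero] at hr ⊢
        linear_combination hr
      exact Lam_cancel 2 h5

lemma third : ∀ j k : Fin 3, ∃ l : Fin 3, l ≠ j ∧ l ≠ k := by decide

/-- If `κ = 0` then the element is divisible by the generic linear form modulo `f`, or
divisible by `f`. -/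
theorem Dat.kap_ne [CharZero K] (H : Dat f g h b' c' i n ω w α β) (hf : Prime f)
    (hf0 : IsRelPrime f (X 0)) (hfg : IsRelPrime f g) (hg : g ≠ 0)
    (hn : 1 ≤ n) (hb' : 1 ≤ b') (hc' : 1 ≤ c') (hwf : ∀ v, w ≠ C f * v) (hwZ : ¬ ZZ f w)
    {κ : MvPolynomial (Fin 3) K}
    {ν : Fin 3 → MvPolynomial (Fin 3) K} (hkn : KN f n α β κ ν)
    (hν : ∀ k, (ν k).IsHomogeneous (2 * ω + n)) : κ ≠ 0 := by
  intro hκ
  rw [hκ] at hkn
  have hY := H.Y_eq hkn
  have h2 : ZZ f (w * β) := by
    obtain ⟨r, hr⟩ := hY 0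
    apply ZZ_cancel hf0 (X_ne_zero 0)
    apply nat_cancel n
    refine ⟨C g * io (ν 0) - (β * pderiv 0 w - w * pderiv 0 β), -r, ?_⟩
    rw [map_zero, mul_zero, zero_add] at hr
    linear_combination -hr
  obtain ⟨γ, hγ⟩ := H.eq
  have h3 : ZZ f β := (ZZ_prime hf hf0 H.hw' H.hβ' h2).resolve_left hwZ
  have h4 : ZZ f (C g * α) := by
    obtain ⟨a, b, hab⟩ := h3
    exact ⟨Lam K ^ n * w - C h * a, -(C h * b) - γ, by rw [hab] at hγ; linear_combination -hγ⟩
  obtain ⟨α1, a, hα, hα1, hα1'⟩ := ZZ_bihom H.hf H.hα H.hα' (ZZ_cancel hfg hg h4)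
  obtain ⟨β1, b, hβ, hβ1, hβ1'⟩ := ZZ_bihom H.hf H.hβ H.hβ' h3
  obtain ⟨n, rfl⟩ : ∃ m, n = m + 1 := ⟨n - 1, by omega⟩
  obtain ⟨γ1, hγ1⟩ := Lam_cancel (f := f) (u := Lam K ^ (n + 1) * w - C g * α1 - C h * β1)
    (v := C g * a + C h * b + γ) 1 (by
      rw [hα, hβ] at hγ
      linear_combination hγ)
  have hcr1 : ∀ k, ∃ r, cr α1 β1 k = Lam K ^ n * io (ν k) + C f * r := by
    intro k
    obtain ⟨r, hr⟩ := hkn k
    rw [hα, hβ, map_zero, mul_zero, zero_add] at hr
    obtain ⟨v', hv'⟩ := Lam_cancel (f := f) (u := cr α1 β1 k - Lam K ^ n * io (ν k))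
      (v := (r -
          (Lam K * β1 * pderiv k a - (Lam K * α1) * pderiv k b + b * pderiv k (Lam K * α1) -
            a * pderiv k (Lam K * β1)) - C f * (b * pderiv k a - a * pderiv k b))) 2 (by
        unfold cr at hr ⊢
        simp only [map_add, Derivation.leibniz, smul_eq_mul, pderiv_C, mul_zero,
          pderiv_Lam, add_zero] at hr ⊢
        linear_combination hr)
    exact ⟨v', by linear_combination hv'⟩
  have hY1 : ∀ k, ∃ r, C g * io (ν k) = (((n : PP K) + 1) * C (X k) * w * β1 +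
      Lam K * (β1 * pderiv k w - w * pderiv k β1)) + C f * r := by
    intro k
    have h5 := cross_general (s := n) (α := α1) (β := β1) (γ := γ1) (f := f) (g := g) (h := h)
      (w := w) (by linear_combination hγ1) k
    obtain ⟨r, hr⟩ := hcr1 k
    obtain ⟨v', hv'⟩ := Lam_cancel (f := f) (u := C g * io (ν k) -
      (((n : PP K) + 1) * C (X k) * w * β1 + Lam K * (β1 * pderiv k w - w * pderiv k β1)))
      (v := (γ1 * pderiv k β1 - β1 * pderiv k γ1) - C g * r) n (by
        rw [hr] at h5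
        linear_combination h5)
    exact ⟨v', by linear_combination hv'⟩
  have hpar : ∀ j k, C (X j) * io (ν k) - C (X k) * io (ν j) = 0 := by
    intro j k
    have h6 : ZZ f (C (X j) * io (ν k) - C (X k) * io (ν j)) := by
      apply ZZ_cancel hfg hg
      obtain ⟨r, hr⟩ := hY1 k
      obtain ⟨r', hr'⟩ := hY1 j
      refine ⟨C (X j) * (β1 * pderiv k w - w * pderiv k β1) -
        C (X k) * (β1 * pderiv j w - w * pderiv j β1), C (X j) * r - C (X k) * r', ?_⟩
      linear_combination C (X j) * hr - C (X k) * hr'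
    obtain ⟨a', b'', hab⟩ := h6
    have h7 : XH 1 (C (X j) * io (ν k) - C (X k) * io (ν j)) := by
      have e1 := (XH_C (K := K) (isHomogeneous_X K j)).mul (XH_io (ν k))
      have e2 := (XH_C (K := K) (isHomogeneous_X K k)).mul (XH_io (ν j))
      exact e1.sub e2
    have h8 := congrArg (hx 1) hab
    rw [hx_of_XH h7, hx_add, hx_mul XH_Lam, hx_mul (XH_C H.hf), if_pos le_rfl,
      if_neg (by norm_num), add_zero, Nat.sub_self] at h8
    set v := hx 0 a' with hv
    have hv0 : XH 0 v := XH_hx _ _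
    have hvx : ∀ x y : Fin 3 → K, evx x v = evx y v := by
      intro x y
      ext1 m
      rw [coeff_evx, coeff_evx]
      have h9 : coeff m v = C (coeff 0 (coeff m v)) := by
        rw [← totalDegree_eq_zero_iff_eq_C]
        exact Nat.le_zero.1 (hv0 m).totalDegree_le
      rw [h9, eval_C, eval_C]
    have hv1 : v = 0 := by
      obtain ⟨l, hlj, hlk⟩ : ∃ l : Fin 3, l ≠ j ∧ l ≠ k := third j k
      have h9 := congrArg (evx (Pi.single l 1)) h8
      simp only [map_sub, map_mul, evx_C, eval_X, evx_io, evx_Lam] at h9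
      rw [Pi.single_eq_of_ne hlj.symm, Pi.single_eq_of_ne hlk.symm, C_0, zero_mul, zero_mul,
        sub_zero] at h9
      have h10 : evx (Pi.single l 1) v = 0 := by
        refine (mul_eq_zero.1 h9.symm).resolve_left ?_
        intro h11
        have h12 := congrArg (eval (Pi.single l 1)) h11
        rw [eval_lin, map_zero, Finset.sum_eq_single l] at h12
        · simp at h12
        · intro j' _ hj'
          rw [Pi.single_eq_of_ne hj', zero_mul]
        · intro h; exact absurd (Finset.mem_univ l) h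
      ext1 m
      have h13 : coeff m v = C (coeff 0 (coeff m v)) := by
        rw [← totalDegree_eq_zero_iff_eq_C]
        exact Nat.le_zero.1 (hv0 m).totalDegree_le
      have h14 := congrArg (coeff m) h10
      rw [coeff_evx, h13, eval_C, coeff_zero] at h14
      rw [h13, h14, C_0, coeff_zero]
    rw [h8, hv1, mul_zero]
  have hν0 : ∀ k, ν k = 0 := by
    intro k
    obtain ⟨j, hj⟩ : ∃ j : Fin 3, j ≠ k := exists_ne k
    have h9 := congrArg (evx (Pi.single j 1)) (hpar j k)
    simp only [map_sub, map_mul, evx_C, eval_X, evx_io, map_zero] at h9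
    rw [Pi.single_eq_same, Pi.single_eq_of_ne hj.symm, C_0, zero_mul, C_1, one_mul,
      sub_zero] at h9
    exact h9
  rcases zero_cross (h := h) hf hf0 hfg hg H.hw' (n + 1 + 1) (α := α) (β := β) (γ := γ)
    H.hβ' hγ (by
      intro k
      obtain ⟨r, hr⟩ := hkn k
      exact ⟨r, by rw [hr, hν0 k, map_zero]; ring⟩) with h10 | ⟨a0, a1, a2, h10⟩
  · exact hwZ h10
  · obtain ⟨v, hv⟩ := dvd_of_inC H.hf H.hg H.hh (by omega) (by omega) H.hw
      (inC_of_triple h10)
    exact hwf v hv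

end Pool.Agent.H11.SLP
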