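import Pool.Agent.H11.SLP.Point
import Pool.Agent.H11.SLP.Elim
import Pool.Agent.H11.SLP.Tors
import Pool.Agent.H11.SLP.Kap

/-!
A polynomial whose logarithmic derivative agrees with the one of the element along the line
(job CUBIC2-J3).
-/

set_option autoImplicit false

open MvPolynomial

namespace Pool.Agent.H11.SLP

open Pool.Agent.H4.Apolar

variable {K : Type*} [Field K]

namespace ExistsP

/-- The operator `u ↦ P ∂₀ u - u ∂₀ P`. -/
noncomputable def DD (P : MvPolynomial (Fin 3) K) (u : PP K) : PP K :=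
  io P * pderiv 0 u - u * io (pderiv 0 P)

lemma DD_add (P : MvPolynomial (Fin 3) K) (u v : PP K) : DD P (u + v) = DD P u + DD P v := by
  unfold DD
  rw [map_add]
  ring

lemma DD_C_mul (P f : MvPolynomial (Fin 3) K) (u : PP K) : DD P (C f * u) = C f * DD P u := by
  unfold DD
  rw [pderiv_C_mul]
  ring

lemma XH_DD (P : MvPolynomial (Fin 3) K) {u : PP K} {i : ℕ} (hu : XH i u) : XH i (DD P u) := by
  unfold DD
  have h1 := (XH_io P).mul (hu.pderiv 0)
  rw [zero_add] at h1
  have h2 := hu.mul (XH_io (pderiv 0 P))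
  rw [add_zero] at h2
  exact h1.sub h2

lemma DD_Lam_pow (P : MvPolynomial (Fin 3) K) (n : ℕ) (u : PP K) :
    DD P (Lam K ^ (n + 1) * u) = Lam K ^ (n + 1) * DD P u +
      C (X 0) * (io P * (((n : PP K) + 1) * Lam K ^ n) * u) := by
  unfold DD
  rw [Derivation.leibniz, pderiv_Lam_pow, smul_eq_mul, smul_eq_mul]
  ring

lemma evx_DD (p : Fin 3 → K) (P : MvPolynomial (Fin 3) K) (u : PP K) :
    evx p (DD P u) = P * evx p (pderiv 0 u) - evx p u * pderiv 0 P := by
  unfold DD
  rw [map_sub, map_mul, map_mul, evx_io, evx_io]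

/-- Homogeneous polynomials vanishing at `p` when `p 0 = 0`. -/
lemma mem_of_eval {p : Fin 3 → K} (hp0 : p 0 = 0) (hp : p ≠ 0) {F : MvPolynomial (Fin 3) K}
    {d : ℕ} (hF : F.IsHomogeneous d) (h : eval p F = 0) :
    F ∈ Ideal.span (Set.range ![X 0, C (p 2) * X 1 - C (p 1) * X 2]) := by
  obtain ⟨j, hj⟩ := Function.ne_iff.1 hp
  rw [Pi.zero_apply] at hj
  set I : Ideal (MvPolynomial (Fin 3) K) :=
    Ideal.span (Set.range ![X 0, C (p 2) * X 1 - C (p 1) * X 2]) with hI
  have m0 : (X 0 : MvPolynomial (Fin 3) K) ∈ I := Ideal.subset_span ⟨0, rfl⟩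
  have m1 : (C (p 2) * X 1 - C (p 1) * X 2 : MvPolynomial (Fin 3) K) ∈ I :=
    Ideal.subset_span ⟨1, rfl⟩
  have hX : ∀ i : Fin 3, (C (p j) * X i - C (p i) * X j : MvPolynomial (Fin 3) K) ∈ I := by
    intro i
    fin_cases j
    · exact absurd hp0 hj
    · fin_cases i
      · simp only [Fin.zero_eta, Fin.mk_one, Fin.isValue, hp0, C_0, zero_mul, sub_zero]
        exact Ideal.mul_mem_left _ _ m0
      · simp
      · simp only [Fin.mk_one, Fin.isValue, Fin.reduceFinMk]
        have := I.neg_mem m1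
        convert this using 1
        ring
    · fin_cases i
      · simp only [Fin.zero_eta, Fin.isValue, hp0, C_0, zero_mul, sub_zero, Fin.reduceFinMk]
        exact Ideal.mul_mem_left _ _ m0
      · simp only [Fin.mk_one, Fin.isValue, Fin.reduceFinMk]
        exact m1
      · simp
  have hCj : (C (p j)⁻¹ * C (p j) : MvPolynomial (Fin 3) K) = 1 := by
    rw [← C_mul, inv_mul_cancel₀ hj, C_1]
  let T : MvPolynomial (Fin 3) K →ₐ[K] MvPolynomial (Fin 3) K :=
    (Polynomial.aeval (C (p j)⁻¹ * X j : MvPolynomial (Fin 3) K)).comp (lineHom p)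
  have hT : T F = 0 := by
    simp only [T, AlgHom.comp_apply]
    rw [lineHom_of_isHomogeneous p hF, h]
    simp
  have key : (Ideal.Quotient.mk I).comp T.toRingHom = Ideal.Quotient.mk I := by
    apply MvPolynomial.ringHom_ext
    · intro a
      simp only [T, AlgHom.toRingHom_eq_coe, RingHom.coe_comp, RingHom.coe_coe,
        Function.comp_apply, AlgHom.comp_apply]
      rw [← algebraMap_eq, AlgHom.commutes, AlgHom.commutes]
    · intro i
      simp only [T, AlgHom.toRingHom_eq_coe, RingHom.coe_comp, RingHom.coe_coe,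
        Function.comp_apply, AlgHom.comp_apply, lineHom_X, map_mul, Polynomial.aeval_C,
        Polynomial.aeval_X, algebraMap_eq]
      rw [← map_mul, ← map_mul, Ideal.Quotient.eq]
      have := I.mul_mem_left (-C (p j)⁻¹) (hX i)
      convert this using 1
      linear_combination (X i) * hCj
  have h2 := RingHom.congr_fun key F
  rw [← Ideal.Quotient.eq_zero_iff_mem, ← h2]
  simp only [AlgHom.toRingHom_eq_coe, RingHom.coe_comp, RingHom.coe_coe, Function.comp_apply, hT,
    map_zero]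

lemma exists_of_evx {p : Fin 3 → K} (hp0 : p 0 = 0) (hp : p ≠ 0) {u : PP K} {d : ℕ}
    (hu : XH d u) (h : evx p u = 0) :
    ∃ a b, u = C (X 0) * a + C (C (p 2) * X 1 - C (p 1) * X 2) * b := by
  apply inC_pair
  intro n
  apply mem_of_eval hp0 hp (hu n)
  rw [← coeff_evx, h, coeff_zero]

lemma relPrime {p : Fin 3 → K} (hp0 : p 0 = 0) (hp : p ≠ 0) :
    IsRelPrime (X 0) (C (p 2) * X 1 - C (p 1) * X 2 : MvPolynomial (Fin 3) K) := by
  rw [(X_prime (R := K) (i := (0 : Fin 3))).irreducible.isRelPrime_iff_not_dvd]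
  rintro ⟨q, hq⟩
  apply hp
  have h1 := congrArg (eval (![0, 1, 0] : Fin 3 → K)) hq
  have h2 := congrArg (eval (![0, 0, 1] : Fin 3 → K)) hq
  simp at h1 h2
  ext i
  fin_cases i
  · exact hp0
  · exact h2
  · exact h1

end ExistsP

open ExistsP

theorem exists_P_of [CharZero K] [IsAlgClosed K] {g h : MvPolynomial (Fin 3) K}
    {w α β r s : PP K} {b c i : ℕ}
    (gi_line : ∀ {j k : ℕ}, j < b → j < c → 2 * j + k + 2 ≤ b + c → ∀ {w : PP K}, XH j w →
      InC (Ideal.span (Set.range ![X 0, g, h])) (Lam K ^ k * w) → ∃ v, w = C (X 0) * v)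
    (hi : 1 ≤ i) (hib : i < b) (hic : i < c) (hw : XH i w) (hα : XH (c - i) α)
    (hβ : XH (b - i) β) (H : Lam K ^ (b + c - 2 * i) * w = C g * α + C h * β + C (X 0) * r)
    (hcr : cr α β 0 = C (X 0) * s) (hw0 : ¬ ∃ v, w = C (X 0) * v) :
    ∃ P : MvPolynomial (Fin 3) K, P ≠ 0 ∧ ∃ u, io P * pderiv 0 w - w * io (pderiv 0 P) =
      C (X 0) * u := by
  -- a point of the line where `w` does not vanish
  obtain ⟨n, hn⟩ : ∃ n, ¬ (X 0 : MvPolynomial (Fin 3) K) ∣ coeff n w := by
    by_contra hcon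
    push Not at hcon
    exact hw0 ((C_dvd_iff_dvd_coeff _ _).2 hcon)
  obtain ⟨p, hp0, hpn⟩ : ∃ p : Fin 3 → K, p 0 = 0 ∧ eval p (coeff n w) ≠ 0 := by
    by_contra hcon
    push Not at hcon
    apply hn
    apply dvd_of_vanish X_prime
    intro l hl
    rw [eval_X] at hl
    exact hcon l hl
  have hp : p ≠ 0 := by
    rintro rfl
    apply hpn
    have h1 : coeff 0 (coeff n w) = 0 := by
      apply (hw n).coeff_eq_zero
      rw [map_zero]
      omega
    rw [MvPolynomial.eval_zero]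
    exact h1
  set P : MvPolynomial (Fin 3) K := evx p w with hP
  have hP0 : P ≠ 0 := by
    intro h0
    apply hpn
    rw [← coeff_evx, ← hP, h0, coeff_zero]
  refine ⟨P, hP0, ?_⟩
  change ∃ u, DD P w = C (X 0) * u
  obtain ⟨N, hN⟩ : ∃ N, b + c - 2 * i = N + 1 := ⟨b + c - 2 * i - 1, by omega⟩
  rw [hN] at H
  -- the derived relation
  have hD : Lam K ^ (N + 1) * DD P w = C g * DD P α + C h * DD P β +
      C (X 0) * (DD P r - io P * (((N : PP K) + 1) * Lam K ^ N) * w) := by
    have h1 := congrArg (DD P) H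
    rw [DD_Lam_pow, DD_add, DD_add, DD_C_mul, DD_C_mul, DD_C_mul] at h1
    linear_combination h1
  have hab : DD P α * β - DD P β * α = C (X 0) * (io P * s) := by
    unfold cr at hcr
    unfold DD
    linear_combination io P * hcr
  obtain ⟨t, ht⟩ := Lam_cancel (f := X 0) (u := DD P w * β - w * DD P β)
    (v := C g * (io P * s) + ((DD P r - io P * (((N : PP K) + 1) * Lam K ^ N) * w) * β -
      r * DD P β)) (N + 1) (by linear_combination β * hD - DD P β * H + C g * hab)
  obtain ⟨t', ht'⟩ := Lam_cancel (f := X 0) (u := DD P w * α - w * DD P α)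
    (v := - (C h * (io P * s)) + ((DD P r - io P * (((N : PP K) + 1) * Lam K ^ N) * w) * α -
      r * DD P α)) (N + 1) (by linear_combination α * hD - DD P α * H - C h * hab)
  have hC0 : evx p (C (X 0)) = 0 := by rw [evx_C, eval_X, hp0, C_0]
  have hw1 : evx p (DD P w) = 0 := by
    rw [evx_DD, evx_pderiv, ← hP]
    ring
  have hβ1 : evx p (DD P β) = 0 := by
    have h1 := congrArg (evx p) ht
    rw [map_sub, map_mul, map_mul, map_mul, hC0, hw1, zero_mul, zero_mul, zero_sub,
      neg_eq_zero] at h1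
    exact (mul_eq_zero.1 h1).resolve_left hP0
  have hα1 : evx p (DD P α) = 0 := by
    have h1 := congrArg (evx p) ht'
    rw [map_sub, map_mul, map_mul, map_mul, hC0, hw1, zero_mul, zero_mul, zero_sub,
      neg_eq_zero] at h1
    exact (mul_eq_zero.1 h1).resolve_left hP0
  obtain ⟨a1, b1, e1⟩ := exists_of_evx hp0 hp (XH_DD P hw) hw1
  obtain ⟨a2, b2, e2⟩ := exists_of_evx hp0 hp (XH_DD P hα) hα1
  obtain ⟨a3, b3, e3⟩ := exists_of_evx hp0 hp (XH_DD P hβ) hβ1
  have hm : (C (p 2) * X 1 - C (p 1) * X 2 : MvPolynomial (Fin 3) K).IsHomogeneous 1 := by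
    have h1 := (isHomogeneous_C (Fin 3) (p 2)).mul (isHomogeneous_X K (1 : Fin 3))
    have h2 := (isHomogeneous_C (Fin 3) (p 1)).mul (isHomogeneous_X K (2 : Fin 3))
    rw [zero_add] at h1 h2
    exact h1.sub h2
  have e4 := congrArg (hx i) e1
  rw [hx_of_XH (XH_DD P hw), hx_add, hx_mul (XH_C (isHomogeneous_X K 0)), hx_mul (XH_C hm),
    if_pos hi, if_pos hi] at e4
  set z := hx (i - 1) b1 with hz
  have hz1 : XH (i - 1) z := XH_hx _ _
  obtain ⟨t'', ht''⟩ := C_relPrime (relPrime hp0 hp)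
    (u := Lam K ^ (N + 1) * z - C g * b2 - C h * b3)
    (v := C g * a2 + C h * a3 + (DD P r - io P * (((N : PP K) + 1) * Lam K ^ N) * w) -
      Lam K ^ (N + 1) * hx (i - 1) a1) (by
      rw [e4, e2, e3] at hD
      linear_combination hD)
  obtain ⟨v, hv⟩ := gi_line (j := i - 1) (k := N + 1) (by omega) (by omega) (by omega) hz1
    (inC_of_triple (a0 := t'') (a1 := b2) (a2 := b3) (by linear_combination ht''))
  exact ⟨hx (i - 1) a1 + C (C (p 2) * X 1 - C (p 1) * X 2) * v, by rw [e4, hv]; ring⟩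

end Pool.Agent.H11.SLP
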