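import Pool.Agent.H11.SLP.Second
import Pool.Agent.H11.SLP.Point

/-!
Evaluation of the coefficients at the point of the line `x₀ = 0` on the generic line.
-/

set_option autoImplicit false

open MvPolynomial

namespace Pool.Agent.H11.SLP

open Pool.Agent.H4.Apolar Pool.Agent.H4.Descent

variable {K : Type*} [Field K]

/-- The point of `x₀ = 0` on the generic line. -/
noncomputable def zp : MvPolynomial (Fin 3) K →+* MvPolynomial (Fin 3) K :=
  eval₂Hom C ![0, X 2, -X 1]

/-- Evaluation at the point of `x₀ = 0` on the generic line. -/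
noncomputable def ez : PP K →+* MvPolynomial (Fin 3) K :=
  eval₂Hom zp X

lemma zp_X0 : zp (X 0 : MvPolynomial (Fin 3) K) = 0 := by
  unfold zp
  rw [coe_eval₂Hom, eval₂_X]
  rfl

lemma zp_X1 : zp (X 1 : MvPolynomial (Fin 3) K) = X 2 := by
  unfold zp
  rw [coe_eval₂Hom, eval₂_X]
  rfl

lemma zp_X2 : zp (X 2 : MvPolynomial (Fin 3) K) = -X 1 := by
  unfold zp
  rw [coe_eval₂Hom, eval₂_X]
  rfl

lemma zp_C (a : K) : zp (C a : MvPolynomial (Fin 3) K) = C a := by
  unfold zp
  rw [coe_eval₂Hom, eval₂_C]

lemma ez_C (r : MvPolynomial (Fin 3) K) : ez (C r) = zp r := by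
  unfold ez
  rw [coe_eval₂Hom, eval₂_C]

lemma ez_X (k : Fin 3) : ez (X k : PP K) = X k := by
  unfold ez
  rw [coe_eval₂Hom, eval₂_X]

lemma ez_Lam : ez (Lam K) = 0 := by
  rw [Lam_eq]
  simp only [map_add, map_mul, ez_C, ez_X, zp_X0, zp_X1, zp_X2]
  ring

lemma ez_io (u : MvPolynomial (Fin 3) K) : ez (io u) = u := by
  have : (ez).comp io = RingHom.id (MvPolynomial (Fin 3) K) := by
    apply MvPolynomial.ringHom_ext
    · intro a
      simp only [RingHom.comp_apply, io_C, ez_C, zp_C, RingHom.id_apply]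
    · intro k
      simp only [RingHom.comp_apply, io_X, ez_X, RingHom.id_apply]
  exact RingHom.congr_fun this u

lemma pderiv_zp (r : MvPolynomial (Fin 3) K) : pderiv 0 (zp r) = 0 := by
  induction r using MvPolynomial.induction_on with
  | C a => rw [zp_C, pderiv_C]
  | add p q hp hq => rw [map_add, map_add, hp, hq, add_zero]
  | mul_X p k hp =>
    rw [map_mul, Derivation.leibniz, hp, smul_zero, add_zero]
    have : pderiv 0 (zp (X k : MvPolynomial (Fin 3) K)) = 0 := by
      fin_cases k
      · simp only [Fin.zero_eta, Fin.isValue, zp_X0, map_zero]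
      · simp only [Fin.mk_one, Fin.isValue, zp_X1]
        rw [pderiv_X_of_ne (by decide)]
      · simp only [Fin.reduceFinMk, Fin.isValue, zp_X2, map_neg]
        rw [pderiv_X_of_ne (by decide), neg_zero]
    rw [this, smul_zero]

lemma ez_pderiv (u : PP K) : ez (pderiv 0 u) = pderiv 0 (ez u) := by
  induction u using MvPolynomial.induction_on with
  | C a => rw [pderiv_C, map_zero, ez_C, pderiv_zp]
  | add p q hp hq => rw [map_add, map_add, map_add, map_add, hp, hq]
  | mul_X p k hp =>
    have hk' : ez (pderiv 0 (X k : PP K)) = pderiv 0 (X k : MvPolynomial (Fin 3) K) := by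
      by_cases hk : k = 0
      · subst hk
        rw [pderiv_X_self, pderiv_X_self, map_one]
      · rw [pderiv_X_of_ne hk, pderiv_X_of_ne hk, map_zero]
    have e1 : pderiv 0 (p * X k) = p * pderiv 0 (X k) + X k * pderiv 0 p := by
      rw [Derivation.leibniz, smul_eq_mul, smul_eq_mul]
    have e2 : pderiv 0 (ez p * X k) = ez p * pderiv 0 (X k) + X k * pderiv 0 (ez p) := by
      rw [Derivation.leibniz, smul_eq_mul, smul_eq_mul]
    rw [e1, map_add, map_mul, map_mul, map_mul, ez_X, e2, hp, hk']

lemma eval_zp (r : MvPolynomial (Fin 3) K) (l : Fin 3 → K) :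
    eval l (zp r) = eval ![0, l 2, -l 1] r := by
  have : (eval l).comp zp = eval ![0, l 2, -l 1] := by
    apply MvPolynomial.ringHom_ext
    · intro a
      simp only [RingHom.comp_apply, zp_C, eval_C]
    · intro k
      fin_cases k
      · simp [zp_X0]
      · simp [zp_X1]
      · simp [zp_X2]
  exact RingHom.congr_fun this r

lemma zp_ne_zero [Infinite K] {r : MvPolynomial (Fin 3) K} (h : ¬ X 0 ∣ r) : zp r ≠ 0 := by
  intro h0
  apply h
  -- `X 0` divides `r` iff `r` vanishes on `x₀ = 0`
  have h1 : ∀ x : Fin 3 → K, x 0 = 0 → eval x r = 0 := by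
    intro x hx
    have h2 := congrArg (eval ![0, -x 2, x 1]) h0
    rw [eval_zp, map_zero] at h2
    have h3 : (![0, (![0, -x 2, x 1] : Fin 3 → K) 2, -(![0, -x 2, x 1] : Fin 3 → K) 1] :
        Fin 3 → K) = x := by
      ext k
      fin_cases k
      · simp [hx]
      · simp
      · simp
    rwa [h3] at h2
  -- substitution `x₀ ↦ 0`
  have h4 : aeval (![0, X 1, X 2] : Fin 3 → MvPolynomial (Fin 3) K) r = 0 := by
    apply MvPolynomial.funext
    intro x
    rw [map_zero]
    have h5 : (eval x).comp (aeval (![0, X 1, X 2] : Fin 3 → MvPolynomial (Fin 3) K)).toRingHom =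
        eval ![0, x 1, x 2] := by
      apply MvPolynomial.ringHom_ext
      · intro a
        simp [algebraMap_eq]
      · intro k
        fin_cases k <;> simp
    have h6 := RingHom.congr_fun h5 r
    rw [RingHom.comp_apply] at h6
    change eval x (aeval (![0, X 1, X 2] : Fin 3 → MvPolynomial (Fin 3) K) r) = _ at h6
    rw [h6]
    exact h1 _ rfl
  have h7 : ∀ p : MvPolynomial (Fin 3) K,
      X 0 ∣ p - aeval (![0, X 1, X 2] : Fin 3 → MvPolynomial (Fin 3) K) p := by
    intro p
    induction p using MvPolynomial.induction_on with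
    | C a => simp [algebraMap_eq]
    | add p q hp hq =>
      rw [map_add]
      have := dvd_add hp hq
      convert this using 1
      ring
    | mul_X p k hp =>
      rw [map_mul, aeval_X]
      have h8 : (X 0 : MvPolynomial (Fin 3) K) ∣
          X k - (![0, X 1, X 2] : Fin 3 → MvPolynomial (Fin 3) K) k := by
        fin_cases k <;> simp
      obtain ⟨a, ha⟩ := hp
      obtain ⟨b, hb⟩ := h8
      refine ⟨a * X k + aeval (![0, X 1, X 2] : Fin 3 → MvPolynomial (Fin 3) K) p * b, ?_⟩
      linear_combination X k * ha + aeval (![0, X 1, X 2] : Fin 3 → MvPolynomial (Fin 3) K) p * hb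
  have h8 := h7 r
  rwa [h4, sub_zero] at h8

end Pool.Agent.H11.SLP
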