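import Pool.Agent.H11.SLP.LineRigid
import Pool.Agent.H11.SLP.Const
import Pool.Agent.H11.SLP.Kap

/-!
The generic injectivity modulo a linear form.
-/

set_option autoImplicit false

open MvPolynomial

namespace Pool.Agent.H11.SLP

open Pool.Agent.H4.Apolar

variable {K : Type*} [Field K]

theorem prop_of_cross [CharZero K] {A B : MvPolynomial (Fin 3) K}
    (h : ∀ k, B * pderiv k A = A * pderiv k B) (l l' : Fin 3 → K) :
    eval l A * eval l' B = eval l' A * eval l B := by
  by_cases hA : A = 0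
  · rw [hA, map_zero, map_zero, zero_mul, zero_mul]
  by_cases hB : B = 0
  · rw [hB, map_zero, map_zero, mul_zero, mul_zero]
  obtain ⟨a, b, G, hab, ha, hb⟩ := UniqueFactorizationMonoid.exists_reduced_factors A hA B
  have hG : G ≠ 0 := by
    rintro rfl
    rw [zero_mul] at ha
    exact hA ha.symm
  have ha0 : a ≠ 0 := by
    rintro rfl
    rw [mul_zero] at ha
    exact hA ha.symm
  have hb0 : b ≠ 0 := by
    rintro rfl
    rw [mul_zero] at hb
    exact hB hb.symm
  have key : ∀ k, b * pderiv k a = a * pderiv k b := by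
    intro k
    have h1 := h k
    rw [← ha, ← hb, Derivation.leibniz, Derivation.leibniz] at h1
    simp only [smul_eq_mul] at h1
    have h2 : G * G * (b * pderiv k a - a * pderiv k b) = 0 := by
      linear_combination h1
    have h3 := (mul_eq_zero.1 h2).resolve_left (mul_ne_zero hG hG)
    exact sub_eq_zero.1 h3
  have da : ∀ k, pderiv k a = 0 := by
    intro k
    by_contra hne
    apply Constancy.not_dvd_pderiv hne
    exact hab.dvd_of_dvd_mul_left (Dvd.intro _ (key k).symm)
  have db : ∀ k, pderiv k b = 0 := by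
    intro k
    by_contra hne
    apply Constancy.not_dvd_pderiv hne
    exact hab.symm.dvd_of_dvd_mul_left (Dvd.intro _ (key k))
  have ea := Constancy.eq_C_of_pderiv da
  have eb := Constancy.eq_C_of_pderiv db
  rw [← ha, ← hb, ea, eb]
  simp only [map_mul, eval_C]
  ring

open LineRigid in
/-- The cross products vanish on the line. -/
theorem cross_line [CharZero K] [IsAlgClosed K] {g h : MvPolynomial (Fin 3) K} {w α β r : PP K}
    {s b' c' : ℕ} (hg0 : ¬ X 0 ∣ g) (hα : XH c' α) (hβ : XH b' β) (hbc : b' + c' < s)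
    (H : Lam K ^ (s + 1) * w = C g * α + C h * β + C (X 0) * r) (k : Fin 3)
    {x : Fin 3 → K} (hx0 : x 0 = 0) (hx : x ≠ 0) : evx x (cr α β k) = 0 := by
  have hlin : lin x ≠ 0 := lin_ne_zero hx
  set F : MvPolynomial (Fin 3) K :=
    aeval (R := K) (![0, X 2, -X 1] : Fin 3 → MvPolynomial (Fin 3) K) g * lin x with hF
  have hF0 : F ≠ 0 := by
    apply mul_ne_zero _ hlin
    intro h0
    apply hg0
    apply dvd_of_vanish X_prime
    intro y hy
    rw [eval_X] at hy
    have h3 := eval_rot g ![0, -y 2, y 1]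
    rw [h0, map_zero] at h3
    have hye : (![0, (![0, -y 2, y 1] : Fin 3 → K) 2, -(![0, -y 2, y 1] : Fin 3 → K) 1]
        : Fin 3 → K) = y := by
      ext k
      fin_cases k
      · exact hy.symm
      · simp
      · simp
    rw [hye] at h3
    exact h3.symm
  suffices hP : evx x (cr α β k) * F = 0 from (mul_eq_zero.1 hP).resolve_right hF0
  apply MvPolynomial.funext
  intro l
  rw [map_mul, map_zero]
  by_cases hl : eval l F = 0
  · rw [hl, mul_zero]
  suffices h0 : eval l (evx x (cr α β k)) = 0 by rw [h0, zero_mul]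
  rw [hF, map_mul] at hl
  have hGl : eval ![0, l 2, -l 1] g ≠ 0 := by
    rw [← eval_rot]; exact left_ne_zero_of_mul hl
  have hτ : eval l (lin x) ≠ 0 := right_ne_zero_of_mul hl
  set a : Fin 3 → K := ![0, l 2, -l 1] with ha
  have : Infinite K := inferInstance
  have hX0 : ps a x (X 0) = 0 := by
    rw [ps_X, hx0, ha]; simp
  have hll : ps a x (lin l) = Polynomial.C (eval l (lin x)) * Polynomial.X := by
    rw [ps_lin, eval_lin]
    have h6 : ∑ k, l k * a k = 0 := by
      rw [Fin.sum_univ_three, ha]; simp; ring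
    rw [h6, map_zero, zero_add]
    congr 2
    apply Finset.sum_congr rfl
    intro k _
    ring
  have hG0 : (ps a x g).coeff 0 ≠ 0 := by
    rw [Polynomial.coeff_zero_eq_eval_zero, eval_ps]
    have : (fun k => a k + x k * 0) = a := by ext k; ring
    rw [this]; exact hGl
  have hGX : ¬ Polynomial.X ∣ ps a x g := by
    rw [Polynomial.X_dvd_iff]; exact hG0
  have h5 := congrArg (fun u => ps a x (evl l u)) (cross_general H k)
  rw [map_mul, map_mul, map_add, map_add, map_mul (evl l) (Lam K ^ s), map_pow, evl_Lam, evl_C,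
    map_mul (evl l) (C (X 0)), evl_C, map_mul (ps a x) (X 0), hX0, zero_mul, add_zero,
    map_mul (ps a x), map_pow, hll, mul_pow] at h5
  have h7 : Polynomial.X ^ s ∣ ps a x g * ps a x (evl l (cr α β k)) := by
    rw [h5]
    exact Dvd.dvd.mul_right (Dvd.intro_left _ rfl) _
  have h8 : IsCoprime (Polynomial.X ^ s) (ps a x g) := by
    apply IsCoprime.pow_left
    exact (Polynomial.irreducible_X.coprime_iff_not_dvd).2 hGX
  have h9 : Polynomial.X ^ s ∣ ps a x (evl l (cr α β k)) := h8.dvd_of_dvd_mul_left h7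
  have hcrX : XH (b' + c') (cr α β k) := by
    unfold cr
    refine XH.sub (hβ.mul (hα.pderiv k)) ?_
    rw [add_comm]
    exact hα.mul (hβ.pderiv k)
  have h10 : ps a x (evl l (cr α β k)) = 0 := by
    by_contra hne
    have h10 := Polynomial.natDegree_le_of_dvd h9 hne
    rw [Polynomial.natDegree_X_pow] at h10
    have h11 := ps_natDegree_le a x (evl_homog hcrX l)
    omega
  rw [eval_evx]
  exact eval_dir a x (evl_homog hcrX l) h10

lemma eval_evx_zero {i : ℕ} {u : PP K} (hu : XH i u) (y l : Fin 3 → K) :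
    eval l (evx (0 : Fin 3 → K) u) = 0 ^ i * eval l (evx y u) := by
  rw [eval_evx, eval_evx, ← LineRigid.eval_scale (LineRigid.evl_homog hu l) 0 y]
  congr 2
  ext k
  simp

/-- The main case. -/
theorem gi_line_aux [CharZero K] [IsAlgClosed K] {g h : MvPolynomial (Fin 3) K} {w α β r : PP K}
    {s b' c' j : ℕ} (hg0 : ¬ X 0 ∣ g) (hw : XH j w) (hα : XH c' α) (hβ : XH b' β)
    (hb : b' < s + 1) (hc : c' < s + 1) (hbc : b' + c' < s ∨ α = 0 ∨ β = 0)
    (H : Lam K ^ (s + 1) * w = C g * α + C h * β + C (X 0) * r) : ∃ v, w = C (X 0) * v := by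
  have hcr : ∀ x : Fin 3 → K, x 0 = 0 → x ≠ 0 → ∀ l l' : Fin 3 → K,
      eval l (evx x α) * eval l' (evx x β) = eval l' (evx x α) * eval l (evx x β) := by
    intro x hx0 hx l l'
    rcases hbc with hbc | rfl | rfl
    · apply prop_of_cross
      intro k
      have h1 := cross_line hg0 hα hβ hbc H k hx0 hx
      unfold cr at h1
      rw [map_sub, map_mul, map_mul, evx_pderiv, evx_pderiv] at h1
      exact sub_eq_zero.1 h1
    · simp
    · simp
  have hcr' : ∀ x : Fin 3 → K, x 0 = 0 → ∀ l l' : Fin 3 → K,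
      eval l (evx x α) * eval l' (evx x β) = eval l' (evx x α) * eval l (evx x β) := by
    intro x hx0 l l'
    by_cases hx : x = 0
    · subst hx
      have hy : (![0, 1, 0] : Fin 3 → K) ≠ 0 := by
        intro h0
        have := congrFun h0 1
        simp at this
      have h1 := hcr ![0, 1, 0] rfl hy l l'
      rw [eval_evx_zero hα ![0, 1, 0] l, eval_evx_zero hα ![0, 1, 0] l',
        eval_evx_zero hβ ![0, 1, 0] l, eval_evx_zero hβ ![0, 1, 0] l']
      linear_combination (0 ^ c' * 0 ^ b' : K) * h1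
    · exact hcr x hx0 hx l l'
  have hW := line_rigid hw hα hβ hb hc H (Z := Set.univ) (by
    rintro F₁ F₂ hF₁ - ⟨m, -, hm⟩
    have hF₂ : F₂ ≠ 0 := by
      rintro rfl
      exact hm (map_zero _)
    by_contra hcon
    push Not at hcon
    have h1 : F₁ * F₂ = 0 := by
      apply MvPolynomial.funext
      intro l
      rw [map_mul, map_zero]
      by_cases h0 : eval l F₁ = 0
      · rw [h0, zero_mul]
      · rw [hcon l (Set.mem_univ _) h0, mul_zero]
    exact mul_ne_zero hF₁ hF₂ h1) (fun x hx l _ l' _ => hcr' x hx l l')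
  have hd : ∀ n, (X 0 : MvPolynomial (Fin 3) K) ∣ coeff n w := by
    intro n
    apply dvd_of_vanish X_prime
    intro x hx
    rw [eval_X] at hx
    have h1 : evx x w = 0 := by
      apply MvPolynomial.funext
      intro l
      rw [map_zero]
      exact hW x hx l (Set.mem_univ _)
    rw [← coeff_evx, h1, coeff_zero]
  obtain ⟨v, hv⟩ := (C_dvd_iff_dvd_coeff _ _).2 hd
  exact ⟨v, hv⟩

theorem gi_line [CharZero K] [IsAlgClosed K] {g h : MvPolynomial (Fin 3) K} {b c j k : ℕ}
    (hg : g.IsHomogeneous b) (hh : h.IsHomogeneous c) (hg0 : ¬ X 0 ∣ g) (hh0 : ¬ X 0 ∣ h)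
    (hjb : j < b) (hjc : j < c) (hk : 2 * j + k + 2 ≤ b + c) {w : PP K} (hw : XH j w)
    (H : InC (Ideal.span (Set.range ![X 0, g, h])) (Lam K ^ k * w)) : ∃ v, w = C (X 0) * v := by
  obtain ⟨q, hq⟩ : ∃ q, 2 * j + k + 2 + q = b + c := ⟨b + c - (2 * j + k + 2), by omega⟩
  have H1 : InC (Ideal.span (Set.range ![X 0, g, h])) (Lam K ^ (q + k) * w) := by
    rw [pow_add, mul_assoc]
    exact H.mul_left _
  obtain ⟨a0, a1, a2, ha⟩ := inC_triple H1
  have hX : ∃ r, hx (q + k + j) (C (X 0) * a0) = C (X 0) * r := by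
    rw [hx_mul (XH_C (isHomogeneous_X K 0))]
    split_ifs
    · exact ⟨_, rfl⟩
    · exact ⟨0, by rw [mul_zero]⟩
  obtain ⟨r, hr⟩ := hX
  have h1 := congrArg (hx (q + k + j)) ha
  rw [hx_of_XH ((XH_Lam_pow (q + k)).mul hw), hx_add, hx_add, hr, hx_mul (XH_C hg),
    hx_mul (XH_C hh)] at h1
  by_cases h0 : q + k = 0
  · rw [if_neg (by omega), if_neg (by omega), h0, pow_zero, one_mul] at h1
    exact ⟨r, by rw [h1]; ring⟩
  obtain ⟨s, hs⟩ : ∃ s, q + k = s + 1 := ⟨q + k - 1, by omega⟩
  rw [hs] at h1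
  by_cases e1 : b ≤ s + 1 + j
  · rw [if_pos e1] at h1
    by_cases e2 : c ≤ s + 1 + j
    · rw [if_pos e2] at h1
      refine gi_line_aux (s := s) (r := r) (h := h) hg0 hw (XH_hx (s + 1 + j - b) a1)
        (XH_hx (s + 1 + j - c) a2) ?_ ?_ ?_ ?_
      · omega
      · omega
      · left; omega
      · rw [h1]; ring
    · rw [if_neg e2] at h1
      refine gi_line_aux (s := s) (r := r) (h := h) (b' := 0) (β := 0) hg0 hw
        (XH_hx (s + 1 + j - b) a1) (XH.zero _) ?_ ?_ ?_ ?_
      · omega
      · omega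
      · right; right; rfl
      · rw [h1]; ring
  · rw [if_neg e1] at h1
    by_cases e2 : c ≤ s + 1 + j
    · rw [if_pos e2] at h1
      refine gi_line_aux (s := s) (r := r) (h := h) (c' := 0) (α := 0) hg0 hw (XH.zero _)
        (XH_hx (s + 1 + j - c) a2) ?_ ?_ ?_ ?_
      · omega
      · omega
      · right; left; rfl
      · rw [h1]; ring
    · exfalso
      omega

end Pool.Agent.H11.SLP
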