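import Pool.Agent.H11.SLP.GiLine
import Pool.Agent.H11.SLP.ExistsP
import Pool.Agent.H11.SLP.Cube

/-!
The exact forms of `exists_P` and `cube_aux`, from `gi_line`.
-/

set_option autoImplicit false

open MvPolynomial

namespace Pool.Agent.H11.SLP

open Pool.Agent.H4.Apolar

variable {K : Type*} [Field K]

theorem exists_P [CharZero K] [IsAlgClosed K] {g h : MvPolynomial (Fin 3) K} {w α β r s : PP K}
    {b c i : ℕ} (hg : g.IsHomogeneous b) (hh : h.IsHomogeneous c) (hg0 : ¬ X 0 ∣ g)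
    (hh0 : ¬ X 0 ∣ h) (hi : 1 ≤ i) (hib : i < b) (hic : i < c) (hw : XH i w) (hα : XH (c - i) α)
    (hβ : XH (b - i) β) (H : Lam K ^ (b + c - 2 * i) * w = C g * α + C h * β + C (X 0) * r)
    (hcr : cr α β 0 = C (X 0) * s) (hw0 : ¬ ∃ v, w = C (X 0) * v) :
    ∃ P : MvPolynomial (Fin 3) K, P ≠ 0 ∧ ∃ u, io P * pderiv 0 w - w * io (pderiv 0 P) =
      C (X 0) * u :=
  exists_P_of (fun hjb hjc hk _ hw H => gi_line hg hh hg0 hh0 hjb hjc hk hw H)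
    hi hib hic hw hα hβ H hcr hw0

theorem cube_aux [CharZero K] [IsAlgClosed K] {g h : MvPolynomial (Fin 3) K} {b c i : ℕ}
    (hg : g.IsHomogeneous b) (hh : h.IsHomogeneous c) (hg0 : ¬ X 0 ∣ g) (hh0 : ¬ X 0 ∣ h)
    (hi : 2 ≤ i) (hib : i + 2 ≤ b) (hic : i + 2 ≤ c)
    (hcol2 : ∀ p, X 0 ^ 2 * p ∈ Ideal.span (Set.range ![X 0 ^ 3, g, h]) →
      p ∈ Ideal.span (Set.range ![X 0, g, h]))
    (hcol1 : ∀ p, X 0 * p ∈ Ideal.span (Set.range ![X 0 ^ 3, g, h]) →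
      p ∈ Ideal.span (Set.range ![X 0 ^ 2, g, h]))
    (_hcol0 : ∀ p, X 0 * p ∈ Ideal.span (Set.range ![X 0 ^ 2, g, h]) →
      p ∈ Ideal.span (Set.range ![X 0, g, h]))
    {w : PP K} (hw : XH i w)
    (HI : InC (Ideal.span (Set.range ![X 0 ^ 3, g, h])) (Lam K ^ (b + c - 2 * i) * w)) :
    ∃ v, w = C (X 0 ^ 3) * v :=
  cube_aux_of (fun j k hjb hjc hk w hw H => gi_line hg hh hg0 hh0 hjb hjc hk hw H)
    hi hib hic hcol2 hcol1 hw HI

end Pool.Agent.H11.SLP
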