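import Pool.Agent.H11.SLP.LineRigid
import Pool.Agent.H11.SLP.Const
import Pool.Agent.H11.SLP.Point

/-!
Rigidity on the zero set of a prime element (job CUBIC2-J1b).
-/

set_option autoImplicit false

open MvPolynomial

namespace Pool.Agent.H11.SLP

open Pool.Agent.H4.Apolar

variable {K : Type*} [Field K]

lemma not_dvd_of_pderiv_zero [CharZero K] {π F : MvPolynomial (Fin 3) K} {j : Fin 3}
    (hπ : Prime π) (hπ0 : pderiv j π ≠ 0) (hF : F ≠ 0) (hF0 : pderiv j F = 0) : ¬ π ∣ F := by
  intro hd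
  obtain ⟨q, hq, hqd⟩ := (FiniteMultiplicity.of_prime_left hπ hF).exists_eq_pow_mul_and_not_dvd
  set m := multiplicity π F with hm
  have hm0 : m ≠ 0 := by
    intro h0
    rw [h0, pow_zero, one_mul] at hq
    exact hqd (by rw [← hq]; exact hd)
  obtain ⟨k, hk⟩ := Nat.exists_eq_succ_of_ne_zero hm0
  rw [hq, hk, Derivation.leibniz, Derivation.leibniz_pow, smul_eq_mul, smul_eq_mul,
    nsmul_eq_mul, smul_eq_mul, Nat.succ_sub_one, pow_succ] at hF0
  have h1 : π ^ k * (π * pderiv j q + q * (((k.succ : ℕ) : MvPolynomial (Fin 3) K) * pderiv j π))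
      = 0 := by
    linear_combination hF0
  have h2 := (mul_eq_zero.1 h1).resolve_left (pow_ne_zero _ hπ.ne_zero)
  have h3 : π ∣ q * (((k.succ : ℕ) : MvPolynomial (Fin 3) K) * pderiv j π) :=
    ⟨- pderiv j q, by linear_combination h2⟩
  have h4 := (hπ.dvd_or_dvd h3).resolve_left hqd
  have h5 : IsUnit (((k.succ : ℕ) : MvPolynomial (Fin 3) K)) := by
    have h6 : (((k.succ : ℕ) : MvPolynomial (Fin 3) K)) = C ((k.succ : ℕ) : K) := by
      rw [map_natCast]
    rw [h6]
    exact (isUnit_iff_ne_zero.2 (Nat.cast_ne_zero.2 (Nat.succ_ne_zero k))).map C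
  rw [h5.dvd_mul_left] at h4
  exact Constancy.not_dvd_pderiv hπ0 h4

/-- J1b -/
theorem line_prime [CharZero K] [IsAlgClosed K] {g h : MvPolynomial (Fin 3) K} {w α β r : PP K}
    {i b' c' N : ℕ} (hw : XH i w) (hα : XH c' α) (hβ : XH b' β) (hb : b' < N) (hc : c' < N)
    (H : Lam K ^ N * w = C g * α + C h * β + C (X 0) * r) {π : MvPolynomial (Fin 3) K}
    (hπ : Prime π) (hπ0 : pderiv 0 π ≠ 0)
    (hD : ∀ x : Fin 3 → K, x 0 = 0 → ∀ j k, π ∣ evx x (cr α β j) * pderiv k π -
      evx x (cr α β k) * pderiv j π) :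
    ∀ x : Fin 3 → K, x 0 = 0 → π ∣ evx x w := by
  intro x hx
  apply dvd_of_vanish hπ
  intro l hl
  refine line_rigid hw hα hβ hb hc H (Z := {l | eval l π = 0}) ?_ ?_ x hx l hl
  · intro F₁ F₂ hF₁ hF₁0 hF₂
    by_contra hcon
    push Not at hcon
    have h1 : π ∣ F₁ * F₂ := by
      apply dvd_of_vanish hπ
      intro l hl
      rw [map_mul]
      by_cases h0 : eval l F₁ = 0
      · rw [h0, zero_mul]
      · rw [hcon l hl h0, mul_zero]
    rcases hπ.dvd_or_dvd h1 with h2 | h2
    · exact not_dvd_of_pderiv_zero hπ hπ0 hF₁ hF₁0 h2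
    · obtain ⟨l, hl, hl'⟩ := hF₂
      obtain ⟨q, rfl⟩ := h2
      apply hl'
      rw [map_mul, show eval l π = 0 from hl, zero_mul]
  · intro y hy l hl l' hl'
    have hl0 : eval l π = 0 := hl
    have hl0' : eval l' π = 0 := hl'
    have hD' : ∀ j k, π ∣ (evx y β * pderiv j (evx y α) - evx y α * pderiv j (evx y β)) *
        pderiv k π - (evx y β * pderiv k (evx y α) - evx y α * pderiv k (evx y β)) *
        pderiv j π := by
      intro j k
      have h1 := hD y hy j k
      unfold cr at h1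
      simp only [map_sub, map_mul, evx_pderiv] at h1
      exact h1
    by_cases ha : π ∣ evx y α
    · by_cases hb' : π ∣ evx y β
      · obtain ⟨u, hu⟩ := ha
        obtain ⟨v, hv⟩ := hb'
        rw [hu, hv]
        simp only [map_mul, hl0, hl0', zero_mul]
      · obtain ⟨c, q, hq⟩ := constancy (α := evx y β) (β := evx y α) hπ hb' (by
          intro j k
          obtain ⟨q, hq⟩ := hD' j k
          exact ⟨-q, by linear_combination -hq⟩)
        have e1 := congrArg (eval l) hq
        have e2 := congrArg (eval l') hq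
        simp only [map_sub, map_mul, eval_C, hl0, hl0', zero_mul] at e1 e2
        linear_combination eval l' (evx y β) * e1 - eval l (evx y β) * e2
    · obtain ⟨c, q, hq⟩ := constancy (α := evx y α) (β := evx y β) hπ ha hD'
      have e1 := congrArg (eval l) hq
      have e2 := congrArg (eval l') hq
      simp only [map_sub, map_mul, eval_C, hl0, hl0', zero_mul] at e1 e2
      linear_combination eval l (evx y α) * e2 - eval l' (evx y α) * e1

end Pool.Agent.H11.SLP
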