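import Pool.Agent.H11.SLP.Point
import Pool.Agent.H11.SLP.Tors

/-!
Rigidity on a line (job CUBIC2-J1).
-/

set_option autoImplicit false

open MvPolynomial

namespace Pool.Agent.H11.SLP

open Pool.Agent.H4.Apolar

namespace LineRigid

variable {K : Type*} [Field K]

lemma evl_homog {i : ℕ} {w : PP K} (hw : XH i w) (l : Fin 3 → K) :
    (evl l w).IsHomogeneous i := by
  unfold evl
  rw [eval_eq]
  apply IsHomogeneous.sum
  intro d _
  have h1 : (∏ k ∈ d.support, (C (l k) : MvPolynomial (Fin 3) K) ^ d k).IsHomogeneous 0 := by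
    have : (∏ k ∈ d.support, (C (l k) : MvPolynomial (Fin 3) K) ^ d k)
        = C (∏ k ∈ d.support, l k ^ d k) := by
      rw [map_prod]; simp
    rw [this]
    exact isHomogeneous_C _ _
  have := (hw d).mul h1
  rwa [add_zero] at this

lemma eval_scale {i : ℕ} {p : MvPolynomial (Fin 3) K} (hp : p.IsHomogeneous i) (c : K)
    (y : Fin 3 → K) : eval (fun k => c * y k) p = c ^ i * eval y p := by
  rw [eval_eq, eval_eq, Finset.mul_sum]
  apply Finset.sum_congr rfl
  intro d hd
  have h1 := hp.degree_eq_sum_deg_support hd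
  have h2 : ∏ k ∈ d.support, (c * y k) ^ d k
      = (∏ k ∈ d.support, c ^ d k) * ∏ k ∈ d.support, y k ^ d k := by
    rw [← Finset.prod_mul_distrib]
    apply Finset.prod_congr rfl
    intro k _
    rw [mul_pow]
  rw [h2, Finset.prod_pow_eq_pow_sum, ← h1]
  ring

/-- restriction to a line -/
noncomputable def ps (a x : Fin 3 → K) : MvPolynomial (Fin 3) K →+* Polynomial K :=
  (aeval (R := K) (fun k => Polynomial.C (a k) + Polynomial.C (x k) * Polynomial.X)).toRingHom

lemma eval_ps (a x : Fin 3 → K) (s : K) (p : MvPolynomial (Fin 3) K) :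
    (ps a x p).eval s = eval (fun k => a k + x k * s) p := by
  have : (Polynomial.evalRingHom s).comp (ps a x) = eval (fun k => a k + x k * s) := by
    apply MvPolynomial.ringHom_ext
    · intro c
      simp [ps]
    · intro k
      simp [ps]
  exact RingHom.congr_fun this p

lemma ps_X (a x : Fin 3 → K) (k : Fin 3) :
    ps a x (X k) = Polynomial.C (a k) + Polynomial.C (x k) * Polynomial.X := by
  simp [ps]

lemma ps_C (a x : Fin 3 → K) (c : K) : ps a x (C c) = Polynomial.C c := by
  simp [ps]

lemma ps_lin (a x l : Fin 3 → K) :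
    ps a x (lin l) = Polynomial.C (∑ k, l k * a k)
      + Polynomial.C (∑ k, l k * x k) * Polynomial.X := by
  unfold lin
  simp only [map_sum, map_mul, ps_X, ps_C, Finset.sum_mul]
  rw [← Finset.sum_add_distrib]
  apply Finset.sum_congr rfl
  intro k _
  ring

lemma ps_natDegree_le (a x : Fin 3 → K) {d : ℕ} {p : MvPolynomial (Fin 3) K}
    (hp : p.IsHomogeneous d) : (ps a x p).natDegree ≤ d := by
  have h := aeval_natDegree_le p hp.totalDegree_le
    (fun k => Polynomial.C (a k) + Polynomial.C (x k) * Polynomial.X) (n := 1) (by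
      intro k
      rw [add_comm]
      exact Polynomial.natDegree_linear_le)
  rw [mul_one] at h
  exact h

/-- if a form vanishes on the line it vanishes at the direction -/
lemma eval_dir [Infinite K] (a x : Fin 3 → K) {i : ℕ} {p : MvPolynomial (Fin 3) K}
    (hp : p.IsHomogeneous i) (h : ps a x p = 0) : eval x p = 0 := by
  have h1 : ps x a p = 0 := by
    apply Polynomial.eq_zero_of_infinite_isRoot
    apply Set.Infinite.mono _ (Set.Infinite.sdiff (Set.infinite_univ (α := K))
      (Set.finite_singleton (0 : K)))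
    rintro u ⟨-, hu⟩
    have hu : u ≠ 0 := hu
    show (ps x a p).eval u = 0
    rw [eval_ps]
    have h2 : (fun k => x k + a k * u) = fun k => u * (a k + x k * u⁻¹) := by
      ext k
      field_simp
      ring
    rw [h2, eval_scale hp u (fun k => a k + x k * u⁻¹), ← eval_ps, h, Polynomial.eval_zero,
      mul_zero]
  have h2 := eval_ps x a 0 p
  rw [h1, Polynomial.eval_zero] at h2
  rw [h2]
  congr 1
  simp

lemma eval_rot (G : MvPolynomial (Fin 3) K) (l : Fin 3 → K) :
    eval l (aeval (R := K) (![0, X 2, -X 1] : Fin 3 → MvPolynomial (Fin 3) K) G)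
      = eval ![0, l 2, -l 1] G := by
  have : (eval l).comp (aeval (R := K)
      (![0, X 2, -X 1] : Fin 3 → MvPolynomial (Fin 3) K)).toRingHom = eval ![0, l 2, -l 1] := by
    apply MvPolynomial.ringHom_ext
    · intro c
      simp
    · intro k
      fin_cases k <;> simp
  exact RingHom.congr_fun this G

lemma pderiv_rot (G : MvPolynomial (Fin 3) K) :
    pderiv 0 (aeval (R := K) (![0, X 2, -X 1] : Fin 3 → MvPolynomial (Fin 3) K) G) = 0 := by
  induction G using MvPolynomial.induction_on with
  | C c => rw [aeval_C]; exact pderiv_C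
  | add p q hp hq => rw [map_add, map_add, hp, hq, add_zero]
  | mul_X p k hp =>
    rw [map_mul, Derivation.leibniz, hp, aeval_X, smul_zero, add_zero]
    have : pderiv 0 ((![0, X 2, -X 1] : Fin 3 → MvPolynomial (Fin 3) K) k) = 0 := by
      fin_cases k
      · simp
      · simp [pderiv_X]
      · simp [pderiv_X]
    rw [this, smul_zero]

end LineRigid

open LineRigid

variable {K : Type*} [Field K]

/-- J1 -/
theorem line_rigid [CharZero K] [IsAlgClosed K] {g h : MvPolynomial (Fin 3) K} {w α β r : PP K}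
    {i b' c' N : ℕ} (hw : XH i w) (hα : XH c' α) (hβ : XH b' β) (hb : b' < N) (hc : c' < N)
    (H : Lam K ^ N * w = C g * α + C h * β + C (X 0) * r) {Z : Set (Fin 3 → K)}
    (hZ : ∀ F₁ F₂ : MvPolynomial (Fin 3) K, F₁ ≠ 0 → pderiv 0 F₁ = 0 →
      (∃ l ∈ Z, eval l F₂ ≠ 0) → ∃ l ∈ Z, eval l F₁ ≠ 0 ∧ eval l F₂ ≠ 0)
    (hcr : ∀ x : Fin 3 → K, x 0 = 0 → ∀ l ∈ Z, ∀ l' ∈ Z,
      eval l (evx x α) * eval l' (evx x β) = eval l' (evx x α) * eval l (evx x β)) :
    ∀ x : Fin 3 → K, x 0 = 0 → ∀ l ∈ Z, eval l (evx x w) = 0 := by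
  by_contra hcon
  push Not at hcon
  -- a nonzero point
  obtain ⟨x, hx0, hxne, hw1⟩ : ∃ x : Fin 3 → K, x 0 = 0 ∧ x ≠ 0 ∧
      ∃ l ∈ Z, eval l (evx x w) ≠ 0 := by
    obtain ⟨x, hx0, l, hl, hwl⟩ := hcon
    by_cases hx : x = 0
    · subst hx
      refine ⟨![0, 1, 0], rfl, ?_, l, hl, ?_⟩
      · intro h0
        have := congrFun h0 1
        simp at this
      · rw [eval_evx] at hwl ⊢
        have hh := evl_homog hw l
        rcases Nat.eq_zero_or_pos i with hi | hi
        · subst hi
          rw [totalDegree_eq_zero_iff_eq_C.1 (Nat.le_zero.1 hh.totalDegree_le), eval_C] at hwl ⊢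
          exact hwl
        · exfalso
          apply hwl
          have := eval_scale hh 0 (0 : Fin 3 → K)
          rw [zero_pow hi.ne', zero_mul] at this
          rw [← this]
          congr 1
          simp
    · exact ⟨x, hx0, hx, l, hl, hwl⟩
  have hlin : lin x ≠ 0 := lin_ne_zero hxne
  have hlinx : pderiv 0 (lin x) = 0 := by
    unfold lin
    rw [Fin.sum_univ_three, hx0]
    simp [pderiv_X]
  obtain ⟨l', hl', h1, h2⟩ := hZ (lin x) (evx x w) hlin hlinx hw1
  set G : MvPolynomial (Fin 3) K := lin l' ^ N * evl l' w with hG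
  have hGx : eval x G ≠ 0 := by
    rw [hG, map_mul, map_pow, eval_lin_comm, ← eval_evx]
    exact mul_ne_zero (pow_ne_zero _ h1) h2
  set F : MvPolynomial (Fin 3) K :=
    aeval (R := K) (![0, X 2, -X 1] : Fin 3 → MvPolynomial (Fin 3) K) G * lin x with hF
  have hF0 : F ≠ 0 := by
    apply mul_ne_zero _ hlin
    intro h0
    have h3 := eval_rot G ![0, -x 2, x 1]
    rw [h0, map_zero] at h3
    have hxe : (![0, (![0, -x 2, x 1] : Fin 3 → K) 2, -(![0, -x 2, x 1] : Fin 3 → K) 1]
        : Fin 3 → K) = x := by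
      ext k
      fin_cases k
      · exact hx0.symm
      · simp
      · simp
    rw [hxe] at h3
    exact hGx h3.symm
  have hFd : pderiv 0 F = 0 := by
    rw [hF, Derivation.leibniz, hlinx, pderiv_rot, smul_zero, smul_zero, add_zero]
  obtain ⟨l, hl, h3, h4⟩ := hZ F (evx x w) hF0 hFd hw1
  rw [hF, map_mul] at h3
  have hGl : eval ![0, l 2, -l 1] G ≠ 0 := by
    rw [← eval_rot]; exact left_ne_zero_of_mul h3
  have hτ : eval l (lin x) ≠ 0 := right_ne_zero_of_mul h3
  set a : Fin 3 → K := ![0, l 2, -l 1] with ha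
  have : Infinite K := inferInstance
  -- identities on the line
  have hX0 : ps a x (X 0) = 0 := by
    rw [ps_X, hx0, ha]; simp
  have hid : ∀ m : Fin 3 → K, ps a x (lin m) ^ N * ps a x (evl m w)
      = ps a x g * ps a x (evl m α) + ps a x h * ps a x (evl m β) := by
    intro m
    have h5 := congrArg (fun u => ps a x (evl m u)) H
    simp only [map_mul, map_pow, map_add, evl_Lam, evl_C, hX0, zero_mul, add_zero] at h5
    exact h5
  have hcr' : ps a x (evl l α) * ps a x (evl l' β) = ps a x (evl l' α) * ps a x (evl l β) := by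
    apply Polynomial.funext
    intro s
    rw [Polynomial.eval_mul, Polynomial.eval_mul, eval_ps, eval_ps, eval_ps, eval_ps,
      ← eval_evx, ← eval_evx, ← eval_evx, ← eval_evx]
    exact hcr _ (by simp [ha, hx0]) l hl l' hl'
  have hll : ps a x (lin l) = Polynomial.C (eval l (lin x)) * Polynomial.X := by
    rw [ps_lin, eval_lin]
    have h6 : ∑ k, l k * a k = 0 := by
      rw [Fin.sum_univ_three, ha]; simp; ring
    rw [h6, map_zero, zero_add]
    congr 2
    apply Finset.sum_congr rfl
    intro k _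
    ring
  have hGps : ps a x G = ps a x g * ps a x (evl l' α) + ps a x h * ps a x (evl l' β) := by
    rw [hG, map_mul, map_pow]; exact hid l'
  have hG0 : (ps a x G).coeff 0 ≠ 0 := by
    rw [Polynomial.coeff_zero_eq_eval_zero, eval_ps]
    have : (fun k => a k + x k * 0) = a := by ext k; ring
    rw [this]; exact hGl
  have hGX : ¬ Polynomial.X ∣ ps a x G := by
    rw [Polynomial.X_dvd_iff]; exact hG0
  have hkill : ∀ {e : ℕ} {u : PP K}, XH e u → e < N →
      (ps a x (lin l) ^ N * ps a x (evl l w)) * ps a x (evl l' u)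
        = ps a x (evl l u) * ps a x G → ps a x (evl l u) = 0 := by
    intro e u hu he heq
    have h7 : Polynomial.X ^ N ∣ ps a x (evl l u) * ps a x G := by
      rw [← heq, hll, mul_pow]
      exact Dvd.dvd.mul_right (Dvd.dvd.mul_right (Dvd.intro_left _ rfl) _) _
    have h8 : IsCoprime (Polynomial.X ^ N) (ps a x G) := by
      apply IsCoprime.pow_left
      exact (Polynomial.irreducible_X.coprime_iff_not_dvd).2 hGX
    have h9 : Polynomial.X ^ N ∣ ps a x (evl l u) := h8.dvd_of_dvd_mul_right h7
    by_contra hne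
    have h10 := Polynomial.natDegree_le_of_dvd h9 hne
    rw [Polynomial.natDegree_X_pow] at h10
    have h11 := ps_natDegree_le a x (evl_homog hu l)
    omega
  have hA : ps a x (evl l α) = 0 := by
    apply hkill hα hc
    rw [hid l, hGps]
    linear_combination (ps a x h) * (-hcr')
  have hB : ps a x (evl l β) = 0 := by
    apply hkill hβ hb
    rw [hid l, hGps]
    linear_combination (ps a x g) * hcr'
  have hW : ps a x (evl l w) = 0 := by
    have h12 := hid l
    rw [hA, hB, mul_zero, mul_zero, add_zero, hll] at h12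
    refine (mul_eq_zero.1 h12).resolve_left (pow_ne_zero _ (mul_ne_zero ?_ Polynomial.X_ne_zero))
    rw [Ne, Polynomial.C_eq_zero]
    exact hτ
  apply h4
  rw [eval_evx]
  exact eval_dir a x (evl_homog hw l) hW

end Pool.Agent.H11.SLP
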