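import Pool.Agent.H11.SLP.Point

/-!
A general point of a plane curve does not lie on a fixed dual curve (job CUBIC2-J10).
-/

set_option autoImplicit false

open MvPolynomial

namespace Pool.Agent.H11.SLP

open Pool.Agent.H4.Apolar

variable {K : Type*} [Field K]

/-- the cross product of two vectors -/
def crs (x y : Fin 3 → K) : Fin 3 → K :=
  ![x 1 * y 2 - x 2 * y 1, x 2 * y 0 - x 0 * y 2, x 0 * y 1 - x 1 * y 0]

lemma exists_crs {x l : Fin 3 → K} (hx : x ≠ 0) (h : l 0 * x 0 + l 1 * x 1 + l 2 * x 2 = 0) :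
    ∃ y, crs x y = l := by
  obtain ⟨k, hk⟩ := Function.ne_iff.1 hx
  rw [Pi.zero_apply] at hk
  fin_cases k
  · simp only [Fin.zero_eta] at hk
    refine ⟨![0, l 2 / x 0, -l 1 / x 0], ?_⟩
    ext i
    fin_cases i
    · simp [crs]; field_simp; linear_combination -h
    · simp [crs]; field_simp
    · simp [crs]; field_simp
  · simp only [Fin.mk_one] at hk
    refine ⟨![-l 2 / x 1, 0, l 0 / x 1], ?_⟩
    ext i
    fin_cases i
    · simp [crs]; field_simp
    · simp [crs]; field_simp; linear_combination -h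
    · simp [crs]; field_simp
  · simp only [Fin.reduceFinMk] at hk
    refine ⟨![l 1 / x 2, -l 0 / x 2, 0], ?_⟩
    ext i
    fin_cases i
    · simp [crs]; field_simp
    · simp [crs]; field_simp
    · simp [crs]; field_simp; linear_combination -h

lemma exists_eval_ne_zero_of_ne [Infinite K] {P : MvPolynomial (Fin 3) K} (hP : P ≠ 0) :
    ∃ l : Fin 3 → K, eval l P ≠ 0 := by
  by_contra hcon
  push Not at hcon
  exact hP (MvPolynomial.funext fun x => by rw [hcon x, map_zero])

theorem exists_not_lin_dvd [IsAlgClosed K] {φ P : MvPolynomial (Fin 3) K} {d : ℕ}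
    (hφ : Prime φ) (hφh : φ.IsHomogeneous d) (hd : 1 ≤ d) (hP : P ≠ 0) :
    ∃ F, ¬ φ ∣ F ∧ ∀ x : Fin 3 → K, eval x F ≠ 0 → ¬ lin x ∣ P := by
  obtain ⟨l, hl⟩ := exists_eval_ne_zero_of_ne hP
  obtain ⟨x₀, hx0, hx⟩ := Pool.Agent.H6.exists_ne_zero_common_zero
    (H := ![φ, lin l]) (by
      intro j
      fin_cases j
      · exact Pool.Agent.H22.SLP.eval_zero_of_isHomogeneous hφh hd
      · exact Pool.Agent.H22.SLP.eval_zero_of_isHomogeneous (lin_isHomogeneous l) le_rfl)
    (by simp)
  have h1 : eval x₀ φ = 0 := hx 0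
  have h2 : eval x₀ (lin l) = 0 := hx 1
  rw [eval_lin, Fin.sum_univ_three] at h2
  obtain ⟨y, hy⟩ := exists_crs hx0 h2
  set v : Fin 3 → MvPolynomial (Fin 3) K :=
    ![X 1 * C (y 2) - X 2 * C (y 1), X 2 * C (y 0) - X 0 * C (y 2), X 0 * C (y 1) - X 1 * C (y 0)]
    with hv
  have hev : ∀ x : Fin 3 → K, ∀ p : MvPolynomial (Fin 3) K,
      eval x (aeval v p) = eval (crs x y) p := by
    intro x p
    have : (eval x).comp (aeval v : MvPolynomial (Fin 3) K →ₐ[K] MvPolynomial (Fin 3) K).toRingHom =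
        eval (crs x y) := by
      apply MvPolynomial.ringHom_ext
      · intro a
        simp
      · intro i
        fin_cases i <;> simp [hv, crs]
    exact RingHom.congr_fun this p
  refine ⟨aeval v P, ?_, ?_⟩
  · rintro ⟨r, hr⟩
    have h3 := congrArg (eval x₀) hr
    rw [hev, map_mul, h1, zero_mul, hy] at h3
    exact hl h3
  · rintro x hxF ⟨r, hr⟩
    apply hxF
    rw [hev, hr, map_mul, eval_lin, Fin.sum_univ_three]
    have : x 0 * crs x y 0 + x 1 * crs x y 1 + x 2 * crs x y 2 = 0 := by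
      simp [crs]
      ring
    rw [this, zero_mul]

end Pool.Agent.H11.SLP
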