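import Pool.Agent.H11.SLP.Const
import Pool.Agent.H11.SLP.LemF

/-!
Two lemmas on orders along primes (jobs J6 and J7 of the second cubic programme).
-/

set_option autoImplicit false

open MvPolynomial

namespace Pool.Agent.H11.SLP

namespace Orders

variable {K : Type*} [Field K]

/-- A nonzero polynomial all of whose prime factors are killed by `pderiv 0` is killed too. -/
theorem pderiv_zero_of_primes {A : MvPolynomial (Fin 3) K} (hA : A ≠ 0)
    (h : ∀ π : MvPolynomial (Fin 3) K, Prime π → π ∣ A → pderiv 0 π = 0) : pderiv 0 A = 0 := by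
  induction A using UniqueFactorizationMonoid.induction_on_prime with
  | h₁ => exact absurd rfl hA
  | h₂ x hx =>
    obtain ⟨r, -, hr⟩ := MvPolynomial.isUnit_iff_eq_C_of_isReduced.1 hx
    rw [hr, pderiv_C]
  | h₃ a p ha hp ih =>
    rw [(pderiv 0).leibniz, ih ha fun π h1 h2 => h π h1 (h2.mul_left _),
      h p hp (Dvd.intro _ rfl), smul_zero, smul_zero, add_zero]

/-- The common step: a prime factor of the reduced part moving in direction `0` is absurd. -/
theorem reduced_aux {G A B : MvPolynomial (Fin 3) K} (hG : G ≠ 0) (hAB : IsRelPrime A B)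
    (h : ∀ π : MvPolynomial (Fin 3) K, Prime π → pderiv 0 π ≠ 0 → ∀ m, π ^ m ∣ G * A →
      π ^ m ∣ G * B) : ∀ π : MvPolynomial (Fin 3) K, Prime π → π ∣ A → pderiv 0 π = 0 := by
  intro π hπ hd
  by_contra h0
  have hB : ¬ π ∣ B := fun hb => hπ.not_isUnit (hAB hd hb)
  have key : ∀ m, π ^ m ∣ G := by
    intro m
    induction m with
    | zero => simp
    | succ m ih =>
      have h1 : π ^ (m + 1) ∣ G * A := by
        rw [pow_succ]
        exact mul_dvd_mul ih hd
      exact hπ.pow_dvd_of_dvd_mul_right _ hB (h π hπ h0 _ h1)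
  obtain ⟨n, hn⟩ := FiniteMultiplicity.of_prime_left hπ hG
  exact hn (key _)

/-- The case `¬ π ∣ a` of `point_order`. -/
theorem point_order_aux [CharZero K] [IsAlgClosed K] {a b π : MvPolynomial (Fin 3) K}
    (hπ : Prime π) (ha : ¬ π ∣ a) {r : ℕ} (hr : 1 ≤ r)
    (h : ∀ k, π ^ r ∣ b * pderiv k a - a * pderiv k b) (j k : Fin 3) :
    π ^ (r + 1) ∣ (b * pderiv j a - a * pderiv j b) * pderiv k π -
      (b * pderiv k a - a * pderiv k b) * pderiv j π := by
  have h1 : ∀ k, π ∣ b * pderiv k a - a * pderiv k b := fun k =>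
    (dvd_pow_self π (by omega)).trans (h k)
  obtain ⟨c, hc⟩ := constancy hπ ha
    (fun j k => dvd_sub ((h1 j).mul_right _) ((h1 k).mul_right _))
  by_cases hz : b - C c * a = 0
  · have hb : b = C c * a := sub_eq_zero.1 hz
    have h2 : ∀ k, b * pderiv k a - a * pderiv k b = 0 := fun k => by
      rw [hb, (pderiv k).leibniz, pderiv_C]
      simp only [smul_eq_mul]
      ring
    rw [h2, h2]
    simp
  · obtain ⟨γ, hγ1, hγ2⟩ :=
      (FiniteMultiplicity.of_prime_left hπ hz).exists_eq_pow_mul_and_not_dvd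
    obtain ⟨n, hn⟩ : ∃ n, multiplicity π (b - C c * a) = n + 1 := by
      rcases Nat.exists_eq_succ_of_ne_zero
        (n := multiplicity π (b - C c * a)) (fun h0 => by
          rw [h0, pow_zero, one_mul] at hγ1
          exact hγ2 (hγ1 ▸ hc)) with ⟨n, hn⟩
      exact ⟨n, hn⟩
    rw [hn] at hγ1
    have hb : b = C c * a + π ^ (n + 1) * γ := by rw [← hγ1]; ring
    have key : ∀ k, b * pderiv k a - a * pderiv k b =
        π ^ n * (π * (γ * pderiv k a - a * pderiv k γ) -
          C ((n : K) + 1) * a * γ * pderiv k π) := fun k => by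
      rw [hb, map_add, (pderiv k).leibniz, (pderiv k).leibniz, (pderiv k).leibniz_pow, pderiv_C]
      simp only [smul_eq_mul, nsmul_eq_mul, Nat.add_sub_cancel, Nat.cast_add, Nat.cast_one,
        map_add, map_one, map_natCast]
      ring
    obtain ⟨k0, hk0⟩ := LemF.exists_not_dvd_pderiv hπ
    have hrn : r ≤ n := by
      by_contra hcon
      push Not at hcon
      have h3 : π ^ (n + 1) ∣ π ^ n * (π * (γ * pderiv k0 a - a * pderiv k0 γ) -
          C ((n : K) + 1) * a * γ * pderiv k0 π) := by
        rw [← key]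
        exact (pow_dvd_pow π hcon).trans (h k0)
      rw [pow_succ, mul_dvd_mul_iff_left (pow_ne_zero _ hπ.ne_zero)] at h3
      have h4 : π ∣ C ((n : K) + 1) * a * γ * pderiv k0 π := by
        have := dvd_sub (Dvd.intro (γ * pderiv k0 a - a * pderiv k0 γ) rfl) h3
        rwa [sub_sub_cancel] at this
      rcases hπ.dvd_or_dvd h4 with h5 | h5
      · rcases hπ.dvd_or_dvd h5 with h6 | h6
        · rcases hπ.dvd_or_dvd h6 with h7 | h7
          · refine hπ.not_isUnit (isUnit_of_dvd_unit h7 ?_)
            exact (isUnit_iff_ne_zero.2 (by exact_mod_cast Nat.succ_ne_zero n)).map C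
          · exact ha h7
        · exact hγ2 h6
      · exact hk0 h5
    have h6 : (b * pderiv j a - a * pderiv j b) * pderiv k π -
        (b * pderiv k a - a * pderiv k b) * pderiv j π = π ^ (n + 1) *
          ((γ * pderiv j a - a * pderiv j γ) * pderiv k π -
            (γ * pderiv k a - a * pderiv k γ) * pderiv j π) := by
      rw [key j, key k]
      ring
    rw [h6]
    exact (pow_dvd_pow π (by omega)).mul_right _

end Orders

variable {K : Type*} [Field K]

/-- J6 -/
theorem cross_of_orders [CharZero K] {A B : MvPolynomial (Fin 3) K} (hA : A ≠ 0) (hB : B ≠ 0)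
    (h : ∀ π : MvPolynomial (Fin 3) K, Prime π → pderiv 0 π ≠ 0 → ∀ m, π ^ m ∣ A ↔ π ^ m ∣ B) :
    B * pderiv 0 A = A * pderiv 0 B := by
  obtain ⟨A', B', G, hrel, hA', hB'⟩ := UniqueFactorizationMonoid.exists_reduced_factors' A B hB
  subst hA'
  subst hB'
  have hG : G ≠ 0 := left_ne_zero_of_mul hA
  have h1 : pderiv 0 A' = 0 := Orders.pderiv_zero_of_primes (right_ne_zero_of_mul hA)
    (Orders.reduced_aux hG hrel fun π hπ h0 m hm => (h π hπ h0 m).1 hm)
  have h2 : pderiv 0 B' = 0 := Orders.pderiv_zero_of_primes (right_ne_zero_of_mul hB)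
    (Orders.reduced_aux hG hrel.symm fun π hπ h0 m hm => (h π hπ h0 m).2 hm)
  rw [(pderiv 0).leibniz, (pderiv 0).leibniz, h1, h2]
  simp only [smul_eq_mul, mul_zero, zero_add]
  ring

/-- J7 -/
theorem point_order [CharZero K] [IsAlgClosed K] {a b π : MvPolynomial (Fin 3) K} (hπ : Prime π)
    (hab : ¬ (π ∣ a ∧ π ∣ b)) {r : ℕ} (hr : 1 ≤ r) (h : ∀ k, π ^ r ∣ b * pderiv k a - a * pderiv k b) (j k : Fin 3) :
    π ^ (r + 1) ∣ (b * pderiv j a - a * pderiv j b) * pderiv k π -
      (b * pderiv k a - a * pderiv k b) * pderiv j π := by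
  by_cases ha : π ∣ a
  · have hb : ¬ π ∣ b := fun hb => hab ⟨ha, hb⟩
    have h1 := Orders.point_order_aux (a := b) (b := a) hπ hb hr (fun k => by
      have := h k
      rw [← dvd_neg] at this
      convert this using 1
      ring) j k
    rw [← dvd_neg] at h1
    convert h1 using 1
    ring
  · exact Orders.point_order_aux hπ ha hr h j k

end Pool.Agent.H11.SLP
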