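import Pool.Agent.H11.SLP.Iface

/-!
Complete intersections with a quadratic generator, and colon ideals (jobs CUBIC2-J11 and J13).
-/

set_option autoImplicit false

open MvPolynomial

namespace Pool.Agent.H11.SLP

open Pool.Agent.H4.Apolar Pool.Agent.H4.Descent Pool.Agent.H4.Ternary

variable {K : Type*} [Field K]

section quad

open Pool.Agent.H4.Conic Pool.Agent.H22.SLP

/-- The quadric theorem with the finiteness stated by degrees. -/
theorem conic_main [CharZero K] {f : Fin 3 → MvPolynomial (Fin 3) K}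
    (hf : ∀ j, ∃ d : ℕ, 1 ≤ d ∧ (f j).IsHomogeneous d)
    (hq : ∃ j, f j ≠ 0 ∧ (f j).IsHomogeneous 2) {J : ℕ}
    (hJ : ∀ p ∈ RT 3 K (J + 1), p ∈ Ideal.span (Set.range f)) :
    HasSLP (Ideal.span (Set.range f)) := by
  choose d hd hfd using hf
  obtain ⟨j, hj0, hj⟩ := hq
  apply descent (L := AlgebraicClosure K) hJ
  have hJ' := RT_map (L := AlgebraicClosure K) hJ
  set φ := (map (algebraMap K (AlgebraicClosure K)) :
    MvPolynomial (Fin 3) K →+* MvPolynomial (Fin 3) (AlgebraicClosure K)) with hφ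
  have hr := range_three (fun i => φ (f i)) j
  rw [← hr] at hJ' ⊢
  refine closed_case (hj.map _) ?_ ((hfd _).map _) ((hfd _).map _) (hd _) hJ'
  intro h0
  apply hj0
  exact map_injective _ (algebraMap K (AlgebraicClosure K)).injective (by rw [h0, map_zero])

end quad

/-- Smaller powers. -/
lemma GI.mono {J : Ideal (MvPolynomial (Fin 3) K)} {i k k' : ℕ} (h : GI J i k') (hk : k ≤ k') :
    GI J i k := by
  intro w hw hwI
  apply h w hw
  obtain ⟨j, rfl⟩ := Nat.exists_eq_add_of_le' hk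
  have h1 : Lam K ^ (j + k) * w = Lam K ^ j * (Lam K ^ k * w) := by ring
  rw [h1, inC_iff_map]
  exact Ideal.mul_mem_left _ _ (inC_iff_map.1 hwI)

open Pool.Agent.H4.Conic Pool.Agent.H22.SLP in
/-- J11 -/
theorem quad_gi [CharZero K] {q g h : MvPolynomial (Fin 3) K} {b c i k : ℕ}
    (hq : q.IsHomogeneous 2) (hq0 : q ≠ 0) (hg : g.IsHomogeneous b) (hh : h.IsHomogeneous c)
    (hb : 2 ≤ b) (hc : 2 ≤ c)
    (hJ : ∃ J, ∀ p ∈ RT 3 K (J + 1), p ∈ Ideal.span (Set.range ![q, g, h]))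
    (hk : 2 * i + k + 1 ≤ b + c) : GI (Ideal.span (Set.range ![q, g, h])) i k := by
  have H : CI q g h 2 b c := ⟨hq, hg, hh, by omega, hb, hc, hJ⟩
  have hrange : (fun j => map (algebraMap K (FL K)) (![q, g, h] j)) = ![mp q, mp g, mp h] :=
    range_mp
  have hL : Lef (I3 q g h) (2 + b + c - 3) :=
    ⟨fun m hm p hp hX => H.soc hm hp hX, H.dim_one, fun m hm p hp => H.vanish hm hp⟩
  obtain ⟨J, hJ⟩ := hJ
  have hsoc : ∀ w₀ : MvPolynomial (Fin 3) K, w₀.IsHomogeneous i →
      (∀ cs : List (Fin 3), cs.length = 2 + b + c - 3 - i →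
        mx K cs * w₀ ∈ Ideal.span (Set.range ![q, g, h])) →
      w₀ ∈ Ideal.span (Set.range ![q, g, h]) := by
    intro w₀ hw₀ hcs
    have h1 : mp w₀ ∈ I3 q g h := by
      apply hL.descend (hw₀.map _) (2 + b + c - 3 - i) (by omega)
      intro q' hq'
      apply forms_mem (n := 2 + b + c - 3 - i) _ hq'
      intro cs hcs'
      have h2 := hcs cs hcs'
      have h3 := mem_map_span (L := FL K) h2
      rw [hrange, map_mul] at h3
      have h4 : map (algebraMap K (FL K)) (mx K cs) = mx (FL K) cs := by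
        unfold mx
        rw [map_list_prod, List.map_map]
        congr 1
        apply List.map_congr_left
        intro k _
        simp
      rw [h4] at h3
      exact h3
    obtain ⟨θ, hθ⟩ := exists_theta (K := K) (L := FL K)
    have h5 := th_mem (f := ![q, g, h]) (p := mp w₀) θ (by rw [hrange]; exact h1)
    unfold mp at h5
    rwa [th_map hθ] at h5
  obtain ⟨ℓ, hℓ, hslp⟩ := conic_main (f := ![q, g, h]) (J := J) (by
    intro j
    fin_cases j
    · exact ⟨2, by omega, hq⟩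
    · exact ⟨b, by omega, hg⟩
    · exact ⟨c, by omega, hh⟩) ⟨0, hq0, hq⟩ hJ
  have key : ∀ g' ∈ homogeneousSubmodule (Fin 3) K i,
      ℓ ^ (2 + b + c - 3 - 2 * i) * g' ∈ Ideal.span (Set.range ![q, g, h]) →
      g' ∈ Ideal.span (Set.range ![q, g, h]) := by
    rcases hslp i (2 + b + c - 3 - 2 * i) with h1 | h1
    · exact h1
    · intro g' hg' hgI
      apply hsoc g' ((mem_homogeneousSubmodule _ _).1 hg')
      intro cs hcs
      obtain ⟨z, hz, hzI⟩ := h1 (mx K cs) (by
        rw [mem_homogeneousSubmodule]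
        have h2 := mx_isHomogeneous (L := K) cs
        rwa [hcs, show 2 + b + c - 3 - i = i + (2 + b + c - 3 - 2 * i) by omega] at h2)
      have h3 : mx K cs * g' = (mx K cs - ℓ ^ (2 + b + c - 3 - 2 * i) * z) * g' +
          z * (ℓ ^ (2 + b + c - 3 - 2 * i) * g') := by ring
      rw [h3]
      exact Ideal.add_mem _ (Ideal.mul_mem_right _ _ hzI) (Ideal.mul_mem_left _ _ hgI)
  exact (gi_of_inj hℓ key).mono (by omega)

/-- J13 -/
theorem colon_mem [CharZero K] {L q g h : MvPolynomial (Fin 3) K} {a b c d : ℕ}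
    (hL : L.IsHomogeneous a) (ha : 1 ≤ a) (hL0 : L ≠ 0) (hg : g.IsHomogeneous b)
    (hh : h.IsHomogeneous c) (hb : 1 ≤ b) (hc : 1 ≤ c)
    (hJ : ∃ J, ∀ p ∈ RT 3 K (J + 1), p ∈ Ideal.span (Set.range ![L * q, g, h]))
    {p : MvPolynomial (Fin 3) K} (hp : L * p ∈ Ideal.span (Set.range ![L * q, g, h])) :
    p ∈ Ideal.span (Set.range ![q, g, h]) := by
  obtain ⟨J, hJ⟩ := hJ
  have hexp : ∀ {f' p : MvPolynomial (Fin 3) K}, p ∈ Ideal.span (Set.range ![f', g, h]) →
      ∃ c : Fin 3 → MvPolynomial (Fin 3) K, p = c 0 * f' + c 1 * g + c 2 * h := by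
    intro f' p hp
    rw [Ideal.span, Submodule.mem_span_range_iff_exists_fun] at hp
    obtain ⟨c, hc⟩ := hp
    refine ⟨c, ?_⟩
    rw [← hc, Fin.sum_univ_three]
    rfl
  have hrel : IsRelPrime g h := by
    apply Pool.Agent.H22.SLP.relPrime_of_cofinite hg hh hL hc ha (J := J)
    intro p hp
    obtain ⟨c, hc⟩ := hexp (hJ p hp)
    rw [hc]
    apply Ideal.add_mem
    · apply Ideal.add_mem
      · rw [show c 0 * (L * q) = c 0 * q * L by ring]
        exact Ideal.mul_mem_left _ _ (Ideal.subset_span ⟨2, rfl⟩)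
      · exact Ideal.mul_mem_left _ _ (Ideal.subset_span ⟨0, rfl⟩)
    · exact Ideal.mul_mem_left _ _ (Ideal.subset_span ⟨1, rfl⟩)
  have hh0 : h ≠ 0 := Pool.Agent.H22.SLP.ne_zero_of_relPrime hg hb hrel
  obtain ⟨c, hc⟩ := hexp hp
  have hmem : p - c 0 * q ∈ Ideal.span (Set.range ![g, h]) := by
    apply Pool.Agent.H22.SLP.depth_pow
      (fun e he => Pool.Agent.H22.SLP.depth hrel hh0 he) J (p - c 0 * q)
    intro cs hcs
    obtain ⟨c', hc'⟩ := hexp (hJ (Pool.Agent.H22.SLP.mx K cs) (mem_RT_succ.2 (by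
      rw [← hcs]; exact Pool.Agent.H22.SLP.mx_isHomogeneous cs)))
    rw [Pool.Agent.H22.SLP.mem_pair]
    refine ⟨c' 0 * q * c 1 + c' 1 * (p - c 0 * q), c' 0 * q * c 2 + c' 2 * (p - c 0 * q), ?_⟩
    rw [hc']
    linear_combination c' 0 * q * hc
  obtain ⟨u, v, huv⟩ := Pool.Agent.H22.SLP.mem_pair.1 hmem
  have h1 : p = c 0 * q + u * g + v * h := by linear_combination huv
  rw [h1]
  apply Ideal.add_mem
  · apply Ideal.add_mem
    · exact Ideal.mul_mem_left _ _ (Ideal.subset_span ⟨0, rfl⟩)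
    · exact Ideal.mul_mem_left _ _ (Ideal.subset_span ⟨1, rfl⟩)
  · exact Ideal.mul_mem_left _ _ (Ideal.subset_span ⟨2, rfl⟩)

end Pool.Agent.H11.SLP
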