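import Pool.Agent.H4.ConicMain

/-!
A nonzero linear form becomes a variable after an invertible linear change of coordinates.
-/

open MvPolynomial

namespace Pool.Agent.H11.SLP

open Pool.Agent.H4.Apolar Pool.Agent.H4.Linear Pool.Agent.H4.Descent

theorem exists_sb_X0 {K : Type*} [Field K] {L : MvPolynomial (Fin 3) K}
    (hL : L.IsHomogeneous 1) (hL0 : L ≠ 0) :
    ∃ A B : Matrix (Fin 3) (Fin 3) K, A * B = 1 ∧ B * A = 1 ∧ sb A L = X 0 := by
  obtain ⟨c, rfl⟩ := eq_lin hL
  have hc : ∃ B : Matrix (Fin 3) (Fin 3) K, B.det ≠ 0 ∧ ∀ k, B 0 k = c k := by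
    by_cases h0 : c 0 = 0
    · by_cases h1 : c 1 = 0
      · have h2 : c 2 ≠ 0 := by
          intro h2
          apply hL0
          unfold lin
          rw [Fin.sum_univ_three, h0, h1, h2]
          simp
        refine ⟨!![c 0, c 1, c 2; 1, 0, 0; 0, 1, 0], ?_, ?_⟩
        · rw [Matrix.det_fin_three]
          simpa using h2
        · intro k
          fin_cases k <;> rfl
      · refine ⟨!![c 0, c 1, c 2; 1, 0, 0; 0, 0, 1], ?_, ?_⟩
        · rw [Matrix.det_fin_three]
          simpa using h1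
        · intro k
          fin_cases k <;> rfl
    · refine ⟨!![c 0, c 1, c 2; 0, 1, 0; 0, 0, 1], ?_, ?_⟩
      · rw [Matrix.det_fin_three]
        simpa using h0
      · intro k
        fin_cases k <;> rfl
  obtain ⟨B, hB, hB0⟩ := hc
  have hu : IsUnit B.det := isUnit_iff_ne_zero.2 hB
  refine ⟨B⁻¹, B, Matrix.nonsing_inv_mul B hu, Matrix.mul_nonsing_inv B hu, ?_⟩
  have h1 : ∀ k, ∑ i, c i * B⁻¹ i k = if k = 0 then 1 else 0 := by
    intro k
    have h2 := congrFun (congrFun (Matrix.mul_nonsing_inv B hu) 0) k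
    rw [Matrix.mul_apply, Matrix.one_apply] at h2
    have h3 : ∑ i, c i * B⁻¹ i k = ∑ i, B 0 i * B⁻¹ i k :=
      Finset.sum_congr rfl fun i _ => by rw [hB0 i]
    rw [h3, h2]
    simp only [eq_comm]
  unfold lin
  rw [map_sum]
  simp_rw [map_mul, sb_C, sb_X, Finset.mul_sum]
  rw [Finset.sum_comm]
  have h3 : ∀ k : Fin 3, ∑ i, C (c i) * (C (B⁻¹ i k) * X k) =
      C (if k = 0 then (1 : K) else 0) * X k := by
    intro k
    rw [← h1 k, map_sum, Finset.sum_mul]
    apply Finset.sum_congr rfl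
    intro i _
    rw [C_mul]
    ring
  rw [Finset.sum_congr rfl (fun k _ => h3 k), Fin.sum_univ_three]
  simp

end Pool.Agent.H11.SLP
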