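import Pool.Agent.H11.SLP.NotLin
import Pool.Agent.H11.SLP.Elim
import Pool.Agent.H11.SLP.Kap

/-!
Removing a factor of a reducible curve (job CUBIC2-J4).
-/

set_option autoImplicit false

open MvPolynomial

namespace Pool.Agent.H11.SLP

open Pool.Agent.H4.Apolar

variable {K : Type*} [Field K]

/-- the base case: one prime factor -/
theorem trick_prime [CharZero K] [IsAlgClosed K] {φ P : MvPolynomial (Fin 3) K} {d n : ℕ}
    (hφ : Prime φ) (hφh : φ.IsHomogeneous d) (hd : 1 ≤ d) (hφ0 : ¬ φ ∣ X 0) (hP : P ≠ 0)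
    {w : PP K} (H : C φ ∣ io P * pderiv 0 (Lam K ^ (n + 1) * w) -
      Lam K ^ (n + 1) * w * io (pderiv 0 P)) : C φ ∣ w := by
  by_contra hcon
  rw [C_dvd_iff_dvd_coeff] at hcon
  push Not at hcon
  obtain ⟨m, hm⟩ := hcon
  obtain ⟨F, hF, hFx⟩ := exists_not_lin_dvd hφ hφh hd hP
  obtain ⟨x, hxφ, hx⟩ : ∃ x : Fin 3 → K, eval x φ = 0 ∧ eval x (coeff m w * (F * X 0)) ≠ 0 := by
    by_contra hc
    push Not at hc
    rcases hφ.dvd_or_dvd (dvd_of_vanish hφ hc) with h | h
    · exact hm h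
    rcases hφ.dvd_or_dvd h with h | h
    · exact hF h
    · exact hφ0 h
  rw [map_mul, map_mul, eval_X, mul_ne_zero_iff, mul_ne_zero_iff] at hx
  obtain ⟨hwx, hFx', hx0⟩ := hx
  have hxne : x ≠ 0 := by
    rintro rfl
    exact hx0 rfl
  have hL := prime_lin hxne
  have hLP := hFx x hFx'
  set z := evx x w with hz
  have hz0 : z ≠ 0 := by
    intro h
    apply hwx
    rw [← coeff_evx, ← hz, h, coeff_zero]
  obtain ⟨r, hr⟩ := H
  have h1 : P * pderiv 0 (lin x ^ (n + 1) * z) - lin x ^ (n + 1) * z * pderiv 0 P = 0 := by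
    have h0 := congrArg (evx x) hr
    have e : evx x (Lam K ^ (n + 1) * w) = lin x ^ (n + 1) * z := by
      rw [map_mul, map_pow, evx_Lam]
    rw [map_sub, map_mul (evx x) (io P), evx_io, evx_pderiv, map_mul (evx x) (C φ), evx_C, hxφ,
      C_0, zero_mul, map_mul (evx x) (Lam K ^ (n + 1) * w), evx_io, e] at h0
    exact h0
  -- the order of vanishing along the line
  have hfin := FiniteMultiplicity.of_prime_left hL hz0
  obtain ⟨z', hz', hz''⟩ := hfin.exists_eq_pow_mul_and_not_dvd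
  obtain ⟨M, hM⟩ : ∃ M, lin x ^ (n + 1) * z = lin x ^ (M + 1) * z' :=
    ⟨n + multiplicity (lin x) z, by
      conv_lhs => rw [hz']
      ring⟩
  rw [hM] at h1
  have hd0 : pderiv 0 (lin x) = C (x 0) := by
    unfold lin
    rw [map_sum, Finset.sum_eq_single 0]
    · rw [pderiv_C_mul, pderiv_X_self, mul_one]
    · intro b _ hb
      rw [pderiv_C_mul, pderiv_X_of_ne hb, mul_zero]
    · intro h; exact absurd (Finset.mem_univ _) h
  rw [Derivation.leibniz, Derivation.leibniz_pow, hd0, smul_eq_mul, smul_eq_mul, smul_eq_mul,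
    nsmul_eq_mul, Nat.add_sub_cancel] at h1
  have h2 : lin x ^ M * (C (((M + 1 : ℕ) : K) * x 0) * P * z' +
      lin x * (P * pderiv 0 z' - z' * pderiv 0 P)) = 0 := by
    rw [← h1]
    simp only [map_mul, map_natCast]
    ring
  have h3 := (mul_eq_zero.1 h2).resolve_left (pow_ne_zero _ hL.ne_zero)
  have h4 : lin x ∣ C (((M + 1 : ℕ) : K) * x 0) * (P * z') :=
    ⟨-(P * pderiv 0 z' - z' * pderiv 0 P), by linear_combination h3⟩
  have hu : IsUnit (C (((M + 1 : ℕ) : K) * x 0) : MvPolynomial (Fin 3) K) :=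
    (isUnit_iff_ne_zero.2 (mul_ne_zero (by exact_mod_cast Nat.succ_ne_zero M) hx0)).map C
  rw [hu.dvd_mul_left] at h4
  rcases hL.dvd_or_dvd h4 with h | h
  · exact hLP h
  · exact hz'' h

theorem trick_all [CharZero K] [IsAlgClosed K] {P : MvPolynomial (Fin 3) K} {n : ℕ} (hP : P ≠ 0)
    {q : MvPolynomial (Fin 3) K} {e : ℕ} (hq : q.IsHomogeneous e) (hq0 : ¬ X 0 ∣ q) (hq1 : q ≠ 0)
    {w : PP K} (H : C q ∣ io P * pderiv 0 (Lam K ^ (n + 1) * w) -
      Lam K ^ (n + 1) * w * io (pderiv 0 P)) : C q ∣ w := by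
  induction q using UniqueFactorizationMonoid.induction_on_prime generalizing e w with
  | h₁ => exact absurd rfl hq1
  | h₂ u hu => exact ((hu.map C).dvd)
  | h₃ a φ ha hφ ih =>
    have hφ1 : φ ∣ φ * a := dvd_mul_right _ _
    obtain ⟨d, hφh⟩ := isHomogeneous_of_dvd hq hq1 hφ1
    obtain ⟨d', hah⟩ := isHomogeneous_of_dvd hq hq1 (dvd_mul_left a φ)
    have hd : 1 ≤ d := by
      rcases Nat.eq_zero_or_pos d with h0 | h0
      · exfalso
        apply hφ.not_isUnit
        subst h0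
        have h1 := totalDegree_eq_zero_iff_eq_C.1 (Nat.le_zero.1 hφh.totalDegree_le)
        have h2 : coeff 0 φ ≠ 0 := by
          intro h3
          rw [h3, C_0] at h1
          exact hφ.ne_zero h1
        rw [h1]
        exact (isUnit_iff_ne_zero.2 h2).map C
      · exact h0
    have hφ0 : ¬ φ ∣ X 0 := by
      intro h
      have h1 : Irreducible (X 0 : MvPolynomial (Fin 3) K) := (X_prime (R := K) (i := (0 : Fin 3))).irreducible
      have h2 := (hφ.irreducible.associated_of_dvd h1 h).symm.dvd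
      exact hq0 (h2.trans hφ1)
    have h1 : C φ ∣ w := by
      apply trick_prime hφ hφh hd hφ0 hP (n := n)
      refine dvd_trans ?_ H
      rw [C_mul]
      exact dvd_mul_right _ _
    obtain ⟨w₁, rfl⟩ := h1
    have h2 : io P * pderiv 0 (Lam K ^ (n + 1) * (C φ * w₁)) -
      Lam K ^ (n + 1) * (C φ * w₁) * io (pderiv 0 P) = C φ * (io P *
        pderiv 0 (Lam K ^ (n + 1) * w₁) - Lam K ^ (n + 1) * w₁ * io (pderiv 0 P)) := by
      have h3 : Lam K ^ (n + 1) * (C φ * w₁) = C φ * (Lam K ^ (n + 1) * w₁) := by ring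
      rw [h3, pderiv_C_mul]
      ring
    have hCφ : (C φ : PP K) ≠ 0 := by
      rw [Ne, C_eq_zero]
      exact hφ.ne_zero
    rw [h2, C_mul] at H
    have h4 := (mul_dvd_mul_iff_left hCφ).1 H
    have h5 := ih hah (fun h => hq0 (h.trans (dvd_mul_left a φ))) ha h4
    rw [C_mul]
    exact mul_dvd_mul_left _ h5

theorem trick [CharZero K] [IsAlgClosed K] {q g h : MvPolynomial (Fin 3) K} {e b c i N : ℕ}
    (hq : q.IsHomogeneous e) (hq0 : ¬ X 0 ∣ q) (hq1 : q ≠ 0) (hg : g.IsHomogeneous b)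
    (hh : h.IsHomogeneous c) (hN : 1 ≤ N) (hi : 1 ≤ i) (hib : i < b) (hic : i < c)
    (hcol : ∀ p, X 0 * p ∈ Ideal.span (Set.range ![X 0 * q, g, h]) →
      p ∈ Ideal.span (Set.range ![q, g, h]))
    (hGI : GI (Ideal.span (Set.range ![q, g, h])) i (N - 1)) {w : PP K} (hw : XH i w)
    (HI : InC (Ideal.span (Set.range ![X 0 * q, g, h])) (Lam K ^ N * w))
    {P : MvPolynomial (Fin 3) K} (hP : P ≠ 0) {u : PP K}
    (hPu : io P * pderiv 0 w - w * io (pderiv 0 P) = C (X 0) * u) : ∃ v, w = C q * v := by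
  obtain ⟨n, rfl⟩ : ∃ n, N = n + 1 := ⟨N - 1, by omega⟩
  rw [Nat.add_sub_cancel] at hGI
  have hX0 : (C (X 0) : PP K) ≠ 0 := by
    rw [Ne, C_eq_zero]
    exact (X_prime (R := K) (i := (0 : Fin 3))).ne_zero
  -- degrees
  have hDw : XH i (io P * pderiv 0 w - w * io (pderiv 0 P)) := by
    have h1 := (XH_io P).mul (hw.pderiv 0)
    have h2 := hw.mul (XH_io (pderiv 0 P))
    rw [zero_add] at h1
    rw [add_zero] at h2
    exact h1.sub h2
  have hu : XH (i - 1) u := by
    have h1 := congrArg (hx i) hPu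
    rw [hx_of_XH hDw, hPu, hx_mul (XH_C (isHomogeneous_X K 0)), if_pos hi] at h1
    have h2 := mul_left_cancel₀ hX0 h1
    rw [h2]
    exact XH_hx _ _
  -- the key element
  set y : PP K := Lam K * u + ((n : PP K) + 1) * (io P * w) with hy
  have hyX : XH i y := by
    have h1 := (XH_Lam (K := K)).mul hu
    rw [Nat.add_sub_cancel' hi] at h1
    have h2 := (XH_natCast (K := K) (n + 1)).mul ((XH_io P).mul hw)
    rw [zero_add, zero_add] at h2
    push_cast at h2
    exact h1.add h2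
  have hDZ : io P * pderiv 0 (Lam K ^ (n + 1) * w) - Lam K ^ (n + 1) * w * io (pderiv 0 P) =
      C (X 0) * (Lam K ^ n * y) := by
    rw [Derivation.leibniz, pderiv_Lam_pow, smul_eq_mul, smul_eq_mul, hy]
    linear_combination Lam K ^ (n + 1) * hPu
  have h1 : InC (Ideal.span (Set.range ![X 0 * q, g, h])) (C (X 0) * (Lam K ^ n * y)) := by
    rw [← hDZ]
    have h2 := HI.pderiv 0
    have h3 := (h2.mul_left (io P)).sub (HI.mul_left (io (pderiv 0 P)))
    have h4 : io P * pderiv 0 (Lam K ^ (n + 1) * w) - Lam K ^ (n + 1) * w * io (pderiv 0 P) =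
      io P * pderiv 0 (Lam K ^ (n + 1) * w) - io (pderiv 0 P) * (Lam K ^ (n + 1) * w) := by ring
    rw [h4]
    exact h3
  have h2 : InC (Ideal.span (Set.range ![q, g, h])) (Lam K ^ n * y) := by
    intro m
    apply hcol
    have := h1 m
    rwa [coeff_C_mul] at this
  have h3 := hGI y hyX h2
  obtain ⟨v, hv⟩ : ∃ v, y = C q * v := by
    obtain ⟨a0, a1, a2, ha⟩ := inC_triple h3
    have h4 := congrArg (hx i) ha
    rw [hx_of_XH hyX, hx_add, hx_add, hx_mul (XH_C hg), hx_mul (XH_C hh), if_neg (by omega),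
      if_neg (by omega), add_zero, add_zero, hx_mul (XH_C hq)] at h4
    split_ifs at h4
    · exact ⟨_, h4⟩
    · exact ⟨0, by rw [h4, mul_zero]⟩
  have h5 : C q ∣ w := by
    apply trick_all hP hq hq0 hq1 (n := n)
    rw [hDZ, hv]
    exact ⟨C (X 0) * (Lam K ^ n * v), by ring⟩
  obtain ⟨v', hv'⟩ := h5
  exact ⟨v', hv'⟩

end Pool.Agent.H11.SLP
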