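import Pool.Agent.H11.SLP.Step3
import Pool.Agent.H11.SLP.Ez
import Pool.Agent.H11.SLP.Orders
import Pool.Agent.H11.SLP.Trick
import Pool.Agent.H11.SLP.QuadGi
import Pool.Agent.H11.SLP.SbX0

/-!
The induction step for a cubic with a simple linear factor.
-/

set_option autoImplicit false

open MvPolynomial

namespace Pool.Agent.H11.SLP

open Pool.Agent.H4.Apolar Pool.Agent.H4.Descent Pool.Agent.H4.Ternary

variable {K : Type*} [Field K]

lemma not_dvd_of_pderiv [CharZero K] {π F : MvPolynomial (Fin 3) K} (hπ : Prime π)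
    (hπ0 : pderiv 0 π ≠ 0) (hF : F ≠ 0) (hF0 : pderiv 0 F = 0) : ¬ π ∣ F := by
  intro hd
  obtain ⟨F₁, h4, h5⟩ := (FiniteMultiplicity.of_prime_left hπ hF).exists_eq_pow_mul_and_not_dvd
  set m := multiplicity π F with hm
  have hm1 : m ≠ 0 := by
    intro h0
    rw [h0, pow_zero, one_mul] at h4
    exact h5 (by rw [← h4]; exact hd)
  obtain ⟨m', hm'⟩ : ∃ m', m = m' + 1 := ⟨m - 1, by omega⟩
  rw [hm'] at h4
  have h6 := congrArg (pderiv 0) h4
  rw [hF0, pderiv_mul, pderiv_pow] at h6
  simp only [Nat.add_sub_cancel, Nat.cast_add, Nat.cast_one] at h6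
  have h7 : π ^ m' * (((m' : MvPolynomial (Fin 3) K) + 1) * (pderiv 0 π * F₁)) =
      π ^ m' * (π * (-pderiv 0 F₁)) := by
    rw [pow_succ] at h6
    linear_combination -h6
  have h8 := mul_left_cancel₀ (pow_ne_zero _ hπ.ne_zero) h7
  have h9 : π ∣ ((m' : MvPolynomial (Fin 3) K) + 1) * (pderiv 0 π * F₁) := by
    rw [h8]; exact dvd_mul_right _ _
  have h10 : IsUnit ((m' : MvPolynomial (Fin 3) K) + 1) := by
    have h11 : ((m' : MvPolynomial (Fin 3) K) + 1) = C ((m' : K) + 1) := by simp
    rw [h11]
    exact (isUnit_iff_ne_zero.2 (by exact_mod_cast Nat.succ_ne_zero m')).map C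
  rcases hπ.dvd_or_dvd ((h10.dvd_mul_left).1 h9) with h | h
  · exact LemF.not_dvd_pderiv hπ0 h
  · exact h5 h

lemma degree_pos {a : MvPolynomial (Fin 3) K} {d : ℕ} (ha : a.IsHomogeneous d) (h0 : a ≠ 0)
    (h : ¬ IsUnit a) : 1 ≤ d := by
  by_contra hd
  have hd0 : d = 0 := by omega
  subst hd0
  apply h
  have h1 : a = C (coeff 0 a) := by
    rw [← totalDegree_eq_zero_iff_eq_C]
    exact Nat.le_zero.1 ha.totalDegree_le
  rw [h1]
  apply IsUnit.map
  rw [isUnit_iff_ne_zero]
  intro h2
  exact h0 (by rw [h1, h2, C_0])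

lemma prime_of_degree_one {a : MvPolynomial (Fin 3) K} (ha : a.IsHomogeneous 1) (h0 : a ≠ 0) :
    Prime a := by
  obtain ⟨p, rfl⟩ := eq_lin ha
  apply prime_lin
  rintro rfl
  apply h0
  unfold lin
  simp

/-- A quadratic form is prime or a product of two linear forms. -/
lemma split_quadric {q : MvPolynomial (Fin 3) K} (hq : q.IsHomogeneous 2) (hq0 : q ≠ 0) :
    Prime q ∨ ∃ a b, Prime a ∧ Prime b ∧ a.IsHomogeneous 1 ∧ b.IsHomogeneous 1 ∧ q = a * b := by
  by_cases hirr : Irreducible q
  · exact Or.inl hirr.prime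
  right
  have hu : ¬ IsUnit q := by
    intro h
    obtain ⟨r, -, hr⟩ := MvPolynomial.isUnit_iff_eq_C_of_isReduced.1 h
    have h1 := hq.totalDegree hq0
    rw [hr, totalDegree_C] at h1
    omega
  rw [irreducible_iff, not_and] at hirr
  have h1 := hirr hu
  push Not at h1
  obtain ⟨a, b, hab, ha, hb⟩ := h1
  have ha0 : a ≠ 0 := by rintro rfl; exact hq0 (by rw [hab, zero_mul])
  have hb0 : b ≠ 0 := by rintro rfl; exact hq0 (by rw [hab, mul_zero])
  obtain ⟨d, hd⟩ := isHomogeneous_of_dvd hq hq0 ⟨b, hab⟩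
  obtain ⟨e, he⟩ := isHomogeneous_of_dvd hq hq0 ⟨a, by rw [hab, mul_comm]⟩
  have h2 := degree_pos hd ha0 ha
  have h3 := degree_pos he hb0 hb
  have h4 : d + e = 2 := by
    have h5 := hd.mul he
    rw [← hab] at h5
    exact h5.inj_right hq hq0
  have hd1 : d = 1 := by omega
  have he1 : e = 1 := by omega
  subst hd1
  subst he1
  exact ⟨a, b, prime_of_degree_one hd ha0, prime_of_degree_one he hb0, hd, he, hab⟩

lemma Dv.of_pow {φ π : MvPolynomial (Fin 3) K} {s : ℕ} (hs : 1 ≤ s) {w w' r : PP K}
    (h : w = io (π ^ s) * w' + C φ * r) : Dv φ π w := by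
  obtain ⟨s', rfl⟩ : ∃ m, s = m + 1 := ⟨s - 1, by omega⟩
  refine ⟨io (π ^ s') * w', r, ?_⟩
  rw [h, pow_succ, map_mul]
  ring

section

variable [CharZero K] [IsAlgClosed K]
variable {q g h : MvPolynomial (Fin 3) K} {b' c' i n ω : ℕ} {w α β : PP K}

theorem no_order {κ π : MvPolynomial (Fin 3) K} {ν : Fin 3 → MvPolynomial (Fin 3) K}
    (H : Dat (X 0 * q) g h b' c' i n ω w α β) (hkn : KN (X 0 * q) n α β κ ν)
    (hi : 2 ≤ i) (hb : 1 ≤ b') (hc : 1 ≤ c') (hq : q.IsHomogeneous 2) (hq0 : ¬ X 0 ∣ q)
    (hgr : IsRelPrime (X 0 * q) g) (hhr : IsRelPrime (X 0 * q) h) (hg0 : g ≠ 0) (hh0 : h ≠ 0)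
    (hJ : ∃ J, ∀ p ∈ RT 3 K (J + 1), p ∈ Ideal.span (Set.range ![X 0 * q, g, h]))
    (hfac : ∀ φ, Prime φ → φ ∣ q → ¬ ∃ v, w = C φ * v) (hπ : Prime π)
    (hmin : ¬ Dv (X 0 * q) π w) (hπ0 : pderiv 0 π ≠ 0) {s : ℕ} {w' r : PP K} (hw' : XH i w')
    (hws : w = io (π ^ s) * w' + C (X 0) * r) (hne : ¬ Dv (X 0) π w') :
    ¬ π ^ (2 * s + 1) ∣ κ := by
  intro hκ
  have hX0 : Prime (X 0 : MvPolynomial (Fin 3) K) := prime_of_degree_one (isHomogeneous_X K 0)
    (X_ne_zero 0)
  have hqne : q ≠ 0 := by
    rintro rfl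
    exact hq0 (dvd_zero _)
  have hf0 : X 0 * q ≠ 0 := mul_ne_zero hX0.ne_zero hqne
  obtain ⟨γ, hγ⟩ := H.eq
  obtain ⟨α', β', r1, r2, r3, hα', hβ', e1, e2, e3⟩ := dv_data (N := n + 1) hX0
    (isHomogeneous_X K 0) (dvd_mul_right _ q) H.hg H.hh hgr hhr hg0 hh0 hJ (c' := c') (b' := b')
    (by omega) (by omega) hπ H.hα H.hβ s hws (r := C q * γ) (by rw [hγ, C_mul]; ring)
  have hbc := H.hbc
  have hcr : ∀ x : Fin 3 → K, x 0 = 0 → ∀ k, evx x (cr α β k) = π ^ (2 * s) *
      evx x (cr α' β' k) := fun x hx k => evx_cr_pow (φ := X 0) (by rw [eval_X, hx]) e1 e2 k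
  have h4 : ∀ j k, π ^ (2 * s + 1) ∣ ν j * pderiv k π - ν k * pderiv j π := by
    rcases Nat.eq_zero_or_pos s with rfl | hs
    · -- the order is zero
      intro j k
      obtain ⟨v, hrel⟩ := H.exists_rel hgr hg0 (by omega) hkn
      obtain ⟨v', hrel'⟩ := H.swap.exists_rel hhr hh0 (by omega) hkn.swap
      have hpt : ∀ l : Fin 3 → K, l ≠ 0 → eval l κ = 0 →
          (∀ j, eval l (N1 n κ ν j) = 0) ∨ (∀ j, eval l (N2 n κ ν j) = 0) :=
        fun l hl hκ => point_alt H.hf hf0 hgr hg0 hhr hh0 hJ hrel hrel' hl hκ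
      rw [mul_zero, zero_add, pow_one] at hκ ⊢
      exact parallel hπ hκ hpt j k
    · -- the order is positive
      have hν : ∀ k, π ^ (2 * s) ∣ ν k := by
        intro k
        set x : Fin 3 → K := ![0, 1, 0] with hx
        have hx0 : x 0 = 0 := rfl
        have hlin : lin x = X 1 := by
          rw [hx]
          unfold lin
          rw [Fin.sum_univ_three]
          simp
        have hπ1 : ¬ π ∣ (X 1 : MvPolynomial (Fin 3) K) :=
          not_dvd_of_pderiv hπ hπ0 (X_ne_zero 1) (by rw [pderiv_X_of_ne (by decide)])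
        have h5 := hcr x hx0 k
        rw [hkn.evx (by rw [map_mul, eval_X, hx0, zero_mul]), hlin] at h5
        have h6 : π ^ (2 * s) ∣ X 1 ^ n * (C (x k) * κ + ν k * X 1) := by
          rw [h5]; exact dvd_mul_right _ _
        have h7 := hπ.pow_dvd_of_dvd_mul_left (2 * s) (fun h => hπ1 (hπ.dvd_of_dvd_pow h)) h6
        have h8 : π ^ (2 * s) ∣ C (x k) * κ :=
          ((pow_dvd_pow π (Nat.le_succ _)).trans hκ).mul_left _
        have h9 : π ^ (2 * s) ∣ ν k * X 1 := (dvd_add_right h8).1 h7
        exact hπ.pow_dvd_of_dvd_mul_right (2 * s) hπ1 h9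
      have hdX : Dv (X 0) π w := Dv.of_pow hs hws
      rcases split_quadric hq hqne with hqp | ⟨a, b, ha, hb', hah, hbh, hab⟩
      · -- `q` is prime
        obtain ⟨t, w1, r', hw1, ht, hw1'⟩ := exists_order hqp hπ hq H.hw
          (hfac q hqp dvd_rfl)
        by_cases hts : t = s
        · exfalso
          subst hts
          apply hmin
          apply dv_of_points hπ
          intro l hl
          obtain ⟨m, hm⟩ := hdX.evl hl
          have h5 := (Dv.of_pow hs ht).evl hl
          rw [hm] at h5 ⊢
          rcases hqp.dvd_or_dvd h5 with h6 | h6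
          · exfalso
            have h7 := totalDegree_le_of_dvd_of_isDomain h6 (X_ne_zero 0)
            rw [hq.totalDegree hqne, totalDegree_X] at h7
            omega
          · exact mul_dvd_mul_left _ h6
        · exact h4_G1 H hkn (by omega) hgr hhr hg0 hh0 hJ hqp hq (by norm_num)
            (dvd_mul_left _ _) hπ hts hw1 ht hw1' hκ hν
      · -- `q` is a product of linear forms
        obtain ⟨t, w1, r', hw1, ht, hw1'⟩ := exists_order ha hπ hah H.hw
          (hfac a ha (by rw [hab]; exact dvd_mul_right _ _))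
        obtain ⟨t', w2, r'', hw2, ht', hw2'⟩ := exists_order hb' hπ hbh H.hw
          (hfac b hb' (by rw [hab]; exact dvd_mul_left _ _))
        by_cases hts : t = s
        · by_cases hts' : t' = s
          · subst hts
            have hda := Dv.of_pow hs ht
            have hdb := Dv.of_pow (by omega) ht'
            have hXa : ¬ X 0 ∣ a := fun h => hq0 (by rw [hab]; exact h.mul_right _)
            have haX : ¬ a ∣ X 0 := by
              rintro ⟨u, hu⟩
              rcases hX0.irreducible.isUnit_or_isUnit hu with h5 | h5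
              · exact ha.not_isUnit h5
              · obtain ⟨u, rfl⟩ := h5
                apply hXa
                refine ⟨((u⁻¹ : (MvPolynomial (Fin 3) K)ˣ) : MvPolynomial (Fin 3) K), ?_⟩
                rw [hu, mul_assoc, ← Units.val_mul, mul_inv_cancel, Units.val_one, mul_one]
            have hXb : ¬ X 0 ∣ b := fun h => hq0 (by rw [hab]; exact h.mul_left _)
            have hbX : ¬ b ∣ X 0 := by
              rintro ⟨u, hu⟩
              rcases hX0.irreducible.isUnit_or_isUnit hu with h5 | h5
              · exact hb'.not_isUnit h5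
              · obtain ⟨u, rfl⟩ := h5
                apply hXb
                refine ⟨((u⁻¹ : (MvPolynomial (Fin 3) K)ˣ) : MvPolynomial (Fin 3) K), ?_⟩
                rw [hu, mul_assoc, ← Units.val_mul, mul_inv_cancel, Units.val_one, mul_one]
            -- all values on `π = 0` are divisible by `X 0 * a`
            have hXal : ∀ l : Fin 3 → K, eval l π = 0 → ∃ m, evl l w = X 0 * (a * m) := by
              intro l hl
              obtain ⟨m, hm⟩ := hdX.evl hl
              have h5 := hda.evl hl
              rw [hm] at h5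
              obtain ⟨m', hm'⟩ := (ha.dvd_or_dvd h5).resolve_left haX
              exact ⟨m', by rw [hm, hm']⟩
            by_cases hass : b ∣ a
            · -- a double line
              obtain ⟨u, hu⟩ := hass
              have hul : IsUnit u := by
                rcases ha.irreducible.isUnit_or_isUnit hu with h5 | h5
                · exact absurd h5 hb'.not_isUnit
                · exact h5
              obtain ⟨u, rfl⟩ := hul
              have hba : b = a * ((u⁻¹ : (MvPolynomial (Fin 3) K)ˣ) :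
                  MvPolynomial (Fin 3) K) := by
                rw [hu, mul_assoc, ← Units.val_mul, mul_inv_cancel, Units.val_one, mul_one]
              apply h4_G2 H hkn hi hgr hhr hg0 hh0 hJ ha hah
                (z := X 0 * ((u⁻¹ : (MvPolynomial (Fin 3) K)ˣ) : MvPolynomial (Fin 3) K))
                (by rw [hab]; conv_lhs => rw [hba]
                    ring) hπ hs hw1 ht
              · -- a point where the value is exactly divisible
                by_contra hcon
                push Not at hcon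
                apply hmin
                apply dv_of_points hπ
                intro l hl
                obtain ⟨m, hm⟩ := hXal l hl
                have h5 := hcon l (X 0 * m) hl (by rw [hm]; ring)
                obtain ⟨m', hm'⟩ := (ha.dvd_or_dvd h5).resolve_left haX
                rw [hm, hm', hab]
                refine mul_dvd_mul_left _ (mul_dvd_mul_left _ ?_)
                rw [hu, mul_assoc]
                exact dvd_mul_right _ _
              · exact hκ
              · exact hν
            · -- distinct lines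
              exfalso
              apply hmin
              apply dv_of_points hπ
              intro l hl
              obtain ⟨m, hm⟩ := hXal l hl
              have h5 := hdb.evl hl
              rw [hm] at h5
              have h6 := (hb'.dvd_or_dvd h5).resolve_left hbX
              have h7 := (hb'.dvd_or_dvd h6).resolve_left hass
              rw [hm, hab]
              exact mul_dvd_mul_left _ (mul_dvd_mul_left _ h7)
          · exact h4_G1 H hkn (by omega) hgr hhr hg0 hh0 hJ hb' hbh le_rfl
              (by rw [hab]; exact (dvd_mul_left _ _).mul_left _) hπ hts' hw2 ht' hw2' hκ hν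
        · exact h4_G1 H hkn (by omega) hgr hhr hg0 hh0 hJ ha hah le_rfl
            (by rw [hab]; exact (dvd_mul_right _ _).mul_left _) hπ hts hw1 ht hw1' hκ hν
  have h5 := line_prime hw' hα' hβ' (N := n + 1) (by omega) (by omega) e3 hπ hπ0 (by
    intro x hx j k
    have hfx : eval x (X 0 * q) = 0 := by rw [map_mul, eval_X, hx, zero_mul]
    have h6 : π ^ (2 * s + 1) ∣ evx x (cr α β j) * pderiv k π - evx x (cr α β k) * pderiv j π := by
      rw [hkn.evx hfx, hkn.evx hfx]
      obtain ⟨κ₁, hκ₁⟩ := hκ
      obtain ⟨m, hm⟩ := h4 j k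
      refine ⟨lin x ^ n * (κ₁ * (C (x j) * pderiv k π - C (x k) * pderiv j π) + lin x * m), ?_⟩
      linear_combination lin x ^ n * (C (x j) * pderiv k π - C (x k) * pderiv j π) * hκ₁ +
        lin x ^ (n + 1) * hm
    rw [hcr x hx, hcr x hx] at h6
    obtain ⟨m, hm⟩ := h6
    refine ⟨m, ?_⟩
    apply mul_left_cancel₀ (pow_ne_zero (2 * s) hπ.ne_zero)
    rw [pow_succ] at hm
    linear_combination hm)
  apply hne
  apply dv_of_points hπ
  intro l hl
  apply dvd_of_vanish hX0
  intro x hx
  rw [eval_X] at hx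
  obtain ⟨m, hm⟩ := h5 x hx
  rw [← eval_evx, hm, map_mul, hl, zero_mul]

end

end Pool.Agent.H11.SLP
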