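import Pool.Agent.H11.SLP.RedCore

/-!
Generic injectivity for a cubic with a simple linear factor.
-/

set_option autoImplicit false

open MvPolynomial

namespace Pool.Agent.H11.SLP

open Pool.Agent.H4.Apolar Pool.Agent.H4.Descent Pool.Agent.H4.Ternary

variable {K : Type*} [Field K]

lemma range_swap (f g h : MvPolynomial (Fin 3) K) :
    Set.range ![f, g, h] = Set.range ![f, h, g] := by
  ext q
  simp only [Set.mem_range]
  constructor
  · rintro ⟨j, rfl⟩
    fin_cases j
    · exact ⟨0, rfl⟩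
    · exact ⟨2, rfl⟩
    · exact ⟨1, rfl⟩
  · rintro ⟨j, rfl⟩
    fin_cases j
    · exact ⟨0, rfl⟩
    · exact ⟨2, rfl⟩
    · exact ⟨1, rfl⟩

lemma span_le_of_dvd {f f' g h : MvPolynomial (Fin 3) K} (hf : f' ∣ f) :
    Ideal.span (Set.range ![f, g, h]) ≤ Ideal.span (Set.range ![f', g, h]) := by
  rw [Ideal.span_le]
  rintro p ⟨j, rfl⟩
  fin_cases j
  · exact Ideal.mem_of_dvd _ hf (Ideal.subset_span ⟨0, rfl⟩)
  · exact Ideal.subset_span ⟨1, rfl⟩
  · exact Ideal.subset_span ⟨2, rfl⟩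

/-- In degrees below the degrees of `g` and `h` the ideal is generated by `f`. -/
lemma dvd_of_inC' {f g h : MvPolynomial (Fin 3) K} {e i : ℕ} {w : PP K} (hf : f.IsHomogeneous e)
    {b c : ℕ} (hg : g.IsHomogeneous b) (hh : h.IsHomogeneous c) (hb : i < b) (hc : i < c)
    (hw : XH i w) (H : InC (Ideal.span (Set.range ![f, g, h])) w) : ∃ v, w = C f * v := by
  obtain ⟨a0, a1, a2, ha⟩ := inC_triple H
  have h1 := congrArg (hx i) ha
  rw [hx_add, hx_add, hx_of_XH hw, hx_mul (XH_C hg), hx_mul (XH_C hh), if_neg (by omega),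
    if_neg (by omega), add_zero, add_zero, hx_mul (XH_C hf)] at h1
  split_ifs at h1
  · exact ⟨_, h1⟩
  · exact ⟨0, by rw [h1, mul_zero]⟩

section

variable [CharZero K]

lemma inC_colon {L q g h : MvPolynomial (Fin 3) K} {a b c : ℕ} (hL : L.IsHomogeneous a)
    (ha : 1 ≤ a) (hL0 : L ≠ 0) (hg : g.IsHomogeneous b) (hh : h.IsHomogeneous c) (hb : 1 ≤ b)
    (hc : 1 ≤ c)
    (hJ : ∃ J, ∀ p ∈ RT 3 K (J + 1), p ∈ Ideal.span (Set.range ![L * q, g, h])) {u : PP K}
    (hu : InC (Ideal.span (Set.range ![L * q, g, h])) (C L * u)) :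
    InC (Ideal.span (Set.range ![q, g, h])) u := by
  intro n
  have h1 := hu n
  rw [coeff_C_mul] at h1
  exact colon_mem (d := 0) hL ha hL0 hg hh hb hc hJ h1

/-- Elements of the kernel divisible by a factor of `f`. -/
lemma factor_case {L q g h : MvPolynomial (Fin 3) K} {d e b c i k : ℕ} (hL : L.IsHomogeneous d)
    (hd : 1 ≤ d) (hL0 : L ≠ 0) (hq : q.IsHomogeneous e) (hg : g.IsHomogeneous b)
    (hh : h.IsHomogeneous c) (hib : i < b) (hic : i < c)
    (hJ : ∃ J, ∀ p ∈ RT 3 K (J + 1), p ∈ Ideal.span (Set.range ![L * q, g, h]))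
    (hGI : ∀ v : PP K, XH (i - d) v → InC (Ideal.span (Set.range ![q, g, h])) (Lam K ^ k * v) →
      InC (Ideal.span (Set.range ![q, g, h])) v) {w : PP K} (hw : XH i w)
    (HI : InC (Ideal.span (Set.range ![L * q, g, h])) (Lam K ^ k * w))
    (H : ∃ v, w = C L * v) : ∃ v, w = C (L * q) * v := by
  obtain ⟨v, hv⟩ := H
  have h1 := congrArg (hx i) hv
  rw [hx_of_XH hw, hx_mul (XH_C hL)] at h1
  split_ifs at h1 with hdi
  · set v' := hx (i - d) v with hv'
    have hv'' : XH (i - d) v' := XH_hx _ _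
    have h2 : InC (Ideal.span (Set.range ![q, g, h])) (Lam K ^ k * v') := by
      apply inC_colon hL hd hL0 hg hh (by omega) (by omega) hJ
      have h3 : C L * (Lam K ^ k * v') = Lam K ^ k * w := by rw [h1]; ring
      rwa [h3]
    have h3 := hGI v' hv'' h2
    obtain ⟨u, hu⟩ := dvd_of_inC' hq hg hh (by omega) (by omega) hv'' h3
    exact ⟨u, by rw [h1, hu, C_mul]; ring⟩
  · exact ⟨0, by rw [h1, mul_zero]⟩

end

theorem core_red [CharZero K] [IsAlgClosed K] {q g h : MvPolynomial (Fin 3) K} {b c i : ℕ}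
    (hq : q.IsHomogeneous 2) (hq0 : ¬ X 0 ∣ q) (hg : g.IsHomogeneous b) (hh : h.IsHomogeneous c)
    (hJ : ∃ J, ∀ p ∈ RT 3 K (J + 1), p ∈ Ideal.span (Set.range ![X 0 * q, g, h]))
    (hi : 2 ≤ i) (hib : i + 2 ≤ b) (hic : i + 2 ≤ c) :
    GI (Ideal.span (Set.range ![X 0 * q, g, h])) i (b + c - 2 * i) := by
  obtain ⟨n, hn⟩ : ∃ n, b + c - 2 * i = n + 1 := ⟨b + c - 2 * i - 1, by omega⟩
  rw [hn]
  have hX0 : Prime (X 0 : MvPolynomial (Fin 3) K) := prime_of_degree_one (isHomogeneous_X K 0)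
    (X_ne_zero 0)
  have hqne : q ≠ 0 := by
    rintro rfl
    exact hq0 (dvd_zero _)
  set f := X 0 * q with hfd
  have hfh : f.IsHomogeneous 3 := by
    have := (isHomogeneous_X K (0 : Fin 3)).mul hq
    rwa [show 1 + 2 = 3 by norm_num] at this
  have hfne : f ≠ 0 := mul_ne_zero hX0.ne_zero hqne
  obtain ⟨J₀, hJ₀⟩ := hJ
  have hJ₀' : ∀ p ∈ RT 3 K (J₀ + 1), p ∈ Ideal.span (Set.range ![f, h, g]) := by
    intro p hp
    rw [← range_swap]
    exact hJ₀ p hp
  have hgr : IsRelPrime f g :=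
    Pool.Agent.H22.SLP.relPrime_of_cofinite hfh hg hh (by omega) (by omega) hJ₀
  have hhr : IsRelPrime f h :=
    Pool.Agent.H22.SLP.relPrime_of_cofinite hfh hh hg (by omega) (by omega) hJ₀'
  have hg0 := Pool.Agent.H22.SLP.ne_zero_of_relPrime hfh (by norm_num) hgr
  have hh0 := Pool.Agent.H22.SLP.ne_zero_of_relPrime hfh (by norm_num) hhr
  have hXg : ¬ X 0 ∣ g := fun h => hX0.not_isUnit (hgr (dvd_mul_right _ _) h)
  have hXh : ¬ X 0 ∣ h := fun h => hX0.not_isUnit (hhr (dvd_mul_right _ _) h)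
  have hJ : ∃ J, ∀ p ∈ RT 3 K (J + 1), p ∈ Ideal.span (Set.range ![f, g, h]) := ⟨J₀, hJ₀⟩
  have hJd : ∀ {f' : MvPolynomial (Fin 3) K}, f' ∣ f →
      ∃ J, ∀ p ∈ RT 3 K (J + 1), p ∈ Ideal.span (Set.range ![f', g, h]) :=
    fun hd => ⟨J₀, fun p hp => span_le_of_dvd hd (hJ₀ p hp)⟩
  have hmem : f ∈ Ideal.span (Set.range ![f, g, h]) := Ideal.subset_span ⟨0, rfl⟩
  -- the kernel elements divisible by a factor
  have hfac : ∀ w : PP K, XH i w →
      InC (Ideal.span (Set.range ![f, g, h])) (Lam K ^ (n + 1) * w) → (¬ ∃ v, w = C f * v) →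
      ∀ φ, Prime φ → φ ∣ f → ¬ ∃ v, w = C φ * v := by
    intro w hw HI hwf φ hφ hφf H
    apply hwf
    -- the factors of degree one
    have hone : ∀ {L q' : MvPolynomial (Fin 3) K}, L.IsHomogeneous 1 → L ≠ 0 → f = L * q' →
        (∃ v, w = C L * v) → ∃ v, w = C f * v := by
      intro L q' hL hL0 hf' H
      have hq' : q'.IsHomogeneous 2 ∧ q' ≠ 0 := by
        have h0 : q' ≠ 0 := by
          rintro rfl
          exact hfne (by rw [hf', mul_zero])
        obtain ⟨e, he⟩ := isHomogeneous_of_dvd hfh hfne (q := q') ⟨L, by rw [hf', mul_comm]⟩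
        have h1 := hL.mul he
        rw [← hf'] at h1
        have h2 := h1.inj_right hfh hfne
        have h3 : e = 2 := by omega
        exact ⟨h3 ▸ he, h0⟩
      rw [hf'] at hJ HI ⊢
      apply factor_case hL le_rfl hL0 hq'.1 hg hh (by omega) (by omega) hJ _ hw HI H
      exact quad_gi hq'.1 hq'.2 hg hh (by omega) (by omega)
        (hJd ⟨L, by rw [hf', mul_comm]⟩) (by omega)
    rcases hφ.dvd_or_dvd hφf with h1 | h1
    · -- `φ` is `X 0`
      have h2 : X 0 ∣ φ := by
        obtain ⟨u, hu⟩ := h1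
        rcases hX0.irreducible.isUnit_or_isUnit hu with h5 | h5
        · exact absurd h5 hφ.not_isUnit
        · obtain ⟨u, rfl⟩ := h5
          refine ⟨((u⁻¹ : (MvPolynomial (Fin 3) K)ˣ) : MvPolynomial (Fin 3) K), ?_⟩
          rw [hu, mul_assoc, ← Units.val_mul, mul_inv_cancel, Units.val_one, mul_one]
      obtain ⟨m, hm⟩ := h2
      obtain ⟨v, hv⟩ := H
      exact hone (isHomogeneous_X K 0) hX0.ne_zero hfd ⟨C m * v, by rw [hv, hm, C_mul]; ring⟩
    · rcases split_quadric hq hqne with hqp | ⟨a, b₁, ha, hb₁, hah, hbh, hab⟩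
      · -- `q` is prime
        have h2 : q ∣ φ := by
          obtain ⟨u, hu⟩ := h1
          rcases hqp.irreducible.isUnit_or_isUnit hu with h5 | h5
          · exact absurd h5 hφ.not_isUnit
          · obtain ⟨u, rfl⟩ := h5
            refine ⟨((u⁻¹ : (MvPolynomial (Fin 3) K)ˣ) : MvPolynomial (Fin 3) K), ?_⟩
            rw [hu, mul_assoc, ← Units.val_mul, mul_inv_cancel, Units.val_one, mul_one]
        obtain ⟨m, hm⟩ := h2
        obtain ⟨v, hv⟩ := H
        have hf' : f = q * X 0 := by rw [hfd, mul_comm]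
        rw [hf'] at hJ HI ⊢
        apply factor_case hq (by norm_num) hqne (isHomogeneous_X K 0) hg hh (by omega) (by omega)
          hJ _ hw HI ⟨C m * v, by rw [hv, hm, C_mul]; ring⟩
        intro v hv HI'
        obtain ⟨v', hv'⟩ := gi_line (j := i - 2) (k := n + 1) hg hh hXg hXh (by omega) (by omega)
          (by omega) hv HI'
        have hX0m : X 0 ∈ Ideal.span (Set.range ![X 0, g, h]) := Ideal.subset_span ⟨0, rfl⟩
        rw [hv', mul_comm]
        exact (inC_C.2 hX0m).mul_left _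
      · -- a linear factor
        obtain ⟨m, hm⟩ := h1
        obtain ⟨d, hd⟩ := isHomogeneous_of_dvd hq hqne ⟨m, hm⟩
        have hd1 : d = 1 := by
          have h2 := degree_pos hd hφ.ne_zero hφ.not_isUnit
          rw [hab] at hm
          rcases hφ.dvd_or_dvd (show φ ∣ a * b₁ from ⟨m, hm⟩) with h3 | h3
          · have h4 := totalDegree_le_of_dvd_of_isDomain h3 ha.ne_zero
            rw [hd.totalDegree hφ.ne_zero, hah.totalDegree ha.ne_zero] at h4
            omega
          · have h4 := totalDegree_le_of_dvd_of_isDomain h3 hb₁.ne_zero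
            rw [hd.totalDegree hφ.ne_zero, hbh.totalDegree hb₁.ne_zero] at h4
            omega
        rw [hd1] at hd
        exact hone hd hφ.ne_zero (q' := X 0 * m) (by rw [hfd, hm]; ring) H
  suffices key : ∀ ω, ∀ w : PP K, XH i w → w.IsHomogeneous ω →
      InC (Ideal.span (Set.range ![f, g, h])) (Lam K ^ (n + 1) * w) → ∃ v, w = C f * v by
    intro w hw H
    apply InC.of_homComp
    intro δ
    obtain ⟨v, hv⟩ := key δ (homogeneousComponent δ w) (XH_homComp hw δ)
      (homogeneousComponent_isHomogeneous _ _) (by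
        rw [← homComp_mul_add (Lam_pow_isHomogeneous (n + 1))]
        exact H.homComp _)
    rw [hv, mul_comm]
    exact (inC_C.2 hmem).mul_left _
  intro ω
  induction ω using Nat.strong_induction_on with
  | _ ω ih =>
  intro w hw hw' HI
  by_contra hwf
  have hfacw := hfac w hw HI hwf
  obtain ⟨α, β, H⟩ := exists_dat (b' := b - i) (c' := c - i) hfh
    (by rwa [show b - i + i = b by omega]) (by rwa [show c - i + i = c by omega]) (by omega)
    hw hw' HI
  obtain ⟨κ, ν, hkn, hκh, hνh⟩ := H.exists_KN hgr hg0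
  obtain ⟨γ, hγ⟩ := H.eq
  -- minimality
  have hmin : ∀ π, Prime π → π ∣ κ → κ ≠ 0 → ¬ Dv f π w := by
    intro π hπ hπκ hκ0
    rintro ⟨a, a', hab⟩
    obtain ⟨d, hd⟩ := isHomogeneous_of_dvd hκh hκ0 hπκ
    have hd1 : 1 ≤ d := degree_pos hd hπ.ne_zero hπ.not_isUnit
    have h2 := congrArg (cm i ω) hab
    rw [cm_self hw hw', cm_add] at h2
    obtain ⟨q₁, hq₁⟩ := cm_C_mul hfh a' i ω
    have h3 : ∃ w', cm i ω (io π * a) = io π * w' ∧ XH i w' ∧ w'.IsHomogeneous (ω - d) := by
      by_cases hdω : d ≤ ω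
      · have h4 := cm_mul (XH_io π) (io_isHomogeneous hd) a i (ω - d)
        rw [zero_add, show d + (ω - d) = ω by omega] at h4
        exact ⟨_, h4, XH_cm _ _ _, cm_isHomogeneous _ _ _⟩
      · refine ⟨0, ?_, XH.zero _, isHomogeneous_zero _ _ _⟩
        unfold cm
        rw [hx_mul (XH_io π), if_pos (Nat.zero_le _), homComp_mul (io_isHomogeneous hd),
          if_neg hdω, mul_zero]
    obtain ⟨w', hw1, hw2, hw3⟩ := h3
    rw [hw1, hq₁] at h2
    have h5 : InC (Ideal.span (Set.range ![f, g, h])) (Lam K ^ (n + 1) * w') := by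
      apply inC_of_io_mul hπ.ne_zero
      have h6 : io π * (Lam K ^ (n + 1) * w') = Lam K ^ (n + 1) * w -
          (Lam K ^ (n + 1) * q₁) * C f := by
        rw [h2]; ring
      rw [h6]
      exact HI.sub ((inC_C.2 hmem).mul_left _)
    by_cases hω : ω - d < ω
    · obtain ⟨v'', hv''⟩ := ih (ω - d) hω w' hw2 hw3 h5
      exact hwf ⟨io π * v'' + q₁, by rw [h2, hv'']; ring⟩
    · -- `ω = 0`
      have hω0 : ω = 0 := by omega
      apply hwf
      refine ⟨q₁, ?_⟩
      have h6 : cm i ω (io π * a) = 0 := by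
        unfold cm
        rw [hx_mul (XH_io π), if_pos (Nat.zero_le _), homComp_mul (io_isHomogeneous hd),
          if_neg (by omega)]
      rw [h2, ← hw1, h6, zero_add]
  -- `ν 0` does not vanish
  have hν0 : ν 0 ≠ 0 := by
    intro hν
    have e1 : Lam K ^ (b + c - 2 * i) * w = C g * α + C h * β + C (X 0) * (C q * γ) := by
      rw [hn, hγ, hfd, C_mul, mul_assoc]
    obtain ⟨r₀, hr₀⟩ := hkn 0
    have e2 : cr α β 0 = C (X 0) * (Lam K ^ n * io κ + C q * r₀) := by
      rw [hν, map_zero, zero_mul, add_zero, hfd, C_mul] at hr₀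
      rw [hr₀]
      ring
    obtain ⟨P, hP, u, hu⟩ := exists_P hg hh hXg hXh
      (by omega) (by omega) (by omega) hw H.hα H.hβ e1 e2 (hfacw (X 0) hX0 (dvd_mul_right _ _))
    obtain ⟨v, hv⟩ := trick (N := n + 1) hq hq0 hqne hg hh (by omega) (by omega) (by omega)
      (by omega)
      (fun p hp => colon_mem (d := 0) (isHomogeneous_X K 0) le_rfl hX0.ne_zero hg hh
        (by omega) (by omega) hJ hp)
      (quad_gi hq hqne hg hh (by omega) (by omega) (hJd (dvd_mul_left _ _)) (by omega)) hw HI hP hu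
    rcases split_quadric hq hqne with hqp | ⟨a, b₁, ha, hb₁, hah, hbh, hab⟩
    · exact hfacw q hqp (dvd_mul_left _ _) ⟨v, hv⟩
    · exact hfacw a ha (by rw [hfd, hab]; exact (dvd_mul_right _ _).mul_left _)
        ⟨C b₁ * v, by rw [hv, hab, C_mul]; ring⟩
  -- restriction to the point of `x₀ = 0`
  obtain ⟨v, hrel⟩ := H.exists_rel hgr hg0 (by omega) hkn
  have hzf : zp f = 0 := by rw [hfd, map_mul, zp_X0, zero_mul]
  have hzg : zp g ≠ 0 := zp_ne_zero hXg
  have hR1 : ((n : MvPolynomial (Fin 3) K) + 1) * ez w * ez β = zp g * κ := by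
    obtain ⟨r, hr⟩ := hrel.r1
    have h1 := congrArg ez hr
    simp only [map_add, map_mul, map_one, map_natCast, ez_C, ez_Lam, ez_io, hzf] at h1
    linear_combination h1
  have hR2 : zp g * ν 0 = ez β * pderiv 0 (ez w) - ez w * pderiv 0 (ez β) := by
    obtain ⟨r, hr⟩ := hrel.r2 0
    have h1 := congrArg ez hr
    simp only [map_add, map_sub, map_mul, ez_C, ez_io, hzf, zp_X0, ez_pderiv] at h1
    linear_combination -h1
  have hn1 : ((n : MvPolynomial (Fin 3) K) + 1) ≠ 0 := by exact_mod_cast Nat.succ_ne_zero n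
  have hA : ez w ≠ 0 := by
    intro h0
    rw [h0, map_zero, mul_zero, zero_mul, sub_zero] at hR2
    exact (mul_ne_zero hzg hν0) hR2
  have hB : ez β ≠ 0 := by
    intro h0
    rw [h0, map_zero, mul_zero, zero_mul, sub_zero] at hR2
    exact (mul_ne_zero hzg hν0) hR2
  have hκ0 : κ ≠ 0 := by
    rintro rfl
    rw [mul_zero] at hR1
    exact (mul_ne_zero (mul_ne_zero hn1 hA) hB) hR1
  have hord : ∀ π : MvPolynomial (Fin 3) K, Prime π → pderiv 0 π ≠ 0 →
      ∀ m, π ^ m ∣ ez w ↔ π ^ m ∣ ez β := by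
    intro π hπ hπ0
    obtain ⟨s, w₁, r, hw₁, hs, hs'⟩ := exists_order hX0 hπ (isHomogeneous_X K 0) hw
      (hfacw (X 0) hX0 (dvd_mul_right _ _))
    have hno : ¬ π ^ (2 * s + 1) ∣ κ := by
      by_cases hπκ : π ∣ κ
      · exact no_order H hkn hi (by omega) (by omega) hq hq0 hgr hhr hg0 hh0 hJ
          (fun φ hφ hφq => hfacw φ hφ (hφq.mul_left _)) hπ (hmin π hπ hπκ hκ0) hπ0 hw₁ hs hs'
      · exact fun h => hπκ ((dvd_pow_self π (Nat.succ_ne_zero _)).trans h)
    obtain ⟨α', β', r1, r2, r3, hα', hβ', e1, e2, e3⟩ := dv_data (N := n + 1) hX0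
      (isHomogeneous_X K 0) (dvd_mul_right _ q) hg hh hgr hhr hg0 hh0 hJ (c' := c - i)
      (b' := b - i) (by omega) (by omega) hπ H.hα H.hβ s hs (r := C q * γ)
      (by rw [hγ, hfd, C_mul]; ring)
    have hsA : π ^ s ∣ ez w := by
      rw [hs, map_add, map_mul, map_mul, ez_io, ez_C, zp_X0, zero_mul, add_zero]
      exact dvd_mul_right _ _
    have hsB : π ^ s ∣ ez β := by
      rw [e2, map_add, map_mul, map_mul, ez_io, ez_C, zp_X0, zero_mul, add_zero]
      exact dvd_mul_right _ _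
    have hπg : ¬ π ∣ zp g := not_dvd_of_pderiv hπ hπ0 hzg (pderiv_zp g)
    have hkey : ¬ π ^ (2 * s + 1) ∣ ez w * ez β := by
      intro h1
      apply hno
      apply hπ.pow_dvd_of_dvd_mul_left _ hπg
      rw [← hR1, mul_assoc]
      exact h1.mul_left _
    have hsA' : ¬ π ^ (s + 1) ∣ ez w := by
      intro h1
      apply hkey
      rw [show 2 * s + 1 = s + 1 + s by ring, pow_add]
      exact mul_dvd_mul h1 hsB
    have hsB' : ¬ π ^ (s + 1) ∣ ez β := by
      intro h1
      apply hkey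
      rw [show 2 * s + 1 = s + (s + 1) by ring, pow_add]
      exact mul_dvd_mul hsA h1
    intro m
    rcases Nat.lt_or_ge s m with hm | hm
    · constructor
      · intro h1
        exact absurd ((pow_dvd_pow π hm).trans h1) hsA'
      · intro h1
        exact absurd ((pow_dvd_pow π hm).trans h1) hsB'
    · exact ⟨fun _ => (pow_dvd_pow π hm).trans hsB, fun _ => (pow_dvd_pow π hm).trans hsA⟩
  have hcross := cross_of_orders hA hB hord
  rw [hcross, sub_self] at hR2
  exact (mul_ne_zero hzg hν0) hR2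

end Pool.Agent.H11.SLP
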