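import Pool.Agent.H11.SLP.Basic

/-!
Regularity modulo the generic linear form and a form, and primality.
-/

set_option autoImplicit false

open MvPolynomial

namespace Pool.Agent.H11.SLP

variable {K : Type*} [Field K]

/-- Membership in the ideal generated by the generic linear form and `f`. -/
def ZZ (f : MvPolynomial (Fin 3) K) (u : PP K) : Prop := ∃ a b, u = Lam K * a + C f * b

lemma ZZ.add {f : MvPolynomial (Fin 3) K} {u v : PP K} (hu : ZZ f u) (hv : ZZ f v) :
    ZZ f (u + v) := by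
  obtain ⟨a, b, rfl⟩ := hu
  obtain ⟨a', b', rfl⟩ := hv
  exact ⟨a + a', b + b', by ring⟩

lemma ZZ.mul {f : MvPolynomial (Fin 3) K} {u : PP K} (hu : ZZ f u) (v : PP K) :
    ZZ f (v * u) := by
  obtain ⟨a, b, rfl⟩ := hu
  exact ⟨v * a, v * b, by ring⟩

lemma ZZ.sub {f : MvPolynomial (Fin 3) K} {u v : PP K} (hu : ZZ f u) (hv : ZZ f v) :
    ZZ f (u - v) := by
  obtain ⟨a, b, rfl⟩ := hu
  obtain ⟨a', b', rfl⟩ := hv
  exact ⟨a - a', b - b', by ring⟩

lemma C_relPrime {f g : MvPolynomial (Fin 3) K} (h : IsRelPrime f g) {u v : PP K}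
    (huv : C g * u = C f * v) : ∃ v', u = C f * v' := by
  have h1 : C f ∣ u := by
    rw [C_dvd_iff_dvd_coeff]
    intro n
    have h2 := congrArg (coeff n) huv
    rw [coeff_C_mul, coeff_C_mul] at h2
    exact h.dvd_of_dvd_mul_left ⟨_, h2⟩
  exact h1

lemma inC_pair {f g : MvPolynomial (Fin 3) K} {a : PP K}
    (h : InC (Ideal.span (Set.range ![f, g])) a) : ∃ a1 a2, a = C f * a1 + C g * a2 := by
  rw [inC_iff, Ideal.map_span, ← Set.range_comp] at h
  have h1 : (C : MvPolynomial (Fin 3) K →+* PP K) ∘ ![f, g] = ![C f, C g] := by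
    ext1 i
    fin_cases i <;> rfl
  rw [h1, Ideal.span, Submodule.mem_span_range_iff_exists_fun] at h
  obtain ⟨c, hc⟩ := h
  refine ⟨c 0, c 1, ?_⟩
  rw [← hc, Fin.sum_univ_two]
  simp only [smul_eq_mul, Matrix.cons_val_zero, Matrix.cons_val_one]
  ring

/-- `g` is a nonzerodivisor modulo the generic linear form and `f`. -/
theorem ZZ_cancel [CharZero K] {f g : MvPolynomial (Fin 3) K} (hfg : IsRelPrime f g)
    (hg : g ≠ 0) {u : PP K} (h : ZZ f (C g * u)) : ZZ f u := by
  obtain ⟨a, b, h⟩ := h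
  have h1 : InC (Ideal.span (Set.range ![f, g])) a := by
    apply lam_reg (fun e he => Pool.Agent.H22.SLP.depth hfg hg he) 1
    rw [pow_one]
    have h2 : Lam K * a = u * C g - b * C f := by rw [mul_comm u, h]; ring
    rw [h2]
    have m1 : g ∈ Ideal.span (Set.range ![f, g]) := Ideal.subset_span ⟨1, rfl⟩
    have m0 : f ∈ Ideal.span (Set.range ![f, g]) := Ideal.subset_span ⟨0, rfl⟩
    exact ((inC_C.2 m1).mul_left _).sub ((inC_C.2 m0).mul_left _)
  obtain ⟨a1, a2, rfl⟩ := inC_pair h1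
  obtain ⟨v', hv'⟩ := C_relPrime hfg (u := u - Lam K * a2) (v := b + Lam K * a1) (by
    rw [mul_sub, h]; ring)
  exact ⟨a2, v', by rw [← hv']; ring⟩

lemma dvd_of_two {M : Type*} [CommRing M] [IsDomain M] [UniqueFactorizationMonoid M] {a b f e : M}
    (hab : IsRelPrime a b) (h1 : f ∣ a * e) (h2 : f ∣ b * e) : f ∣ e := by
  classical
  let _ := UniqueFactorizationMonoid.toGCDMonoid M
  have h3 : f ∣ GCDMonoid.gcd (a * e) (b * e) := GCDMonoid.dvd_gcd h1 h2
  have h4 := (gcd_mul_right' e a b)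
  have h5 : IsUnit (GCDMonoid.gcd a b) := hab (GCDMonoid.gcd_dvd_left _ _)
    (GCDMonoid.gcd_dvd_right _ _)
  have h6 : f ∣ GCDMonoid.gcd a b * e := h3.trans h4.dvd
  exact (h5.dvd_mul_left).1 h6

/-- The generic linear form is a nonzerodivisor modulo `f`. -/
theorem Lam_cancel [CharZero K] {f : MvPolynomial (Fin 3) K} {u v : PP K} (n : ℕ)
    (h : Lam K ^ n * u = C f * v) : ∃ v', u = C f * v' := by
  have h1 : InC (Ideal.span {f}) u := by
    apply lam_reg _ n
    · intro m
      rw [h, coeff_C_mul]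
      exact Ideal.mul_mem_right _ _ (Ideal.subset_span rfl)
    · intro e he
      rw [Ideal.mem_span_singleton]
      exact dvd_of_two (Pool.Agent.H22.SLP.prime_X_ne (i := 0) (j := 1) (by decide))
        (Ideal.mem_span_singleton.1 (he 0)) (Ideal.mem_span_singleton.1 (he 1))
  have h2 : C f ∣ u := by
    rw [C_dvd_iff_dvd_coeff]
    intro m
    exact Ideal.mem_span_singleton.1 (h1 m)
  exact h2

/-- Substitution used to show that the generic linear form is prime. -/
noncomputable def th0 : PP K →ₐ[MvPolynomial (Fin 3) K] PP K :=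
  aeval ![-(C (X 1) * X 1 + C (X 2) * X 2), C (X 0) * X 1, C (X 0) * X 2]

lemma Lam_eq : Lam K = C (X 0) * X 0 + C (X 1) * X 1 + C (X 2) * X 2 := by
  unfold Lam
  rw [Fin.sum_univ_three]

lemma th0_Lam : th0 (Lam K) = 0 := by
  rw [Lam_eq]
  unfold th0
  simp only [map_add, map_mul, aeval_X, algHom_C, Matrix.cons_val_zero, Matrix.cons_val_one,
    Matrix.cons_val, algebraMap_eq]
  ring

lemma th0_C (r : MvPolynomial (Fin 3) K) : th0 (C r : PP K) = C r := by
  unfold th0
  rw [algHom_C, algebraMap_eq]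

lemma scale_hom {R : Type*} [CommRing R] {u : MvPolynomial (Fin 3) R} {d : ℕ}
    (hu : u.IsHomogeneous d) (r : R) :
    aeval (fun k => C r * X k) u = C r ^ d * u := by
  conv_lhs => rw [u.as_sum]
  conv_rhs => rw [u.as_sum]
  rw [map_sum, Finset.mul_sum]
  apply Finset.sum_congr rfl
  intro n hn
  rw [aeval_monomial, algebraMap_eq]
  have h1 : (n.prod fun i k => (C r * X i : MvPolynomial (Fin 3) R) ^ k) =
      C r ^ d * n.prod fun i k => (X i : MvPolynomial (Fin 3) R) ^ k := by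
    have h2 : n.degree = d := by
      have := hu (mem_support_iff.1 hn)
      rw [Finsupp.degree_eq_weight_one, ← Pi.one_def]
      exact this
    simp only [mul_pow]
    rw [Finsupp.prod_mul]
    congr 1
    rw [← h2, Finsupp.degree_apply, Finsupp.prod, Finset.prod_pow_eq_pow_sum]
  rw [h1, monomial_eq]
  ring

lemma th0_sub {u : PP K} {d : ℕ} (hu : u.IsHomogeneous d) :
    ∃ t, C (X 0) ^ d * u = th0 u + Lam K * t := by
  have h1 : (Ideal.Quotient.mkₐ (MvPolynomial (Fin 3) K) (Ideal.span {Lam K})).comp th0 =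
      (Ideal.Quotient.mkₐ (MvPolynomial (Fin 3) K) (Ideal.span {Lam K})).comp
        (aeval fun k => C (X 0) * X k) := by
    apply algHom_ext
    intro k
    simp only [AlgHom.comp_apply, aeval_X]
    unfold th0
    rw [aeval_X, Ideal.Quotient.mkₐ_eq_mk, Ideal.Quotient.eq, Ideal.mem_span_singleton, Lam_eq]
    fin_cases k
    · exact ⟨-1, by simp; ring⟩
    · exact ⟨0, by simp⟩
    · exact ⟨0, by simp⟩
  have h2 := AlgHom.congr_fun h1 u
  simp only [AlgHom.comp_apply] at h2
  rw [scale_hom hu, Ideal.Quotient.mkₐ_eq_mk, Ideal.Quotient.eq, Ideal.mem_span_singleton] at h2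
  obtain ⟨t, ht⟩ := h2
  exact ⟨-t, by linear_combination -ht⟩

/-- Primality of the generic linear form modulo a prime form. -/
theorem ZZ_prime [CharZero K] {f : MvPolynomial (Fin 3) K} (hf : Prime f)
    (hf0 : IsRelPrime f (X 0)) {u v : PP K} {d e : ℕ} (hu : u.IsHomogeneous d)
    (hv : v.IsHomogeneous e) (h : ZZ f (u * v)) : ZZ f u ∨ ZZ f v := by
  obtain ⟨a, b, h⟩ := h
  have h1 := congrArg th0 h
  rw [map_mul, map_add, map_mul, map_mul, th0_Lam, th0_C, zero_mul, zero_add] at h1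
  have h2 : C f ∣ th0 u ∨ C f ∣ th0 v := ((prime_C_iff _).2 hf).dvd_or_dvd ⟨_, h1⟩
  have key : ∀ (w : PP K) (δ : ℕ), w.IsHomogeneous δ → C f ∣ th0 w → ZZ f w := by
    rintro w δ hw ⟨c, hc⟩
    obtain ⟨t, ht⟩ := th0_sub hw
    have h3 : IsRelPrime f (X 0 ^ δ) := hf0.pow_right
    apply ZZ_cancel h3 (pow_ne_zero _ (X_ne_zero _))
    exact ⟨t, c, by rw [C_pow, ht, hc]; ring⟩
  rcases h2 with h2 | h2
  · exact Or.inl (key u d hu h2)
  · exact Or.inr (key v e hv h2)

end Pool.Agent.H11.SLP
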