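import Pool.Agent.H11.SLP.Cross

/-!
The relations of first and second order.
-/

set_option autoImplicit false

open MvPolynomial

namespace Pool.Agent.H11.SLP

open Pool.Agent.H4.Apolar Pool.Agent.H4.Descent

variable {K : Type*} [Field K]
variable {f g h : MvPolynomial (Fin 3) K} {b' c' i n ω : ℕ} {w α β : PP K}

lemma io_X (k : Fin 3) : io (X k : MvPolynomial (Fin 3) K) = X k := by
  unfold io
  rw [map_X]

lemma io_C (a : K) : io (C a : MvPolynomial (Fin 3) K) = C (C a) := by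
  unfold io
  rw [map_C]

/-- The relation between the cross product and `κ, ν`. -/
def KN (f : MvPolynomial (Fin 3) K) (n : ℕ) (α β : PP K) (κ : MvPolynomial (Fin 3) K)
    (ν : Fin 3 → MvPolynomial (Fin 3) K) : Prop :=
  ∀ k, ∃ r, cr α β k = Lam K ^ n * (C (X k) * io κ + io (ν k) * Lam K) + C f * r

lemma KN.swap {κ : MvPolynomial (Fin 3) K} {ν : Fin 3 → MvPolynomial (Fin 3) K}
    (H : KN f n α β κ ν) : KN f n β α (-κ) (fun k => -ν k) := by
  intro k
  obtain ⟨r, hr⟩ := H k
  refine ⟨-r, ?_⟩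
  have : cr β α k = - cr α β k := by unfold cr; ring
  rw [this, hr, map_neg, map_neg]
  ring

lemma isHomogeneous_of_X_mul {p : MvPolynomial (Fin 3) K} {k : Fin 3} {d : ℕ}
    (h : (X k * p).IsHomogeneous (d + 1)) : p.IsHomogeneous d := by
  intro m hm
  have h1 : coeff (Finsupp.single k 1 + m) (X k * p) ≠ 0 := by
    rwa [coeff_X_mul]
  have h2 := h h1
  rw [map_add, Finsupp.weight_single] at h2
  simp only [Pi.one_apply, smul_eq_mul, mul_one] at h2
  omega

theorem Dat.exists_KN [CharZero K] (H : Dat f g h b' c' i n ω w α β) (hfg : IsRelPrime f g)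
    (hg : g ≠ 0) : ∃ (κ : MvPolynomial (Fin 3) K) (ν : Fin 3 → MvPolynomial (Fin 3) K),
      KN f n α β κ ν ∧ κ.IsHomogeneous (2 * ω + n + 1) ∧ ∀ k, (ν k).IsHomogeneous (2 * ω + n) := by
  choose κ' h1 h2 h3 h4 using H.exists_kap hfg hg
  have h5 : ∀ j k, ∃ μ, XH 1 μ ∧ C (X j) * κ' k - C (X k) * κ' j = Lam K * μ := by
    intro j k
    have h6 : ZZ f (C g * (C (X j) * κ' k - C (X k) * κ' j)) := by
      obtain ⟨r, hr⟩ := h4 k
      obtain ⟨r', hr'⟩ := h4 j
      refine ⟨C (X j) * (β * pderiv k w - w * pderiv k β) -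
        C (X k) * (β * pderiv j w - w * pderiv j β), C (X j) * r - C (X k) * r', ?_⟩
      linear_combination C (X j) * hr - C (X k) * hr'
    obtain ⟨a, b, hab⟩ := ZZ_cancel hfg hg h6
    have h7 := congrArg (cm 2 (2 * ω + n + 1)) hab
    rw [cm_self, cm_add, cm_mul_zero (XH_C H.hf) _ _ (by norm_num), add_zero] at h7
    · obtain ⟨v, hv, hv1, -⟩ := cm_Lam_mul a 2 (2 * ω + n + 1)
      exact ⟨v, hv1, by rw [h7, hv]⟩
    · exact ((XH_C (isHomogeneous_X K j)).mul (h1 k)).sub ((XH_C (isHomogeneous_X K k)).mul (h1 j))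
    · have e1 := (isHomogeneous_C (Fin 3) (X j : MvPolynomial (Fin 3) K)).mul (h2 k)
      have e2 := (isHomogeneous_C (Fin 3) (X k : MvPolynomial (Fin 3) K)).mul (h2 j)
      rw [zero_add] at e1 e2
      exact e1.sub e2
  obtain ⟨κ, ν, hκν⟩ := exists_kn h1 h5
  have hev : ∀ k l : Fin 3, evx (Pi.single l 1) (κ' k) =
      C ((Pi.single l 1 : Fin 3 → K) k) * κ + ν k * X l := by
    intro k l
    rw [hκν k, map_add, map_mul, map_mul, evx_C, evx_io, evx_io, evx_Lam, eval_X]
    congr 2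
    unfold lin
    rw [Finset.sum_eq_single l]
    · simp
    · intro j _ hj
      simp [hj]
    · intro hl; exact absurd (Finset.mem_univ l) hl
  have hν : ∀ k, (ν k).IsHomogeneous (2 * ω + n) := by
    intro k
    obtain ⟨l, hl⟩ : ∃ l : Fin 3, l ≠ k := exists_ne k
    have h8 := evx_isHomogeneous (Pi.single l 1) (h2 k)
    rw [hev k l, Pi.single_eq_of_ne hl.symm, C_0, zero_mul, zero_add, mul_comm] at h8
    exact isHomogeneous_of_X_mul h8
  refine ⟨κ, ν, fun k => ?_, ?_, hν⟩
  · obtain ⟨r, hr⟩ := h3 k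
    exact ⟨r, by rw [hr, hκν k]⟩
  · have h8 := evx_isHomogeneous (Pi.single 0 1) (h2 0)
    rw [hev 0 0, Pi.single_eq_same, C_1, one_mul] at h8
    have h9 := (hν 0).mul (isHomogeneous_X K 0)
    have h10 := h8.sub h9
    rwa [add_sub_cancel_right] at h10

lemma Dat.euler [CharZero K] (H : Dat f g h b' c' i n ω w α β) {κ : MvPolynomial (Fin 3) K}
    {ν : Fin 3 → MvPolynomial (Fin 3) K} (hkn : KN f n α β κ ν) :
    ∑ k, X k * ν k = -κ := by
  choose r hr using hkn
  have h1 : ∑ k, X k * cr α β k = 0 := by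
    have e1 := H.hα'.sum_X_mul_pderiv
    have e2 := H.hβ'.sum_X_mul_pderiv
    rw [Fin.sum_univ_three] at e1 e2 ⊢
    unfold cr
    simp only [nsmul_eq_mul] at e1 e2
    linear_combination β * e1 - α * e2
  have h2 : Lam K ^ (n + 1) * (io κ + io (∑ k, X k * ν k)) = C f * (-∑ k, X k * r k) := by
    rw [Fin.sum_univ_three] at h1 ⊢
    rw [hr 0, hr 1, hr 2] at h1
    rw [Fin.sum_univ_three]
    simp only [map_add, map_mul, io_X]
    have e := Lam_eq (K := K)
    linear_combination h1 + Lam K ^ n * io κ * e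
  obtain ⟨v', hv'⟩ := Lam_cancel _ h2
  have h3 : io κ + io (∑ k, X k * ν k) = 0 := by
    have h4 := congrArg (hx 0) hv'
    rw [hx_of_XH ((XH_io κ).add (XH_io _)), hx_mul (XH_C H.hf), if_neg (by norm_num)] at h4
    exact h4
  rw [← map_add] at h3
  have h5 : io (κ + ∑ k, X k * ν k) = io 0 := by rw [h3, map_zero]
  have h6 := io_injective h5
  linear_combination h6

lemma Dat.Y_eq [CharZero K] (H : Dat f g h b' c' i n ω w α β) {κ : MvPolynomial (Fin 3) K}
    {ν : Fin 3 → MvPolynomial (Fin 3) K} (hkn : KN f n α β κ ν) (k : Fin 3) :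
    ∃ r, C g * (C (X k) * io κ + io (ν k) * Lam K) = (((n : PP K) + 1) * C (X k) * w * β +
        Lam K * (β * pderiv k w - w * pderiv k β)) + C f * r := by
  obtain ⟨r, hr⟩ := H.cross k
  obtain ⟨r', hr'⟩ := hkn k
  obtain ⟨v', hv'⟩ := Lam_cancel (f := f) (u := C g * (C (X k) * io κ + io (ν k) * Lam K) -
    (((n : PP K) + 1) * C (X k) * w * β + Lam K * (β * pderiv k w - w * pderiv k β)))
    (v := r - C g * r') n (by rw [hr'] at hr; linear_combination hr)
  exact ⟨v', by linear_combination hv'⟩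

/-- Relations of the first order. -/
structure Rel (f g : MvPolynomial (Fin 3) K) (n : ℕ) (w β : PP K) (κ : MvPolynomial (Fin 3) K)
    (ν : Fin 3 → MvPolynomial (Fin 3) K) (v : PP K) : Prop where
  r1 : ∃ r, ((n : PP K) + 1) * w * β = C g * io κ + Lam K * v + C f * r
  r2 : ∀ k, ∃ r, C (X k) * v = C g * io (ν k) - (β * pderiv k w - w * pderiv k β) + C f * r

theorem Dat.exists_rel [CharZero K] (H : Dat f g h b' c' i n ω w α β) (hfg : IsRelPrime f g)
    (hg : g ≠ 0) (hb : 1 ≤ b' + i) {κ : MvPolynomial (Fin 3) K}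
    {ν : Fin 3 → MvPolynomial (Fin 3) K} (hkn : KN f n α β κ ν) : ∃ v, Rel f g n w β κ ν v := by
  set U : PP K := ((n : PP K) + 1) * w * β - C g * io κ with hU
  choose r hr using H.Y_eq hkn
  have h1 : ∀ k, C (X k) * U = Lam K * (C g * io (ν k) - (β * pderiv k w - w * pderiv k β)) +
      C f * (-r k) := by
    intro k
    linear_combination -hr k
  have h2 : ZZ f (C g * U) := by
    have h3 : ZZ f (∑ k, C (pderiv k g) * (C (X k) * U)) := by
      rw [Fin.sum_univ_three]
      exact ((ZZ.mul ⟨_, _, h1 0⟩ _).add (ZZ.mul ⟨_, _, h1 1⟩ _)).add (ZZ.mul ⟨_, _, h1 2⟩ _)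
    have h4 := H.hg.sum_X_mul_pderiv
    have h5 : ((b' + i : ℕ) : K) ≠ 0 := Nat.cast_ne_zero.2 (by omega)
    have h6 : C g * U = C (C ((b' + i : ℕ) : K)⁻¹) * ∑ k, C (pderiv k g) * (C (X k) * U) := by
      have h7 : ∑ k, C (pderiv k g) * (C (X k) * U) = C (C ((b' + i : ℕ) : K)) * (C g * U) := by
        have h8 := congrArg (C : MvPolynomial (Fin 3) K → PP K) h4
        rw [nsmul_eq_mul, map_mul, map_sum] at h8
        rw [Fin.sum_univ_three] at h8 ⊢
        simp only [map_mul, map_natCast] at h8 ⊢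
        linear_combination U * h8
      rw [h7, ← mul_assoc, ← C_mul, ← C_mul, inv_mul_cancel₀ h5, C_1, C_1, one_mul]
    rw [h6]
    exact h3.mul _
  obtain ⟨v, s, hvs⟩ := ZZ_cancel hfg hg h2
  refine ⟨v, ⟨s, by linear_combination hvs⟩, fun k => ?_⟩
  obtain ⟨v', hv'⟩ := Lam_cancel (f := f)
    (u := C (X k) * v - (C g * io (ν k) - (β * pderiv k w - w * pderiv k β)))
    (v := -r k - C (X k) * s) 1 (by
      rw [pow_one]
      linear_combination h1 k - C (X k) * hvs)
  exact ⟨v', by linear_combination hv'⟩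

/-- The derivation `x_j ∂_k - x_k ∂_j`. -/
noncomputable def Djk (j k : Fin 3) (u : PP K) : PP K := C (X j) * pderiv k u - C (X k) * pderiv j u

lemma Djk_mul (j k : Fin 3) (u v : PP K) : Djk j k (u * v) = u * Djk j k v + v * Djk j k u := by
  unfold Djk
  simp only [Derivation.leibniz, smul_eq_mul]
  ring

lemma Djk_add (j k : Fin 3) (u v : PP K) : Djk j k (u + v) = Djk j k u + Djk j k v := by
  unfold Djk
  simp only [map_add]
  ring

lemma Djk_Lam (j k : Fin 3) : Djk j k (Lam K) = 0 := by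
  unfold Djk
  rw [pderiv_Lam, pderiv_Lam]
  ring

lemma Djk_C (j k : Fin 3) (r : MvPolynomial (Fin 3) K) : Djk j k (C r : PP K) = 0 := by
  unfold Djk
  rw [pderiv_C, pderiv_C]
  ring

lemma Djk_nat (j k : Fin 3) (n : ℕ) : Djk j k ((n : PP K) + 1) = 0 := by
  have : (n : PP K) + 1 = C ((n : MvPolynomial (Fin 3) K) + 1) := by simp
  rw [this, Djk_C]

/-- The cross product of `x` with the vector `∇κ + m ν`. -/
noncomputable def N1 (n : ℕ) (κ : MvPolynomial (Fin 3) K) (ν : Fin 3 → MvPolynomial (Fin 3) K)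
    (j : Fin 3) : MvPolynomial (Fin 3) K := pderiv j κ + ((n : MvPolynomial (Fin 3) K) + 1) * ν j

/-- The cross product of `x` with the vector `m ν - ∇κ`. -/
noncomputable def N2 (n : ℕ) (κ : MvPolynomial (Fin 3) K) (ν : Fin 3 → MvPolynomial (Fin 3) K)
    (j : Fin 3) : MvPolynomial (Fin 3) K := ((n : MvPolynomial (Fin 3) K) + 1) * ν j - pderiv j κ

/-- The cross product with `x`. -/
noncomputable def xc (N : Fin 3 → MvPolynomial (Fin 3) K) (j k : Fin 3) : PP K :=
  C (X j) * io (N k) - C (X k) * io (N j)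

theorem Rel.second {κ : MvPolynomial (Fin 3) K} {ν : Fin 3 → MvPolynomial (Fin 3) K} {v : PP K}
    (H : Rel f g n w β κ ν v) (j k j' k' : Fin 3) :
    ZZ f (C g * (4 * ((n : PP K) + 1) * io κ * Djk j k w * Djk j' k' β +
      C g * xc (N1 n κ ν) j k * xc (N2 n κ ν) j' k')) := by
  obtain ⟨r, hr⟩ := H.r1
  have hD : ∀ j k, ((n : PP K) + 1) * (w * Djk j k β + β * Djk j k w) =
      C g * Djk j k (io κ) + Lam K * Djk j k v + C f * Djk j k r := by
    intro j k
    have h1 := congrArg (Djk j k) hr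
    have h2 := Djk_nat (K := K) j k n
    rw [Djk_add] at h2
    simp only [Djk_add, Djk_mul, Djk_Lam, Djk_C, mul_zero, add_zero] at h1
    linear_combination h1 - w * β * h2
  have hE : ∀ j k, ∃ s, β * Djk j k w - w * Djk j k β =
      C g * (C (X j) * io (ν k) - C (X k) * io (ν j)) + C f * s := by
    intro j k
    obtain ⟨s, hs⟩ := H.r2 k
    obtain ⟨s', hs'⟩ := H.r2 j
    refine ⟨C (X j) * s - C (X k) * s', ?_⟩
    unfold Djk
    linear_combination C (X j) * hs - C (X k) * hs'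
  obtain ⟨s, hs⟩ := hE j k
  obtain ⟨s', hs'⟩ := hE j' k'
  have e1 : 2 * ((n : PP K) + 1) * β * Djk j k w = C g * xc (N1 n κ ν) j k +
      Lam K * Djk j k v + C f * (Djk j k r + ((n : PP K) + 1) * s) := by
    have h1 := hD j k
    unfold xc N1
    simp only [map_add, map_mul, map_one, map_natCast]
    have h2 : Djk j k (io κ) = C (X j) * io (pderiv k κ) - C (X k) * io (pderiv j κ) := by
      unfold Djk
      rw [io_pderiv, io_pderiv]
    rw [h2] at h1
    linear_combination h1 + ((n : PP K) + 1) * hs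
  have e2 : 2 * ((n : PP K) + 1) * w * Djk j' k' β = -(C g * xc (N2 n κ ν) j' k') +
      Lam K * Djk j' k' v + C f * (Djk j' k' r - ((n : PP K) + 1) * s') := by
    have h1 := hD j' k'
    unfold xc N2
    simp only [map_sub, map_mul, map_one, map_natCast, map_add]
    have h2 : Djk j' k' (io κ) = C (X j') * io (pderiv k' κ) - C (X k') * io (pderiv j' κ) := by
      unfold Djk
      rw [io_pderiv, io_pderiv]
    rw [h2] at h1
    linear_combination h1 - ((n : PP K) + 1) * hs'
  set A := 2 * ((n : PP K) + 1) * β * Djk j k w with hA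
  set B := 2 * ((n : PP K) + 1) * w * Djk j' k' β with hB
  set N := xc (N1 n κ ν) j k with hN
  set N' := xc (N2 n κ ν) j' k' with hN'
  have h3 : C g * (4 * ((n : PP K) + 1) * io κ * Djk j k w * Djk j' k' β + C g * N * N') =
      4 * ((n : PP K) + 1) * Djk j k w * Djk j' k' β * (C g * io κ) + (C g * N) * (C g * N') := by
    ring
  have h4 : A * B = 4 * ((n : PP K) + 1) * Djk j k w * Djk j' k' β *
      (((n : PP K) + 1) * w * β) := by
    rw [hA, hB]; ring
  refine ⟨-(4 * ((n : PP K) + 1) * Djk j k w * Djk j' k' β * v) + A * Djk j' k' v -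
      (C g * N') * Djk j k v, -(4 * ((n : PP K) + 1) * Djk j k w * Djk j' k' β * r) +
      A * (Djk j' k' r - ((n : PP K) + 1) * s') -
      (C g * N') * (Djk j k r + ((n : PP K) + 1) * s), ?_⟩
  rw [h3]
  linear_combination (-(4 * ((n : PP K) + 1) * Djk j k w * Djk j' k' β)) * hr - h4 +
    A * e2 - (C g * N') * e1

end Pool.Agent.H11.SLP
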