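import Pool.Agent.H11.SLP.Dv
import Pool.Agent.H11.SLP.NotLin
import Pool.Agent.H11.SLP.Orders
import Pool.Agent.H11.SLP.LinePrime
import Pool.Agent.H11.SLP.LineGlue

/-!
The multiplicity of a prime in `κ` for a reducible cubic.
-/

set_option autoImplicit false

open MvPolynomial

namespace Pool.Agent.H11.SLP

open Pool.Agent.H4.Apolar Pool.Agent.H4.Descent Pool.Agent.H4.Ternary

variable {K : Type*} [Field K]
variable {f g h : MvPolynomial (Fin 3) K} {b' c' i n ω : ℕ} {w α β : PP K}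

lemma evx_cr (x : Fin 3 → K) (α β : PP K) (k : Fin 3) :
    evx x (cr α β k) = evx x β * pderiv k (evx x α) - evx x α * pderiv k (evx x β) := by
  unfold cr
  rw [map_sub, map_mul, map_mul, evx_pderiv, evx_pderiv]

lemma KN.evx {κ : MvPolynomial (Fin 3) K} {ν : Fin 3 → MvPolynomial (Fin 3) K}
    (hkn : KN f n α β κ ν) {x : Fin 3 → K} (hx : eval x f = 0) (k : Fin 3) :
    evx x (cr α β k) = lin x ^ n * (C (x k) * κ + ν k * lin x) := by
  obtain ⟨r, hr⟩ := hkn k
  rw [hr]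
  simp only [map_add, map_mul, map_pow, evx_C, evx_io, evx_Lam, hx, C_0, zero_mul, add_zero,
    eval_X]

lemma cross_pow_mul {π a b : MvPolynomial (Fin 3) K} (t : ℕ) (k : Fin 3) :
    (π ^ t * b) * pderiv k (π ^ t * a) - (π ^ t * a) * pderiv k (π ^ t * b) =
      π ^ (2 * t) * (b * pderiv k a - a * pderiv k b) := by
  rw [Derivation.leibniz, Derivation.leibniz, smul_eq_mul, smul_eq_mul, smul_eq_mul, smul_eq_mul,
    two_mul, pow_add]
  ring

lemma evx_cr_pow {φ π : MvPolynomial (Fin 3) K} {x : Fin 3 → K} (hx : eval x φ = 0) {t : ℕ}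
    {α1 β1 r1 r2 : PP K} (hα : α = io (π ^ t) * α1 + C φ * r1)
    (hβ : β = io (π ^ t) * β1 + C φ * r2) (k : Fin 3) :
    evx x (cr α β k) = π ^ (2 * t) * evx x (cr α1 β1 k) := by
  rw [evx_cr, evx_cr, hα, hβ]
  simp only [map_add, map_mul, evx_C, evx_io, hx, C_0, zero_mul, add_zero]
  rw [← cross_pow_mul]

lemma h4_of_point {π κ : MvPolynomial (Fin 3) K} {ν : Fin 3 → MvPolynomial (Fin 3) K}
    (hπ : Prime π) (hkn : KN f n α β κ ν) {x : Fin 3 → K} (hx : eval x f = 0)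
    (hπl : ¬ π ∣ lin x) {m : ℕ} (hκ : π ^ m ∣ κ)
    (hcr : ∀ j k, π ^ m ∣ evx x (cr α β j) * pderiv k π - evx x (cr α β k) * pderiv j π)
    (j k : Fin 3) : π ^ m ∣ ν j * pderiv k π - ν k * pderiv j π := by
  have h1 := hcr j k
  rw [hkn.evx hx, hkn.evx hx] at h1
  obtain ⟨κ₁, hκ₁⟩ := hκ
  have h2 : π ^ m ∣ lin x ^ n * (lin x * (ν j * pderiv k π - ν k * pderiv j π)) := by
    obtain ⟨r, hr⟩ := h1
    refine ⟨r - lin x ^ n * κ₁ * (C (x j) * pderiv k π - C (x k) * pderiv j π), ?_⟩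
    linear_combination hr - lin x ^ n * (C (x j) * pderiv k π - C (x k) * pderiv j π) * hκ₁
  have h3 := hπ.pow_dvd_of_dvd_mul_left m (fun h => hπl (hπ.dvd_of_dvd_pow h)) h2
  exact hπ.pow_dvd_of_dvd_mul_left m hπl h3

/-- A general point of a prime form. -/
lemma exists_point [IsAlgClosed K] {φ π F : MvPolynomial (Fin 3) K} {e : ℕ} (hφ : Prime φ)
    (hφh : φ.IsHomogeneous e) (he : 1 ≤ e) (hπ : Prime π) (hF : ¬ φ ∣ F) :
    ∃ x : Fin 3 → K, eval x φ = 0 ∧ eval x F ≠ 0 ∧ (x ≠ 0 → ¬ π ∣ lin x) := by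
  obtain ⟨F', hF', h1⟩ := exists_not_lin_dvd hφ hφh he hπ.ne_zero
  obtain ⟨x, hx, hx'⟩ : ∃ x : Fin 3 → K, eval x φ = 0 ∧ eval x (F * F') ≠ 0 := by
    by_contra hcon
    push Not at hcon
    rcases hφ.dvd_or_dvd (dvd_of_vanish hφ hcon) with h2 | h2
    · exact hF h2
    · exact hF' h2
  rw [map_mul, mul_ne_zero_iff] at hx'
  refine ⟨x, hx, hx'.1, fun hx0 hd => h1 x hx'.2 ?_⟩
  obtain ⟨c, hc⟩ := hd
  have h2 := (prime_lin hx0).irreducible.isUnit_or_isUnit hc
  rcases h2 with h2 | h2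
  · exact absurd h2 hπ.not_isUnit
  · obtain ⟨u, hu⟩ := h2
    refine ⟨((u⁻¹ : (MvPolynomial (Fin 3) K)ˣ) : MvPolynomial (Fin 3) K), ?_⟩
    rw [hc, ← hu, mul_assoc, ← Units.val_mul, mul_inv_cancel, Units.val_one, mul_one]

lemma evx_zero_of_XH {d : ℕ} (hd : 1 ≤ d) {u : PP K} (hu : XH d u) : evx 0 u = 0 := by
  ext m
  rw [coeff_evx, coeff_zero]
  exact Pool.Agent.H22.SLP.eval_zero_of_isHomogeneous (hu m) hd

section

variable [CharZero K] [IsAlgClosed K]

/-- The case of different orders. -/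
lemma h4_G1 {φ π κ : MvPolynomial (Fin 3) K} {ν : Fin 3 → MvPolynomial (Fin 3) K} {e : ℕ}
    (H : Dat f g h b' c' i n ω w α β) (hkn : KN f n α β κ ν) (hi : 1 ≤ i)
    (hgr : IsRelPrime f g) (hhr : IsRelPrime f h) (hg0 : g ≠ 0) (hh0 : h ≠ 0)
    (hJ : ∃ J, ∀ p ∈ RT 3 K (J + 1), p ∈ Ideal.span (Set.range ![f, g, h]))
    (hφ : Prime φ) (hφh : φ.IsHomogeneous e) (he : 1 ≤ e) (hφf : φ ∣ f) (hπ : Prime π)
    {s t : ℕ} (hst : t ≠ s) {w1 r' : PP K} (hw1 : XH i w1) (hw : w = io (π ^ t) * w1 + C φ * r')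
    (hw1' : ¬ Dv φ π w1) (hκ : π ^ (2 * s + 1) ∣ κ) (hν : ∀ k, π ^ (2 * s) ∣ ν k) (j k : Fin 3) :
    π ^ (2 * s + 1) ∣ ν j * pderiv k π - ν k * pderiv j π := by
  obtain ⟨γ, hγ⟩ := H.eq
  obtain ⟨f', hf'⟩ := hφf
  obtain ⟨α1, β1, r1, r2, r3, hα1, hβ1, e1, e2, e3⟩ := dv_data (N := n + 1) hφ hφh ⟨f', hf'⟩ H.hg
    H.hh hgr hhr hg0 hh0 hJ (c' := c') (b' := b') (by omega) (by omega) hπ H.hα H.hβ t hw
    (r := C f' * γ) (by rw [hγ, hf', C_mul]; ring)
  obtain ⟨F, hF, hFw⟩ := exists_specialize hπ hw1'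
  obtain ⟨x, hx, hFx, hxl⟩ := exists_point hφ hφh he hπ hF
  have hwx := hFw x hFx
  have hx0 : x ≠ 0 := by
    rintro rfl
    apply hwx
    rw [evx_zero_of_XH hi hw1]
    exact dvd_zero _
  have hπl := hxl hx0
  have hfx : eval x f = 0 := by rw [hf', map_mul, hx, zero_mul]
  have hcr := fun k => evx_cr_pow hx e1 e2 k
  apply h4_of_point hπ hkn hfx hπl hκ
  intro j k
  rcases Nat.lt_or_gt_of_ne hst with h1 | h1
  · -- `t < s`
    have hd : ∀ k, π ^ (2 * s - 2 * t) ∣ evx x (cr α1 β1 k) := by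
      intro k
      have h2 : π ^ (2 * s) ∣ evx x (cr α β k) := by
        rw [hkn.evx hfx]
        obtain ⟨κ₁, hκ₁⟩ := hκ
        obtain ⟨ν₁, hν₁⟩ := hν k
        refine ⟨lin x ^ n * (C (x k) * (π * κ₁) + ν₁ * lin x), ?_⟩
        rw [hκ₁, hν₁, pow_succ]
        ring
      rw [hcr k] at h2
      obtain ⟨r, hr⟩ := h2
      refine ⟨r, ?_⟩
      have h3 : π ^ (2 * t) * evx x (cr α1 β1 k) = π ^ (2 * t) * (π ^ (2 * s - 2 * t) * r) := by
        rw [hr, ← mul_assoc, ← pow_add]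
        congr 2
        omega
      exact mul_left_cancel₀ (pow_ne_zero _ hπ.ne_zero) h3
    have hab : ¬ (π ∣ evx x α1 ∧ π ∣ evx x β1) := by
      rintro ⟨⟨a, ha⟩, ⟨b, hb⟩⟩
      have h4 := congrArg (evx x) e3
      simp only [map_add, map_mul, map_pow, evx_C, evx_Lam, hx, C_0, zero_mul, add_zero] at h4
      have h5 : π ∣ lin x ^ (n + 1) * evx x w1 := by
        refine ⟨C (eval x g) * a + C (eval x h) * b, ?_⟩
        rw [h4, ha, hb]
        ring
      rcases hπ.dvd_or_dvd h5 with h6 | h6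
      · exact hπl (hπ.dvd_of_dvd_pow h6)
      · exact hwx h6
    have h6 := point_order hπ hab (r := 2 * s - 2 * t) (by omega)
      (fun k => by rw [← evx_cr]; exact hd k) j k
    rw [← evx_cr, ← evx_cr] at h6
    rw [hcr j, hcr k]
    obtain ⟨r, hr⟩ := h6
    refine ⟨r, ?_⟩
    have h7 : π ^ (2 * s + 1) = π ^ (2 * t) * π ^ (2 * s - 2 * t + 1) := by
      rw [← pow_add]
      congr 1
      omega
    rw [h7]
    linear_combination π ^ (2 * t) * hr
  · -- `s < t`
    rw [hcr j, hcr k]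
    have h7 : π ^ (2 * t) = π ^ (2 * s + 1) * π ^ (2 * t - (2 * s + 1)) := by
      rw [← pow_add]
      congr 1
      omega
    rw [h7]
    refine ⟨π ^ (2 * t - (2 * s + 1)) * (evx x (cr α1 β1 j) * pderiv k π -
      evx x (cr α1 β1 k) * pderiv j π), ?_⟩
    ring

end

/-- The derivative of the coefficients at a point. -/
noncomputable def thx (x : Fin 3 → K) (v : Fin 3) : MvPolynomial (Fin 3) K →ₗ[K] K :=
  (aeval x).toLinearMap ∘ₗ (pderiv v).toLinearMap

lemma thx_apply (x : Fin 3 → K) (v : Fin 3) (r : MvPolynomial (Fin 3) K) :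
    thx x v r = eval x (pderiv v r) := by
  unfold thx
  rw [LinearMap.comp_apply]
  change aeval x (pderiv v r) = _
  rw [← coe_aeval_eq_eval]
  rfl

lemma tf_add (θ : MvPolynomial (Fin 3) K →ₗ[K] K) (u v : PP K) :
    tf θ (u + v) = tf θ u + tf θ v := by
  ext m
  rw [coeff_tf, coeff_add, coeff_add, coeff_tf, coeff_tf, map_add]

lemma tf_sub (θ : MvPolynomial (Fin 3) K →ₗ[K] K) (u v : PP K) :
    tf θ (u - v) = tf θ u - tf θ v := by
  ext m
  rw [coeff_tf, coeff_sub, coeff_sub, coeff_tf, coeff_tf, map_sub]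

lemma tf_C (θ : MvPolynomial (Fin 3) K →ₗ[K] K) (r : MvPolynomial (Fin 3) K) :
    tf θ (C r) = C (θ r) := by
  classical
  ext m
  rw [coeff_tf, coeff_C, coeff_C]
  split_ifs
  · rfl
  · rw [map_zero]

lemma tf_pderiv (θ : MvPolynomial (Fin 3) K →ₗ[K] K) (k : Fin 3) (u : PP K) :
    tf θ (pderiv k u) = pderiv k (tf θ u) := by
  ext m
  rw [coeff_tf, coeff_pderiv, coeff_pderiv, coeff_tf]
  have h1 : coeff (m + Finsupp.single k 1) u * ((m k : MvPolynomial (Fin 3) K) + 1) =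
      ((m k : K) + 1) • coeff (m + Finsupp.single k 1) u := by
    rw [smul_eq_C_mul, C_add, C_1, map_natCast]
    ring
  rw [h1, map_smul, smul_eq_mul, mul_comm]

lemma tf_mul (x : Fin 3 → K) (v : Fin 3) (u u' : PP K) :
    tf (thx x v) (u * u') = tf (thx x v) u * evx x u' + evx x u * tf (thx x v) u' := by
  classical
  ext m
  rw [coeff_tf, coeff_mul, coeff_add, coeff_mul, coeff_mul, map_sum, ← Finset.sum_add_distrib]
  apply Finset.sum_congr rfl
  intro p _
  rw [coeff_tf, coeff_tf, coeff_evx, coeff_evx, thx_apply, thx_apply, thx_apply,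
    Derivation.leibniz, smul_eq_mul, smul_eq_mul, map_add, map_mul, map_mul]
  ring

section

variable [CharZero K] [IsAlgClosed K]

/-- The computation at a dual number point. -/
lemma dual_point {π a b a1 b1 : MvPolynomial (Fin 3) K} (hπ : Prime π) {s : ℕ} (hs : 1 ≤ s)
    (h : ∀ k, π ^ (2 * s) ∣ b1 * pderiv k (π ^ s * a) + π ^ s * b * pderiv k a1 -
      a1 * pderiv k (π ^ s * b) - π ^ s * a * pderiv k b1)
    (hne : ¬ (π ∣ a1 ∧ π ∣ b1)) (j k : Fin 3) :
    π ∣ (b * pderiv j a - a * pderiv j b) * pderiv k π -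
      (b * pderiv k a - a * pderiv k b) * pderiv j π := by
  obtain ⟨s, rfl⟩ : ∃ m, s = m + 1 := ⟨s - 1, by omega⟩
  have hs0 : ((s : K) + 1) ≠ 0 := by exact_mod_cast Nat.succ_ne_zero s
  have e : ∀ k, b1 * pderiv k (π ^ (s + 1) * a) + π ^ (s + 1) * b * pderiv k a1 -
      a1 * pderiv k (π ^ (s + 1) * b) - π ^ (s + 1) * a * pderiv k b1 =
      π ^ s * (((s : MvPolynomial (Fin 3) K) + 1) * (a * b1 - b * a1) * pderiv k π +
        π * (b1 * pderiv k a - a1 * pderiv k b + b * pderiv k a1 - a * pderiv k b1)) := by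
    intro k
    have e1 : ∀ p : MvPolynomial (Fin 3) K, pderiv k (π ^ (s + 1) * p) =
        π ^ (s + 1) * pderiv k p + ((s : MvPolynomial (Fin 3) K) + 1) * π ^ s * pderiv k π * p := by
      intro p
      rw [pderiv_mul, pderiv_pow]
      simp only [Nat.add_sub_cancel, Nat.cast_add, Nat.cast_one]
      ring
    rw [e1, e1, pow_succ]
    ring
  have h1 : ∀ k, π ^ (s + 2) ∣ ((s : MvPolynomial (Fin 3) K) + 1) * (a * b1 - b * a1) *
      pderiv k π + π * (b1 * pderiv k a - a1 * pderiv k b + b * pderiv k a1 -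
        a * pderiv k b1) := by
    intro k
    have h2 := h k
    rw [e k] at h2
    obtain ⟨r, hr⟩ := h2
    refine ⟨r, ?_⟩
    apply mul_left_cancel₀ (pow_ne_zero s hπ.ne_zero)
    rw [hr, ← mul_assoc, ← pow_add]
    congr 2
    omega
  obtain ⟨k₀, hk₀⟩ := LemF.exists_not_dvd_pderiv hπ
  have hunit : ∀ p : MvPolynomial (Fin 3) K,
      π ∣ ((s : MvPolynomial (Fin 3) K) + 1) * p → π ∣ p := by
    intro p hp
    have h3 : IsUnit (((s : MvPolynomial (Fin 3) K) + 1)) := by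
      have h4 : ((s : MvPolynomial (Fin 3) K) + 1) = C ((s : K) + 1) := by simp
      rw [h4]
      exact (isUnit_iff_ne_zero.2 hs0).map C
    exact (h3.dvd_mul_left).1 hp
  obtain ⟨δ, hδ⟩ : π ∣ a * b1 - b * a1 := by
    obtain ⟨r, hr⟩ := h1 k₀
    have h3 : π ∣ ((s : MvPolynomial (Fin 3) K) + 1) * ((a * b1 - b * a1) * pderiv k₀ π) := by
      refine ⟨π ^ (s + 1) * r - (b1 * pderiv k₀ a - a1 * pderiv k₀ b + b * pderiv k₀ a1 -
        a * pderiv k₀ b1), ?_⟩
      rw [show s + 2 = (s + 1) + 1 by rfl, pow_succ] at hr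
      linear_combination hr
    exact (hπ.dvd_or_dvd (hunit _ h3)).resolve_right hk₀
  -- the derivative along `π = 0`
  have h4 : π ∣ (b1 * pderiv j a - a1 * pderiv j b + b * pderiv j a1 - a * pderiv j b1) *
      pderiv k π - (b1 * pderiv k a - a1 * pderiv k b + b * pderiv k a1 - a * pderiv k b1) *
        pderiv j π := by
    obtain ⟨r, hr⟩ := h1 j
    obtain ⟨r', hr'⟩ := h1 k
    refine ⟨π ^ s * (r * pderiv k π - r' * pderiv j π), ?_⟩
    apply mul_left_cancel₀ hπ.ne_zero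
    rw [show s + 2 = s + 1 + 1 by rfl, pow_succ, pow_succ] at hr hr'
    linear_combination pderiv k π * hr - pderiv j π * hr'
  have h5 : ∀ k, pderiv k (a * b1 - b * a1) = π * pderiv k δ + δ * pderiv k π := by
    intro k
    rw [hδ, Derivation.leibniz, smul_eq_mul, smul_eq_mul]
  have h6 : ∀ k, pderiv k (a * b1 - b * a1) = a * pderiv k b1 + b1 * pderiv k a -
      (b * pderiv k a1 + a1 * pderiv k b) := by
    intro k
    rw [map_sub, Derivation.leibniz, Derivation.leibniz, smul_eq_mul, smul_eq_mul, smul_eq_mul,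
      smul_eq_mul]
  -- `b1 ∂a - a1 ∂b` along `π = 0`
  have h7 : π ∣ (b1 * pderiv j a - a1 * pderiv j b) * pderiv k π -
      (b1 * pderiv k a - a1 * pderiv k b) * pderiv j π := by
    obtain ⟨r, hr⟩ := h4
    have h8 : π ∣ (2 : MvPolynomial (Fin 3) K) * ((b1 * pderiv j a - a1 * pderiv j b) *
        pderiv k π - (b1 * pderiv k a - a1 * pderiv k b) * pderiv j π) := by
      refine ⟨r + pderiv j δ * pderiv k π - pderiv k δ * pderiv j π, ?_⟩
      have e1 := h5 j
      have e2 := h5 k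
      rw [h6] at e1 e2
      linear_combination hr + pderiv k π * e1 - pderiv j π * e2
    have h9 : IsUnit (2 : MvPolynomial (Fin 3) K) := by
      have h4 : (2 : MvPolynomial (Fin 3) K) = C (2 : K) := by rw [map_ofNat]
      rw [h4]
      exact (isUnit_iff_ne_zero.2 two_ne_zero).map C
    exact (h9.dvd_mul_left).1 h8
  set A := (b * pderiv j a - a * pderiv j b) * pderiv k π -
      (b * pderiv k a - a * pderiv k b) * pderiv j π with hA
  have h8 : π ∣ a1 * A := by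
    obtain ⟨r, hr⟩ := h7
    refine ⟨a * r - δ * (pderiv j a * pderiv k π - pderiv k a * pderiv j π), ?_⟩
    rw [hA]
    linear_combination a * hr - (pderiv j a * pderiv k π - pderiv k a * pderiv j π) * hδ
  have h9 : π ∣ b1 * A := by
    obtain ⟨r, hr⟩ := h7
    refine ⟨b * r - δ * (pderiv j b * pderiv k π - pderiv k b * pderiv j π), ?_⟩
    rw [hA]
    linear_combination b * hr - (pderiv j b * pderiv k π - pderiv k b * pderiv j π) * hδ
  by_contra hA'
  exact hne ⟨(hπ.dvd_or_dvd h8).resolve_right hA', (hπ.dvd_or_dvd h9).resolve_right hA'⟩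

/-- The case of a double line. -/
lemma h4_G2 {a z π κ : MvPolynomial (Fin 3) K} {ν : Fin 3 → MvPolynomial (Fin 3) K}
    (H : Dat f g h b' c' i n ω w α β) (hkn : KN f n α β κ ν) (hi : 2 ≤ i)
    (hgr : IsRelPrime f g) (hhr : IsRelPrime f h) (hg0 : g ≠ 0) (hh0 : h ≠ 0)
    (hJ : ∃ J, ∀ p ∈ RT 3 K (J + 1), p ∈ Ideal.span (Set.range ![f, g, h]))
    (ha : Prime a) (hah : a.IsHomogeneous 1) (haf : f = a ^ 2 * z) (hπ : Prime π)
    {s : ℕ} (hs : 1 ≤ s) {w1 r' : PP K} (hw1 : XH i w1) (hw : w = io (π ^ s) * w1 + C a * r')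
    (hl : ∃ l z', eval l π = 0 ∧ evl l w = a * z' ∧ ¬ a ∣ z')
    (hκ : π ^ (2 * s + 1) ∣ κ) (hν : ∀ k, π ^ (2 * s) ∣ ν k) (j k : Fin 3) :
    π ^ (2 * s + 1) ∣ ν j * pderiv k π - ν k * pderiv j π := by
  obtain ⟨γ, hγ⟩ := H.eq
  obtain ⟨l, z', hl, hlw, hz'⟩ := hl
  obtain ⟨α1, β1, r1, r2, r3, hα1, hβ1, e1, e2, e3⟩ := dv_data (N := n + 1) ha hah
    ⟨a * z, by rw [haf]; ring⟩ H.hg
    H.hh hgr hhr hg0 hh0 hJ (c' := c') (b' := b') (by omega) (by omega) hπ H.hα H.hβ s hw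
    (r := C (a * z) * γ) (by rw [hγ, haf, C_mul, C_mul, C_pow]; ring)
  obtain ⟨x, hx, hFx, hxl⟩ := exists_point ha hah le_rfl hπ hz'
  -- a direction transversal to the line
  obtain ⟨p, rfl⟩ := eq_lin hah
  obtain ⟨v, hv⟩ : ∃ v, p v ≠ 0 := by
    by_contra hcon
    push Not at hcon
    apply ha.ne_zero
    unfold lin
    simp [hcon]
  have hdl : pderiv v (lin p) = C (p v) := by
    unfold lin
    rw [map_sum, Finset.sum_eq_single v]
    · rw [pderiv_C_mul, pderiv_X_self, mul_one]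
    · intro j _ hj
      rw [pderiv_C_mul, pderiv_X_of_ne hj, mul_zero]
    · intro h; exact absurd (Finset.mem_univ v) h
  set θ := thx x v with hθ
  have hfx : eval x f = 0 := by rw [haf, map_mul, map_pow, hx]; ring
  have hθf : θ f = 0 := by
    rw [hθ, thx_apply, haf, Derivation.leibniz, smul_eq_mul, smul_eq_mul, pderiv_pow]
    simp only [map_add, map_mul, map_pow, hx]
    ring
  have hw1l : ¬ π ∣ tf θ w := by
    rintro ⟨c, hc⟩
    have h1 := congrArg (eval l) hc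
    rw [map_mul, hl, zero_mul, eval_tf, hlw, hθ, thx_apply, Derivation.leibniz, smul_eq_mul,
      smul_eq_mul, hdl, map_add, map_mul, map_mul, hx, zero_mul, zero_add, eval_C] at h1
    rcases mul_eq_zero.1 h1 with h2 | h2
    · exact hFx h2
    · exact hv h2
  have hx0 : x ≠ 0 := by
    rintro rfl
    -- the derivative at the origin vanishes in degree at least two
    apply hw1l
    have h2 : tf θ w = 0 := by
      ext m
      rw [coeff_tf, coeff_zero, hθ, thx_apply]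
      have h3 := (H.hw m).pderiv (i := v)
      exact Pool.Agent.H22.SLP.eval_zero_of_isHomogeneous h3 (by omega)
    rw [h2]
    exact dvd_zero _
  have hπl := hxl hx0
  have hcr := fun k => evx_cr_pow (x := x) hx e1 e2 k
  apply h4_of_point hπ hkn hfx hπl hκ
  intro j k
  have hα : evx x α = π ^ s * evx x α1 := by
    rw [e1]
    simp only [map_add, map_mul, evx_C, evx_io, hx, C_0, zero_mul, add_zero]
  have hβ : evx x β = π ^ s * evx x β1 := by
    rw [e2]
    simp only [map_add, map_mul, evx_C, evx_io, hx, C_0, zero_mul, add_zero]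
  have hd : π ∣ (evx x β1 * pderiv j (evx x α1) - evx x α1 * pderiv j (evx x β1)) * pderiv k π -
      (evx x β1 * pderiv k (evx x α1) - evx x α1 * pderiv k (evx x β1)) * pderiv j π := by
    apply dual_point hπ hs (a1 := tf θ α) (b1 := tf θ β)
    · intro k
      obtain ⟨r, hr⟩ := hkn k
      obtain ⟨κ₁, hκ₁⟩ := hκ
      obtain ⟨ν₁, hν₁⟩ := hν k
      have h1 : cr α β k = io (π ^ (2 * s)) * (Lam K ^ n * (C (X k) * io (π * κ₁) +
          io ν₁ * Lam K)) + C f * r := by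
        rw [hr, hκ₁, hν₁, pow_succ]
        simp only [map_mul]
        ring
      have h2 := congrArg (tf θ) h1
      have h3 : tf θ (C f * r) = 0 := by
        rw [hθ, tf_mul, tf_C, evx_C, ← hθ, hθf, hfx, C_0, zero_mul, zero_mul, add_zero]
      rw [tf_add, tf_io_mul, h3, add_zero] at h2
      unfold cr at h2
      rw [tf_sub, hθ, tf_mul, tf_mul, tf_pderiv, tf_pderiv, evx_pderiv, evx_pderiv, hα, hβ] at h2
      rw [← sub_sub] at h2
      exact ⟨_, h2⟩
    · rintro ⟨⟨c, hc⟩, ⟨c', hc'⟩⟩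
      have h1 := congrArg (tf θ) hγ
      rw [tf_add, tf_add, hθ, tf_mul, tf_mul, tf_mul, tf_mul, tf_C, tf_C, tf_C, evx_C, evx_C,
        evx_C, ← hθ, hθf, hfx, hα, hβ, hc, hc', C_0, zero_mul, zero_mul, add_zero, add_zero,
        map_pow, evx_Lam] at h1
      have h2 : evx x w = π ^ s * evx x w1 := by
        rw [hw]
        simp only [map_add, map_mul, evx_C, evx_io, hx, C_0, zero_mul, add_zero]
      obtain ⟨s', rfl⟩ : ∃ m, s = m + 1 := ⟨s - 1, by omega⟩
      have h3 : π ∣ lin x ^ (n + 1) * tf θ w := by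
        rw [h2] at h1
        refine ⟨C (θ g) * (π ^ s' * evx x α1) + C (eval x g) * c +
          C (θ h) * (π ^ s' * evx x β1) + C (eval x h) * c' -
          tf θ (Lam K ^ (n + 1)) * (π ^ s' * evx x w1), ?_⟩
        linear_combination h1
      rcases hπ.dvd_or_dvd h3 with h4 | h4
      · exact hπl (hπ.dvd_of_dvd_pow h4)
      · exact hw1l h4
  rw [hcr j, hcr k, evx_cr, evx_cr]
  obtain ⟨r, hr⟩ := hd
  refine ⟨r, ?_⟩
  rw [pow_succ]
  linear_combination π ^ (2 * s) * hr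

end

end Pool.Agent.H11.SLP
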